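import Pool.Agent.K9h83.IP.Sem

/-!
# Completeness for generic parameters
-/

set_option autoImplicit false

namespace Pool.Agent.K9h83.IP

open Finset Filter Topology Pool.Agent.R537.RN
open Pool.Agent.NPC Pool.Agent.NPC.ER Pool.Agent.NPC.H612
open Pool.Agent.NPC.R537HD (asg semi)

/-- For the values `c` of the first `n` variables, the fibre has an isolated point. -/
def IsoAt (n D : ℕ) (φ : Fm) (c : Fin n → ℝ) : Prop :=
  ∃ P ∈ semi D φ, (∀ i : Fin n, asg P i = c i) ∧ ∃ ε > 0, ∀ Q ∈ semi D φ, dist Q P < ε →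
    (∀ i : Fin n, asg Q i = asg P i) → Q = P

variable (p : InpE)

/-- The sentence in the normal form. -/
theorem ear_iff_sent : EAR p ↔ Sent2 (locE p) (eS p) := by
  rw [ear_iff_sys]
  have hloc : ∀ (x : Fin (en p) → ℝ) (z : Fin (el p) → ℝ) (i : ℕ),
      pick2 (locE p) x z i =
        if h : i % 2 = 0 ∧ i / 2 ∈ p.1 then x ⟨p.1.idxOf (i / 2), List.idxOf_lt_length_iff.2 h.2⟩
        else z ⟨(eV p).idxOf i, Nat.lt_succ_of_le List.idxOf_le_length⟩ := by
    intro x z i
    unfold pick2 locE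
    by_cases h1 : i % 2 = 0 ∧ i / 2 ∈ p.1
    · rw [dif_pos h1, dif_pos h1]
      rfl
    · rw [dif_neg h1, dif_neg h1]
      rfl
  constructor
  · rintro ⟨x, hx⟩
    refine ⟨fun j => x (p.1.get j), fun z hz => ?_⟩
    refine hx (pick2 (locE p) (fun j => x (p.1.get j)) z) (fun i hi => ?_) hz
    have e : 2 * i / 2 = i := by omega
    rw [hloc, dif_pos ⟨by omega, by rw [e]; exact hi⟩]
    congr 1
    rw [List.get_eq_getElem]
    have := List.getElem_idxOf (List.idxOf_lt_length_iff.2 (show 2 * i / 2 ∈ p.1 by rw [e]; exact hi))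
    rw [this, e]
  · rintro ⟨x', hx'⟩
    refine ⟨fun i => if h : i ∈ p.1 then x' ⟨p.1.idxOf i, List.idxOf_lt_length_iff.2 h⟩ else 0,
      fun v hv hs => ?_⟩
    refine hx' (fun j => v ((eV p).getD j 0)) fun c hc => ?_
    refine (Con.holds_congr fun i hi => ?_).2 (hs c hc)
    have him : i ∈ eV p := List.mem_flatMap.2 ⟨c, hc, hi⟩
    rw [hloc]
    split_ifs with h1
    · have h3 : i = 2 * (i / 2) := by omega
      have h4 := hv (i / 2) h1.2
      rw [← h3] at h4
      exact (h4.trans (dif_pos h1.2)).symm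
    · have h3 : (eV p).getD ((eV p).idxOf i) 0 = i := by
        rw [List.getD_eq_getElem _ _ (List.idxOf_lt_length_iff.2 him)]
        exact List.getElem_idxOf _
      simp only
      rw [h3]

/-- All the variables. -/
noncomputable def bigV (c x : Fin (en p) → ℝ) (vv : ℝ) (blk : ℕ → ℕ → ℝ) (i : ℕ) : ℝ :=
  if h : i < en p then c ⟨i, h⟩
  else if h : i - en p < en p then x ⟨i - en p, h⟩
  else if i = 2 * en p then vv
  else if i < bs p then blk ((i - (2 * en p + 1)) / bm p) ((i - (2 * en p + 1)) % bm p)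
  else (1 / 2) ^ 2 ^ (i - bs p)

theorem bm_pos : 0 < bm p := by unfold bm; omega

theorem bb_lt {j r : ℕ} (hj : j < en p + 2) (hr : r < bm p) : bb p j + r < bs p := by
  unfold bb bs
  have h1 : (j + 1) * bm p ≤ (en p + 2) * bm p := Nat.mul_le_mul_right _ (by omega)
  have h2 : (j + 1) * bm p = j * bm p + bm p := by ring
  omega

theorem bs_lt {j : ℕ} (hj : j ≤ x3 p) : bs p + j < d1 p := by unfold d1; omega

theorem bb_ge (j : ℕ) : 2 * en p + 1 ≤ bb p j := by unfold bb; omega

section bigv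

variable (c x : Fin (en p) → ℝ) (vv : ℝ) (blk : ℕ → ℕ → ℝ)

theorem bigV_c (a : Fin (en p)) : bigV p c x vv blk a = c a := by
  unfold bigV
  rw [dif_pos a.2]

theorem bigV_x (a : Fin (en p)) : bigV p c x vv blk (en p + a) = x a := by
  unfold bigV
  rw [dif_neg (by omega), dif_pos (by have := a.2; omega)]
  congr 1
  refine Fin.ext ?_
  simp

theorem bigV_v : bigV p c x vv blk (2 * en p) = vv := by
  unfold bigV
  rw [dif_neg (by omega), dif_neg (by omega), if_pos rfl]

theorem bigV_b {j r : ℕ} (hj : j < en p + 2) (hr : r < bm p) :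
    bigV p c x vv blk (bb p j + r) = blk j r := by
  have h1 := bb_lt p hj hr
  have h2 := bb_ge p j
  unfold bigV
  rw [dif_neg (by omega), dif_neg (by omega), if_neg (by omega), if_pos h1]
  have h3 : bb p j + r - (2 * en p + 1) = r + bm p * j := by
    have h5 : bm p * j = j * bm p := Nat.mul_comm _ _
    unfold bb
    omega
  rw [h3, Nat.add_mul_div_left _ _ (bm_pos p), Nat.add_mul_mod_self_left, Nat.div_eq_of_lt hr,
    Nat.mod_eq_of_lt hr, zero_add]

theorem bigV_s {j : ℕ} : bigV p c x vv blk (bs p + j) = (1 / 2) ^ 2 ^ j := by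
  have h : 2 * en p + 1 ≤ bs p := by unfold bs; omega
  unfold bigV
  rw [dif_neg (by omega), dif_neg (by omega), if_neg (by omega), if_neg (by omega)]
  congr 2
  omega

end bigv

/-- The cases for the indices. -/
theorem idx_cases {P : ℕ → Prop} (hc : ∀ a < en p, P a) (hx : ∀ a < en p, P (en p + a))
    (hv : P (2 * en p)) (hb : ∀ j < en p + 2, ∀ r < bm p, P (bb p j + r))
    (hs : ∀ j ≤ x3 p, P (bs p + j)) : ∀ i < d1 p, P i := by
  intro i hi
  by_cases h1 : i < en p
  · exact hc i h1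
  by_cases h2 : i < 2 * en p
  · have := hx (i - en p) (by omega)
    rwa [show en p + (i - en p) = i by omega] at this
  by_cases h3 : i = 2 * en p
  · rw [h3]; exact hv
  by_cases h4 : i < bs p
  · have h5 : (i - (2 * en p + 1)) / bm p < en p + 2 := by
      rw [Nat.div_lt_iff_lt_mul (bm_pos p)]
      unfold bs at h4
      omega
    have h6 : (i - (2 * en p + 1)) % bm p < bm p := Nat.mod_lt _ (bm_pos p)
    have h7 := hb _ h5 _ h6
    have h8 : bb p ((i - (2 * en p + 1)) / bm p) + (i - (2 * en p + 1)) % bm p = i := by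
      unfold bb
      have := Nat.div_add_mod (i - (2 * en p + 1)) (bm p)
      rw [mul_comm] at this
      omega
    rwa [h8] at h7
  · have := hs (i - bs p) (by unfold d1 at hi; omega)
    rwa [show bs p + (i - bs p) = i by omega] at this

/-- The data of an active block. -/
theorem of_acB (v : ℕ → ℝ) (β : ℕ) (lam : ℝ) (Y : Fin (el p + 1) → ℝ)
    (h : ∀ r < bm p, v (β + r) = acB p lam Y r) : YY p v β = Y ∧ v β = lam := by
  refine ⟨?_, ?_⟩
  · funext b
    refine Fin.cases ?_ (fun b => ?_) b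
    · simp only [YY, Fin.cons_zero]
      have := h (1 + 0) (by unfold bm; omega)
      rw [acB_T p _ _ 0 (by omega)] at this
      simpa using this
    · simp only [YY, Fin.cons_succ]
      have := h (1 + (ek p + 1) + b) (by have := b.2; unfold bm; omega)
      rw [acB_Z] at this
      rw [← this]
      congr 1
      ring
  · have := h 0 (by unfold bm; omega)
    rwa [acB_zero] at this

theorem asg_cont {D : ℕ} (i : ℕ) : Continuous fun Q : EuclideanSpace ℝ (Fin D) => asg Q i := by
  unfold asg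
  split_ifs with h
  · fun_prop
  · fun_prop

theorem asg_toLp {D : ℕ} (v : ℕ → ℝ) {i : ℕ} (hi : i < D) :
    asg (WithLp.toLp 2 (fun j : Fin D => v j) : EuclideanSpace ℝ (Fin D)) i = v i := by
  unfold asg
  rw [dif_pos hi]

theorem eq_of_asg {D : ℕ} {P Q : EuclideanSpace ℝ (Fin D)} (h : ∀ i < D, asg P i = asg Q i) :
    P = Q := by
  ext j
  have := h j j.2
  unfold asg at this
  rwa [dif_pos j.2, dif_pos j.2] at this

theorem sum_embed {J : Type} [Fintype J] {N : ℕ} (e : J ↪ Fin N) (f : ℕ → ℝ)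
    (hf : ∀ j : Fin N, (¬ ∃ i, e i = j) → f j = 0) : ∑ j ∈ range N, f j = ∑ i, f (e i) := by
  classical
  rw [← Fin.sum_univ_eq_sum_range, ← Finset.sum_map Finset.univ e (fun j : Fin N => f j)]
  refine (Finset.sum_subset (Finset.subset_univ _) fun j _ hj => ?_).symm
  refine hf j ?_
  rintro ⟨i, hi⟩
  apply hj
  rw [Finset.mem_map]
  exact ⟨i, Finset.mem_univ _, hi⟩

/-- **Completeness for generic parameters.** -/
theorem isoAt_generic (h : Sent2 (locE p) (eS p)) (c : Fin (en p) → ℝ) (hc : ∀ a, |c a| ≤ 1)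
    (halg : AlgebraicIndependent ℚ c) : IsoAt (en p) (d1 p) (F1 p) c := by
  classical
  obtain ⟨x, v0, hv0, hmin, hmax⟩ := gp_max (locE p) (eS p) h c hc
  obtain ⟨J, hJ, lam, Y, hbox, hlam, hstat, haff⟩ := exists_stat (locE p) (eS p) (2 ^ ek p)
    (by have := K_ge (el p) (es p); unfold ek; omega) (rτ p) (rζ p) (rδ p) c x v0 hmin hmax
  have hcard : Fintype.card J ≤ Fintype.card (Fin (en p + 1)) := by
    have h1 := haff.card_le_finrank_succ
    have h2 : Module.finrank ℝ (vectorSpan ℝ (Set.range fun j =>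
        gx (locE p) (eS p) (rτ p) x (Y j))) ≤ en p := by
      refine (Submodule.finrank_le _).trans ?_
      simp
    rw [Fintype.card_fin]
    omega
  obtain ⟨e⟩ := Function.Embedding.nonempty_of_card_le hcard
  obtain ⟨s1, s2, s3, s4, s5⟩ := hstat
  have hne : Nonempty J := by
    by_contra hem
    rw [not_nonempty_iff] at hem
    rw [Finset.univ_eq_empty, Finset.sum_empty] at s4
    exact zero_ne_one s4
  obtain ⟨j0⟩ := hne
  -- the blocks
  obtain ⟨blk, hblk1, hblk2, hblk3⟩ : ∃ blk : ℕ → ℕ → ℝ,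
      (∀ i : J, blk (e i) = acB p (lam i) (Y i)) ∧
      (∀ j < en p + 1, (∀ i : J, (e i : ℕ) ≠ j) → blk j = inB p) ∧ blk (en p + 1) = fun _ => 0 := by
    refine ⟨fun j => if j = en p + 1 then fun _ => 0
      else if h : ∃ i : J, (e i : ℕ) = j then acB p (lam h.choose) (Y h.choose) else inB p,
      fun i => ?_, fun j hj hne => ?_, ?_⟩
    · have h1 : (e i : ℕ) ≠ en p + 1 := by have := (e i).2; omega
      have h2 : ∃ i' : J, (e i' : ℕ) = e i := ⟨i, rfl⟩
      simp only
      rw [if_neg h1, dif_pos h2]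
      have h3 : h2.choose = i := e.injective (Fin.ext h2.choose_spec)
      rw [h3]
    · simp only
      rw [if_neg (by omega), dif_neg]
      rintro ⟨i, hi⟩
      exact hne i hi
    · simp
  obtain ⟨vv, hvv⟩ : ∃ vv, vv = val (locE p) (eS p) (2 ^ ek p) (rτ p) (rζ p) x (Y j0) := ⟨_, rfl⟩
  obtain ⟨v, hv⟩ : ∃ v, v = bigV p c x vv blk := ⟨_, rfl⟩
  obtain ⟨P, hP⟩ : ∃ P : EuclideanSpace ℝ (Fin (d1 p)),
    P = WithLp.toLp 2 (fun j : Fin (d1 p) => v j) := ⟨_, rfl⟩
  have hPv : ∀ i < d1 p, asg P i = v i := by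
    intro i hi
    rw [hP, asg_toLp v hi]
  have hd : 2 * en p < bs p := by unfold bs; omega
  have hd' : bs p < d1 p := by unfold d1; omega
  -- the values
  have vc : ∀ a : Fin (en p), asg P a = c a := by
    intro a
    rw [hPv _ (by have := a.2; omega), hv, bigV_c]
  have vx : XX p (asg P) = x := by
    funext a
    unfold XX
    rw [hPv _ (by have := a.2; omega), hv, bigV_x]
  have vb : ∀ j < en p + 2, ∀ r < bm p, asg P (bb p j + r) = blk j r := by
    intro j hj r hr
    rw [hPv _ ((bb_lt p hj hr).trans hd'), hv, bigV_b p _ _ _ _ hj hr]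
  have vs : ∀ j ≤ x3 p, asg P (bs p + j) = (1 / 2) ^ 2 ^ j := by
    intro j hj
    rw [hPv _ (bs_lt p hj), hv, bigV_s]
  have v2 : asg P (2 * en p) = vv := by
    rw [hPv _ (by omega), hv, bigV_v]
  have hYY : ∀ i : J, YY p (asg P) (bb p (e i)) = Y i ∧ asg P (bb p (e i)) = lam i := by
    intro i
    refine of_acB p _ _ _ _ fun r hr => ?_
    rw [vb _ (by have := (e i).2; omega) r hr, hblk1]
  have hin : ∀ j < en p + 1, (∀ i : J, (e i : ℕ) ≠ j) → ∀ r < bm p, asg P (bb p j + r) = inB p r := by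
    intro j hj hne r hr
    rw [vb j (by omega) r hr, hblk2 j hj hne]
  have hin0 : ∀ j < en p + 1, (∀ i : J, (e i : ℕ) ≠ j) → asg P (bb p j) = 0 := by
    intro j hj hne
    have := hin j hj hne 0 (bm_pos p)
    rw [add_zero] at this
    rw [this]; unfold inB; rw [if_pos rfl]
  have hnex : ∀ j : Fin (en p + 1), (¬ ∃ i, e i = j) → ∀ i : J, (e i : ℕ) ≠ (j : ℕ) := by
    intro j hj i hi
    exact hj ⟨i, Fin.ext hi⟩
  have hsem : SemF p (asg P) := by
    refine ⟨fun a ha => ?_, vs, fun j hj => ?_, ?_, fun a => ?_, Or.inl fun r hr => ?_⟩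
    · have := vc ⟨a, ha⟩
      simp only at this
      rw [this]
      exact R537HD.sq_le_one_iff'.2 (hc _)
    · by_cases hex : ∃ i : J, (e i : ℕ) = j
      · obtain ⟨i, rfl⟩ := hex
        obtain ⟨hy, hl⟩ := hYY i
        right
        rw [hy, hl, vx]
        refine ⟨hlam i, hbox i, fun r hr => ?_, s1 i, s2 i, ?_⟩
        · rw [vb _ (by omega) r hr, hblk1]
        · rw [v2, hvv]
          exact s3 i j0
      · left
        exact hin j hj fun i hi => hex ⟨i, hi⟩
    · rw [sum_embed e (fun j => asg P (bb p j)) (fun j hj => hin0 j j.2 (hnex j hj))]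
      simp only [(hYY _).2]
      exact s4
    · rw [sum_embed e (fun j => asg P (bb p j) *
        gx (locE p) (eS p) (rτ p) (XX p (asg P)) (YY p (asg P) (bb p j)) a) (fun j hj => by
          rw [hin0 j j.2 (hnex j hj), zero_mul])]
      simp only [(hYY _).2, (hYY _).1, vx]
      have := s5 a
      have e5 : CC p (asg P) a = c a := vc a
      rw [e5]
      exact this
    · rw [vb _ (by omega) r hr, hblk3]
  refine ⟨P, ?_, vc, ?_⟩
  · change (F1 p).Holds (asg P)
    rw [holds_F1]
    exact hsem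
  -- isolation
  have E1 : ∀ᶠ Q in 𝓝 P, ∀ j : Fin (en p + 1), (∀ i : J, (e i : ℕ) ≠ j) →
      1 < asg Q (bb p j + 1) := by
    rw [Filter.eventually_all]
    intro j
    by_cases hj : ∀ i : J, (e i : ℕ) ≠ j
    · have h1 : 1 < asg P (bb p j + 1) := by
        have := hin j j.2 hj (1 + 0) (by unfold bm; omega)
        rw [inB_T p 0 (by omega)] at this
        simp only [add_zero, pow_zero, pow_one] at this
        rw [this]
        norm_num
      filter_upwards [(asg_cont (bb p j + 1)).continuousAt.eventually_const_lt h1] with Q hQ _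
      exact hQ
    · exact Filter.Eventually.of_forall fun Q h => absurd h hj
  have E2 : ∀ᶠ Q in 𝓝 P, ∀ i : J, 0 < asg Q (bb p (e i)) := by
    rw [Filter.eventually_all]
    intro i
    refine (asg_cont (bb p (e i))).continuousAt.eventually_const_lt ?_
    change 0 < asg P (bb p (e i))
    rw [(hYY i).2]
    exact hlam i
  have hYc : ∀ β, Continuous fun Q : EuclideanSpace ℝ (Fin (d1 p)) => YY p (asg Q) β := by
    intro β
    refine continuous_pi fun b => ?_
    refine Fin.cases ?_ (fun b => ?_) b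
    · simp only [YY, Fin.cons_zero]; exact asg_cont _
    · simp only [YY, Fin.cons_succ]; exact asg_cont _
  have hXc : Continuous fun Q : EuclideanSpace ℝ (Fin (d1 p)) => XX p (asg Q) :=
    continuous_pi fun a => asg_cont _
  have E3 : ∀ᶠ Q in 𝓝 P, Stat (locE p) (eS p) (2 ^ ek p) (rτ p) (rζ p) (rδ p) c (XX p (asg Q))
      (fun i => asg Q (bb p (e i))) (fun i => YY p (asg Q) (bb p (e i))) →
      (XX p (asg Q), (fun i => asg Q (bb p (e i))), (fun i => YY p (asg Q) (bb p (e i)))) =
        (x, lam, Y) := by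
    have h1 := stat_isolated (locE p) (eS p) (2 ^ ek p) (by
      have := K_ge (el p) (es p); unfold ek; omega) (sc (x1 p)) (sc (x3 p)) (sc (x2 p))
      (sc_pos _).ne' (sc_pos _).ne' c halg x lam Y haff
    have h2 : Continuous fun Q : EuclideanSpace ℝ (Fin (d1 p)) =>
        ((XX p (asg Q), (fun i : J => asg Q (bb p (e i))),
          (fun i : J => YY p (asg Q) (bb p (e i)))) :
          (Fin (en p) → ℝ) × (J → ℝ) × (J → Fin (el p + 1) → ℝ)) :=
      hXc.prodMk ((continuous_pi fun i => asg_cont _).prodMk (continuous_pi fun i => hYc _))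
    have h3 := h2.tendsto P
    have h4 : ((XX p (asg P), (fun i : J => asg P (bb p (e i))),
          (fun i : J => YY p (asg P) (bb p (e i)))) :
          (Fin (en p) → ℝ) × (J → ℝ) × (J → Fin (el p + 1) → ℝ)) = (x, lam, Y) := by
      rw [vx]
      refine Prod.ext rfl (Prod.ext ?_ ?_)
      · funext i; exact (hYY i).2
      · funext i; exact (hYY i).1
    rw [h4] at h3
    exact h3.eventually h1
  have E4 : ∀ᶠ Q in 𝓝 P, ∀ Y ∈ box (el p), 0 < gq p c (XX p (asg Q)) Y := by
    have h1 : ∀ᶠ x' in 𝓝 x, ∀ Y ∈ box (el p), 0 < gq p c x' Y := by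
      refine (isCompact_box (el p)).eventually_forall_of_forall_eventually fun Y hY => ?_
      have hcont := continuous_gf (locE p) (eS p) (2 ^ kap (el p) (es p)) (rτ p) (rζ p) (rδ p) c
      exact (hcont.tendsto (x, Y)).eventually_const_lt (lt_of_lt_of_le hv0 (hmin Y hY))
    have h3 := hXc.tendsto P
    rw [vx] at h3
    exact h3.eventually h1
  obtain ⟨ε, hε, hmain⟩ := Metric.eventually_nhds_iff.1 (E1.and (E2.and (E3.and E4)))
  refine ⟨ε, hε, fun Q hQ hdist hcQ => ?_⟩
  obtain ⟨f1, f2, f3, f4⟩ := hmain hdist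
  have hQ' : SemF p (asg Q) := (holds_F1 p _).1 hQ
  obtain ⟨q1, q2, q3, q4, q5, q6⟩ := hQ'
  have hCC : CC p (asg Q) = c := by
    funext a
    have := hcQ a
    rw [vc] at this
    exact this
  have hQin : ∀ j < en p + 1, (∀ i : J, (e i : ℕ) ≠ j) → ∀ r < bm p,
      asg Q (bb p j + r) = inB p r := by
    intro j hj hne
    rcases q3 j hj with h1 | ⟨-, h1, -⟩
    · exact h1
    · exfalso
      have h2 := f1 ⟨j, hj⟩ hne
      have h3 := h1.2.1
      simp only [YY, Fin.cons_zero] at h3
      simp only at h2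
      linarith
  have hQac : ∀ i : J, YY p (asg Q) (bb p (e i)) ∈ box (el p) ∧
      (∀ r < bm p, asg Q (bb p (e i) + r) = acB p (asg Q (bb p (e i)))
        (YY p (asg Q) (bb p (e i))) r) ∧
      eqT (locE p) (eS p) (2 ^ ek p) (rτ p) (XX p (asg Q)) (YY p (asg Q) (bb p (e i))) = 0 ∧
      (∀ b, eqZ (locE p) (eS p) (rτ p) (rζ p) (XX p (asg Q)) (YY p (asg Q) (bb p (e i))) b = 0) ∧
      val (locE p) (eS p) (2 ^ ek p) (rτ p) (rζ p) (XX p (asg Q)) (YY p (asg Q) (bb p (e i))) =
        asg Q (2 * en p) := by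
    intro i
    rcases q3 (e i) (e i).2 with h1 | ⟨-, h1⟩
    · exfalso
      have h2 := h1 0 (bm_pos p)
      rw [add_zero] at h2
      have h3 := f2 i
      rw [h2] at h3
      unfold inB at h3
      rw [if_pos rfl] at h3
      exact lt_irrefl _ h3
    · exact h1
  have hQ0 : ∀ j : Fin (en p + 1), (¬ ∃ i, e i = j) → asg Q (bb p j) = 0 := by
    intro j hj
    have := hQin j j.2 (hnex j hj) 0 (bm_pos p)
    rw [add_zero] at this
    rw [this]; unfold inB; rw [if_pos rfl]
  have hstQ : Stat (locE p) (eS p) (2 ^ ek p) (rτ p) (rζ p) (rδ p) c (XX p (asg Q))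
      (fun i => asg Q (bb p (e i))) (fun i => YY p (asg Q) (bb p (e i))) := by
    refine ⟨fun i => (hQac i).2.2.1, fun i => (hQac i).2.2.2.1, fun i i' => ?_, ?_, fun a => ?_⟩
    · rw [(hQac i).2.2.2.2, (hQac i').2.2.2.2]
    · rw [← sum_embed e (fun j => asg Q (bb p j)) hQ0]
      exact q4
    · have h1 := q5 a
      rw [sum_embed e (fun j => asg Q (bb p j) *
        gx (locE p) (eS p) (rτ p) (XX p (asg Q)) (YY p (asg Q) (bb p j)) a) (fun j hj => by
          rw [hQ0 j hj, zero_mul]), hCC] at h1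
      exact h1
  have hall := f3 hstQ
  have g1 : XX p (asg Q) = x := congrArg Prod.fst hall
  have g2 : ∀ i, asg Q (bb p (e i)) = lam i := fun i =>
    congrFun (congrArg (fun q => q.2.1) hall) i
  have g3 : ∀ i, YY p (asg Q) (bb p (e i)) = Y i := fun i =>
    congrFun (congrArg (fun q => q.2.2) hall) i
  refine eq_of_asg (idx_cases p (fun a ha => ?_) (fun a ha => ?_) ?_ (fun j hj r hr => ?_)
    (fun j hj => ?_))
  · exact hcQ ⟨a, ha⟩
  · have h1 := congrFun g1 ⟨a, ha⟩
    have h2 := congrFun vx ⟨a, ha⟩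
    exact h1.trans h2.symm
  · rw [v2, hvv, ← (hQac j0).2.2.2.2, g1, g3]
  · by_cases hj1 : j = en p + 1
    · subst hj1
      rw [vb _ hj r hr, hblk3]
      rcases q6 with h1 | ⟨h', Y', -, hY', hg, -⟩
      · exact h1 r hr
      · exfalso
        rw [hCC] at hg
        have := f4 Y' hY'
        linarith
    · by_cases hex : ∃ i : J, (e i : ℕ) = j
      · obtain ⟨i, rfl⟩ := hex
        rw [(hQac i).2.1 r hr, g2, g3, vb _ hj r hr, hblk1]
      · have hne : ∀ i : J, (e i : ℕ) ≠ j := fun i hi => hex ⟨i, hi⟩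
        rw [hQin j (by omega) hne r hr, hin j (by omega) hne r hr]
  · rw [q2 j hj, vs j hj]

end Pool.Agent.K9h83.IP
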