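import Mathlib

/-!
# Stationarity at the maximum of a minimum
-/

set_option autoImplicit false

namespace Pool.Agent.K9h83.IP

open Filter Topology

/-- The convex hull of a compact set in `ℝⁿ` is compact. -/
theorem isCompact_convexHull' {n : ℕ} {K : Set (Fin n → ℝ)} (hK : IsCompact K) :
    IsCompact (convexHull ℝ K) := by
  classical
  rcases K.eq_empty_or_nonempty with h | ⟨z0, hz0⟩
  · rw [h, convexHull_empty]; exact isCompact_empty
  have hT : IsCompact ((Set.univ.pi fun _ : Fin (n + 1) => K) ×ˢ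
      stdSimplex ℝ (Fin (n + 1))) :=
    (isCompact_univ_pi fun _ => hK).prod (isCompact_stdSimplex ℝ _)
  have hc : Continuous fun q : (Fin (n + 1) → (Fin n → ℝ)) × (Fin (n + 1) → ℝ) =>
      ∑ j, q.2 j • q.1 j := by fun_prop
  have himg : (fun q : (Fin (n + 1) → (Fin n → ℝ)) × (Fin (n + 1) → ℝ) =>
      ∑ j, q.2 j • q.1 j) '' ((Set.univ.pi fun _ : Fin (n + 1) => K) ×ˢ
      stdSimplex ℝ (Fin (n + 1))) = convexHull ℝ K := by
    ext b
    constructor
    · rintro ⟨⟨z, w⟩, ⟨hz, hw0, hw1⟩, rfl⟩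
      exact (convex_convexHull ℝ K).sum_mem (fun j _ => hw0 j) hw1
        (fun j _ => subset_convexHull ℝ K (hz j (Set.mem_univ _)))
    · intro hb
      obtain ⟨ι, hι, z, w, hz, haff, hw, hw1, hwz⟩ := eq_pos_convex_span_of_mem_convexHull hb
      have hcard : Fintype.card ι ≤ Fintype.card (Fin (n + 1)) := by
        have h1 := haff.card_le_finrank_succ
        have h2 : Module.finrank ℝ (vectorSpan ℝ (Set.range z)) ≤ n := by
          refine (Submodule.finrank_le _).trans ?_
          simp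
        rw [Fintype.card_fin]
        omega
      obtain ⟨e⟩ := Function.Embedding.nonempty_of_card_le hcard
      have key : ∀ {M : Type} [AddCommMonoid M] (f : Fin (n + 1) → M),
          (∀ j, (¬ ∃ i, e i = j) → f j = 0) → ∑ j, f j = ∑ i, f (e i) := by
        intro M _ f hf
        rw [← Finset.sum_map Finset.univ e f]
        refine (Finset.sum_subset (Finset.subset_univ _) fun j _ hj => ?_).symm
        refine hf j ?_
        rintro ⟨i, hi⟩
        apply hj
        rw [Finset.mem_map]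
        exact ⟨i, Finset.mem_univ _, hi⟩
      refine ⟨(Function.extend e z fun _ => z0, Function.extend e w 0), ⟨?_, ?_, ?_⟩, ?_⟩
      · intro j _
        by_cases hj : ∃ i, e i = j
        · obtain ⟨i, rfl⟩ := hj
          change Function.extend e z (fun _ => z0) (e i) ∈ K
          rw [e.injective.extend_apply]
          exact hz ⟨i, rfl⟩
        · change Function.extend e z (fun _ => z0) j ∈ K
          rw [Function.extend_apply' _ _ _ hj]
          exact hz0
      · intro j
        by_cases hj : ∃ i, e i = j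
        · obtain ⟨i, rfl⟩ := hj
          change 0 ≤ Function.extend e w 0 (e i)
          rw [e.injective.extend_apply]
          exact (hw i).le
        · change 0 ≤ Function.extend e w 0 j
          rw [Function.extend_apply' _ _ _ hj]
          exact le_refl _
      · change ∑ j, Function.extend e w 0 j = 1
        rw [key (fun j => Function.extend e w 0 j)
          fun j hj => Function.extend_apply' w (0 : Fin (n + 1) → ℝ) j hj]
        simp only [e.injective.extend_apply]
        exact hw1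
      · change ∑ j, Function.extend e w 0 j • Function.extend e z (fun _ => z0) j = b
        rw [key (fun j => Function.extend e w 0 j • Function.extend e z (fun _ => z0) j)
          fun j hj => by
            rw [Function.extend_apply' w (0 : Fin (n + 1) → ℝ) j hj, Pi.zero_apply, zero_smul]]
        simp only [e.injective.extend_apply]
        exact hwz
  rw [← himg]
  exact hT.image hc

theorem danskin {n : ℕ} {E : Type} [MetricSpace E] (Ys : Set E) (hY : IsCompact Ys)
    (g : (Fin n → ℝ) → E → ℝ) (G : (Fin n → ℝ) → E → (Fin n → ℝ))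
    (hg : Continuous fun q : (Fin n → ℝ) × E => g q.1 q.2)
    (hG : Continuous fun q : (Fin n → ℝ) × E => G q.1 q.2)
    (hd : ∀ x d Y s, HasDerivAt (fun s : ℝ => g (x + s • d) Y) (∑ a, G (x + s • d) Y a * d a) s)
    (x : Fin n → ℝ) (v : ℝ) (h1 : ∀ Y ∈ Ys, v ≤ g x Y) (h2 : ∀ x', ∃ Y ∈ Ys, g x' Y ≤ v) :
    ∃ (ι : Type) (_ : Fintype ι) (Y : ι → E) (w : ι → ℝ), (∀ i, Y i ∈ Ys ∧ g x (Y i) = v) ∧
      AffineIndependent ℝ (fun i => G x (Y i)) ∧ (∀ i, 0 < w i) ∧ ∑ i, w i = 1 ∧
      ∑ i, w i • G x (Y i) = 0 := by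
  classical
  set K : Set (Fin n → ℝ) := G x '' (Ys ∩ {Y | g x Y ≤ v}) with hK
  have hgx : Continuous (g x) := hg.comp (by fun_prop : Continuous fun Y => (x, Y))
  have hGx : Continuous (G x) := hG.comp (by fun_prop : Continuous fun Y => (x, Y))
  have hKc : IsCompact K :=
    (hY.inter_right (isClosed_le hgx continuous_const)).image hGx
  have h0 : (0 : Fin n → ℝ) ∈ convexHull ℝ K := by
    by_contra hcon
    obtain ⟨f, u, hu0, hu⟩ := geometric_hahn_banach_point_closed (convex_convexHull ℝ K)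
      (isCompact_convexHull' hKc).isClosed hcon
    rw [map_zero] at hu0
    obtain ⟨d, hdf⟩ : ∃ d : Fin n → ℝ, ∀ b, f b = ∑ a, b a * d a := by
      refine ⟨fun a => f (Pi.single a 1), fun b => ?_⟩
      conv_lhs => rw [pi_eq_sum_univ' b]
      rw [map_sum]
      refine Finset.sum_congr rfl fun a _ => ?_
      rw [map_smul, smul_eq_mul]
    choose Yf hY1 hY2 using h2
    obtain ⟨Y0, hY0, ψ, hψ, hlim⟩ := hY.tendsto_subseq (x := fun k : ℕ =>
      Yf (x + (1 / ((k : ℝ) + 1)) • d)) (fun k => hY1 _)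
    have hs : Tendsto (fun k : ℕ => 1 / ((ψ k : ℝ) + 1)) atTop (𝓝 0) :=
      tendsto_one_div_add_atTop_nhds_zero_nat.comp hψ.tendsto_atTop
    have hx : Tendsto (fun k : ℕ => x + (1 / ((ψ k : ℝ) + 1)) • d) atTop (𝓝 x) := by
      have := (hs.smul_const d).const_add x
      simpa using this
    have hact : g x Y0 ≤ v := by
      have h3 : Tendsto (fun k : ℕ => g (x + (1 / ((ψ k : ℝ) + 1)) • d)
          (Yf (x + (1 / ((ψ k : ℝ) + 1)) • d))) atTop (𝓝 (g x Y0)) :=
        (hg.tendsto (x, Y0)).comp (hx.prodMk_nhds hlim)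
      exact le_of_tendsto' h3 fun k => hY2 _
    have hmem : G x Y0 ∈ convexHull ℝ K := subset_convexHull ℝ K ⟨Y0, ⟨hY0, hact⟩, rfl⟩
    have hpos := hu _ hmem
    rw [hdf] at hpos
    -- mean value theorem
    have hmvt : ∀ k : ℕ, ∃ θ : ℝ, 0 ≤ θ ∧ θ ≤ 1 / ((ψ k : ℝ) + 1) ∧
        ∑ a, G (x + θ • d) (Yf (x + (1 / ((ψ k : ℝ) + 1)) • d)) a * d a ≤ 0 := by
      intro k
      set s := 1 / ((ψ k : ℝ) + 1) with hsd
      have hs0 : 0 < s := by positivity
      set Y := Yf (x + s • d) with hYd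
      obtain ⟨θ, hθ, hθ2⟩ := exists_hasDerivAt_eq_slope (fun s : ℝ => g (x + s • d) Y)
        (fun s => ∑ a, G (x + s • d) Y a * d a) hs0
        (fun s _ => (hd x d Y s).continuousAt.continuousWithinAt) (fun s _ => hd x d Y s)
      refine ⟨θ, hθ.1.le, hθ.2.le, ?_⟩
      rw [hθ2]
      refine div_nonpos_of_nonpos_of_nonneg ?_ (by linarith)
      have e1 : g (x + s • d) Y ≤ v := hY2 _
      have e2 : v ≤ g x Y := h1 _ (hY1 _)
      simp only [zero_smul, add_zero]
      linarith
    choose θ hθ0 hθ1 hθ2 using hmvt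
    have hθ : Tendsto θ atTop (𝓝 0) :=
      tendsto_of_tendsto_of_tendsto_of_le_of_le tendsto_const_nhds hs hθ0 hθ1
    have hxθ : Tendsto (fun k => x + θ k • d) atTop (𝓝 x) := by
      have := (hθ.smul_const d).const_add x
      simpa using this
    have hGl : Tendsto (fun k : ℕ => G (x + θ k • d) (Yf (x + (1 / ((ψ k : ℝ) + 1)) • d)))
        atTop (𝓝 (G x Y0)) := (hG.tendsto (x, Y0)).comp (hxθ.prodMk_nhds hlim)
    have hsum : Tendsto (fun k : ℕ => ∑ a, G (x + θ k • d)
        (Yf (x + (1 / ((ψ k : ℝ) + 1)) • d)) a * d a) atTop (𝓝 (∑ a, G x Y0 a * d a)) := by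
      refine tendsto_finsetSum _ fun a _ => ?_
      exact ((tendsto_pi_nhds.1 hGl) a).mul_const _
    have := le_of_tendsto' hsum hθ2
    linarith
  obtain ⟨ι, hι, z, w, hz, haff, hw, hw1, hwz⟩ := eq_pos_convex_span_of_mem_convexHull h0
  have hz' : ∀ i, ∃ Y, (Y ∈ Ys ∧ g x Y ≤ v) ∧ G x Y = z i := fun i => hz ⟨i, rfl⟩
  choose Y hYa hYb using hz'
  refine ⟨ι, hι, Y, w, fun i => ⟨(hYa i).1, le_antisymm (hYa i).2 (h1 _ (hYa i).1)⟩, ?_, hw, hw1,
    ?_⟩
  · have : (fun i => G x (Y i)) = z := funext hYb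
    rw [this]
    exact haff
  · simp only [hYb]
    exact hwz

end Pool.Agent.K9h83.IP
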