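import Pool.Agent.R537.HD.Defs

/-!
# Isolated points of semialgebraic sets

The decision problem ISOLATED-POINT-EXISTENCE: does a semialgebraic set, given by its dimension and
by a quantifier-free formula with integer coefficients, have an isolated point?
-/

set_option autoImplicit false

namespace Pool.Agent.K9h83.IP

open Pool.Agent.NPC.ER Pool.Agent.NPC.R537HD

/-- The variables of a polynomial expression are among `x₀, …, x₍ₙ₋₁₎`. -/
def TmIn (n : ℕ) : Tm → Prop
  | .var i => i < n
  | .zero => True
  | .one => True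
  | .add s t => TmIn n s ∧ TmIn n t
  | .neg t => TmIn n t
  | .mul s t => TmIn n s ∧ TmIn n t

/-- The variables of a quantifier-free formula are among `x₀, …, x₍ₙ₋₁₎`. -/
def FmIn (n : ℕ) : Fm → Prop
  | .eq s t => TmIn n s ∧ TmIn n t
  | .lt s t => TmIn n s ∧ TmIn n t
  | .le s t => TmIn n s ∧ TmIn n t
  | .not φ => FmIn n φ
  | .and φ ψ => FmIn n φ ∧ FmIn n ψ
  | .or φ ψ => FmIn n φ ∧ FmIn n ψ

/-- `x` is an isolated point of `S`: it belongs to `S`, and some open ball around `x` meets `S`
only in `x`. -/
def IsIsolated {n : ℕ} (S : Set (EuclideanSpace ℝ (Fin n))) (x : EuclideanSpace ℝ (Fin n)) :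
    Prop := x ∈ S ∧ ∃ ε > 0, Metric.ball x ε ∩ S = {x}

/-- An instance: the dimension `n` (written in unary, as a list of length `n`) and a
quantifier-free formula. -/
abbrev Inst : Type := List Unit × Fm

/-- The decision problem ISOLATED-POINT-EXISTENCE: the instance is a pair `(n, φ)`, where `φ` is a
quantifier-free formula in the variables `x₀, …, x₍ₙ₋₁₎`, and the semialgebraic set
`{x ∈ ℝⁿ : φ(x)}` has an isolated point. -/
def IsolatedPoint (I : Inst) : Prop :=
  FmIn I.1.length I.2 ∧ ∃ x, IsIsolated (semi I.1.length I.2) x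

end Pool.Agent.K9h83.IP
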