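import Mathlib

/-!
# Derivations of the real numbers with prescribed values
-/

set_option autoImplicit false

namespace Pool.Agent.K9h83.IP

open scoped BigOperators

/-- A copy of the dual numbers, without the algebra structure over subfields of `ℝ`. -/
def DN : Type := TrivSqZeroExt ℝ ℝ

noncomputable instance : CommRing DN := inferInstanceAs (CommRing (TrivSqZeroExt ℝ ℝ))

/-- The first component. -/
noncomputable def DN.fst : DN →+* ℝ := (TrivSqZeroExt.fstHom ℝ ℝ ℝ).toRingHom

/-- The second component. -/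
noncomputable def DN.snd : DN →+ ℝ := (TrivSqZeroExt.sndHom ℝ ℝ).toAddMonoidHom

/-- The constants. -/
noncomputable def DN.inl : ℝ →+* DN := (TrivSqZeroExt.inlHom ℝ ℝ)

theorem DN.snd_mul (x y : DN) : DN.snd (x * y) = DN.fst x * DN.snd y + DN.fst y * DN.snd x := by
  have h := TrivSqZeroExt.snd_mul (x : TrivSqZeroExt ℝ ℝ) y
  refine Eq.trans h ?_
  rw [smul_eq_mul, MulOpposite.smul_eq_mul_unop, MulOpposite.unop_op, mul_comm (DN.fst y)]
  rfl

theorem DN.isUnit {x : DN} (h : DN.fst x ≠ 0) : IsUnit x :=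
  (TrivSqZeroExt.isUnit_iff_isUnit_fst (x := (x : TrivSqZeroExt ℝ ℝ))).2 (isUnit_iff_ne_zero.2 h)

/-- The element with given components. -/
noncomputable def DN.mk (a b : ℝ) : DN := (TrivSqZeroExt.inl a + TrivSqZeroExt.inr b :
  TrivSqZeroExt ℝ ℝ)

@[simp] theorem DN.fst_mk (a b : ℝ) : DN.fst (DN.mk a b) = a := by
  change TrivSqZeroExt.fst (TrivSqZeroExt.inl a + TrivSqZeroExt.inr b) = a
  simp

@[simp] theorem DN.snd_mk (a b : ℝ) : DN.snd (DN.mk a b) = b := by
  change TrivSqZeroExt.snd (TrivSqZeroExt.inl a + TrivSqZeroExt.inr b) = b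
  simp

@[simp] theorem DN.fst_inl (a : ℝ) : DN.fst (DN.inl a) = a := by
  exact TrivSqZeroExt.fst_inl ℝ a

theorem DN.fst_surjective : Function.Surjective DN.fst := fun a => ⟨DN.mk a 0, by simp⟩

theorem DN.mul_eq_zero_of_ker {x y : DN} (hx : DN.fst x = 0) (hy : DN.fst y = 0) : x * y = 0 := by
  refine TrivSqZeroExt.ext (R := ℝ) (M := ℝ) ?_ ?_
  · change DN.fst (x * y) = 0
    rw [map_mul, hx, zero_mul]
  · change DN.snd (x * y) = 0
    rw [DN.snd_mul, hx, hy, zero_mul, zero_mul, add_zero]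

open scoped IntermediateField.algebraAdjoinAdjoin in
theorem exists_derivation {ι : Type} {b : ι → ℝ} (hb : AlgebraicIndependent ℚ b) (a : ι → ℝ) :
    ∃ D : Derivation ℚ ℝ ℝ, ∀ i, D (b i) = a i := by
  classical
  set A0 := Algebra.adjoin ℚ (Set.range b) with hA0
  set F := IntermediateField.adjoin ℚ (Set.range b) with hF
  -- the ring homomorphism on `A0`
  obtain ⟨e0, he0C, he0X⟩ : ∃ e0 : MvPolynomial ι ℚ →+* DN,
      (∀ q, DN.fst (e0 (MvPolynomial.C q)) = (q : ℝ)) ∧ ∀ i, e0 (MvPolynomial.X i) =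
        DN.mk (b i) (a i) := by
    refine ⟨MvPolynomial.eval₂Hom (DN.inl.comp (Rat.castHom ℝ)) (fun i => DN.mk (b i) (a i)),
      fun q => ?_, fun i => ?_⟩
    · rw [MvPolynomial.coe_eval₂Hom, MvPolynomial.eval₂_C]
      simp
    · rw [MvPolynomial.coe_eval₂Hom, MvPolynomial.eval₂_X]
  have he0 : ∀ p, DN.fst (e0 p) = MvPolynomial.aeval b p := by
    intro p
    have : (DN.fst.comp e0) = (MvPolynomial.aeval b : MvPolynomial ι ℚ →ₐ[ℚ] ℝ).toRingHom := by
      refine MvPolynomial.ringHom_ext (fun q => ?_) (fun i => ?_)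
      · rw [RingHom.comp_apply, he0C]
        simp
      · rw [RingHom.comp_apply, he0X]
        simp
    exact congrArg (fun f : MvPolynomial ι ℚ →+* ℝ => f p) this
  obtain ⟨e1, he1'⟩ : ∃ e1 : A0 →+* DN, ∀ y, e1 y = e0 (hb.aevalEquiv.symm y) :=
    ⟨e0.comp (hb.aevalEquiv.symm : A0 ≃ₐ[ℚ] MvPolynomial ι ℚ).toRingEquiv.toRingHom, fun y => rfl⟩
  have he1 : ∀ y : A0, DN.fst (e1 y) = (y : ℝ) := by
    intro y
    rw [he1', he0]
    exact congrArg Subtype.val (hb.aevalEquiv.apply_symm_apply y)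
  have hu : ∀ y : nonZeroDivisors A0, IsUnit (e1 y) := by
    intro y
    apply DN.isUnit
    rw [he1]
    intro h
    have h1 := nonZeroDivisors.coe_ne_zero y
    exact h1 (Subtype.ext h)
  obtain ⟨ψ, hψ⟩ : ∃ ψ : F →+* DN, ∀ y : A0, ψ (algebraMap A0 F y) = e1 y :=
    ⟨IsLocalization.lift (M := nonZeroDivisors A0) hu, fun y => IsLocalization.lift_eq hu y⟩
  have hψf : ∀ y : F, DN.fst (ψ y) = (y : ℝ) := by
    have : (DN.fst.comp ψ) = (algebraMap F ℝ) := by
      refine IsLocalization.ringHom_ext (nonZeroDivisors A0) ?_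
      ext y
      rw [RingHom.comp_apply, RingHom.comp_apply, hψ, he1]
      rfl
    intro y
    exact congrArg (fun f : F →+* ℝ => f y) this
  -- formal smoothness
  have hsm : Algebra.FormallySmooth F ℝ := by
    obtain ⟨ι', s, hs⟩ := exists_isTranscendenceBasis' F ℝ
    have halg : Algebra.IsAlgebraic (IntermediateField.adjoin F (Set.range s)) ℝ :=
      hs.isAlgebraic_field
    exact Algebra.FormallySmooth.of_algebraicIndependent_of_isSeparable hs.1
  let _ : Algebra F DN := ψ.toAlgebra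
  let g : DN →ₐ[F] ℝ := { DN.fst with commutes' := fun r => hψf r }
  have hker : IsNilpotent (RingHom.ker (g : DN →+* ℝ)) := by
    refine ⟨2, ?_⟩
    rw [pow_two, Ideal.zero_eq_bot, eq_bot_iff, Ideal.mul_le]
    intro x hx y hy
    rw [Ideal.mem_bot]
    exact DN.mul_eq_zero_of_ker hx hy
  let L := Algebra.FormallySmooth.liftOfSurjective (AlgHom.id F ℝ) g DN.fst_surjective hker
  have hL : ∀ r, DN.fst (L r) = r := fun r =>
    Algebra.FormallySmooth.liftOfSurjective_apply (AlgHom.id F ℝ) g DN.fst_surjective hker r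
  refine ⟨Derivation.mk' ((DN.snd.comp (L : ℝ →+* DN).toAddMonoidHom).toRatLinearMap) ?_, ?_⟩
  · intro x y
    change DN.snd (L (x * y)) = x • DN.snd (L y) + y • DN.snd (L x)
    rw [map_mul, DN.snd_mul, hL, hL, smul_eq_mul, smul_eq_mul]
  · intro i
    change DN.snd (L (b i)) = a i
    have hbi : b i ∈ A0 := Algebra.subset_adjoin ⟨i, rfl⟩
    have h1 : (b i) = algebraMap F ℝ (algebraMap A0 F ⟨b i, hbi⟩) := rfl
    have h2 : L (algebraMap F ℝ (algebraMap A0 F ⟨b i, hbi⟩)) = ψ (algebraMap A0 F ⟨b i, hbi⟩) :=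
      L.commutes _
    rw [h1, h2, hψ, he1']
    have h3 : hb.aevalEquiv.symm ⟨b i, hbi⟩ = MvPolynomial.X i := by
      rw [AlgEquiv.symm_apply_eq]
      refine Subtype.ext ?_
      simp
    rw [h3, he0X, DN.snd_mk]

/-- If `u` is transcendental over `ℚ(c)`, some derivation kills `c` but not `u`. -/
theorem exists_derivation_ne {n : ℕ} {c : Fin n → ℝ} (hc : AlgebraicIndependent ℚ c) (u : ℝ)
    (hu : ¬ IsAlgebraic (Algebra.adjoin ℚ (Set.range c)) u) :
    ∃ D : Derivation ℚ ℝ ℝ, (∀ i, D (c i) = 0) ∧ D u = 1 := by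
  have h1 : AlgebraicIndependent ℚ fun o : Option (Fin n) => o.elim u c :=
    (hc.option_iff_transcendental u).2 hu
  obtain ⟨D, hD⟩ := exists_derivation h1 (fun o => o.elim 1 fun _ => 0)
  exact ⟨D, fun i => hD (some i), hD none⟩

theorem countable_algebraic {n : ℕ} (c : Fin n → ℝ) :
    Set.Countable {u : ℝ | IsAlgebraic (Algebra.adjoin ℚ (Set.range c)) u} := by
  have hM : Countable (MvPolynomial (Fin n) ℚ) := by
    rw [← Cardinal.mk_le_aleph0_iff]
    refine MvPolynomial.cardinalMk_le_max.trans ?_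
    simp
  have : Countable (Algebra.adjoin ℚ (Set.range c)) := by
    have h : Function.Surjective (fun p : MvPolynomial (Fin n) ℚ =>
        (⟨MvPolynomial.aeval c p, by
          rw [Algebra.adjoin_range_eq_range_aeval]; exact ⟨p, rfl⟩⟩ :
            Algebra.adjoin ℚ (Set.range c))) := by
      rintro ⟨y, hy⟩
      have hy' := hy
      rw [Algebra.adjoin_range_eq_range_aeval] at hy'
      obtain ⟨p, hp⟩ := hy'
      exact ⟨p, Subtype.ext hp⟩
    exact h.countable
  exact Algebraic.countable _ _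

/-- A derivation vanishes on elements algebraic over a subring on which it vanishes. -/
theorem derivation_eq_zero_of_algebraic (D : Derivation ℚ ℝ ℝ) (A : Subalgebra ℚ ℝ)
    (hA : ∀ y ∈ A, D y = 0) {u : ℝ} (hu : IsAlgebraic A u) : D u = 0 := by
  classical
  -- take a polynomial of minimal degree
  obtain ⟨p, hp0, hp⟩ := hu
  induction hd : p.natDegree using Nat.strong_induction_on generalizing p with
  | _ d ih =>
    have key : ∀ q : Polynomial A, D (Polynomial.aeval u q) =
        Polynomial.aeval u (Polynomial.derivative q) * D u := by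
      intro q
      induction q using Polynomial.induction_on' with
      | add p q hp hq => simp only [map_add, hp, hq, add_mul]
      | monomial k a =>
        rw [Polynomial.aeval_monomial, D.leibniz, Polynomial.derivative_monomial,
          Polynomial.aeval_monomial, D.leibniz_pow]
        have : D (algebraMap A ℝ a) = 0 := hA _ a.2
        rw [this]
        simp only [smul_eq_mul, mul_zero, add_zero, nsmul_eq_mul, map_mul, map_natCast]
        ring
    have h1 := key p
    rw [hp, map_zero] at h1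
    by_cases hD : D u = 0
    · exact hD
    · have h2 : Polynomial.aeval u (Polynomial.derivative p) = 0 :=
        (mul_eq_zero.1 h1.symm).resolve_right hD
      have h3 : 0 < p.natDegree := by
        rw [Nat.pos_iff_ne_zero]
        intro h0
        rw [Polynomial.natDegree_eq_zero] at h0
        obtain ⟨a, rfl⟩ := h0
        rw [Polynomial.aeval_C] at hp
        apply hp0
        have : a = 0 := Subtype.ext hp
        rw [this, map_zero]
      refine ih _ ?_ _ ?_ h2 rfl
      · rw [← hd]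
        exact Polynomial.natDegree_derivative_lt h3.ne'
      · intro h0
        exact h3.ne' (Polynomial.derivative_eq_zero.1 h0)

/-- Linear algebra: if `θ` is surjective and `ker ρ ≤ ker θ`, then `ker θ ≤ ker ρ`. -/
theorem ker_le_ker {M : Type*} [AddCommGroup M] [Module ℝ M] {n : ℕ}
    (ρ θ : M →ₗ[ℝ] (Fin n → ℝ)) (hθ : Function.Surjective θ)
    (h : LinearMap.ker ρ ≤ LinearMap.ker θ) : LinearMap.ker θ ≤ LinearMap.ker ρ := by
  -- lift `θ` to the range of `ρ`
  obtain ⟨f, hf⟩ : ∃ f : (Fin n → ℝ) →ₗ[ℝ] (Fin n → ℝ), ∀ x, f (ρ x) = θ x := by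
    obtain ⟨f, hf⟩ := LinearMap.exists_extend
      (((LinearMap.ker ρ).liftQ θ h).comp (ρ.quotKerEquivRange.symm.toLinearMap))
    refine ⟨f, fun x => ?_⟩
    have h1 := congrArg (fun g => g ⟨ρ x, ⟨x, rfl⟩⟩) hf
    simp only [LinearMap.comp_apply, Submodule.subtype_apply] at h1
    rw [h1]
    have h2 : ρ.quotKerEquivRange.symm ⟨ρ x, ⟨x, rfl⟩⟩ = (LinearMap.ker ρ).mkQ x := by
      rw [LinearEquiv.symm_apply_eq]
      rfl
    change (LinearMap.ker ρ).liftQ θ h (ρ.quotKerEquivRange.symm ⟨ρ x, ⟨x, rfl⟩⟩) = θ x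
    rw [h2]
    simp
  have hfs : Function.Surjective f := fun y => by
    obtain ⟨x, hx⟩ := hθ y
    exact ⟨ρ x, (hf x).trans hx⟩
  have hfi : Function.Injective f := LinearMap.injective_iff_surjective.2 hfs
  intro x hx
  rw [LinearMap.mem_ker] at hx ⊢
  apply hfi
  rw [hf, hx, map_zero]

end Pool.Agent.K9h83.IP
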