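import Pool.Agent.K9h83.IP.Par
import Pool.Agent.R537.HD.Mem

/-!
# The formula of the reduction
-/

set_option autoImplicit false

namespace Pool.Agent.K9h83.IP

open Finset Filter Topology Pool.Agent.R537.RN
open Pool.Agent.NPC Pool.Agent.NPC.ER Pool.Agent.NPC.H612
open Pool.Agent.NPC.R537HD (chain holds_chain chain_val sqT subT numT eval_sqT eval_subT
  eval_numT asg semi)

/-- A sentence. -/
abbrev InpE : Type := List ℕ × Fm

/-! ### General terms -/

/-- The form of a constraint. -/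
def tCe (V : ℕ → Tm) (w : Tm) (c : ER.Con) : Tm :=
  if c.code.1 = 0 then Tm.mul w (subT (V c.code.2.1) w)
  else if c.code.1 = 1 then Tm.mul w
    (subT (Tm.add (V c.code.2.1) (V c.code.2.2.1)) (V c.code.2.2.2))
  else subT (Tm.mul (V c.code.2.1) (V c.code.2.2.1)) (Tm.mul w (V c.code.2.2.2))

/-- Its differential. -/
def tDe (V : ℕ → Tm) (w : Tm) (V' : ℕ → Tm) (w' : Tm) (c : ER.Con) : Tm :=
  if c.code.1 = 0 then Tm.add (Tm.mul w' (subT (V c.code.2.1) w))
    (Tm.mul w (subT (V' c.code.2.1) w'))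
  else if c.code.1 = 1 then Tm.add (Tm.mul w'
    (subT (Tm.add (V c.code.2.1) (V c.code.2.2.1)) (V c.code.2.2.2)))
    (Tm.mul w (subT (Tm.add (V' c.code.2.1) (V' c.code.2.2.1)) (V' c.code.2.2.2)))
  else subT (Tm.add (Tm.mul (V' c.code.2.1) (V c.code.2.2.1))
    (Tm.mul (V c.code.2.1) (V' c.code.2.2.1)))
    (Tm.add (Tm.mul w' (V c.code.2.2.2)) (Tm.mul w (V' c.code.2.2.2)))

/-- The sum of the squares. -/
def tQs (V : ℕ → Tm) (w : Tm) (S : List ER.Con) : Tm := sumT (S.map fun c => sqT (tCe V w c))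

/-- Its differential. -/
def tDs (V : ℕ → Tm) (w : Tm) (V' : ℕ → Tm) (w' : Tm) (S : List ER.Con) : Tm :=
  sumT (S.map fun c => Tm.mul twoT (Tm.mul (tCe V w c) (tDe V w V' w' c)))

theorem eval_tCe (v : ℕ → ℝ) (V : ℕ → Tm) (w : Tm) (c : ER.Con) : (tCe V w c).eval v =
    cerr (fun i => (V i).eval v) (w.eval v) c := by
  cases c <;> simp [tCe, Con.code, cerr, Tm.eval]

theorem eval_tDe (v : ℕ → ℝ) (V : ℕ → Tm) (w : Tm) (V' : ℕ → Tm) (w' : Tm) (c : ER.Con) :
    (tDe V w V' w' c).eval v =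
    dcerr (fun i => (V i).eval v) (w.eval v) (fun i => (V' i).eval v) (w'.eval v) c := by
  cases c <;> simp [tDe, Con.code, dcerr, Tm.eval]

theorem eval_tQs (v : ℕ → ℝ) (V : ℕ → Tm) (w : Tm) (S : List ER.Con) : (tQs V w S).eval v =
    qsum (fun i => (V i).eval v) (w.eval v) S := by
  unfold tQs qsum
  rw [eval_sumT, List.map_map]
  congr 1
  refine List.map_congr_left fun c _ => ?_
  simp [eval_tCe]

theorem eval_tDs (v : ℕ → ℝ) (V : ℕ → Tm) (w : Tm) (V' : ℕ → Tm) (w' : Tm) (S : List ER.Con) :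
    (tDs V w V' w' S).eval v =
    dqsum (fun i => (V i).eval v) (w.eval v) (fun i => (V' i).eval v) (w'.eval v) S := by
  unfold tDs dqsum
  rw [eval_sumT, List.map_map]
  congr 1
  refine List.map_congr_left fun c _ => ?_
  simp only [Function.comp_apply, Tm.eval, twoT, eval_tCe, eval_tDe]
  norm_num

/-- The fifth power. -/
def p5 (t : Tm) : Tm := Tm.mul (sqT (sqT t)) t
/-- The sixth power. -/
def p6 (t : Tm) : Tm := Tm.mul (sqT (sqT t)) (sqT t)

theorem eval_p5 (v : ℕ → ℝ) (t : Tm) : (p5 t).eval v = t.eval v ^ 5 := by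
  simp only [p5, Tm.eval, eval_sqT]; ring

theorem eval_p6 (v : ℕ → ℝ) (t : Tm) : (p6 t).eval v = t.eval v ^ 6 := by
  simp only [p6, Tm.eval, eval_sqT]; ring

section

variable (p : InpE)

/-- The system of constraints. -/
def eS : List ER.Con := sysOf (Fm.not p.2)
/-- Its variables. -/
def eV : List ℕ := (eS p).flatMap Con.vars
/-- The size of the first block. -/
def en : ℕ := p.1.length
/-- The size of the second block. -/
def el : ℕ := (eV p).length + 1
/-- The number of the constraints. -/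
def es : ℕ := (eS p).length
/-- The exponent. -/
def ek : ℕ := kap (el p) (es p)
/-- The exponent of `τ`. -/
def x1 : ℕ := N1 (en p) (el p) (es p)
/-- The exponent of `δ`. -/
def x2 : ℕ := N2 (en p) (el p) (es p)
/-- The exponent of `ζ`. -/
def x3 : ℕ := N3 (en p) (el p) (es p)
/-- The size of a block. -/
def bm : ℕ := 1 + (ek p + 1) + el p
/-- The first index of a block. -/
def bb (j : ℕ) : ℕ := 2 * en p + 1 + j * bm p
/-- The first index of the constants. -/
def bs : ℕ := 2 * en p + 1 + (en p + 2) * bm p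
/-- The number of the variables. -/
def d1 : ℕ := bs p + (x3 p + 1)

theorem x1_le : x1 p ≤ x3 p := by
  unfold x1 x3 N3 N2 k2
  have h : ∀ N a : ℕ, a ≤ Gx N a := by
    intro N a
    unfold Gx
    nlinarith
  have h1 := h (en p) (Gx (el p + 1) (N1 (en p) (el p) (es p) + en p + es p +
    kap (el p) (es p) + 8))
  have h2 := h (el p + 1) (N1 (en p) (el p) (es p) + en p + es p + kap (el p) (es p) + 8)
  omega

theorem x2_le : x2 p ≤ x3 p := by
  unfold x2 x3 N3
  omega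

/-- The powers. -/
def tT (β k : ℕ) : Tm := Tm.var (β + 1 + k)
/-- The inner variables. -/
def tZ (β b : ℕ) : Tm := Tm.var (β + 1 + (ek p + 1) + b)
/-- The outer variables. -/
def tX (a : ℕ) : Tm := Tm.var (en p + a)
/-- `τ`. -/
def tτ : Tm := Tm.var (bs p + x1 p)
/-- `δ`. -/
def tδ : Tm := Tm.var (bs p + x2 p)
/-- `ζ`. -/
def tζ : Tm := Tm.var (bs p + x3 p)
/-- `2 ^ κ`. -/
def tK : Tm := natT (List.replicate (ek p) false ++ [true])

/-- The values of the variables of the system. -/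
def xV (β i : ℕ) : Tm :=
  if i % 2 = 0 ∧ i / 2 ∈ p.1 then Tm.mul (tT β 0) (tX p (p.1.idxOf (i / 2)))
  else Tm.mul (tτ p) (tZ p β ((eV p).idxOf i))
/-- The differential with respect to an outer variable. -/
def xVx (β a i : ℕ) : Tm :=
  if i % 2 = 0 ∧ i / 2 ∈ p.1 then (if p.1.idxOf (i / 2) = a then tT β 0 else Tm.zero) else Tm.zero
/-- The differential with respect to the first inner variable. -/
def xVt (i : ℕ) : Tm :=
  if i % 2 = 0 ∧ i / 2 ∈ p.1 then tX p (p.1.idxOf (i / 2)) else Tm.zero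
/-- The differential with respect to the other inner variables. -/
def xVz (b i : ℕ) : Tm :=
  if i % 2 = 0 ∧ i / 2 ∈ p.1 then Tm.zero else (if (eV p).idxOf i = b then tτ p else Tm.zero)

/-- The homogenising variable. -/
def xw (β : ℕ) : Tm := Tm.mul (tτ p) (tT β 0)
/-- The sum of the squares. -/
def xQ (β : ℕ) : Tm := tQs (xV p β) (xw p β) (eS p)
/-- Its derivatives. -/
def xGx (β a : ℕ) : Tm := tDs (xV p β) (xw p β) (xVx p β a) Tm.zero (eS p)
/-- Its derivatives. -/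
def xGt (β : ℕ) : Tm := tDs (xV p β) (xw p β) (xVt p) (tτ p) (eS p)
/-- Its derivatives. -/
def xGz (β b : ℕ) : Tm := tDs (xV p β) (xw p β) (xVz p b) Tm.zero (eS p)

/-- The first stationarity equation. -/
def xET (β : ℕ) : Tm := Tm.mul (subT Tm.one (tT β 0)) (subT (Tm.mul (tT β 0) (xGt p β))
  (Tm.mul (Tm.mul (tK p) (p5 (tτ p))) (tT β (ek p))))
/-- The other stationarity equations. -/
def xEZ (β b : ℕ) : Tm := Tm.mul (subT Tm.one (sqT (tZ p β b))) (Tm.add (Tm.mul (tZ p β b)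
  (xGz p β b)) (Tm.mul (Tm.mul (numT 6) (tζ p)) (p6 (tZ p β b))))
/-- The sum of the sixth powers. -/
def xZ6 (β : ℕ) : Tm := sumT ((List.range (el p)).map fun b => p6 (tZ p β b))
/-- The value. -/
def xVal (β : ℕ) : Tm := Tm.add (subT (xQ p β) (Tm.mul (p5 (tτ p)) (tT β (ek p))))
  (Tm.mul (tζ p) (xZ6 p β))
/-- The sum of the squares of the outer variables. -/
def xX2 : Tm := sumT ((List.range (en p)).map fun a => sqT (tX p a))
/-- The perturbation. -/
def xCX : Tm := sumT ((List.range (en p)).map fun a => Tm.mul (Tm.var a) (tX p a))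
/-- The inequality of the cone. -/
def xCone (β : ℕ) : Tm := Tm.add (Tm.add (subT (Tm.mul (sqT (Tm.var β)) (xQ p β))
  (Tm.mul (Tm.mul (p5 (tτ p)) (p5 (Tm.var β))) (tT β (ek p)))) (Tm.mul (tζ p) (xZ6 p β)))
  (Tm.mul (p6 (Tm.var β)) (Tm.add (Tm.mul (tδ p) (subT (numT (2 * en p + 2)) (xX2 p)))
    (Tm.mul (tζ p) (xCX p))))

/-- The bounds of the parameters. -/
def fBd : List Fm := (List.range (en p)).map fun a => Fm.le (sqT (Tm.var a)) Tm.one
/-- The constants. -/
def fCs : List Fm := Fm.eq (Tm.add (Tm.var (bs p)) (Tm.var (bs p))) Tm.one :: chain (bs p) (x3 p)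
/-- An inactive copy. -/
def fIn (β : ℕ) : List Fm := Fm.eq (Tm.var β) Tm.zero :: Fm.eq (tT β 0) twoT ::
  (List.range (el p)).map fun b => Fm.eq (tZ p β b) twoT
/-- An active copy. -/
def fAc (β : ℕ) : List Fm := Fm.lt Tm.zero (Tm.var β) :: Fm.le Tm.zero (tT β 0) ::
  Fm.le (tT β 0) Tm.one :: Fm.eq (xET p β) Tm.zero :: Fm.eq (xVal p β) (Tm.var (2 * en p)) ::
  ((List.range (el p)).map (fun b => Fm.le (sqT (tZ p β b)) Tm.one) ++
    (List.range (el p)).map (fun b => Fm.eq (xEZ p β b) Tm.zero))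
/-- A copy. -/
def fCp (β : ℕ) : Fm := Fm.and (conj (chain (β + 1) (ek p)))
  (Fm.or (conj (fIn p β)) (conj (fAc p β)))
/-- The sum of the multipliers. -/
def fSm : Fm := Fm.eq (sumT ((List.range (en p + 1)).map fun j => Tm.var (bb p j))) Tm.one
/-- The stationarity equations of the outer variables. -/
def fKt (a : ℕ) : Fm := Fm.eq (Tm.add (subT (sumT ((List.range (en p + 1)).map fun j =>
  Tm.mul (Tm.var (bb p j)) (xGx p (bb p j) a))) (Tm.mul (Tm.mul twoT (tδ p)) (tX p a)))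
  (Tm.mul (tζ p) (Tm.var a))) Tm.zero
/-- The vertex of the cone. -/
def fC0 (β : ℕ) : List Fm := (List.range (bm p)).map fun i => Fm.eq (Tm.var (β + i)) Tm.zero
/-- The rest of the cone. -/
def fC1 (β : ℕ) : List Fm := Fm.lt Tm.zero (Tm.var β) :: Fm.le Tm.zero (tT β 0) ::
  Fm.le (tT β 0) (Tm.var β) :: Fm.le (xCone p β) Tm.zero ::
  ((List.range (el p)).map (fun b => Fm.le (sqT (tZ p β b)) (sqT (Tm.var β))) ++
    (List.range (ek p)).map (fun k => Fm.eq (Tm.mul (tT β (k + 1)) (Tm.var β)) (sqT (tT β k))))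
/-- The formula. -/
def F1 : Fm := conj (fBd p ++ (fCs p ++ ((List.range (en p + 1)).map (fun j => fCp p (bb p j)) ++
  (fSm p :: ((List.range (en p)).map (fKt p) ++
    [Fm.or (conj (fC0 p (bb p (en p + 1)))) (conj (fC1 p (bb p (en p + 1))))])))))

/-! ### The values of the terms -/

/-- The places of the variables. -/
def locE (i : ℕ) : Fin (en p) ⊕ Fin (el p) :=
  if h : i % 2 = 0 ∧ i / 2 ∈ p.1 then
    Sum.inl ⟨p.1.idxOf (i / 2), List.idxOf_lt_length_iff.2 h.2⟩
  else Sum.inr ⟨(eV p).idxOf i, Nat.lt_succ_of_le List.idxOf_le_length⟩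

/-- The inner variables. -/
def YY (v : ℕ → ℝ) (β : ℕ) : Fin (el p + 1) → ℝ :=
  Fin.cons (v (β + 1)) fun b => v (β + 1 + (ek p + 1) + b)

/-- The outer variables. -/
def XX (v : ℕ → ℝ) (a : Fin (en p)) : ℝ := v (en p + a)

theorem eval_xV (v : ℕ → ℝ) (β : ℕ) : (fun i => (xV p β i).eval v) =
    Vv (locE p) (v (bs p + x1 p)) (XX p v) (YY p v β) := by
  funext i
  unfold xV Vv locE
  by_cases h1 : i % 2 = 0 ∧ i / 2 ∈ p.1
  · rw [if_pos h1, dif_pos h1]
    simp [Tm.eval, tT, tX, XX, YY]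
  · rw [if_neg h1, dif_neg h1]
    simp [Tm.eval, tτ, tZ, YY]

theorem eval_xw (v : ℕ → ℝ) (β : ℕ) : (xw p β).eval v = v (bs p + x1 p) * YY p v β 0 := by
  simp [xw, Tm.eval, tτ, tT, YY]

theorem eval_xQ (v : ℕ → ℝ) (β : ℕ) : (xQ p β).eval v =
    qh (locE p) (eS p) (v (bs p + x1 p)) (XX p v) (YY p v β) := by
  unfold xQ qh
  rw [eval_tQs, eval_xV, eval_xw]

theorem eval_xGx (v : ℕ → ℝ) (β : ℕ) (a : Fin (en p)) : (xGx p β a).eval v =
    gx (locE p) (eS p) (v (bs p + x1 p)) (XX p v) (YY p v β) a := by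
  unfold xGx gx
  rw [eval_tDs, eval_xV, eval_xw]
  congr 1
  funext i
  unfold xVx locE
  by_cases h1 : i % 2 = 0 ∧ i / 2 ∈ p.1
  · rw [if_pos h1, dif_pos h1]
    simp only [Sum.elim_inl]
    by_cases h2 : p.1.idxOf (i / 2) = a
    · rw [if_pos h2, if_pos (Fin.ext h2)]
      simp [Tm.eval, tT, YY]
    · rw [if_neg h2, if_neg (fun h => h2 (congrArg Fin.val h))]
      rfl
  · rw [if_neg h1, dif_neg h1]
    rfl

theorem eval_xGt (v : ℕ → ℝ) (β : ℕ) : (xGt p β).eval v =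
    gt (locE p) (eS p) (v (bs p + x1 p)) (XX p v) (YY p v β) := by
  unfold xGt gt
  rw [eval_tDs, eval_xV, eval_xw]
  have h : (fun i => (xVt p i).eval v) = fun i => Sum.elim (XX p v) (fun _ => 0) (locE p i) := by
    funext i
    unfold xVt locE
    by_cases h1 : i % 2 = 0 ∧ i / 2 ∈ p.1
    · rw [if_pos h1, dif_pos h1]
      rfl
    · rw [if_neg h1, dif_neg h1]
      rfl
  rw [h]
  rfl

theorem eval_xGz (v : ℕ → ℝ) (β : ℕ) (b : Fin (el p)) : (xGz p β b).eval v =
    gz (locE p) (eS p) (v (bs p + x1 p)) (XX p v) (YY p v β) b := by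
  unfold xGz gz
  rw [eval_tDs, eval_xV, eval_xw]
  congr 1
  funext i
  unfold xVz locE
  by_cases h1 : i % 2 = 0 ∧ i / 2 ∈ p.1
  · rw [if_pos h1, dif_pos h1]
    rfl
  · rw [if_neg h1, dif_neg h1]
    simp only [Sum.elim_inr]
    by_cases h2 : (eV p).idxOf i = b
    · rw [if_pos h2, if_pos (Fin.ext h2)]
      simp [Tm.eval, tτ]
    · rw [if_neg h2, if_neg (fun h => h2 (congrArg Fin.val h))]
      rfl

theorem list_range_sum (f : ℕ → ℝ) (k : ℕ) : ((List.range k).map f).sum = ∑ i ∈ range k, f i := by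
  induction k with
  | zero => simp
  | succ k ih => rw [List.range_succ, Finset.sum_range_succ, ← ih]; simp

theorem eval_xZ6 (v : ℕ → ℝ) (β : ℕ) : (xZ6 p β).eval v =
    ∑ b : Fin (el p), YY p v β b.succ ^ 6 := by
  unfold xZ6
  rw [eval_sumT, List.map_map]
  have h : (Tm.eval v ∘ fun b => p6 (tZ p β b)) = fun b => v (β + 1 + (ek p + 1) + b) ^ 6 := by
    funext b
    simp [eval_p6, tZ, Tm.eval]
  rw [h, list_range_sum, ← Fin.sum_univ_eq_sum_range
    (fun b => v (β + 1 + (ek p + 1) + b) ^ 6)]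
  refine Finset.sum_congr rfl fun b _ => ?_
  simp [YY]

theorem eval_xX2 (v : ℕ → ℝ) : (xX2 p).eval v = ∑ a, XX p v a ^ 2 := by
  unfold xX2
  rw [eval_sumT, List.map_map]
  have h : (Tm.eval v ∘ fun a => sqT (tX p a)) = fun a => v (en p + a) ^ 2 := by
    funext a
    simp [tX, Tm.eval]
  rw [h, list_range_sum, ← Fin.sum_univ_eq_sum_range (fun a => v (en p + a) ^ 2)]
  rfl

theorem eval_xCX (v : ℕ → ℝ) : (xCX p).eval v = ∑ a : Fin (en p), v a * XX p v a := by
  unfold xCX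
  rw [eval_sumT, List.map_map]
  have h : (Tm.eval v ∘ fun a => Tm.mul (Tm.var a) (tX p a)) = fun a => v a * v (en p + a) := by
    funext a
    simp [tX, Tm.eval]
  rw [h, list_range_sum, ← Fin.sum_univ_eq_sum_range (fun a => v a * v (en p + a))]
  rfl

theorem eval_tK (v : ℕ → ℝ) : (tK p).eval v = ((2 ^ ek p : ℕ) : ℝ) := by
  unfold tK
  rw [eval_natT, valB_replicate_false]
  simp

/-- The value of the first equation. -/
theorem eval_xET (v : ℕ → ℝ) (β : ℕ) (h : v (β + 1 + ek p) = v (β + 1) ^ 2 ^ ek p) :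
    (xET p β).eval v =
      eqT (locE p) (eS p) (2 ^ ek p) (v (bs p + x1 p)) (XX p v) (YY p v β) := by
  unfold xET eqT
  simp only [Tm.eval, eval_subT, eval_p5, eval_xGt, eval_tK]
  have h1 : (tT β 0).eval v = YY p v β 0 := by simp [tT, Tm.eval, YY]
  have h2 : (tT β (ek p)).eval v = YY p v β 0 ^ 2 ^ ek p := by
    simp only [tT, Tm.eval, YY, Fin.cons_zero, h]
  have h3 : (tτ p).eval v = v (bs p + x1 p) := rfl
  rw [h1, h2, h3]

theorem eval_xEZ (v : ℕ → ℝ) (β : ℕ) (b : Fin (el p)) : (xEZ p β b).eval v =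
    eqZ (locE p) (eS p) (v (bs p + x1 p)) (v (bs p + x3 p)) (XX p v) (YY p v β) b := by
  unfold xEZ eqZ
  simp only [Tm.eval, eval_subT, eval_sqT, eval_p6, eval_xGz, eval_numT]
  have h1 : (tZ p β b).eval v = YY p v β b.succ := by simp [tZ, Tm.eval, YY]
  have h3 : (tζ p).eval v = v (bs p + x3 p) := rfl
  rw [h1, h3]
  push_cast
  rfl

theorem eval_xVal (v : ℕ → ℝ) (β : ℕ) (h : v (β + 1 + ek p) = v (β + 1) ^ 2 ^ ek p) :
    (xVal p β).eval v =
      val (locE p) (eS p) (2 ^ ek p) (v (bs p + x1 p)) (v (bs p + x3 p)) (XX p v) (YY p v β) := by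
  unfold xVal val
  simp only [Tm.eval, eval_subT, eval_p5, eval_xQ, eval_xZ6]
  have h2 : (tT β (ek p)).eval v = YY p v β 0 ^ 2 ^ ek p := by
    simp only [tT, Tm.eval, YY, Fin.cons_zero, h]
  rw [h2]
  rfl

end

end Pool.Agent.K9h83.IP
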