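import Pool.Agent.R537.RN.Forms
import Pool.Agent.K9h83.IP.Der

/-!
# The main polynomials
-/

set_option autoImplicit false

namespace Pool.Agent.K9h83.IP

open Finset Pool.Agent.H612 Pool.Agent.R537.RN Pool.Agent.NPC

section ring

variable {R : Type} [CommRing R] {R' : Type} [CommRing R']

/-- The differential of the form of a constraint. -/
def dcerr (V : ℕ → R) (w : R) (V' : ℕ → R) (w' : R) : ER.Con → R
  | .one i => w' * (V i - w) + w * (V' i - w')
  | .add i j k => w' * (V i + V j - V k) + w * (V' i + V' j - V' k)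
  | .mul i j k => V' i * V j + V i * V' j - (w' * V k + w * V' k)

/-- The differential of the sum of the squares. -/
def dqsum (V : ℕ → R) (w : R) (V' : ℕ → R) (w' : R) (S : List ER.Con) : R :=
  (S.map fun c => 2 * (cerr V w c * dcerr V w V' w' c)).sum

@[simp] theorem dqsum_nil (V : ℕ → R) (w : R) (V' : ℕ → R) (w' : R) :
    dqsum V w V' w' [] = 0 := rfl

@[simp] theorem dqsum_cons (V : ℕ → R) (w : R) (V' : ℕ → R) (w' : R) (c : ER.Con)
    (S : List ER.Con) : dqsum V w V' w' (c :: S) =
      2 * (cerr V w c * dcerr V w V' w' c) + dqsum V w V' w' S := by simp [dqsum]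

theorem dqsum_map (f : R →+* R') (V : ℕ → R) (w : R) (V' : ℕ → R) (w' : R) (S : List ER.Con) :
    f (dqsum V w V' w' S) = dqsum (fun i => f (V i)) (f w) (fun i => f (V' i)) (f w') S := by
  induction S with
  | nil => simp
  | cons c S ih =>
    simp only [dqsum_cons, map_add, map_mul, ih, cerr_map, map_ofNat]
    congr 3
    cases c <;> simp [dcerr]

theorem dqsum_add (V : ℕ → R) (w : R) (V₁ V₂ : ℕ → R) (w₁ w₂ : R) (S : List ER.Con) :
    dqsum V w (fun i => V₁ i + V₂ i) (w₁ + w₂) S = dqsum V w V₁ w₁ S + dqsum V w V₂ w₂ S := by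
  induction S with
  | nil => simp
  | cons c S ih =>
    simp only [dqsum_cons, ih]
    cases c <;> simp only [dcerr] <;> ring

theorem dqsum_smul (V : ℕ → R) (w : R) (a : R) (V' : ℕ → R) (w' : R) (S : List ER.Con) :
    dqsum V w (fun i => a * V' i) (a * w') S = a * dqsum V w V' w' S := by
  induction S with
  | nil => simp
  | cons c S ih =>
    simp only [dqsum_cons, ih]
    cases c <;> simp only [dcerr] <;> ring

theorem dqsum_zero (V : ℕ → R) (w : R) (S : List ER.Con) :
    dqsum V w (fun _ => 0) 0 S = 0 := by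
  have := dqsum_smul V w 0 (fun _ => 0) 0 S
  simpa using this

theorem dqsum_sum {ι : Type} (s : Finset ι) (V : ℕ → R) (w : R) (V' : ι → ℕ → R) (w' : ι → R)
    (S : List ER.Con) :
    dqsum V w (fun i => ∑ a ∈ s, V' a i) (∑ a ∈ s, w' a) S = ∑ a ∈ s, dqsum V w (V' a) (w' a) S := by
  classical
  induction s using Finset.induction_on with
  | empty => simpa using dqsum_zero V w S
  | insert a s ha ih => simp only [Finset.sum_insert ha, dqsum_add, ih]

variable {n l : ℕ} (loc : ℕ → Fin n ⊕ Fin l) (S : List ER.Con) (K : ℕ)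

/-- The values of the variables. -/
def Vv (τ : R) (x : Fin n → R) (Y : Fin (l + 1) → R) (i : ℕ) : R :=
  Sum.elim (fun a => Y 0 * x a) (fun b => τ * Y b.succ) (loc i)

/-- The sum of the squares. -/
def qh (τ : R) (x : Fin n → R) (Y : Fin (l + 1) → R) : R := qsum (Vv loc τ x Y) (τ * Y 0) S

/-- The partial derivative with respect to `x a`. -/
def gx (τ : R) (x : Fin n → R) (Y : Fin (l + 1) → R) (a : Fin n) : R :=
  dqsum (Vv loc τ x Y) (τ * Y 0)
    (fun i => Sum.elim (fun a' => if a' = a then Y 0 else 0) (fun _ => 0) (loc i)) 0 S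

/-- The partial derivative with respect to `Y 0`. -/
def gt (τ : R) (x : Fin n → R) (Y : Fin (l + 1) → R) : R :=
  dqsum (Vv loc τ x Y) (τ * Y 0) (fun i => Sum.elim x (fun _ => 0) (loc i)) τ S

/-- The partial derivative with respect to `Y b.succ`. -/
def gz (τ : R) (x : Fin n → R) (Y : Fin (l + 1) → R) (b : Fin l) : R :=
  dqsum (Vv loc τ x Y) (τ * Y 0)
    (fun i => Sum.elim (fun _ => 0) (fun b' => if b' = b then τ else 0) (loc i)) 0 S

/-- The first stationarity equation. -/
def eqT (τ : R) (x : Fin n → R) (Y : Fin (l + 1) → R) : R :=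
  (1 - Y 0) * (Y 0 * gt loc S τ x Y - K * τ ^ 5 * Y 0 ^ K)

/-- The other stationarity equations. -/
def eqZ (τ ζ : R) (x : Fin n → R) (Y : Fin (l + 1) → R) (b : Fin l) : R :=
  (1 - Y b.succ ^ 2) * (Y b.succ * gz loc S τ x Y b + 6 * ζ * Y b.succ ^ 6)

/-- The value, up to a function of `x`. -/
def val (τ ζ : R) (x : Fin n → R) (Y : Fin (l + 1) → R) : R :=
  qh loc S τ x Y - τ ^ 5 * Y 0 ^ K + ζ * ∑ b : Fin l, Y b.succ ^ 6

theorem Vv_map (f : R →+* R') (τ : R) (x : Fin n → R) (Y : Fin (l + 1) → R) (i : ℕ) :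
    f (Vv loc τ x Y i) = Vv loc (f τ) (fun a => f (x a)) (fun b => f (Y b)) i := by
  unfold Vv
  rcases loc i with j | j <;> simp

theorem gx_map (f : R →+* R') (τ : R) (x : Fin n → R) (Y : Fin (l + 1) → R) (a : Fin n) :
    f (gx loc S τ x Y a) = gx loc S (f τ) (fun a => f (x a)) (fun b => f (Y b)) a := by
  unfold gx
  rw [dqsum_map, map_mul, map_zero]
  congr 1
  · funext i; rw [Vv_map]
  · funext i
    rcases loc i with j | j
    · simp only [Sum.elim_inl]; split_ifs <;> simp
    · simp

theorem gt_map (f : R →+* R') (τ : R) (x : Fin n → R) (Y : Fin (l + 1) → R) :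
    f (gt loc S τ x Y) = gt loc S (f τ) (fun a => f (x a)) (fun b => f (Y b)) := by
  unfold gt
  rw [dqsum_map, map_mul]
  congr 1
  · funext i; rw [Vv_map]
  · funext i
    rcases loc i with j | j <;> simp

theorem gz_map (f : R →+* R') (τ : R) (x : Fin n → R) (Y : Fin (l + 1) → R) (b : Fin l) :
    f (gz loc S τ x Y b) = gz loc S (f τ) (fun a => f (x a)) (fun b => f (Y b)) b := by
  unfold gz
  rw [dqsum_map, map_mul, map_zero]
  congr 1
  · funext i; rw [Vv_map]
  · funext i
    rcases loc i with j | j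
    · simp
    · simp only [Sum.elim_inr]; split_ifs <;> simp

theorem qh_map (f : R →+* R') (τ : R) (x : Fin n → R) (Y : Fin (l + 1) → R) :
    f (qh loc S τ x Y) = qh loc S (f τ) (fun a => f (x a)) (fun b => f (Y b)) := by
  unfold qh
  rw [qsum_map, map_mul]
  congr 1
  funext i; rw [Vv_map]

theorem eqT_map (f : R →+* R') (τ : R) (x : Fin n → R) (Y : Fin (l + 1) → R) :
    f (eqT loc S K τ x Y) = eqT loc S K (f τ) (fun a => f (x a)) (fun b => f (Y b)) := by
  simp only [eqT, map_mul, map_sub, map_one, map_natCast, map_pow, gt_map]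

theorem eqZ_map (f : R →+* R') (τ ζ : R) (x : Fin n → R) (Y : Fin (l + 1) → R) (b : Fin l) :
    f (eqZ loc S τ ζ x Y b) = eqZ loc S (f τ) (f ζ) (fun a => f (x a)) (fun b => f (Y b)) b := by
  simp only [eqZ, map_mul, map_sub, map_add, map_one, map_ofNat, map_pow, gz_map]

theorem val_map (f : R →+* R') (τ ζ : R) (x : Fin n → R) (Y : Fin (l + 1) → R) :
    f (val loc S K τ ζ x Y) = val loc S K (f τ) (f ζ) (fun a => f (x a)) (fun b => f (Y b)) := by
  simp only [val, map_mul, map_sub, map_add, map_sum, map_pow, qh_map]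

/-! ### Decomposition of the differential -/

theorem dq_decomp (τ : R) (x : Fin n → R) (Y : Fin (l + 1) → R) (x' : Fin n → R)
    (Y' : Fin (l + 1) → R) :
    dqsum (Vv loc τ x Y) (τ * Y 0)
      (fun i => Sum.elim (fun a => Y' 0 * x a + Y 0 * x' a) (fun b => τ * Y' b.succ) (loc i))
      (τ * Y' 0) S =
      ∑ a, x' a * gx loc S τ x Y a + Y' 0 * gt loc S τ x Y +
        ∑ b : Fin l, Y' b.succ * gz loc S τ x Y b := by
  classical
  unfold gx gt gz
  simp_rw [← dqsum_smul]
  rw [← dqsum_sum, ← dqsum_sum, ← dqsum_add, ← dqsum_add]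
  congr 1
  · funext i
    rcases h : loc i with j | j
    · simp [mul_comm (x' j), add_comm]
    · simp [mul_comm]
  · simp [mul_comm]

end ring

/-! ### Derivations -/

theorem deriv_qsum (D : Derivation ℚ ℝ ℝ) (V : ℕ → ℝ) (w : ℝ) (S : List ER.Con) :
    D (qsum V w S) = dqsum V w (fun i => D (V i)) (D w) S := by
  induction S with
  | nil => simp
  | cons c S ih =>
    rw [qsum_cons, dqsum_cons, map_add, ih, D.leibniz_pow]
    congr 1
    cases c <;>
      simp only [cerr, dcerr, D.leibniz, map_sub, map_add, smul_eq_mul, nsmul_eq_mul] <;>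
      push_cast <;> ring

/-! ### Real derivatives -/

theorem hasDerivAt_qsum {V V' : ℝ → ℕ → ℝ} {w w' : ℝ → ℝ} {s : ℝ}
    (hV : ∀ i, HasDerivAt (fun s => V s i) (V' s i) s) (hw : HasDerivAt w (w' s) s)
    (S : List ER.Con) :
    HasDerivAt (fun s => qsum (V s) (w s) S) (dqsum (V s) (w s) (V' s) (w' s) S) s := by
  induction S with
  | nil => simpa using hasDerivAt_const s (0 : ℝ)
  | cons c S ih =>
    simp only [qsum_cons, dqsum_cons]
    have hc : HasDerivAt (fun s => cerr (V s) (w s) c) (dcerr (V s) (w s) (V' s) (w' s) c) s := by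
      cases c with
      | one i =>
        simp only [cerr, dcerr]
        exact hw.mul ((hV i).sub hw)
      | add i j k =>
        simp only [cerr, dcerr]
        exact hw.mul (((hV i).add (hV j)).sub (hV k))
      | mul i j k =>
        simp only [cerr, dcerr]
        exact ((hV i).mul (hV j)).sub (hw.mul (hV k))
    have h2 := (hc.pow 2).add ih
    refine h2.congr_deriv ?_
    push_cast
    ring

end Pool.Agent.K9h83.IP
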