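import Pool.Agent.K9h83.IP.Sgn
import Pool.Agent.K9h83.IP.G

/-!
# The effective gap
-/

set_option autoImplicit false

namespace Pool.Agent.K9h83.IP

open Finset Filter Topology Pool.Agent.H612 Pool.Agent.R537.RN Pool.Agent.NPC

variable {n l : ℕ} (loc : ℕ → Fin n ⊕ Fin l) (S : List ER.Con)

/-- The values of the variables. -/
def pick2 (x : Fin n → ℝ) (z : Fin l → ℝ) (i : ℕ) : ℝ := Sum.elim x z (loc i)

/-- The sentence `∃ x ∀ z, ¬ S`. -/
def Sent2 : Prop := ∃ x : Fin n → ℝ, ∀ z : Fin l → ℝ, ¬ ER.SysHolds (pick2 loc x z) S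

/-- The set of the inner variables. -/
def box (l : ℕ) : Set (Fin (l + 1) → ℝ) := {Y | 0 ≤ Y 0 ∧ Y 0 ≤ 1 ∧ ∀ b : Fin l, |Y b.succ| ≤ 1}

theorem zero_mem_box (l : ℕ) : (0 : Fin (l + 1) → ℝ) ∈ box l := ⟨le_refl _, zero_le_one, fun b => by simp⟩

theorem L1' (x : Fin n → ℝ) (hno : ∀ z : Fin l → ℝ, ¬ ER.SysHolds (pick2 loc x z) S) :
    ∃ c : ℝ, 0 < c ∧ ∀ z ∈ cube l, ∀ t : ℝ, 0 ≤ t → t ≤ 1 →
      c * t ^ (2 ^ kap l S.length) ≤
        qsum (fun i => Sum.elim (fun j => t * x j) z (loc i)) t S := by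
  have hp : ∀ (x : Fin n → ℝ) (y : Fin 0 → ℝ) (z : Fin l → ℝ),
      pick (fun i => Sum.map id Sum.inr (loc i)) x y z = fun i => Sum.elim x z (loc i) := by
    intro x y z
    funext i
    unfold pick
    rcases h : loc i with j | j <;> simp [h]
  obtain ⟨c, hc0, hc⟩ := L1 (fun i => Sum.map id Sum.inr (loc i)) S x (fun j : Fin 0 => 0) (by
    rintro ⟨z, hz⟩
    rw [hp] at hz
    exact hno z hz)
  refine ⟨c, hc0, fun z hz t h0 h1 => ?_⟩
  have := hc z hz t h0 h1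
  rwa [hp] at this

theorem qh_eq (τ : ℝ) (x : Fin n → ℝ) (Y : Fin (l + 1) → ℝ) :
    qh loc S τ (fun a => τ * x a) Y =
      τ ^ 4 * qsum (fun i => Sum.elim (fun j => Y 0 * x j) (fun b => Y b.succ) (loc i)) (Y 0) S := by
  rw [← qsum_scale]
  unfold qh
  congr 1
  funext i
  unfold Vv
  rcases loc i with j | j
  · simp only [Sum.elim_inl]; ring
  · simp only [Sum.elim_inr]

theorem qh_zero_of_sys (τ : ℝ) (x : Fin n → ℝ) (z : Fin l → ℝ) (t : ℝ)
    (h : ER.SysHolds (pick2 loc x z) S) :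
    qh loc S τ (fun a => τ * x a) (Fin.cons t fun b => t * z b) = 0 := by
  rw [qh_eq]
  have h1 : (fun i => Sum.elim (fun j => (Fin.cons t fun b => t * z b : Fin (l + 1) → ℝ) 0 * x j)
      (fun b : Fin l => (Fin.cons t fun b => t * z b : Fin (l + 1) → ℝ) b.succ) (loc i)) =
      fun i => t * pick2 loc x z i := by
    funext i
    unfold pick2
    rcases loc i with j | j <;> simp
  rw [h1]
  have h2 := qsum_scale t (pick2 loc x z) 1 S
  rw [mul_one] at h2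
  rw [Fin.cons_zero, h2, (qsum_one_iff _ _).2 h]
  ring

/-- The inner variables from the variables in the cube. -/
def sqY {R : Type} [CommRing R] (U : Fin (l + 1) → R) : Fin (l + 1) → R :=
  Fin.cons (U 0 ^ 2) fun b => U b.succ

theorem sqY_map {R R' : Type} [CommRing R] [CommRing R'] (f : R →+* R') (U : Fin (l + 1) → R) :
    (fun b => f (sqY U b)) = sqY fun b => f (U b) := by
  funext b
  refine Fin.cases ?_ (fun b => ?_) b
  · simp [sqY]
  · simp [sqY]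

theorem sqY_mem {U : Fin (l + 1) → ℝ} (hU : U ∈ cube (l + 1)) : sqY U ∈ box l := by
  have h := hU 0
  have h1 : U 0 ^ 2 ≤ 1 := by
    rw [← sq_abs]
    nlinarith [abs_nonneg (U 0)]
  refine ⟨?_, ?_, fun b => ?_⟩
  · simp only [sqY, Fin.cons_zero]; positivity
  · simp only [sqY, Fin.cons_zero]; exact h1
  · simp only [sqY, Fin.cons_succ]; exact hU _

theorem exists_sqY {Y : Fin (l + 1) → ℝ} (hY : Y ∈ box l) : ∃ U ∈ cube (l + 1), sqY U = Y := by
  refine ⟨Fin.cons (Real.sqrt (Y 0)) fun b => Y b.succ, ?_, ?_⟩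
  · intro j
    refine Fin.cases ?_ (fun j => ?_) j
    · rw [Fin.cons_zero, abs_of_nonneg (Real.sqrt_nonneg _)]
      exact Real.sqrt_le_one.2 hY.2.1
    · rw [Fin.cons_succ]; exact hY.2.2 j
  · funext j
    refine Fin.cases ?_ (fun j => ?_) j
    · simp only [sqY, Fin.cons_zero]
      exact Real.sq_sqrt hY.1
    · simp only [sqY, Fin.cons_succ]

/-- The first exponent. -/
def k1 (n l s : ℕ) : ℕ := Gx n (Gx (l + 1) (kap l s + s + 6))
/-- The exponent of `τ`. -/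
def N1 (n l s : ℕ) : ℕ := k1 n l s + 1
/-- The second exponent. -/
def k2 (n l s : ℕ) : ℕ := Gx n (Gx (l + 1) (N1 n l s + n + s + kap l s + 8))

/-- If the sentence is true, then some point of the cube is good. -/
theorem gap_T (h : Sent2 loc S) :
    ∃ x ∈ cube n, ∀ Y ∈ box l, 0 ≤ qh loc S ((1 / 2 : ℝ) ^ 2 ^ N1 n l S.length) x Y -
      ((1 / 2 : ℝ) ^ 2 ^ N1 n l S.length) ^ 5 * Y 0 ^ (2 ^ kap l S.length) := by
  obtain ⟨κ, hκ⟩ : ∃ κ, κ = kap l S.length := ⟨_, rfl⟩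
  obtain ⟨F, hFdef⟩ : ∃ F : MvPolynomial (Fin (l + 1)) (MvPolynomial (Fin n)
      (MvPolynomial (Fin 1) ℤ)), F =
      qh loc S (MvPolynomial.C (MvPolynomial.C (MvPolynomial.X 0)) : MvPolynomial (Fin (l + 1))
          (MvPolynomial (Fin n) (MvPolynomial (Fin 1) ℤ)))
        (fun j => MvPolynomial.C (MvPolynomial.X j)) (sqY fun b => MvPolynomial.X b) -
      (MvPolynomial.C (MvPolynomial.C (MvPolynomial.X 0))) ^ 5 *
        ((MvPolynomial.X 0) ^ 2) ^ (2 ^ κ) := ⟨_, rfl⟩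
  have hF : ∀ s, (((Lvl.int.ext 1).ext n).ext (l + 1)).φ s F =
      qh loc S (s.1.1.2 0) s.1.2 (sqY s.2) - (s.1.1.2 0) ^ 5 * (sqY s.2 0) ^ 2 ^ κ := by
    intro s
    rw [hFdef, map_sub, qh_map, sqY_map]
    simp only [ext_φ_C, ext_φ_X, map_pow, map_mul]
    rfl
  have hX2 : (wm (wm (wm RNorm.int 1) n) (l + 1)).ν ((MvPolynomial.X 0) ^ 2) ≤ 4 :=
    ν_pow _ _ 2 2 (wm_X _ _)
  have hFν : 1 + (wm (wm (wm RNorm.int 1) n) (l + 1)).ν F ≤ 2 ^ 2 ^ (κ + S.length + 6) := by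
    have hτ : (wm (wm (wm RNorm.int 1) n) (l + 1)).ν
        (MvPolynomial.C (MvPolynomial.C (MvPolynomial.X 0)) : MvPolynomial (Fin (l + 1))
          (MvPolynomial (Fin n) (MvPolynomial (Fin 1) ℤ))) ≤ 2 := by
      rw [wm_C, wm_C]; exact wm_X _ _
    have h1 : (wm (wm (wm RNorm.int 1) n) (l + 1)).ν (qh loc S
        (MvPolynomial.C (MvPolynomial.C (MvPolynomial.X 0)) : MvPolynomial (Fin (l + 1))
          (MvPolynomial (Fin n) (MvPolynomial (Fin 1) ℤ)))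
        (fun j => MvPolynomial.C (MvPolynomial.X j)) (sqY fun b => MvPolynomial.X b)) ≤
        9 * 8 ^ 4 * S.length := by
      refine qsum_ν _ _ _ _ (fun i => ?_) ?_ S
      · unfold Vv
        rcases loc i with j | j
        · simp only [Sum.elim_inl, sqY, Fin.cons_zero]
          refine (RNorm.mul _ _ _).trans ((Nat.mul_le_mul hX2 ?_).trans
            (by norm_num : 4 * 2 ≤ 8))
          rw [wm_C]; exact wm_X _ _
        · simp only [Sum.elim_inr, sqY, Fin.cons_succ]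
          exact (RNorm.mul _ _ _).trans ((Nat.mul_le_mul hτ (wm_X _ _)).trans
            (by norm_num : 2 * 2 ≤ 8))
      · simp only [sqY, Fin.cons_zero]
        exact (RNorm.mul _ _ _).trans ((Nat.mul_le_mul hτ hX2).trans
            (by norm_num : 2 * 4 ≤ 8))
    have h2 : (wm (wm (wm RNorm.int 1) n) (l + 1)).ν
        ((MvPolynomial.C (MvPolynomial.C (MvPolynomial.X 0))) ^ 5 *
          ((MvPolynomial.X 0) ^ 2) ^ (2 ^ κ)) ≤ 2 ^ 5 * 4 ^ 2 ^ κ :=
      (RNorm.mul _ _ _).trans (Nat.mul_le_mul (ν_pow _ _ _ _ hτ) (ν_pow _ _ _ _ hX2))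
    have h3 := (RNorm.sub (wm (wm (wm RNorm.int 1) n) (l + 1)) (qh loc S
        (MvPolynomial.C (MvPolynomial.C (MvPolynomial.X 0)))
        (fun j => MvPolynomial.C (MvPolynomial.X j)) (sqY fun b => MvPolynomial.X b))
        ((MvPolynomial.C (MvPolynomial.C (MvPolynomial.X 0))) ^ 5 *
          ((MvPolynomial.X 0) ^ 2) ^ (2 ^ κ))).trans (Nat.add_le_add h1 h2)
    rw [← hFdef] at h3
    have h4 := bound_B S.length κ 0
    simp only [add_zero] at h4
    omega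
  obtain ⟨Q, hQ0, hQν, b, hb, hQ, hb2, hb3⟩ := maxmin (Lvl.int.ext 1) (wm RNorm.int 1)
    (wm_pos RNorm.int int_pos) F hFν
  obtain ⟨x, hx⟩ := h
  obtain ⟨c, hc0, hc⟩ := L1' loc S x hx
  obtain ⟨t, ht0, ht1, htx, -⟩ := exists_scale x 0
  -- the values are nonnegative for small parameters
  have hsmall : ∀ σ, 0 < σ → σ ≤ min c t → 0 ≤ b ((), fun _ => σ) := by
    intro σ hσ0 hσ
    have hσc : σ ≤ c := hσ.trans (min_le_left _ _)
    have hσt : σ ≤ t := hσ.trans (min_le_right _ _)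
    have hcube : (fun a => σ * x a) ∈ cube n := by
      intro j
      have h1 := (htx j).le
      rw [abs_mul, abs_of_pos ht0] at h1
      rw [abs_mul, abs_of_pos hσ0]
      exact (mul_le_mul_of_nonneg_right hσt (abs_nonneg _)).trans h1
    obtain ⟨U, hU, hUb⟩ := hb2 ((), fun _ => σ) _ hcube
    refine le_trans ?_ hUb
    rw [hF]
    simp only
    rw [qh_eq, sub_nonneg]
    have h2 := hc (fun b => sqY U b.succ) (fun b => (sqY_mem hU).2.2 b) (sqY U 0)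
      (sqY_mem hU).1 (sqY_mem hU).2.1
    rw [← hκ] at h2
    have h3 : (0 : ℝ) ≤ sqY U 0 ^ 2 ^ κ := pow_nonneg (sqY_mem hU).1 _
    calc σ ^ 5 * sqY U 0 ^ 2 ^ κ = σ ^ 4 * (σ * sqY U 0 ^ 2 ^ κ) := by ring
      _ ≤ σ ^ 4 * (c * sqY U 0 ^ 2 ^ κ) := by gcongr
      _ ≤ _ := mul_le_mul_of_nonneg_left h2 (by positivity)
  obtain ⟨B, hB⟩ : ∃ B : ℕ, B = 2 ^ 2 ^ Gx n (Gx (l + 1) (κ + S.length + 6)) := ⟨_, rfl⟩
  have hBr : (B : ℝ) = 2 ^ 2 ^ k1 n l S.length := by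
    rw [hB, hκ]; push_cast; rfl
  have hB0 : (0 : ℝ) < B := by rw [hBr]; positivity
  have hmain : 0 ≤ b ((), fun _ => (1 / 2 : ℝ) ^ 2 ^ N1 n l S.length) := by
    have key := sign_const_int Q hQ0 B (by rw [hB]; exact hQν) (fun s => b ((), fun _ => s))
      (hb.comp (by fun_prop)) (fun s => hQ _)
    have hlt : B * ((1 / 2 : ℝ) ^ 2 ^ N1 n l S.length) < 1 := by
      rw [hBr]
      unfold N1
      rw [pow_succ 2 (k1 n l S.length), pow_mul, pow_two, ← mul_assoc, ← mul_pow]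
      norm_num
      exact pow_lt_one₀ (by norm_num) (by norm_num) (by positivity)
    rcases key with hk | hk | hk
    · exfalso
      have hm : 0 < min c t := lt_min hc0 ht0
      have h1 := hsmall (min (min c t) (1 / (2 * B))) (lt_min hm (by positivity))
        (min_le_left _ _)
      have h2 := hk (min (min c t) (1 / (2 * B))) (lt_min hm (by positivity)) (by
        have h3 : (B : ℝ) * min (min c t) (1 / (2 * B)) ≤ B * (1 / (2 * B)) :=
          mul_le_mul_of_nonneg_left (min_le_right _ _) hB0.le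
        have h4 : (B : ℝ) * (1 / (2 * B)) = 1 / 2 := by field_simp
        linarith)
      linarith
    · exact (hk _ (by positivity) hlt).ge
    · exact (hk _ (by positivity) hlt).le
  obtain ⟨x', hx', hU⟩ := hb3 ((), fun _ => (1 / 2 : ℝ) ^ 2 ^ N1 n l S.length)
  refine ⟨x', hx', fun Y hY => ?_⟩
  obtain ⟨U, hUc, rfl⟩ := exists_sqY hY
  have h1 := hU U hUc
  rw [hF] at h1
  simp only at h1
  rw [← hκ]
  linarith

theorem bound_F (n s κ N : ℕ) :
    1 + (2 ^ 2 ^ N * (9 * (8 * (2 ^ 2 ^ N * 2 ^ (n + 1))) ^ 4 * s) + 4 ^ 2 ^ κ +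
      (2 ^ 2 ^ N) ^ 5 * 2) ≤ 2 ^ 2 ^ (N + n + s + κ + 8) := by
  have h2 : ∀ k : ℕ, k + 1 ≤ 2 ^ k := fun k => Nat.lt_two_pow_self
  have hT : 2 ^ (N + n + s + κ + 8) = 256 * 2 ^ (N + n + s + κ) := by rw [pow_add]; ring
  set E := 2 ^ (N + n + s + κ) with hE
  have h1 : 1 ≤ E := Nat.one_le_two_pow
  have hN : 2 ^ N ≤ E := Nat.pow_le_pow_right (by norm_num) (by omega)
  have hκ : 2 ^ κ ≤ E := Nat.pow_le_pow_right (by norm_num) (by omega)
  have hn : n + 1 ≤ E := (h2 n).trans (Nat.pow_le_pow_right (by norm_num) (by omega))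
  have hs : s + 1 ≤ E := (h2 s).trans (Nat.pow_le_pow_right (by norm_num) (by omega))
  have e1 : 2 ^ 2 ^ N ≤ 2 ^ E := Nat.pow_le_pow_right (by norm_num) hN
  have e2 : 4 ^ 2 ^ κ ≤ 2 ^ (2 * E) := by
    rw [show (4 : ℕ) = 2 ^ 2 by norm_num, ← pow_mul]
    exact Nat.pow_le_pow_right (by norm_num) (by omega)
  have e3 : 2 ^ (n + 1) ≤ 2 ^ E := Nat.pow_le_pow_right (by norm_num) hn
  have e4 : s ≤ 2 ^ E := by have := h2 E; omega
  have e5 : 2 ^ 2 ^ N * (9 * (8 * (2 ^ 2 ^ N * 2 ^ (n + 1))) ^ 4 * s) ≤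
      2 ^ E * (9 * (8 * (2 ^ E * 2 ^ E)) ^ 4 * 2 ^ E) := by gcongr
  have e6 : 2 ^ E * (9 * (8 * (2 ^ E * 2 ^ E)) ^ 4 * 2 ^ E) = 36864 * 2 ^ (10 * E) := by
    rw [show 10 * E = E + ((E + E) * 4 + E) by ring, pow_add 2 E, pow_add 2 ((E + E) * 4),
      pow_mul, pow_add 2 E E]
    ring
  have e7 : (2 ^ 2 ^ N) ^ 5 * 2 ≤ 2 ^ (10 * E) * 2 := by
    apply Nat.mul_le_mul_right
    calc (2 ^ 2 ^ N) ^ 5 ≤ (2 ^ E) ^ 5 := Nat.pow_le_pow_left e1 5
      _ = 2 ^ (E * 5) := (pow_mul _ _ _).symm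
      _ ≤ 2 ^ (10 * E) := Nat.pow_le_pow_right (by norm_num) (by omega)
  have e8 : 2 ^ (2 * E) ≤ 2 ^ (10 * E) := Nat.pow_le_pow_right (by norm_num) (by omega)
  have e9 : 1 ≤ 2 ^ (10 * E) := Nat.one_le_two_pow
  rw [hT]
  calc _ ≤ 2 ^ 16 * 2 ^ (10 * E) := by omega
    _ = 2 ^ (16 + 10 * E) := (pow_add _ _ _).symm
    _ ≤ 2 ^ (256 * E) := Nat.pow_le_pow_right (by norm_num) (by omega)

/-- If the sentence is false, then no point is good, with a margin. -/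
theorem gap_F (h : ¬ Sent2 loc S) (x : Fin n → ℝ) (hx : ∀ a, |x a| ≤ 2 ^ (n + 1)) :
    ∃ Y ∈ box l, qh loc S ((1 / 2 : ℝ) ^ 2 ^ N1 n l S.length) x Y -
      ((1 / 2 : ℝ) ^ 2 ^ N1 n l S.length) ^ 5 * Y 0 ^ (2 ^ kap l S.length) ≤
        - (1 / 2 : ℝ) ^ 2 ^ (k2 n l S.length + 1) := by
  obtain ⟨κ, hκ⟩ : ∃ κ, κ = kap l S.length := ⟨_, rfl⟩
  obtain ⟨M, hM⟩ : ∃ M, M = N1 n l S.length := ⟨_, rfl⟩
  obtain ⟨Tn, hTn⟩ : ∃ Tn : ℕ, Tn = 2 ^ 2 ^ M := ⟨_, rfl⟩
  obtain ⟨Rn, hRn⟩ : ∃ Rn : ℕ, Rn = 2 ^ (n + 1) := ⟨_, rfl⟩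
  obtain ⟨τ, hτ⟩ : ∃ τ : ℝ, τ = (1 / 2 : ℝ) ^ 2 ^ M := ⟨_, rfl⟩
  have hTτ : (Tn : ℝ) * τ = 1 := by
    rw [hTn, hτ]
    push_cast
    rw [← mul_pow]
    norm_num
  have hT0 : (0 : ℝ) < Tn := by rw [hTn]; positivity
  have hR0 : (0 : ℝ) < Rn := by rw [hRn]; positivity
  obtain ⟨F, hFdef⟩ : ∃ F : MvPolynomial (Fin (l + 1)) (MvPolynomial (Fin n)
      (MvPolynomial (Fin 1) ℤ)), F =
      ((Tn : ℕ) : MvPolynomial (Fin (l + 1)) (MvPolynomial (Fin n) (MvPolynomial (Fin 1) ℤ))) *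
        qsum (fun i => Sum.elim (fun j => ((Tn * Rn : ℕ) : MvPolynomial (Fin (l + 1))
          (MvPolynomial (Fin n) (MvPolynomial (Fin 1) ℤ))) *
          ((MvPolynomial.X 0) ^ 2 * MvPolynomial.C (MvPolynomial.X j)))
          (fun b => MvPolynomial.X b.succ) (loc i)) ((MvPolynomial.X 0) ^ 2) S -
      ((MvPolynomial.X 0) ^ 2) ^ (2 ^ κ) +
      ((Tn ^ 5 : ℕ) : MvPolynomial (Fin (l + 1)) (MvPolynomial (Fin n)
        (MvPolynomial (Fin 1) ℤ))) * (MvPolynomial.C (MvPolynomial.C (MvPolynomial.X 0))) :=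
    ⟨_, rfl⟩
  have hF : ∀ s, (((Lvl.int.ext 1).ext n).ext (l + 1)).φ s F =
      (Tn : ℝ) ^ 5 * (qh loc S τ (fun a => Rn * s.1.2 a) (sqY s.2) -
        τ ^ 5 * (sqY s.2 0) ^ 2 ^ κ + s.1.1.2 0) := by
    intro s
    rw [hFdef, map_add, map_sub, map_mul, qsum_map]
    simp only [ext_φ_X, map_pow, map_mul, map_natCast, ext_φ_C]
    have h1 : qsum (fun i => (((Lvl.int.ext 1).ext n).ext (l + 1)).φ s
        (Sum.elim (fun j => ((Tn * Rn : ℕ) : MvPolynomial (Fin (l + 1))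
          (MvPolynomial (Fin n) (MvPolynomial (Fin 1) ℤ))) *
          ((MvPolynomial.X 0) ^ 2 * MvPolynomial.C (MvPolynomial.X j)))
          (fun b => MvPolynomial.X b.succ) (loc i))) (s.2 0 ^ 2) S =
        (Tn : ℝ) ^ 4 * qh loc S τ (fun a => Rn * s.1.2 a) (sqY s.2) := by
      unfold qh
      rw [← qsum_scale]
      congr 1
      · funext i
        unfold Vv
        rcases loc i with j | j
        · simp only [Sum.elim_inl, map_mul, map_natCast, map_pow, ext_φ_X, ext_φ_C, sqY,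
            Fin.cons_zero]
          push_cast
          ring
        · simp only [Sum.elim_inr, ext_φ_X, sqY, Fin.cons_succ]
          rw [← mul_assoc, hTτ, one_mul]
      · rw [← mul_assoc, hTτ, one_mul]
        simp only [sqY, Fin.cons_zero]
    rw [h1]
    simp only [sqY, Fin.cons_zero]
    have h2 : (Tn : ℝ) ^ 5 * (τ ^ 5 * (s.2 0 ^ 2) ^ 2 ^ κ) = (s.2 0 ^ 2) ^ 2 ^ κ := by
      rw [← mul_assoc, ← mul_pow, hTτ, one_pow, one_mul]
    rw [mul_add, mul_sub, h2]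
    push_cast
    ring
  have hX2 : (wm (wm (wm RNorm.int 1) n) (l + 1)).ν ((MvPolynomial.X 0) ^ 2) ≤ 4 :=
    ν_pow _ _ 2 2 (wm_X _ _)
  have hFν : 1 + (wm (wm (wm RNorm.int 1) n) (l + 1)).ν F ≤
      2 ^ 2 ^ (M + n + S.length + κ + 8) := by
    have hA1 : 1 ≤ Tn * Rn := by
      rw [hTn, hRn]
      exact Nat.mul_pos (by positivity) (by positivity)
    have h1 := qsum_ν (wm (wm (wm RNorm.int 1) n) (l + 1))
      (fun i => Sum.elim (fun j => ((Tn * Rn : ℕ) : MvPolynomial (Fin (l + 1))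
          (MvPolynomial (Fin n) (MvPolynomial (Fin 1) ℤ))) *
          ((MvPolynomial.X 0) ^ 2 * MvPolynomial.C (MvPolynomial.X j)))
          (fun b => MvPolynomial.X b.succ) (loc i)) ((MvPolynomial.X 0) ^ 2) (8 * (Tn * Rn))
      (fun i => by
        rcases loc i with j | j
        · simp only [Sum.elim_inl]
          refine (RNorm.mul _ _ _).trans ?_
          have e1 := (wm (wm (wm RNorm.int 1) n) (l + 1)).natCast (Tn * Rn)
          have e2 : (wm (wm (wm RNorm.int 1) n) (l + 1)).ν ((MvPolynomial.X 0) ^ 2 *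
              MvPolynomial.C (MvPolynomial.X j)) ≤ 4 * 2 :=
            (RNorm.mul _ _ _).trans (Nat.mul_le_mul hX2 (by rw [wm_C]; exact wm_X _ _))
          exact (Nat.mul_le_mul e1 e2).trans (by omega)
        · simp only [Sum.elim_inr]
          exact (wm_X _ _).trans (by omega)) (hX2.trans (by omega)) S
    have h2 := (wm (wm (wm RNorm.int 1) n) (l + 1)).natCast Tn
    have h3 : (wm (wm (wm RNorm.int 1) n) (l + 1)).ν (((MvPolynomial.X 0) ^ 2) ^ (2 ^ κ)) ≤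
        4 ^ 2 ^ κ := ν_pow _ _ _ _ hX2
    have h4 := (wm (wm (wm RNorm.int 1) n) (l + 1)).natCast (Tn ^ 5)
    have h5 : (wm (wm (wm RNorm.int 1) n) (l + 1)).ν
        (MvPolynomial.C (MvPolynomial.C (MvPolynomial.X 0))) ≤ 2 := by
      rw [wm_C, wm_C]; exact wm_X _ _
    have h6 : (wm (wm (wm RNorm.int 1) n) (l + 1)).ν F ≤
        Tn * (9 * (8 * (Tn * Rn)) ^ 4 * S.length) + 4 ^ 2 ^ κ + Tn ^ 5 * 2 := by
      rw [hFdef]
      refine (RNorm.add _ _ _).trans (Nat.add_le_add ((RNorm.sub _ _ _).trans (Nat.add_le_add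
        ((RNorm.mul _ _ _).trans (Nat.mul_le_mul h2 h1)) h3))
        ((RNorm.mul _ _ _).trans (Nat.mul_le_mul h4 h5)))
    have h7 := bound_F n S.length κ M
    rw [← hTn, ← hRn] at h7
    omega
  obtain ⟨Q, hQ0, hQν, b, hb, hQ, hb2, hb3⟩ := maxmin (Lvl.int.ext 1) (wm RNorm.int 1)
    (wm_pos RNorm.int int_pos) F hFν
  have hb0 : b ((), fun _ => 0) < 0 := by
    obtain ⟨x', hx', hU⟩ := hb3 ((), fun _ => 0)
    unfold Sent2 at h
    push Not at h
    obtain ⟨z, hz⟩ := h fun a => Tn * (Rn * x' a)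
    obtain ⟨t, ht0, ht1, htz, -⟩ := exists_scale z 0
    have hbox : (Fin.cons t fun b => t * z b : Fin (l + 1) → ℝ) ∈ box l :=
      ⟨ht0.le, ht1.le, fun b => (htz b).le⟩
    obtain ⟨U, hUc, hUY⟩ := exists_sqY hbox
    have h1 := hU U hUc
    rw [hF] at h1
    simp only [hUY] at h1
    have h2 := qh_zero_of_sys loc S τ (fun a => Tn * (Rn * x' a)) z t hz
    have h3 : (fun a => τ * (Tn * (Rn * x' a))) = fun a => Rn * x' a := by
      funext a
      rw [← mul_assoc, mul_comm τ, hTτ, one_mul]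
    rw [h3] at h2
    rw [h2, Fin.cons_zero] at h1
    refine lt_of_le_of_lt h1 ?_
    have hτ0 : 0 < τ := by rw [hτ]; positivity
    have : 0 < Tn ^ 5 * (τ ^ 5 * t ^ 2 ^ κ) := by positivity
    nlinarith
  obtain ⟨B, hB⟩ : ∃ B : ℕ, B = 2 ^ 2 ^ Gx n (Gx (l + 1) (M + n + S.length + κ + 8)) := ⟨_, rfl⟩
  have hBr : (B : ℝ) = 2 ^ 2 ^ k2 n l S.length := by
    rw [hB, hκ, hM]; push_cast; rfl
  have hB0 : (0 : ℝ) < B := by rw [hBr]; positivity
  have hmain : b ((), fun _ => (1 / 2 : ℝ) ^ 2 ^ (k2 n l S.length + 1)) < 0 := by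
    have hbc : Continuous fun s : ℝ => b ((), fun _ => s) := hb.comp (by fun_prop)
    have key := sign_const_int Q hQ0 B (by rw [hB]; exact hQν) (fun s => b ((), fun _ => s))
      hbc (fun s => hQ _)
    have hlt : B * ((1 / 2 : ℝ) ^ 2 ^ (k2 n l S.length + 1)) < 1 := by
      rw [hBr]
      rw [pow_succ 2 (k2 n l S.length), pow_mul, pow_two, ← mul_assoc, ← mul_pow]
      norm_num
      exact pow_lt_one₀ (by norm_num) (by norm_num) (by positivity)
    have hev : ∀ᶠ s : ℝ in 𝓝 0, b ((), fun _ => s) < 0 := hbc.continuousAt.eventually_lt_const hb0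
    obtain ⟨ε, hε, hε2⟩ := Metric.eventually_nhds_iff.1 hev
    have hs0 : 0 < min (ε / 2) (1 / (2 * B)) := lt_min (by linarith) (by positivity)
    have hsb := hε2 (y := min (ε / 2) (1 / (2 * B))) (by
      rw [Real.dist_eq, sub_zero, abs_of_pos hs0]
      exact (min_le_left _ _).trans_lt (by linarith))
    have hsB : (B : ℝ) * min (ε / 2) (1 / (2 * B)) < 1 := by
      have h3 : (B : ℝ) * min (ε / 2) (1 / (2 * B)) ≤ B * (1 / (2 * B)) :=
        mul_le_mul_of_nonneg_left (min_le_right _ _) hB0.le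
      have h4 : (B : ℝ) * (1 / (2 * B)) = 1 / 2 := by field_simp
      linarith
    rcases key with hk | hk | hk
    · exact hk _ (by positivity) hlt
    · have := hk _ hs0 hsB
      linarith
    · have := hk _ hs0 hsB
      linarith
  obtain ⟨U, hU, hU2⟩ := hb2 ((), fun _ => (1 / 2 : ℝ) ^ 2 ^ (k2 n l S.length + 1))
    (fun a => x a / Rn) (fun a => by
      have h1 := hx a
      rw [abs_div, abs_of_pos hR0, div_le_one hR0, hRn]
      push_cast
      exact h1)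
  refine ⟨sqY U, sqY_mem hU, ?_⟩
  rw [hF] at hU2
  simp only at hU2
  have h1 : (fun a => (Rn : ℝ) * (x a / Rn)) = x := by
    funext a
    field_simp
  rw [h1] at hU2
  have h2 : (Tn : ℝ) ^ 5 * (qh loc S τ x (sqY U) - τ ^ 5 * sqY U 0 ^ 2 ^ κ +
      (1 / 2 : ℝ) ^ 2 ^ (k2 n l S.length + 1)) < 0 := lt_of_le_of_lt hU2 hmain
  have h3 : (0 : ℝ) < (Tn : ℝ) ^ 5 := by positivity
  have h4 := (pos_iff_neg_of_mul_neg h2).1 h3
  rw [← hM, ← hκ, ← hτ]
  linarith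

end Pool.Agent.K9h83.IP
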