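import Pool.Agent.K9h83.IP.G
import Pool.Agent.R537.RN.Crit

/-!
# Stationary points for generic perturbations
-/

set_option autoImplicit false

namespace Pool.Agent.K9h83.IP

open Finset Pool.Agent.H612 Pool.Agent.R537.RN Pool.Agent.NPC

/-- The trivial norm. -/
noncomputable def trv (K : Type) [CommRing K] : RNorm K := by
  classical
  exact
  { ν := fun c => if c = 0 then 0 else 1
    zero := by simp
    one := by split_ifs <;> omega
    neg := fun x => by simp
    add := fun x y => by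
      by_cases hx : x = 0
      · simp [hx]
      · simp only [hx, if_false]
        split_ifs <;> omega
    mul := fun x y => by
      by_cases hx : x = 0
      · simp [hx]
      · by_cases hy : y = 0
        · simp [hy]
        · simp only [hx, hy, if_false]
          split_ifs <;> omega }

section deg

variable {A : Type} [CommRing A] {N : ℕ}

theorem _root_.Pool.Agent.H612.DegLE.pow {p : MvPolynomial (Fin N) A} {m : ℕ} (hp : DegLE p m) (k : ℕ) :
    DegLE (p ^ k) (k * m) :=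
  degLE_of_totalDegree ((MvPolynomial.totalDegree_pow _ _).trans
    (Nat.mul_le_mul_left _ (totalDegree_of_degLE hp)))

theorem degLE_one (m : ℕ) : DegLE (1 : MvPolynomial (Fin N) A) m := by
  rw [← MvPolynomial.C_1]; exact degLE_C _ _

theorem degLE_cerr {V : ℕ → MvPolynomial (Fin N) A} {w : MvPolynomial (Fin N) A}
    (hV : ∀ i, DegLE (V i) 1) (hw : DegLE w 1) (c : ER.Con) : DegLE (cerr V w c) 2 := by
  cases c with
  | one i => exact hw.mul ((hV i).sub hw)
  | add i j k => exact hw.mul (((hV i).add (hV j)).sub (hV k))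
  | mul i j k => exact ((hV i).mul (hV j)).sub (hw.mul (hV k))

theorem degLE_dcerr {V : ℕ → MvPolynomial (Fin N) A} {w : MvPolynomial (Fin N) A}
    {V' : ℕ → MvPolynomial (Fin N) A} {w' : MvPolynomial (Fin N) A}
    (hV : ∀ i, DegLE (V i) 1) (hw : DegLE w 1) (hV' : ∀ i, DegLE (V' i) 0) (hw' : DegLE w' 0)
    (c : ER.Con) : DegLE (dcerr V w V' w' c) 1 := by
  cases c with
  | one i =>
    exact ((hw'.mul ((hV i).sub hw)).mono (by omega)).add ((hw.mul ((hV' i).sub hw')).mono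
      (by omega))
  | add i j k =>
    exact ((hw'.mul (((hV i).add (hV j)).sub (hV k))).mono (by omega)).add
      ((hw.mul (((hV' i).add (hV' j)).sub (hV' k))).mono (by omega))
  | mul i j k =>
    exact ((((hV' i).mul (hV j)).mono (by omega)).add (((hV i).mul (hV' j)).mono (by omega))).sub
      (((hw'.mul (hV k)).mono (by omega)).add ((hw.mul (hV' k)).mono (by omega)))

theorem degLE_dqsum {V : ℕ → MvPolynomial (Fin N) A} {w : MvPolynomial (Fin N) A}
    {V' : ℕ → MvPolynomial (Fin N) A} {w' : MvPolynomial (Fin N) A}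
    (hV : ∀ i, DegLE (V i) 1) (hw : DegLE w 1) (hV' : ∀ i, DegLE (V' i) 0) (hw' : DegLE w' 0)
    (S : List ER.Con) : DegLE (dqsum V w V' w' S) 3 := by
  induction S with
  | nil => exact degLE_zero _
  | cons c S ih =>
    rw [dqsum_cons]
    refine DegLE.add ?_ ih
    have h2 : DegLE (2 : MvPolynomial (Fin N) A) 0 := by
      rw [show (2 : MvPolynomial (Fin N) A) = 1 + 1 by norm_num]
      exact (degLE_one 0).add (degLE_one 0)
    exact (h2.mul ((degLE_cerr hV hw c).mul (degLE_dcerr hV hw hV' hw' c))).mono (by omega)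

end deg

variable {n l : ℕ} (loc : ℕ → Fin n ⊕ Fin l) (S : List ER.Con) (K : ℕ)

theorem alg_Y (hK : 7 ≤ K) (τ ζ : ℚ) (hτ : τ ≠ 0) (hζ : ζ ≠ 0) (x : Fin n → ℝ)
    (Y : Fin (l + 1) → ℝ) (hT : eqT loc S K (τ : ℝ) x Y = 0)
    (hZ : ∀ b, eqZ loc S (τ : ℝ) (ζ : ℝ) x Y b = 0) (b : Fin (l + 1)) :
    IsAlgebraic (Algebra.adjoin ℚ (Set.range x)) (Y b) := by
  classical
  set A := Algebra.adjoin ℚ (Set.range x) with hA
  obtain ⟨x', hx'⟩ : ∃ x' : Fin n → A, ∀ a, ((x' a : A) : ℝ) = x a :=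
    ⟨fun a => ⟨x a, Algebra.subset_adjoin ⟨a, rfl⟩⟩, fun a => rfl⟩
  obtain ⟨q2, hq2⟩ : ∃ q2 : ℚ → A, ∀ r : ℚ, ((q2 r : A) : ℝ) = r :=
    ⟨fun r => algebraMap ℚ A r, fun r => by
      change algebraMap ℚ ℝ r = r
      simp⟩
  obtain ⟨φ, hφ⟩ : ∃ φ : A →+* ℝ, ∀ y : A, φ y = (y : ℝ) := ⟨A.val.toRingHom, fun y => rfl⟩
  -- the generic polynomials
  let Cx : Fin n → MvPolynomial (Fin (l + 1)) A := fun a => MvPolynomial.C (x' a)
  let XY : Fin (l + 1) → MvPolynomial (Fin (l + 1)) A := fun b => MvPolynomial.X b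
  let Cτ : MvPolynomial (Fin (l + 1)) A := MvPolynomial.C (q2 τ)
  obtain ⟨ev, hev⟩ : ∃ ev : MvPolynomial (Fin (l + 1)) A →+* ℝ, ev = MvPolynomial.eval₂Hom φ Y :=
    ⟨_, rfl⟩
  have evC : ∀ y : A, ev (MvPolynomial.C y) = (y : ℝ) := fun y => by
    rw [hev, MvPolynomial.coe_eval₂Hom, MvPolynomial.eval₂_C, hφ]
  have evX : ∀ b, ev (MvPolynomial.X b) = Y b := fun b => by
    rw [hev, MvPolynomial.coe_eval₂Hom, MvPolynomial.eval₂_X]
  have e1 : ev (gt loc S Cτ Cx XY) = gt loc S (τ : ℝ) x Y := by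
    rw [gt_map]
    simp only [Cτ, Cx, XY, evC, evX, hq2, hx']
  have e2 : ∀ b, ev (gz loc S Cτ Cx XY b) = gz loc S (τ : ℝ) x Y b := fun b => by
    rw [gz_map]
    simp only [Cτ, Cx, XY, evC, evX, hq2, hx']
  have hV1 : ∀ i, DegLE (Vv loc Cτ Cx XY i) 1 := by
    intro i
    unfold Vv
    rcases loc i with j | j
    · exact ((degLE_X (R := A) (0 : Fin (l + 1))).mul (degLE_C (x' j) 0)).mono (by omega)
    · exact ((degLE_C (q2 τ) 0).mul (degLE_X (R := A) j.succ)).mono (by omega)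
  have hw1 : DegLE (Cτ * XY 0) 1 :=
    ((degLE_C (q2 τ) 0).mul (degLE_X (R := A) (0 : Fin (l + 1)))).mono (by omega)
  have hgt : DegLE (gt loc S Cτ Cx XY) 3 := by
    refine degLE_dqsum hV1 hw1 (fun i => ?_) (degLE_C (q2 τ) 0) S
    rcases loc i with j | j
    · exact degLE_C (x' j) 0
    · exact degLE_zero _
  have hgz : ∀ b, DegLE (gz loc S Cτ Cx XY b) 3 := by
    intro b
    refine degLE_dqsum hV1 hw1 (fun i => ?_) (degLE_zero 0) S
    rcases loc i with j | j
    · exact degLE_zero _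
    · simp only [Sum.elim_inr]
      split_ifs
      · exact degLE_C (q2 τ) 0
      · exact degLE_zero _
  -- the equations in the form `Y b ^ (K + 1) = V b`
  let V : Fin (l + 1) → MvPolynomial (Fin (l + 1)) A := Fin.cons
    (XY 0 ^ K - MvPolynomial.C (q2 (1 / (K * τ ^ 5))) * ((1 - XY 0) * (XY 0 *
      gt loc S Cτ Cx XY)))
    (fun b => XY b.succ ^ (K - 7) * (XY b.succ ^ 6 + MvPolynomial.C (q2 (1 / (6 * ζ))) *
      ((1 - XY b.succ ^ 2) * (XY b.succ * gz loc S Cτ Cx XY b))))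
  have hKq : (K : ℚ) ≠ 0 := by
    have : K ≠ 0 := by omega
    exact_mod_cast this
  have hcrit : IsCritQ (K + 1) V φ Y := by
    intro b
    refine Fin.cases ?_ (fun b => ?_) b
    · have hc0 : (V 0).eval₂ φ Y = ev (V 0) := by rw [hev]; rfl
      rw [hc0]
      simp only [V, Fin.cons_zero, map_sub, map_mul, map_pow, map_one, evC, XY, evX, hq2, e1]
      have h := hT
      unfold eqT at h
      have hc : ((K : ℝ) * (τ : ℝ) ^ 5) ≠ 0 := by
        have : ((K : ℚ) * τ ^ 5) ≠ 0 := mul_ne_zero hKq (pow_ne_zero _ hτ)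
        exact_mod_cast this
      have e3 : (((1 / (K * τ ^ 5) : ℚ)) : ℝ) = 1 / ((K : ℝ) * (τ : ℝ) ^ 5) := by push_cast; ring
      rw [e3]
      field_simp
      linear_combination h
    · have hc0 : (V b.succ).eval₂ φ Y = ev (V b.succ) := by rw [hev]; rfl
      rw [hc0]
      simp only [V, Fin.cons_succ, map_sub, map_mul, map_add, map_pow, map_one, evC, XY, evX, hq2,
        e2]
      have h := hZ b
      unfold eqZ at h
      have hc : (6 * (ζ : ℝ)) ≠ 0 := by
        have : (6 * ζ : ℚ) ≠ 0 := mul_ne_zero (by norm_num) hζ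
        exact_mod_cast this
      have e3 : (((1 / (6 * ζ) : ℚ)) : ℝ) = 1 / (6 * (ζ : ℝ)) := by push_cast; ring
      rw [e3]
      have e4 : Y b.succ ^ (K + 1) = Y b.succ ^ (K - 7) * Y b.succ ^ 8 := by
        rw [← pow_add]; congr 1; omega
      rw [e4]
      congr 1
      field_simp
      linear_combination -h
  have hdeg : ∀ i, ∀ γ ∈ (V i).support, (∑ j, γ j) < K + 1 := by
    intro i γ hγ
    have hX : ∀ b : Fin (l + 1), DegLE (XY b) 1 := fun b => degLE_X (R := A) b
    have key : DegLE (V i) K := by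
      refine Fin.cases ?_ (fun b => ?_) i
      · simp only [V, Fin.cons_zero]
        refine DegLE.sub (((hX 0).pow K).mono (by omega)) ?_
        exact ((degLE_C _ 0).mul (((degLE_one 1).sub (hX 0)).mul ((hX 0).mul hgt))).mono (by omega)
      · simp only [V, Fin.cons_succ]
        refine ((((hX b.succ).pow (K - 7))).mul (DegLE.add (((hX b.succ).pow 6).mono
          (le_refl (6 * 1))) (DegLE.mono (m := 0 + (2 + (1 + 3))) ?_ (by omega)))).mono
          (by omega)
        exact (degLE_C _ 0).mul (((degLE_one 2).sub ((hX b.succ).pow 2)).mul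
          ((hX b.succ).mul (hgz b)))
    have := key γ hγ
    omega
  -- the module
  set M : Submodule A ℝ := Submodule.span A
    (Set.range fun β : Fin (l + 1) → Fin (K + 1) => ∏ j, Y j ^ (β j : ℕ)) with hM
  have hmon : ∀ α : Fin (l + 1) → ℕ, ∏ j, Y j ^ α j ∈ M := by
    intro α
    obtain ⟨C, hC⟩ : ∃ C : ℕ, ∀ i, (trv A).mν (V i) ≤ C :=
      ⟨∑ i, (trv A).mν (V i), fun i => Finset.single_le_sum (f := fun i => (trv A).mν (V i))
        (fun _ _ => Nat.zero_le _) (mem_univ i)⟩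
    obtain ⟨c, -, hc⟩ := nf_existsQ (trv A) V (C + 1) (by omega) hdeg
      (fun i => (hC i).trans (by omega)) (∑ j, α j) α (le_refl _)
    rw [hc φ Y hcrit]
    refine Submodule.sum_mem _ fun β _ => ?_
    have : φ (c β) * ∏ j, Y j ^ (β j : ℕ) = (c β) • ∏ j, Y j ^ (β j : ℕ) := by
      rw [hφ]; rfl
    rw [this]
    exact Submodule.smul_mem _ _ (Submodule.subset_span ⟨β, rfl⟩)
  have hint : IsIntegral A (Y b) := by
    refine isIntegral_of_smul_mem_submodule M ?_ ?_ (Y b) ?_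
    · intro h
      have h1 := hmon 0
      rw [h, Submodule.mem_bot] at h1
      simp at h1
    · exact ⟨Finset.univ.image fun β : Fin (l + 1) → Fin (K + 1) => ∏ j, Y j ^ (β j : ℕ), by
        rw [hM]; congr 1; simp⟩
    · intro m hm
      induction hm using Submodule.span_induction with
      | mem m hm =>
        obtain ⟨β, rfl⟩ := hm
        have h1 := hmon (fun j => (β j : ℕ) + if j = b then 1 else 0)
        have h2 : ∏ j, Y j ^ ((β j : ℕ) + if j = b then 1 else 0) =
            Y b • ∏ j, Y j ^ (β j : ℕ) := by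
          simp only [pow_add, Finset.prod_mul_distrib, smul_eq_mul]
          rw [mul_comm]
          congr 1
          rw [Finset.prod_eq_single b]
          · simp
          · intro j _ hj
            simp [hj]
          · simp
        rw [← h2]
        exact h1
      | zero => simp
      | add m₁ m₂ _ _ h1 h2 => rw [smul_add]; exact M.add_mem h1 h2
      | smul a m _ h1 => rw [smul_comm]; exact M.smul_mem _ h1
  exact hint.isAlgebraic

/-- The constants of a derivation. -/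
def constAlg (D : Derivation ℚ ℝ ℝ) : Subalgebra ℚ ℝ where
  carrier := {r | D r = 0}
  mul_mem' := fun {a b} ha hb => by
    change D (a * b) = 0
    rw [D.leibniz, (show D a = 0 from ha), (show D b = 0 from hb), smul_zero, smul_zero, add_zero]
  add_mem' := fun {a b} ha hb => by
    change D (a + b) = 0
    rw [map_add, (show D a = 0 from ha), (show D b = 0 from hb), add_zero]
  algebraMap_mem' := fun r => D.map_algebraMap r

theorem deriv_rat (D : Derivation ℚ ℝ ℝ) (r : ℚ) : D (r : ℝ) = 0 := by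
  have := D.map_algebraMap r
  simpa using this

theorem deriv_gx (D : Derivation ℚ ℝ ℝ) (τ : ℚ) (x : Fin n → ℝ) (Y : Fin (l + 1) → ℝ)
    (hx : ∀ a, D (x a) = 0) (hY : ∀ b, D (Y b) = 0) (a : Fin n) :
    D (gx loc S (τ : ℝ) x Y a) = 0 := by
  have h := gx_map loc S (constAlg D).val.toRingHom (⟨(τ : ℝ), deriv_rat D τ⟩ : constAlg D)
    (fun a => ⟨x a, hx a⟩) (fun b => ⟨Y b, hY b⟩) a
  have h2 : gx loc S (τ : ℝ) x Y a = (constAlg D).val.toRingHom
    (gx loc S (⟨(τ : ℝ), deriv_rat D τ⟩ : constAlg D) (fun a => ⟨x a, hx a⟩)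
      (fun b => ⟨Y b, hY b⟩) a) := h.symm
  rw [h2]
  exact (gx loc S (⟨(τ : ℝ), deriv_rat D τ⟩ : constAlg D) (fun a => ⟨x a, hx a⟩)
      (fun b => ⟨Y b, hY b⟩) a).2

theorem deriv_Y (hK : 7 ≤ K) (τ ζ : ℚ) (hτ : τ ≠ 0) (hζ : ζ ≠ 0) (x : Fin n → ℝ)
    (Y : Fin (l + 1) → ℝ) (hT : eqT loc S K (τ : ℝ) x Y = 0)
    (hZ : ∀ b, eqZ loc S (τ : ℝ) (ζ : ℝ) x Y b = 0) (D : Derivation ℚ ℝ ℝ)
    (hx : ∀ a, D (x a) = 0) (b : Fin (l + 1)) : D (Y b) = 0 := by
  refine derivation_eq_zero_of_algebraic D (Algebra.adjoin ℚ (Set.range x)) ?_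
    (alg_Y loc S K hK τ ζ hτ hζ x Y hT hZ b)
  have h : Algebra.adjoin ℚ (Set.range x) ≤ constAlg D := by
    rw [Algebra.adjoin_le_iff]
    rintro _ ⟨a, rfl⟩
    exact hx a
  exact fun y hy => h hy

/-- The differential of the value at a stationary point. -/
theorem deriv_val (hK : 7 ≤ K) (τ ζ : ℚ) (x : Fin n → ℝ)
    (Y : Fin (l + 1) → ℝ) (hT : eqT loc S K (τ : ℝ) x Y = 0)
    (hZ : ∀ b, eqZ loc S (τ : ℝ) (ζ : ℝ) x Y b = 0) (D : Derivation ℚ ℝ ℝ) :
    D (val loc S K (τ : ℝ) (ζ : ℝ) x Y) = ∑ a, D (x a) * gx loc S (τ : ℝ) x Y a := by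
  have h1 : D (qh loc S (τ : ℝ) x Y) = ∑ a, D (x a) * gx loc S (τ : ℝ) x Y a +
      D (Y 0) * gt loc S (τ : ℝ) x Y + ∑ b : Fin l, D (Y b.succ) * gz loc S (τ : ℝ) x Y b := by
    have hd := dq_decomp loc S (τ : ℝ) x Y (fun a => D (x a)) (fun b => D (Y b))
    rw [qh, deriv_qsum, ← hd]
    congr 1
    · funext i
      unfold Vv
      rcases loc i with j | j
      · simp only [Sum.elim_inl, D.leibniz, smul_eq_mul]; ring
      · simp only [Sum.elim_inr, D.leibniz, smul_eq_mul, deriv_rat]; ring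
    · simp only [D.leibniz, smul_eq_mul, deriv_rat]; ring
  have h2 : D (val loc S K (τ : ℝ) (ζ : ℝ) x Y) = D (qh loc S (τ : ℝ) x Y) -
      D (Y 0) * (K * (τ : ℝ) ^ 5 * Y 0 ^ (K - 1)) +
      ∑ b : Fin l, D (Y b.succ) * (6 * (ζ : ℝ) * Y b.succ ^ 5) := by
    rw [val, map_add, map_sub, D.leibniz, D.leibniz, D.leibniz_pow, D.leibniz_pow, deriv_rat,
      deriv_rat, map_sum]
    simp only [D.leibniz_pow, smul_eq_mul, nsmul_eq_mul, mul_zero, add_zero, Finset.mul_sum]
    have h3 : ∀ b : Fin l, (ζ : ℝ) * (((6 : ℕ) : ℝ) * (Y b.succ ^ (6 - 1) * D (Y b.succ))) =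
        D (Y b.succ) * (6 * (ζ : ℝ) * Y b.succ ^ 5) := fun b => by push_cast; ring
    simp only [h3]
    ring
  have h3 : D (Y 0) * (gt loc S (τ : ℝ) x Y - K * (τ : ℝ) ^ 5 * Y 0 ^ (K - 1)) = 0 := by
    unfold eqT at hT
    rcases mul_eq_zero.1 hT with h | h
    · have : Y 0 = 1 := by linarith
      rw [this, D.map_one_eq_zero, zero_mul]
    · have h4 : Y 0 * (gt loc S (τ : ℝ) x Y - K * (τ : ℝ) ^ 5 * Y 0 ^ (K - 1)) = 0 := by
        have h5 : Y 0 ^ K = Y 0 * Y 0 ^ (K - 1) := by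
          rw [← pow_succ']; congr 1; omega
        rw [h5] at h
        linarith
      rcases mul_eq_zero.1 h4 with h5 | h5
      · rw [h5, map_zero, zero_mul]
      · rw [h5, mul_zero]
  have h4 : ∀ b : Fin l, D (Y b.succ) * (gz loc S (τ : ℝ) x Y b + 6 * (ζ : ℝ) * Y b.succ ^ 5) =
      0 := by
    intro b
    have h := hZ b
    unfold eqZ at h
    rcases mul_eq_zero.1 h with h | h
    · have h5 : (Y b.succ - 1) * (Y b.succ + 1) = 0 := by linarith
      rcases mul_eq_zero.1 h5 with h6 | h6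
      · have : Y b.succ = 1 := by linarith
        rw [this, D.map_one_eq_zero, zero_mul]
      · have : Y b.succ = -1 := by linarith
        rw [this, map_neg, D.map_one_eq_zero, neg_zero, zero_mul]
    · have h5 : Y b.succ * (gz loc S (τ : ℝ) x Y b + 6 * (ζ : ℝ) * Y b.succ ^ 5) = 0 := by
        linarith
      rcases mul_eq_zero.1 h5 with h6 | h6
      · rw [h6, map_zero, zero_mul]
      · rw [h6, mul_zero]
  have h5 : ∑ b : Fin l, D (Y b.succ) * (gz loc S (τ : ℝ) x Y b + 6 * (ζ : ℝ) * Y b.succ ^ 5) =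
      0 := Finset.sum_eq_zero fun b _ => h4 b
  simp only [mul_add, Finset.sum_add_distrib] at h5
  rw [h2, h1]
  linarith

/-- For a generic perturbation the stationary configurations are algebraic over the
perturbation. -/
theorem gen (hK : 7 ≤ K) (τ ζ δ : ℚ) (hτ : τ ≠ 0) (hζ : ζ ≠ 0) (c : Fin n → ℝ)
    (hc : AlgebraicIndependent ℚ c) {ι : Type} [Fintype ι] (x : Fin n → ℝ)
    (Y : ι → Fin (l + 1) → ℝ) (lam : ι → ℝ) (v : ℝ)
    (hT : ∀ j, eqT loc S K (τ : ℝ) x (Y j) = 0)
    (hZ : ∀ j b, eqZ loc S (τ : ℝ) (ζ : ℝ) x (Y j) b = 0)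
    (hv : ∀ j, val loc S K (τ : ℝ) (ζ : ℝ) x (Y j) = v) (hl : ∑ j, lam j = 1)
    (hk : ∀ a, ∑ j, lam j * gx loc S (τ : ℝ) x (Y j) a - 2 * (δ : ℝ) * x a + (ζ : ℝ) * c a = 0)
    (haff : AffineIndependent ℝ (fun j => gx loc S (τ : ℝ) x (Y j))) :
    (∀ a, x a ∈ {u : ℝ | IsAlgebraic (Algebra.adjoin ℚ (Set.range c)) u}) ∧
    (∀ j, lam j ∈ {u : ℝ | IsAlgebraic (Algebra.adjoin ℚ (Set.range c)) u}) ∧
    ∀ j b, Y j b ∈ {u : ℝ | IsAlgebraic (Algebra.adjoin ℚ (Set.range c)) u} := by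
  classical
  let ρ : Derivation ℚ ℝ ℝ →ₗ[ℝ] (Fin n → ℝ) :=
    { toFun := fun D a => D (x a) + ∑ j, D (lam j) * gx loc S (τ : ℝ) x (Y j) a
      map_add' := fun D D' => by
        funext a
        simp only [Derivation.add_apply, add_mul, Finset.sum_add_distrib, Pi.add_apply]
        ring
      map_smul' := fun r D => by
        funext a
        simp only [Derivation.smul_apply, smul_eq_mul, RingHom.id_apply, Pi.smul_apply, mul_add,
          Finset.mul_sum, mul_assoc] }
  let θ : Derivation ℚ ℝ ℝ →ₗ[ℝ] (Fin n → ℝ) :=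
    { toFun := fun D a => D (c a)
      map_add' := fun D D' => by funext a; simp
      map_smul' := fun r D => by funext a; simp }
  have hρ : ∀ D, ρ D = 0 → (∀ a, D (x a) = 0) ∧ (∀ j, D (lam j) = 0) ∧ ∀ j b, D (Y j b) = 0 := by
    intro D hD
    have e1 : ∀ a, D (x a) + ∑ j, D (lam j) * gx loc S (τ : ℝ) x (Y j) a = 0 :=
      fun a => congrFun hD a
    have e2 : ∑ j, D (lam j) = 0 := by
      rw [← map_sum, hl]
      exact D.map_one_eq_zero
    have e3 : ∀ j, ∑ a, D (x a) * gx loc S (τ : ℝ) x (Y j) a = D v := by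
      intro j
      rw [← hv j, deriv_val loc S K hK τ ζ x (Y j) (hT j) (hZ j) D]
    have e4 : ∑ a, D (x a) * D (x a) = 0 := by
      have h1 : ∀ a, D (x a) * D (x a) =
          - ∑ j, D (lam j) * (D (x a) * gx loc S (τ : ℝ) x (Y j) a) := by
        intro a
        have h2 : D (x a) = - ∑ j, D (lam j) * gx loc S (τ : ℝ) x (Y j) a := by
          linarith [e1 a]
        conv_lhs => rw [h2, neg_mul, ← h2]
        rw [Finset.sum_mul]
        congr 1
        refine Finset.sum_congr rfl fun j _ => ?_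
        ring
      rw [Finset.sum_congr rfl fun a _ => h1 a, Finset.sum_neg_distrib, Finset.sum_comm]
      simp only [← Finset.mul_sum, e3]
      rw [← Finset.sum_mul, e2, zero_mul, neg_zero]
    have e5 : ∀ a, D (x a) = 0 := by
      intro a
      have h1 := (Finset.sum_eq_zero_iff_of_nonneg fun a _ => mul_self_nonneg (D (x a))).1 e4 a
        (Finset.mem_univ a)
      exact mul_self_eq_zero.1 h1
    have e6 : ∀ j, D (lam j) = 0 := by
      intro j
      refine (affineIndependent_iff.1 haff) Finset.univ (fun j => D (lam j)) e2 ?_ j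
        (Finset.mem_univ j)
      funext a
      have h1 := e1 a
      rw [e5 a, zero_add] at h1
      rw [Finset.sum_apply]
      exact h1
    exact ⟨e5, e6, fun j b => deriv_Y loc S K hK τ ζ hτ hζ x (Y j) (hT j) (hZ j) D e5 b⟩
  have hker : LinearMap.ker ρ ≤ LinearMap.ker θ := by
    intro D hD
    rw [LinearMap.mem_ker] at hD ⊢
    obtain ⟨e5, e6, e7⟩ := hρ D hD
    funext a
    change D (c a) = 0
    have h1 := congrArg D (hk a)
    rw [map_add, map_sub, map_sum, map_zero, D.leibniz, D.leibniz, D.leibniz, deriv_rat,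
      deriv_rat, e5 a] at h1
    have h2 : ∀ j, D (lam j * gx loc S (τ : ℝ) x (Y j) a) = 0 := by
      intro j
      rw [D.leibniz, e6 j, deriv_gx loc S D τ x (Y j) e5 (e7 j) a, smul_zero, smul_zero, add_zero]
    have h3 : D (2 : ℝ) = 0 := by
      have := deriv_rat D 2
      simpa using this
    simp only [h2, h3, Finset.sum_const_zero, smul_eq_mul, mul_zero, add_zero, sub_zero,
      zero_add] at h1
    have hζ' : (ζ : ℝ) ≠ 0 := by exact_mod_cast hζ
    exact (mul_eq_zero.1 h1).resolve_left hζ'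
  have hsurj : Function.Surjective θ := by
    intro y
    obtain ⟨D, hD⟩ := exists_derivation hc y
    exact ⟨D, funext hD⟩
  have hker' := ker_le_ker ρ θ hsurj hker
  have hfin : ∀ D : Derivation ℚ ℝ ℝ, (∀ a, D (c a) = 0) →
      (∀ a, D (x a) = 0) ∧ (∀ j, D (lam j) = 0) ∧ ∀ j b, D (Y j b) = 0 := by
    intro D hD
    exact hρ D (hker' (LinearMap.mem_ker.2 (funext hD)))
  refine ⟨fun a => ?_, fun j => ?_, fun j b => ?_⟩
  · by_contra h
    obtain ⟨D, h1, h2⟩ := exists_derivation_ne hc _ h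
    rw [(hfin D h1).1 a] at h2
    exact zero_ne_one h2
  · by_contra h
    obtain ⟨D, h1, h2⟩ := exists_derivation_ne hc _ h
    rw [(hfin D h1).2.1 j] at h2
    exact zero_ne_one h2
  · by_contra h
    obtain ⟨D, h1, h2⟩ := exists_derivation_ne hc _ h
    rw [(hfin D h1).2.2 j b] at h2
    exact zero_ne_one h2

end Pool.Agent.K9h83.IP
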