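import Pool.Agent.K9h83.IP.TR

/-!
# Nets and generic points
-/

set_option autoImplicit false

namespace Pool.Agent.K9h83.IP

open Finset Filter Topology Pool.Agent.H612 Pool.Agent.R537.RN Pool.Agent.NPC

/-- The iterates of `c ↦ 2 c² - 1`. -/
def chb (c : ℝ) : ℕ → ℝ
  | 0 => c
  | k + 1 => 2 * chb c k ^ 2 - 1

theorem chb_cos (θ : ℝ) (k : ℕ) : chb (Real.cos θ) k = Real.cos (2 ^ k * θ) := by
  induction k with
  | zero => simp [chb]
  | succ k ih =>
    rw [chb, ih, ← Real.cos_two_mul]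
    congr 1
    rw [pow_succ]; ring

theorem chb_one (c : ℝ) (hc : c ^ 2 = 1) (k : ℕ) : chb c k ≠ 0 := by
  have h : ∀ k, chb c k ^ 2 = 1 := by
    intro k
    induction k with
    | zero => exact hc
    | succ k ih => rw [chb, ih]; norm_num
  intro h0
  have := h k
  rw [h0] at this
  norm_num at this

theorem exists_net (N : ℕ) : ∃ T : Finset ℝ, T.card = 2 ^ N ∧ ∀ c ∈ T, |c| < 1 ∧ chb c N = 0 := by
  classical
  obtain ⟨θ, hθ⟩ : ∃ θ : ℕ → ℝ, ∀ k, θ k = (2 * k + 1) * Real.pi / 2 ^ (N + 1) := ⟨_, fun k => rfl⟩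
  have hpi := Real.pi_pos
  refine ⟨(Finset.range (2 ^ N)).image fun k => Real.cos (θ k), ?_, ?_⟩
  · rw [Finset.card_image_of_injOn, Finset.card_range]
    have hin : ∀ k ∈ Finset.range (2 ^ N), θ k ∈ Set.Icc 0 Real.pi := by
      intro k hk
      rw [Finset.mem_range] at hk
      have h1 : (k : ℝ) + 1 ≤ 2 ^ N := by exact_mod_cast hk
      rw [hθ]
      constructor
      · positivity
      · rw [div_le_iff₀ (by positivity), pow_succ]
        nlinarith
    intro k hk k' hk' hkk
    have h1 := Real.injOn_cos (hin k hk) (hin k' hk') hkk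
    rw [hθ, hθ] at h1
    have h2 : (0 : ℝ) < 2 ^ (N + 1) := by positivity
    rw [div_left_inj' h2.ne', mul_left_inj' hpi.ne'] at h1
    have h3 : (k : ℝ) = k' := by linarith
    exact_mod_cast h3
  · intro c hc
    rw [Finset.mem_image] at hc
    obtain ⟨k, -, rfl⟩ := hc
    have h0 : chb (Real.cos (θ k)) N = 0 := by
      rw [chb_cos, Real.cos_eq_zero_iff]
      refine ⟨k, ?_⟩
      rw [hθ, pow_succ]
      push_cast
      field_simp
    refine ⟨?_, h0⟩
    refine lt_of_le_of_ne (Real.abs_cos_le_one _) fun h1 => ?_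
    refine chb_one _ ?_ N h0
    rw [← sq_abs, h1, one_pow]

theorem exists_net_point {n : ℕ} (R : MvPolynomial (Fin n) ℝ) (hR : R ≠ 0) (N : ℕ)
    (hd : R.totalDegree < 2 ^ N) :
    ∃ c : Fin n → ℝ, (∀ j, |c j| < 1 ∧ chb (c j) N = 0) ∧ MvPolynomial.eval c R ≠ 0 := by
  classical
  obtain ⟨T, hT, hTc⟩ := exists_net N
  by_contra hcon
  push Not at hcon
  apply hR
  refine MvPolynomial.eq_zero_of_eval_zero_at_prod_finset R (fun _ => T) (fun i => ?_)
    (fun x hx => hcon x fun j => hTc _ (hx j))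
  rw [hT]
  exact (MvPolynomial.degreeOf_le_totalDegree R i).trans_lt hd

theorem dense_algInd (n : ℕ) : Dense {c : Fin n → ℝ | AlgebraicIndependent ℚ c} := by
  have hM : Countable (MvPolynomial (Fin n) ℚ) := by
    rw [← Cardinal.mk_le_aleph0_iff]
    refine MvPolynomial.cardinalMk_le_max.trans ?_
    simp
  have h1 : Dense (⋂ p : {p : MvPolynomial (Fin n) ℚ // p ≠ 0},
      {c : Fin n → ℝ | MvPolynomial.eval c (MvPolynomial.map (algebraMap ℚ ℝ) p.1) ≠ 0}) := by
    refine dense_iInter_of_isOpen (fun p => ?_) (fun p => ?_)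
    · exact isOpen_ne_fun (MvPolynomial.continuous_eval _) continuous_const
    · rw [dense_iff_inter_open]
      intro U hU hne
      by_contra hcon
      have hz : ∀ x ∈ U, MvPolynomial.eval x (MvPolynomial.map (algebraMap ℚ ℝ) p.1) = 0 := by
        intro x hx
        by_contra h2
        exact hcon ⟨x, hx, h2⟩
      have hall := eval_eq_zero_of_open _ hU hne hz
      have h0 : MvPolynomial.map (algebraMap ℚ ℝ) p.1 = 0 :=
        MvPolynomial.funext (by simpa using hall)
      apply p.2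
      refine MvPolynomial.map_injective _ (algebraMap ℚ ℝ).injective ?_
      rw [h0, map_zero]
  refine h1.mono ?_
  intro c hc
  rw [Set.mem_ofPred_eq, algebraicIndependent_iff]
  intro p hp
  by_contra hne
  have h2 := Set.mem_iInter.1 hc ⟨p, hne⟩
  apply h2
  rw [MvPolynomial.eval_map]
  exact hp

end Pool.Agent.K9h83.IP
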