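import Pool.Agent.K9h83.IP.Sound
import Pool.Agent.K9h83.IP.Net

/-!
# The existence of an isolated point as a sentence
-/

set_option autoImplicit false

namespace Pool.Agent.K9h83.IP

open Finset Filter Topology Pool.Agent.R537.RN
open Pool.Agent.NPC Pool.Agent.NPC.ER Pool.Agent.NPC.H612
open Pool.Agent.NPC.R537HD (asg semi sqT subT eval_sqT eval_subT renF pnt holds_renF impF
  holds_impF Inp nS vS dn dm dl ds loc pnt_congr)

/-- The first variables of the two points agree. -/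
def eqsF (k : ℕ) : List Fm :=
  (List.range k).map fun i => Fm.eq (Tm.var (6 * i + 1)) (Tm.var (6 * i + 0))
/-- The square of the distance. -/
def dsT (D : ℕ) : Tm :=
  sumT ((List.range D).map fun i => sqT (subT (Tm.var (6 * i + 1)) (Tm.var (6 * i + 0))))
/-- The formula. -/
def isoF (n D : ℕ) (φ : Fm) : Fm :=
  Fm.and (Fm.lt Tm.zero (Tm.var 5)) (Fm.and (renF D 0 φ)
    (impF (Fm.and (Fm.lt (dsT D) (sqT (Tm.var 5))) (Fm.and (conj (eqsF n)) (renF D 1 φ)))
      (conj (eqsF D))))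
/-- The variables of the first block. -/
def isoE (D : ℕ) : List ℕ := (List.range D).map (fun i => 6 * i) ++ [5]
/-- The variables of the second block. -/
def isoG (D : ℕ) : List ℕ := (List.range D).map (fun i => 6 * i + 1)

theorem eval_dsT (D : ℕ) (v : ℕ → ℝ) : (dsT D).eval v = dist (pnt D 1 v) (pnt D 0 v) ^ 2 := by
  rw [dist_eq_norm, EuclideanSpace.norm_sq_eq, dsT, eval_sumT, List.map_map]
  have h : (Tm.eval v ∘ fun i => sqT (subT (Tm.var (6 * i + 1)) (Tm.var (6 * i + 0)))) =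
      fun i => (v (6 * i + 1) - v (6 * i + 0)) ^ 2 := by
    funext i
    simp [Tm.eval]
  rw [h, list_range_sum, ← Fin.sum_univ_eq_sum_range
    (fun i => (v (6 * i + 1) - v (6 * i + 0)) ^ 2)]
  refine Finset.sum_congr rfl fun j _ => ?_
  rw [Real.norm_eq_abs, sq_abs]
  rfl

theorem holds_eqsF (k : ℕ) (v : ℕ → ℝ) : (conj (eqsF k)).Holds v ↔
    ∀ i < k, v (6 * i + 1) = v (6 * i + 0) := by
  unfold eqsF
  rw [holds_conj, List.forall_mem_map]
  simp only [Fm.Holds, Tm.eval, List.mem_range]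

theorem pnt_eq_iff (D : ℕ) (v : ℕ → ℝ) : (∀ i < D, v (6 * i + 1) = v (6 * i + 0)) ↔
    pnt D 1 v = pnt D 0 v := by
  unfold pnt
  constructor
  · intro h
    congr 1
    funext j
    exact h j j.2
  · intro h i hi
    have := congrArg (fun q : EuclideanSpace ℝ (Fin D) => q ⟨i, hi⟩) h
    exact this

theorem holds_isoF (n D : ℕ) (φ : Fm) (v : ℕ → ℝ) : (isoF n D φ).Holds v ↔
    0 < v 5 ∧ pnt D 0 v ∈ semi D φ ∧ (dist (pnt D 1 v) (pnt D 0 v) < v 5 →
      (∀ i < n, v (6 * i + 1) = v (6 * i + 0)) → pnt D 1 v ∈ semi D φ →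
        pnt D 1 v = pnt D 0 v) := by
  unfold isoF
  simp only [Fm.Holds, holds_impF, holds_renF, Tm.eval, eval_sqT, eval_dsT, holds_eqsF,
    pnt_eq_iff D]
  refine and_congr_right fun h5 => and_congr_right fun _ => ?_
  have : dist (pnt D 1 v) (pnt D 0 v) ^ 2 < v 5 ^ 2 ↔ dist (pnt D 1 v) (pnt D 0 v) < v 5 :=
    sq_lt_sq₀ dist_nonneg h5.le
  rw [this]
  tauto

theorem mem_isoE {D j : ℕ} : 6 * j ∈ isoE D ↔ j < D := by
  unfold isoE
  simp only [List.mem_append, List.mem_map, List.mem_range, List.mem_singleton]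
  constructor
  · rintro (⟨i, hi, h⟩ | h)
    · omega
    · omega
  · intro h
    exact Or.inl ⟨j, h, rfl⟩

theorem mem_isoE1 {D j : ℕ} : 6 * j + 1 ∉ isoE D := by
  unfold isoE
  simp only [List.mem_append, List.mem_map, List.mem_range, List.mem_singleton]
  rintro (⟨i, hi, h⟩ | h)
  · omega
  · omega

theorem mem_isoE5 {D : ℕ} : 5 ∈ isoE D := by
  unfold isoE
  simp

theorem mem_isoG {D j : ℕ} : 6 * j + 1 ∈ isoG D ↔ j < D := by
  unfold isoG
  simp only [List.mem_map, List.mem_range]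
  constructor
  · rintro ⟨i, hi, h⟩
    omega
  · intro h
    exact ⟨j, h, rfl⟩

theorem asg_pnt {D c i : ℕ} (v : ℕ → ℝ) (hi : i < D) : asg (pnt D c v) i = v (6 * i + c) := by
  unfold asg
  rw [dif_pos hi]
  rfl

theorem pnt_asg (D c : ℕ) (a : EuclideanSpace ℝ (Fin D)) (f : ℕ → ℝ)
    (hf : ∀ j < D, f (6 * j + c) = asg a j) : pnt D c f = a := by
  ext j
  change f (6 * (j : ℕ) + c) = a j
  rw [hf j j.2]
  unfold asg
  rw [dif_pos j.2]

/-- The fibre has an isolated point, as a sentence. -/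
theorem isoAt_iff {n D : ℕ} (hn : n ≤ D) (φ : Fm) (c : Fin n → ℝ) : IsoAt n D φ c ↔
    ∃ x : ℕ → ℝ, (∀ j : Fin n, x (6 * j) = c j) ∧ ∀ y : ℕ → ℝ,
      (isoF n D φ).Holds (mixv (isoE D) x y) := by
  have m0 : ∀ (x y : ℕ → ℝ) (j : ℕ), j < D → mixv (isoE D) x y (6 * j + 0) = x (6 * j + 0) := by
    intro x y j hj
    unfold mixv
    rw [if_pos (show 6 * j + 0 ∈ isoE D from mem_isoE.2 hj)]
  have m1 : ∀ (x y : ℕ → ℝ) (j : ℕ), mixv (isoE D) x y (6 * j + 1) = y (6 * j + 1) := by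
    intro x y j
    unfold mixv
    rw [if_neg mem_isoE1]
  have m5 : ∀ (x y : ℕ → ℝ), mixv (isoE D) x y 5 = x 5 := by
    intro x y
    unfold mixv
    rw [if_pos mem_isoE5]
  have p0 : ∀ (x y : ℕ → ℝ), pnt D 0 (mixv (isoE D) x y) = pnt D 0 x := fun x y =>
    pnt_congr fun j hj => m0 x y j hj
  have p1 : ∀ (x y : ℕ → ℝ), pnt D 1 (mixv (isoE D) x y) = pnt D 1 y := fun x y =>
    pnt_congr fun j _ => m1 x y j
  simp only [holds_isoF, p0, p1, m5]
  constructor
  · rintro ⟨P, hP, hc, ε, hε, hiso⟩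
    have e0 : pnt D 0 (fun k => if k = 5 then ε else asg P (k / 6)) = P := by
      refine pnt_asg D 0 P _ fun j _ => ?_
      rw [if_neg (by omega)]
      congr 1
      omega
    refine ⟨fun k => if k = 5 then ε else asg P (k / 6), fun j => ?_, fun y => ?_⟩
    · simp only
      rw [if_neg (by omega), ← hc j]
      congr 1
      omega
    · rw [e0]
      refine ⟨by simpa using hε, hP, fun hd hy hy2 => ?_⟩
      refine hiso _ hy2 (by simpa using hd) fun i => ?_
      have h1 := hy i i.2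
      rw [m1, m0 _ _ _ (by omega)] at h1
      rw [asg_pnt y (by omega), h1]
      rw [if_neg (by omega)]
      congr 1
      omega
  · rintro ⟨x, hxc, hx⟩
    obtain ⟨h5, hP, -⟩ := hx x
    refine ⟨pnt D 0 x, hP, fun i => ?_, x 5, h5, fun Q hQ hd hc => ?_⟩
    · exact (asg_pnt x (by omega)).trans (hxc i)
    · have e1 : pnt D 1 (fun k => asg Q (k / 6)) = Q := by
        refine pnt_asg D 1 Q _ fun j _ => ?_
        congr 1
        omega
      obtain ⟨-, -, h1⟩ := hx (fun k => asg Q (k / 6))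
      rw [e1] at h1
      refine h1 hd (fun i hi => ?_) hQ
      rw [m1, m0 _ _ _ (by omega)]
      have h2 := hc ⟨i, hi⟩
      simp only at h2
      rw [asg_pnt x (by omega)] at h2
      rw [← h2]
      congr 1
      omega

/-! ### The normal form with parameters -/

theorem sys_of_holds (p : Inp) (x : ℕ → ℝ)
    (hx : ∀ y : ℕ → ℝ, ∃ z : ℕ → ℝ, p.2.2.Holds (mixv p.1 x (mixv p.2.1 y z))) :
    ∀ y' : Fin (dm p) → ℝ, ∃ z' : Fin (dl p) → ℝ,
      SysHolds (pick (loc p) (fun j => x (p.1.get j)) y' z') (nS p) := by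
  obtain ⟨E, F, φ⟩ := p
  set p : Inp := (E, F, φ) with hp
  intro y'
  have hloc : ∀ (x : Fin (dn p) → ℝ) (y : Fin (dm p) → ℝ) (z : Fin (dl p) → ℝ) (i : ℕ),
      pick (loc p) x y z i =
        if h : i % 2 = 0 ∧ i / 2 ∈ E then x ⟨E.idxOf (i / 2), List.idxOf_lt_length_iff.2 h.2⟩
        else if h : i % 2 = 0 ∧ i / 2 ∈ F then
          y ⟨F.idxOf (i / 2), List.idxOf_lt_length_iff.2 h.2⟩
        else z ⟨(vS p).idxOf i, Nat.lt_succ_of_le List.idxOf_le_length⟩ := by
    intro x y z i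
    unfold pick loc
    by_cases h1 : i % 2 = 0 ∧ i / 2 ∈ p.1
    · rw [dif_pos h1, dif_pos h1]
      rfl
    · rw [dif_neg h1, dif_neg h1]
      by_cases h2 : i % 2 = 0 ∧ i / 2 ∈ p.2.1
      · rw [dif_pos h2, dif_pos h2]
        rfl
      · rw [dif_neg h2, dif_neg h2]
        rfl
  let y : ℕ → ℝ := fun i => if h : i ∈ F then y' ⟨F.idxOf i, List.idxOf_lt_length_iff.2 h⟩ else 0
  obtain ⟨z, hz⟩ := hx y
  obtain ⟨v, hv1, hv2⟩ := (sysOf_spec φ).2 _ hz
  refine ⟨fun j => v ((vS p).getD j 0), fun c hc => ?_⟩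
  refine (Con.holds_congr fun i hi => ?_).2 (hv2 c hc)
  have him : i ∈ vS p := List.mem_flatMap.2 ⟨c, hc, hi⟩
  rw [hloc]
  split_ifs with h1 h2
  · have h3 : i = 2 * (i / 2) := by omega
    conv_rhs => rw [h3, hv1]
    unfold mixv
    rw [if_pos h1.2]
    congr 1
    exact List.getElem_idxOf _
  · have h3 : i = 2 * (i / 2) := by omega
    conv_rhs => rw [h3, hv1]
    unfold mixv
    rw [if_neg (fun h => h1 ⟨h2.1, h⟩), if_pos h2.2]
    simp only [y]
    rw [dif_pos h2.2]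
  · have h3 : (vS p).getD ((vS p).idxOf i) 0 = i := by
      rw [List.getD_eq_getElem _ _ (List.idxOf_lt_length_iff.2 him)]
      exact List.getElem_idxOf _
    simp only
    rw [h3]

theorem holds_of_sys (p : Inp) : ∀ (x' : Fin (dn p) → ℝ),
    (∀ y' : Fin (dm p) → ℝ, ∃ z' : Fin (dl p) → ℝ,
      SysHolds (pick (loc p) x' y' z') (nS p)) → ∀ (y : ℕ → ℝ),
    ∃ z : ℕ → ℝ, p.2.2.Holds (mixv p.1 (fun i => if h : i ∈ p.1 then
      x' ⟨p.1.idxOf i, List.idxOf_lt_length_iff.2 h⟩ else 0) (mixv p.2.1 y z)) := by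
  obtain ⟨E, F, φ⟩ := p
  set p : Inp := (E, F, φ) with hp
  intro x' hx' y
  have hloc : ∀ (x : Fin (dn p) → ℝ) (y : Fin (dm p) → ℝ) (z : Fin (dl p) → ℝ) (i : ℕ),
      pick (loc p) x y z i =
        if h : i % 2 = 0 ∧ i / 2 ∈ E then x ⟨E.idxOf (i / 2), List.idxOf_lt_length_iff.2 h.2⟩
        else if h : i % 2 = 0 ∧ i / 2 ∈ F then
          y ⟨F.idxOf (i / 2), List.idxOf_lt_length_iff.2 h.2⟩
        else z ⟨(vS p).idxOf i, Nat.lt_succ_of_le List.idxOf_le_length⟩ := by
    intro x y z i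
    unfold pick loc
    by_cases h1 : i % 2 = 0 ∧ i / 2 ∈ p.1
    · rw [dif_pos h1, dif_pos h1]
      rfl
    · rw [dif_neg h1, dif_neg h1]
      by_cases h2 : i % 2 = 0 ∧ i / 2 ∈ p.2.1
      · rw [dif_pos h2, dif_pos h2]
        rfl
      · rw [dif_neg h2, dif_neg h2]
        rfl
  obtain ⟨z', hz'⟩ := hx' fun j => y (F.get j)
  refine ⟨fun i => pick (loc p) x' (fun j => y (F.get j)) z' (2 * i), ?_⟩
  have h1 := (sysOf_spec φ).1 _ hz'
  have h2 : (fun i => pick (loc p) x' (fun j => y (F.get j)) z' (2 * i)) =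
      mixv E (fun i => if h : i ∈ E then x' ⟨E.idxOf i, List.idxOf_lt_length_iff.2 h⟩ else 0)
        (mixv F y fun i => pick (loc p) x' (fun j => y (F.get j)) z' (2 * i)) := by
    funext i
    unfold mixv
    have e : 2 * i / 2 = i := by omega
    split_ifs with h3 h4
    · rw [hloc, dif_pos ⟨by omega, by rw [e]; exact h3⟩]
      simp only
      rw [dif_pos h3]
      exact congrArg x' (Fin.ext (by simp only [e]))
    · rw [hloc, dif_neg (fun h => h3 (by rw [e] at h; exact h.2)),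
        dif_pos ⟨by omega, by rw [e]; exact h4⟩]
      have h5 : F.get ⟨F.idxOf (2 * i / 2), List.idxOf_lt_length_iff.2 (by rw [e]; exact h4)⟩ =
          i := by
        rw [List.get_eq_getElem]
        exact (List.getElem_idxOf _).trans e
      exact congrArg y h5
    · rfl
  change φ.Holds _
  rw [← h2]
  exact h1

/-- The places of the variables, the first block being divided. -/
def locC (p : Inp) {n₀ n₁ : ℕ} (h : p.1.length = n₀ + n₁) (i : ℕ) :
    Fin (n₀ + n₁) ⊕ (Fin (dm p) ⊕ Fin (dl p)) := Sum.map (Fin.cast h) id (loc p i)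

theorem pick_locC (p : Inp) {n₀ n₁ : ℕ} (h : p.1.length = n₀ + n₁) (x : Fin (n₀ + n₁) → ℝ)
    (y : Fin (dm p) → ℝ) (z : Fin (dl p) → ℝ) :
    pick (locC p h) x y z = pick (loc p) (fun j => x (Fin.cast h j)) y z := by
  funext i
  unfold pick locC
  rcases loc p i with j | j <;> rfl

theorem sentC_iff (p : Inp) (hnd : p.1.Nodup) {n₀ n₁ : ℕ} (h : p.1.length = n₀ + n₁)
    (c : Fin n₀ → ℝ) :
    (∃ x : ℕ → ℝ, (∀ j : Fin n₀, x (p.1.get (Fin.cast h.symm (Fin.castAdd n₁ j))) = c j) ∧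
      ∀ y : ℕ → ℝ, ∃ z : ℕ → ℝ, p.2.2.Holds (mixv p.1 x (mixv p.2.1 y z))) ↔
    SentC (locC p h) (nS p) c := by
  unfold SentC
  simp only [pick_locC]
  constructor
  · rintro ⟨x, hxc, hx⟩
    refine ⟨fun j => x (p.1.get (Fin.cast h.symm (Fin.natAdd n₀ j))), fun y => ?_⟩
    have h1 : (fun j : Fin (dn p) => Fin.append c (fun j => x (p.1.get (Fin.cast h.symm
        (Fin.natAdd n₀ j)))) (Fin.cast h j)) = fun j => x (p.1.get j) := by
      have key : ∀ k : Fin (n₀ + n₁), Fin.append c (fun j => x (p.1.get (Fin.cast h.symm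
        (Fin.natAdd n₀ j)))) k = x (p.1.get (Fin.cast h.symm k)) := by
        intro k
        refine Fin.addCases (fun j => ?_) (fun j => ?_) k
        · rw [Fin.append_left, hxc]
        · rw [Fin.append_right]
      funext j
      rw [key]
      rfl
    rw [h1]
    exact sys_of_holds p x hx y
  · rintro ⟨q, hq⟩
    refine ⟨fun i => if hi : i ∈ p.1 then Fin.append c q (Fin.cast h
      ⟨p.1.idxOf i, List.idxOf_lt_length_iff.2 hi⟩) else 0, fun j => ?_, fun y => ?_⟩
    · refine (dif_pos (List.get_mem _ _)).trans ?_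
      have h1 : (⟨p.1.idxOf (p.1.get (Fin.cast h.symm (Fin.castAdd n₁ j))),
          List.idxOf_lt_length_iff.2 (List.get_mem _ _)⟩ : Fin p.1.length) =
          Fin.cast h.symm (Fin.castAdd n₁ j) := by
        refine Fin.ext ?_
        simp only [List.get_eq_getElem]
        exact hnd.idxOf_getElem _ _
      rw [h1]
      have h2 : Fin.cast h (Fin.cast h.symm (Fin.castAdd n₁ j)) = Fin.castAdd n₁ j := rfl
      rw [h2, Fin.append_left]
    · exact holds_of_sys p (fun j => Fin.append c q (Fin.cast h j)) hq y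

theorem nodup_isoE (D : ℕ) : (isoE D).Nodup := by
  unfold isoE
  rw [List.nodup_append]
  refine ⟨?_, List.nodup_singleton _, ?_⟩
  · refine List.Nodup.map (fun a b h => ?_) List.nodup_range
    have h' : 6 * a = 6 * b := h
    omega
  · intro a ha b hb
    rw [List.mem_map] at ha
    rw [List.mem_singleton] at hb
    obtain ⟨i, -, rfl⟩ := ha
    omega

theorem length_isoE (D : ℕ) : (isoE D).length = D + 1 := by
  unfold isoE; simp

theorem get_isoE {D : ℕ} {j : ℕ} (hj : j < (isoE D).length) (hD : j < D) :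
    (isoE D).get ⟨j, hj⟩ = 6 * j := by
  rw [List.get_eq_getElem]
  unfold isoE
  rw [List.getElem_append_left (by simpa using hD)]
  simp

/-- The sentence of the transfer. -/
def isoP (n D : ℕ) (φ : Fm) : Inp := (isoE D, isoG D, isoF n D φ)

theorem isoP_len {n D : ℕ} (hn : n ≤ D) (φ : Fm) :
    (isoP n D φ).1.length = n + (D + 1 - n) := by
  change (isoE D).length = _
  rw [length_isoE]
  omega

theorem isoAt_iff_sentC {n D : ℕ} (hn : n ≤ D) (φ : Fm) (c : Fin n → ℝ) :
    IsoAt n D φ c ↔ SentC (locC (isoP n D φ) (isoP_len hn φ)) (nS (isoP n D φ)) c := by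
  rw [← sentC_iff (isoP n D φ) (nodup_isoE D), isoAt_iff hn]
  have hget : ∀ (x : ℕ → ℝ) (j : Fin n), x ((isoP n D φ).1.get (Fin.cast (isoP_len hn φ).symm
      (Fin.castAdd (D + 1 - n) j))) = x (6 * j) := by
    intro x j
    congr 1
    exact get_isoE _ (by have := j.2; simp only [Fin.val_castAdd]; omega)
  simp only [hget]
  refine exists_congr fun x => and_congr_right fun _ => ?_
  have hmix : ∀ y z : ℕ → ℝ, (isoF n D φ).Holds (mixv (isoE D) x (mixv (isoG D) y z)) ↔
      (isoF n D φ).Holds (mixv (isoE D) x y) := by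
    intro y z
    simp only [holds_isoF]
    have m0 : ∀ (y : ℕ → ℝ) (j : ℕ), j < D → mixv (isoE D) x y (6 * j + 0) = x (6 * j + 0) := by
      intro y j hj
      unfold mixv
      rw [if_pos (show 6 * j + 0 ∈ isoE D from mem_isoE.2 hj)]
    have m1 : ∀ (y : ℕ → ℝ) (j : ℕ), mixv (isoE D) x y (6 * j + 1) = y (6 * j + 1) := by
      intro y j
      unfold mixv
      rw [if_neg mem_isoE1]
    have m2 : ∀ (y z : ℕ → ℝ) (j : ℕ), j < D → mixv (isoG D) y z (6 * j + 1) = y (6 * j + 1) := by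
      intro y z j hj
      unfold mixv
      rw [if_pos (mem_isoG.2 hj)]
    have m5 : ∀ (y : ℕ → ℝ), mixv (isoE D) x y 5 = x 5 := by
      intro y
      unfold mixv
      rw [if_pos mem_isoE5]
    have p0 : ∀ (y : ℕ → ℝ), pnt D 0 (mixv (isoE D) x y) = pnt D 0 x := fun y =>
      pnt_congr fun j hj => m0 y j hj
    have p1 : pnt D 1 (mixv (isoE D) x (mixv (isoG D) y z)) = pnt D 1 (mixv (isoE D) x y) :=
      pnt_congr fun j hj => by rw [m1, m1, m2 _ _ _ hj]
    rw [p0, p0, m5, m5, p1]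
    have e1 : (∀ i < n, mixv (isoE D) x (mixv (isoG D) y z) (6 * i + 1) =
        mixv (isoE D) x (mixv (isoG D) y z) (6 * i + 0)) ↔
        ∀ i < n, mixv (isoE D) x y (6 * i + 1) = mixv (isoE D) x y (6 * i + 0) := by
      refine forall₂_congr fun i hi => ?_
      rw [m1, m1, m2 _ _ _ (by omega), m0 _ _ (by omega), m0 _ _ (by omega)]
    rw [e1]
  constructor
  · intro h y
    exact ⟨y, (hmix y y).2 (h y)⟩
  · intro h y
    obtain ⟨z, hz⟩ := h y
    exact (hmix y z).1 hz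

end Pool.Agent.K9h83.IP
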