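import Pool.Agent.K9h83.IP.Stat

/-!
# Existence of stationary configurations
-/

set_option autoImplicit false

namespace Pool.Agent.K9h83.IP

open Finset Filter Topology Pool.Agent.H612 Pool.Agent.R537.RN Pool.Agent.NPC

variable {n l : ℕ} (loc : ℕ → Fin n ⊕ Fin l) (S : List ER.Con) (K : ℕ)

theorem hasDerivAt_qh (τ : ℝ) (x d : Fin n → ℝ) (Y e : Fin (l + 1) → ℝ) (s : ℝ) :
    HasDerivAt (fun s : ℝ => qh loc S τ (x + s • d) (Y + s • e))
      (∑ a, d a * gx loc S τ (x + s • d) (Y + s • e) a + e 0 * gt loc S τ (x + s • d) (Y + s • e) +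
        ∑ b : Fin l, e b.succ * gz loc S τ (x + s • d) (Y + s • e) b) s := by
  rw [← dq_decomp]
  unfold qh
  have hx : ∀ a, HasDerivAt (fun s : ℝ => (x + s • d) a) (d a) s := by
    intro a
    have := ((hasDerivAt_id s).mul_const (d a)).const_add (x a)
    simpa using this
  have hY : ∀ b, HasDerivAt (fun s : ℝ => (Y + s • e) b) (e b) s := by
    intro a
    have := ((hasDerivAt_id s).mul_const (e a)).const_add (Y a)
    simpa using this
  refine hasDerivAt_qsum (V := fun s => Vv loc τ (x + s • d) (Y + s • e))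
    (V' := fun s i => Sum.elim (fun a => e 0 * (x + s • d) a + (Y + s • e) 0 * d a)
      (fun b => τ * e b.succ) (loc i)) (w := fun s => τ * (Y + s • e) 0) (w' := fun _ => τ * e 0)
    (fun i => ?_) ((hY 0).const_mul τ) S
  unfold Vv
  rcases loc i with j | j
  · simp only [Sum.elim_inl]
    exact (hY 0).mul (hx j)
  · simp only [Sum.elim_inr]
    exact (hY j.succ).const_mul τ

theorem hasDerivAt_val (τ ζ : ℝ) (x d : Fin n → ℝ) (Y e : Fin (l + 1) → ℝ) (s : ℝ) :
    HasDerivAt (fun s : ℝ => val loc S K τ ζ (x + s • d) (Y + s • e))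
      (∑ a, d a * gx loc S τ (x + s • d) (Y + s • e) a +
        e 0 * (gt loc S τ (x + s • d) (Y + s • e) - K * τ ^ 5 * (Y + s • e) 0 ^ (K - 1)) +
        ∑ b : Fin l, e b.succ * (gz loc S τ (x + s • d) (Y + s • e) b +
          6 * ζ * (Y + s • e) b.succ ^ 5)) s := by
  have hY : ∀ b, HasDerivAt (fun s : ℝ => (Y + s • e) b) (e b) s := by
    intro a
    have := ((hasDerivAt_id s).mul_const (e a)).const_add (Y a)
    simpa using this
  have h1 := hasDerivAt_qh loc S τ x d Y e s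
  have h2 := ((hY 0).pow K).const_mul (τ ^ 5)
  have h3 : HasDerivAt (fun s : ℝ => ∑ b : Fin l, (Y + s • e) b.succ ^ 6)
      (∑ b : Fin l, (6 : ℕ) * (Y + s • e) b.succ ^ (6 - 1) * e b.succ) s :=
    HasDerivAt.fun_sum fun b _ => (hY b.succ).pow 6
  have h4 := (h1.sub h2).add (h3.const_mul ζ)
  refine h4.congr_deriv ?_
  simp only [mul_add, Finset.sum_add_distrib, Finset.mul_sum]
  have e1 : ∀ b : Fin l, ζ * ((6 : ℕ) * (Y + s • e) b.succ ^ (6 - 1) * e b.succ) =
      e b.succ * (6 * ζ * (Y + s • e) b.succ ^ 5) := by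
    intro b; push_cast; ring
  simp only [e1]
  ring

/-- The function of the max-min problem. -/
def gf (τ ζ δ : ℝ) (c : Fin n → ℝ) (x : Fin n → ℝ) (Y : Fin (l + 1) → ℝ) : ℝ :=
  val loc S K τ ζ x Y + δ * (2 * n + 2 - ∑ a, x a ^ 2) + ζ * ∑ a, c a * x a

/-- Its gradient. -/
def gG (τ ζ δ : ℝ) (c : Fin n → ℝ) (x : Fin n → ℝ) (Y : Fin (l + 1) → ℝ) (a : Fin n) : ℝ :=
  gx loc S τ x Y a - 2 * δ * x a + ζ * c a

theorem continuous_gf (τ ζ δ : ℝ) (c : Fin n → ℝ) :
    Continuous fun q : (Fin n → ℝ) × (Fin (l + 1) → ℝ) => gf loc S K τ ζ δ c q.1 q.2 := by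
  unfold gf
  have := continuous_val loc S K (x := fun q : (Fin n → ℝ) × (Fin (l + 1) → ℝ) => q.1)
    (Y := fun q => q.2) continuous_fst continuous_snd τ ζ
  fun_prop

theorem hasDerivAt_gf (τ ζ δ : ℝ) (c x d : Fin n → ℝ) (Y : Fin (l + 1) → ℝ) (s : ℝ) :
    HasDerivAt (fun s : ℝ => gf loc S K τ ζ δ c (x + s • d) Y)
      (∑ a, gG loc S τ ζ δ c (x + s • d) Y a * d a) s := by
  have hx : ∀ a, HasDerivAt (fun s : ℝ => (x + s • d) a) (d a) s := by
    intro a
    have := ((hasDerivAt_id s).mul_const (d a)).const_add (x a)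
    simpa using this
  have h1 := hasDerivAt_val loc S K τ ζ x d Y 0 s
  simp only [smul_zero, add_zero, Pi.zero_apply, zero_mul, Finset.sum_const_zero] at h1
  have h2 : HasDerivAt (fun s : ℝ => ∑ a, (x + s • d) a ^ 2)
      (∑ a, (2 : ℕ) * (x + s • d) a ^ (2 - 1) * d a) s :=
    HasDerivAt.fun_sum fun a _ => (hx a).pow 2
  have h3 : HasDerivAt (fun s : ℝ => ∑ a, c a * (x + s • d) a) (∑ a, c a * d a) s :=
    HasDerivAt.fun_sum fun a _ => (hx a).const_mul (c a)
  have h4 := (h1.add ((h2.const_sub (2 * n + 2 : ℝ)).const_mul δ)).add (h3.const_mul ζ)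
  refine h4.congr_deriv ?_
  unfold gG
  simp only [mul_neg, Finset.mul_sum, ← sub_eq_add_neg, ← Finset.sum_sub_distrib,
    ← Finset.sum_add_distrib]
  refine Finset.sum_congr rfl fun a _ => ?_
  push_cast
  ring

/-- The equations at a minimum over the box. -/
theorem eq_of_min (hK : 2 ≤ K) (τ ζ : ℝ) (x : Fin n → ℝ) (Y : Fin (l + 1) → ℝ) (hY : Y ∈ box l)
    (hmin : ∀ Y' ∈ box l, val loc S K τ ζ x Y ≤ val loc S K τ ζ x Y') :
    eqT loc S K τ x Y = 0 ∧ ∀ b, eqZ loc S τ ζ x Y b = 0 := by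
  classical
  have key : ∀ b : Fin (l + 1), (∀ᶠ s : ℝ in 𝓝 0, Y + s • Pi.single b (1 : ℝ) ∈ box l) →
      (∑ a, (0 : Fin n → ℝ) a * gx loc S τ x Y a +
        (Pi.single b (1 : ℝ) : Fin (l + 1) → ℝ) 0 * (gt loc S τ x Y - K * τ ^ 5 * Y 0 ^ (K - 1)) +
        ∑ b' : Fin l, (Pi.single b (1 : ℝ) : Fin (l + 1) → ℝ) b'.succ *
          (gz loc S τ x Y b' + 6 * ζ * Y b'.succ ^ 5)) = 0 := by
    intro b hb
    have h1 := hasDerivAt_val loc S K τ ζ x 0 Y (Pi.single b (1 : ℝ)) 0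
    simp only [smul_zero, add_zero, zero_smul] at h1
    refine IsLocalMin.hasDerivAt_eq_zero ?_ h1
    filter_upwards [hb] with s hs
    simp only [zero_smul, add_zero]
    exact hmin _ hs
  constructor
  · unfold eqT
    rcases eq_or_lt_of_le hY.2.1 with h1 | h1
    · rw [h1, sub_self, zero_mul]
    · rcases eq_or_lt_of_le hY.1 with h0 | h0
      · rw [← h0, zero_pow (by omega)]; ring
      · have hb : ∀ᶠ s : ℝ in 𝓝 0, Y + s • Pi.single 0 (1 : ℝ) ∈ box l := by
          have c1 : Continuous fun s : ℝ => (Y + s • (Pi.single 0 (1 : ℝ) : Fin (l + 1) → ℝ)) 0 := by fun_prop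
          have e1 : ∀ᶠ s : ℝ in 𝓝 0, 0 < (Y + s • (Pi.single 0 (1 : ℝ) : Fin (l + 1) → ℝ)) 0 := by
            refine c1.continuousAt.eventually_const_lt ?_
            simpa using h0
          have e2 : ∀ᶠ s : ℝ in 𝓝 0, (Y + s • (Pi.single 0 (1 : ℝ) : Fin (l + 1) → ℝ)) 0 < 1 := by
            refine c1.continuousAt.eventually_lt_const ?_
            simpa using h1
          filter_upwards [e1, e2] with s h2 h3
          refine ⟨h2.le, h3.le, fun b => ?_⟩
          simpa using hY.2.2 b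
        have h2 := key 0 hb
        have h3 : ∀ b' : Fin l, (Pi.single 0 (1 : ℝ) : Fin (l + 1) → ℝ) b'.succ = 0 := by
          intro b'; simp
        simp only [h3, Pi.zero_apply, zero_mul, Finset.sum_const_zero, Pi.single_eq_same, one_mul,
          zero_add, add_zero] at h2
        have h4 : Y 0 ^ K = Y 0 * Y 0 ^ (K - 1) := by
          rw [← pow_succ']; congr 1; omega
        rw [h4]
        have : Y 0 * gt loc S τ x Y - K * τ ^ 5 * (Y 0 * Y 0 ^ (K - 1)) =
            Y 0 * (gt loc S τ x Y - K * τ ^ 5 * Y 0 ^ (K - 1)) := by ring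
        rw [this, h2]
        ring
  · intro b
    unfold eqZ
    rcases eq_or_lt_of_le (hY.2.2 b) with h1 | h1
    · have : Y b.succ ^ 2 = 1 := by rw [← sq_abs, h1, one_pow]
      rw [this, sub_self, zero_mul]
    · have hb : ∀ᶠ s : ℝ in 𝓝 0, Y + s • Pi.single b.succ (1 : ℝ) ∈ box l := by
        have c1 : Continuous fun s : ℝ => |(Y + s • (Pi.single b.succ (1 : ℝ) : Fin (l + 1) → ℝ)) b.succ| := by fun_prop
        have e2 : ∀ᶠ s : ℝ in 𝓝 0, |(Y + s • (Pi.single b.succ (1 : ℝ) : Fin (l + 1) → ℝ)) b.succ| < 1 := by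
          refine c1.continuousAt.eventually_lt_const ?_
          simpa using h1
        filter_upwards [e2] with s h3
        have h0 : (Pi.single b.succ (1 : ℝ) : Fin (l + 1) → ℝ) 0 = 0 := by simp
        refine ⟨?_, ?_, fun b' => ?_⟩
        · simp only [Pi.add_apply, Pi.smul_apply, h0, smul_zero, add_zero]; exact hY.1
        · simp only [Pi.add_apply, Pi.smul_apply, h0, smul_zero, add_zero]; exact hY.2.1
        · by_cases hbb : b' = b
          · rw [hbb]; exact h3.le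
          · have h4 : (Pi.single b.succ (1 : ℝ) : Fin (l + 1) → ℝ) b'.succ = 0 := by
              rw [Pi.single_eq_of_ne]
              intro h5
              exact hbb (Fin.succ_injective _ h5)
            simp only [Pi.add_apply, Pi.smul_apply, h4, smul_zero, add_zero]
            exact hY.2.2 b'
      have h2 := key b.succ hb
      have h0 : (Pi.single b.succ (1 : ℝ) : Fin (l + 1) → ℝ) 0 = 0 := by simp
      have h3 : ∑ b' : Fin l, (Pi.single b.succ (1 : ℝ) : Fin (l + 1) → ℝ) b'.succ *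
          (gz loc S τ x Y b' + 6 * ζ * Y b'.succ ^ 5) =
          gz loc S τ x Y b + 6 * ζ * Y b.succ ^ 5 := by
        rw [Finset.sum_eq_single b]
        · simp
        · intro b' _ hbb
          rw [Pi.single_eq_of_ne, zero_mul]
          intro h5
          exact hbb (Fin.succ_injective _ h5)
        · simp
      rw [h3, h0] at h2
      simp only [Pi.zero_apply, zero_mul, Finset.sum_const_zero, zero_add] at h2
      have : Y b.succ * gz loc S τ x Y b + 6 * ζ * Y b.succ ^ 6 =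
          Y b.succ * (gz loc S τ x Y b + 6 * ζ * Y b.succ ^ 5) := by ring
      rw [this, h2]
      ring

theorem isCompact_box (l : ℕ) : IsCompact (box l) := by
  have h : box l = Set.Icc (Fin.cons 0 fun _ => -1) (Fin.cons 1 fun _ => 1) := by
    ext Y
    simp only [box, Set.mem_ofPred_eq, Set.mem_Icc, Pi.le_def, Fin.forall_fin_succ, Fin.cons_zero,
      Fin.cons_succ, abs_le]
    constructor
    · rintro ⟨h1, h2, h3⟩
      exact ⟨⟨h1, fun b => (h3 b).1⟩, ⟨h2, fun b => (h3 b).2⟩⟩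
    · rintro ⟨⟨h1, h2⟩, ⟨h3, h4⟩⟩
      exact ⟨h1, h3, fun b => ⟨h2 b, h4 b⟩⟩
  rw [h]
  exact isCompact_Icc

/-- A stationary configuration at the solution of the max-min problem. -/
theorem exists_stat (hK : 2 ≤ K) (τ ζ δ : ℝ) (c x : Fin n → ℝ) (v : ℝ)
    (h1 : ∀ Y ∈ box l, v ≤ gf loc S K τ ζ δ c x Y)
    (h2 : ∀ x', ∃ Y ∈ box l, gf loc S K τ ζ δ c x' Y ≤ v) :
    ∃ (J : Type) (_ : Fintype J) (lam : J → ℝ) (Y : J → Fin (l + 1) → ℝ),
      (∀ j, Y j ∈ box l) ∧ (∀ j, 0 < lam j) ∧ Stat loc S K τ ζ δ c x lam Y ∧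
        AffineIndependent ℝ fun j => gx loc S τ x (Y j) := by
  obtain ⟨J, hJ, Y, w, hYv, haff, hw, hw1, hwz⟩ := danskin (box l) (isCompact_box l)
    (gf loc S K τ ζ δ c) (gG loc S τ ζ δ c) (continuous_gf loc S K τ ζ δ c) (by
      refine continuous_pi fun a => ?_
      unfold gG
      have := continuous_gx loc S (x := fun q : (Fin n → ℝ) × (Fin (l + 1) → ℝ) => q.1)
        (Y := fun q => q.2) continuous_fst continuous_snd τ a
      fun_prop) (fun x d Y s => hasDerivAt_gf loc S K τ ζ δ c x d Y s) x v h1 h2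
  have hvv : ∀ j j', val loc S K τ ζ x (Y j) = val loc S K τ ζ x (Y j') := by
    intro j j'
    have e1 := (hYv j).2
    have e2 := (hYv j').2
    unfold gf at e1 e2
    linarith
  have hmin : ∀ j, ∀ Y' ∈ box l, val loc S K τ ζ x (Y j) ≤ val loc S K τ ζ x Y' := by
    intro j Y' hY'
    have e1 := (hYv j).2
    have e2 := h1 Y' hY'
    unfold gf at e1 e2
    linarith
  refine ⟨J, hJ, w, Y, fun j => (hYv j).1, hw, ⟨fun j => ?_, fun j b => ?_, hvv, hw1,
    fun a => ?_⟩, ?_⟩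
  · exact (eq_of_min loc S K hK τ ζ x (Y j) (hYv j).1 (hmin j)).1
  · exact (eq_of_min loc S K hK τ ζ x (Y j) (hYv j).1 (hmin j)).2 b
  · have e1 := congrFun hwz a
    rw [Finset.sum_apply] at e1
    simp only [Pi.smul_apply, smul_eq_mul, gG, Pi.zero_apply] at e1
    have e2 : ∀ j, w j * (gx loc S τ x (Y j) a - 2 * δ * x a + ζ * c a) =
        w j * gx loc S τ x (Y j) a + w j * (- (2 * δ * x a) + ζ * c a) := fun j => by ring
    simp only [e2, Finset.sum_add_distrib, ← Finset.sum_mul, hw1] at e1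
    linarith
  · rw [affineIndependent_iff] at haff ⊢
    intro s u hu1 hu2
    refine haff s u hu1 ?_
    funext a
    have e1 := congrFun hu2 a
    rw [Finset.sum_apply] at e1 ⊢
    simp only [Pi.smul_apply, smul_eq_mul, gG, Pi.zero_apply] at e1 ⊢
    have e2 : ∀ j, u j * (gx loc S τ x (Y j) a - 2 * δ * x a + ζ * c a) =
        u j * gx loc S τ x (Y j) a + u j * (- (2 * δ * x a) + ζ * c a) := fun j => by ring
    simp only [e2, Finset.sum_add_distrib, ← Finset.sum_mul, hu1, e1]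
    ring

/-- Existence of a solution of the max-min problem. -/
theorem exists_max (τ ζ δ : ℝ) (c : Fin n → ℝ) (R : ℝ) (hR : 1 ≤ R)
    (h1 : ∃ x ∈ cube n, ∀ Y ∈ box l, 0 < gf loc S K τ ζ δ c x Y)
    (h2 : ∀ x, (∃ a, R < |x a|) → ∃ Y ∈ box l, gf loc S K τ ζ δ c x Y ≤ 0) :
    ∃ (x : Fin n → ℝ) (v : ℝ), 0 < v ∧ (∀ Y ∈ box l, v ≤ gf loc S K τ ζ δ c x Y) ∧
      ∀ x', ∃ Y ∈ box l, gf loc S K τ ζ δ c x' Y ≤ v := by
  have hgc := continuous_gf loc S K τ ζ δ c
  obtain ⟨m, hm⟩ : ∃ m : (Fin n → ℝ) → ℝ, ∀ x, m x = sInf ((fun Y => gf loc S K τ ζ δ c x Y) '' box l) :=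
    ⟨_, fun x => rfl⟩
  have hmc : Continuous m := by
    have : m = fun x => sInf ((fun Y => gf loc S K τ ζ δ c x Y) '' box l) := funext hm
    rw [this]
    exact (isCompact_box l).continuous_sInf (f := fun x Y => gf loc S K τ ζ δ c x Y) hgc
  have hleast : ∀ x, IsLeast ((fun Y => gf loc S K τ ζ δ c x Y) '' box l) (m x) := by
    intro x
    rw [hm]
    have hY : Continuous fun Y : Fin (l + 1) → ℝ => gf loc S K τ ζ δ c x Y :=
      hgc.comp (f := fun Y : Fin (l + 1) → ℝ => ((x, Y) : (Fin n → ℝ) × (Fin (l + 1) → ℝ)))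
        (by fun_prop)
    exact ((isCompact_box l).image hY).isLeast_sInf ⟨_, ⟨0, zero_mem_box l, rfl⟩⟩
  have hle : ∀ x, ∀ Y ∈ box l, m x ≤ gf loc S K τ ζ δ c x Y := fun x Y hY =>
    (hleast x).2 ⟨Y, hY, rfl⟩
  have hex : ∀ x, ∃ Y ∈ box l, gf loc S K τ ζ δ c x Y = m x := fun x => (hleast x).1
  have hcomp : IsCompact (Set.Icc (fun _ : Fin n => -R) (fun _ => R)) := isCompact_Icc
  obtain ⟨x0, hx0, hx0p⟩ := h1
  have hx0R : x0 ∈ Set.Icc (fun _ : Fin n => -R) (fun _ => R) := by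
    constructor
    · intro a; have := abs_le.1 (hx0 a); simp only; linarith
    · intro a; have := abs_le.1 (hx0 a); simp only; linarith
  obtain ⟨xs, hxs, hxm⟩ := hcomp.exists_isMaxOn ⟨x0, hx0R⟩ hmc.continuousOn
  have hpos : 0 < m xs := by
    obtain ⟨Y, hY, hY2⟩ := hex x0
    have e1 := hx0p Y hY
    have e2 : m x0 ≤ m xs := hxm hx0R
    linarith
  refine ⟨xs, m xs, hpos, hle xs, fun x' => ?_⟩
  by_cases hx' : x' ∈ Set.Icc (fun _ : Fin n => -R) (fun _ => R)
  · obtain ⟨Y, hY, hY2⟩ := hex x'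
    have e2 : m x' ≤ m xs := hxm hx'
    exact ⟨Y, hY, by linarith⟩
  · obtain ⟨Y, hY, hY2⟩ := h2 x' (by
      by_contra hcon
      push Not at hcon
      apply hx'
      constructor
      · intro a; exact (abs_le.1 (hcon a)).1
      · intro a; exact (abs_le.1 (hcon a)).2)
    exact ⟨Y, hY, by linarith⟩

end Pool.Agent.K9h83.IP
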