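import Pool.Agent.K9h83.IP.Kkt

/-!
# The parameters
-/

set_option autoImplicit false

namespace Pool.Agent.K9h83.IP

open Finset Filter Topology Pool.Agent.H612 Pool.Agent.R537.RN Pool.Agent.NPC

variable {n l : ℕ} (loc : ℕ → Fin n ⊕ Fin l) (S : List ER.Con)

/-- The constants. -/
def sc (a : ℕ) : ℚ := (1 / 2) ^ 2 ^ a

theorem sc_real (a : ℕ) : ((sc a : ℚ) : ℝ) = (1 / 2) ^ 2 ^ a := by
  unfold sc; push_cast; rfl

theorem sc_pos (a : ℕ) : 0 < sc a := by unfold sc; positivity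

theorem sc_pos' (a : ℕ) : (0 : ℝ) < sc a := by exact_mod_cast sc_pos a

/-- The exponent of `δ`. -/
def N2 (n l s : ℕ) : ℕ := k2 n l s + 1 + (n + 3)
/-- The exponent of `ζ`. -/
def N3 (n l s : ℕ) : ℕ := N2 n l s + (n + l + 3)

theorem sc_add (a b m : ℕ) (hm : m + 1 ≤ 2 ^ b) : (2 : ℝ) ^ m * sc (a + b) ≤ sc a := by
  rw [sc_real, sc_real]
  have h1 : (2 : ℝ) ^ m * (1 / 2) ^ 2 ^ (a + b) = (2 : ℝ) ^ m * ((1 / 2) ^ m *
      (1 / 2) ^ (2 ^ (a + b) - m)) := by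
    rw [← pow_add]
    congr 2
    have : 2 ^ b ≤ 2 ^ (a + b) := Nat.pow_le_pow_right (by norm_num) (by omega)
    omega
  rw [h1, ← mul_assoc, ← mul_pow]
  norm_num
  refine pow_le_pow_of_le_one (by norm_num) (by norm_num) ?_
  have h2 : 2 ^ (a + b) = 2 ^ a * 2 ^ b := pow_add _ _ _
  have h3 : 1 ≤ 2 ^ a := Nat.one_le_two_pow
  have h4 : 2 ^ a * (m + 1) ≤ 2 ^ a * 2 ^ b := Nat.mul_le_mul_left _ hm
  have h5 : m ≤ 2 ^ a * m := Nat.le_mul_of_pos_left _ h3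
  have h6 : 2 ^ a * (m + 1) = 2 ^ a * m + 2 ^ a := by ring
  omega

theorem delta_le (n l s : ℕ) : (2 * n + 3 : ℝ) * sc (N2 n l s) < sc (k2 n l s + 1) := by
  have h2 : ∀ k : ℕ, k + 1 ≤ 2 ^ k := fun k => Nat.lt_two_pow_self
  have h1 := sc_add (k2 n l s + 1) (n + 3) (n + 3) (h2 _)
  have h3 : (2 * n + 3 : ℝ) < 2 ^ (n + 3) := by
    have : 2 * n + 3 < 2 ^ (n + 3) := by
      have h4 := h2 n
      have h5 : 2 ^ (n + 3) = 8 * 2 ^ n := by rw [pow_add]; ring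
      omega
    exact_mod_cast this
  refine lt_of_lt_of_le ?_ h1
  exact mul_lt_mul_of_pos_right h3 (sc_pos' _)

theorem zeta_le (n l s : ℕ) : (l + n * 2 ^ (n + 1) : ℝ) * sc (N3 n l s) ≤ sc (N2 n l s) := by
  have h2 : ∀ k : ℕ, k + 1 ≤ 2 ^ k := fun k => Nat.lt_two_pow_self
  have h1 := sc_add (N2 n l s) (n + l + 3) (2 * n + l + 2) (by
    have h4 := h2 (n + l)
    have h5 : 2 ^ (n + l + 3) = 8 * 2 ^ (n + l) := by rw [pow_add]; ring
    omega)
  have h3 : (l + n * 2 ^ (n + 1) : ℝ) ≤ 2 ^ (2 * n + l + 2) := by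
    have : l + n * 2 ^ (n + 1) ≤ 2 ^ (2 * n + l + 2) := by
      have h4 := h2 n
      have h5 := h2 l
      have h6 : 2 ^ (2 * n + l + 2) = 4 * (2 ^ n * 2 ^ n * 2 ^ l) := by
        rw [show 2 * n + l + 2 = n + n + l + 2 by ring, pow_add, pow_add, pow_add]; ring
      have h7 : 2 ^ (n + 1) = 2 * 2 ^ n := by rw [pow_add]; ring
      rw [h6, h7]
      have h8 : 1 ≤ 2 ^ l := Nat.one_le_two_pow
      have h9 : 1 ≤ 2 ^ n := Nat.one_le_two_pow
      have h10 : n * 2 ^ n ≤ 2 ^ n * 2 ^ n := Nat.mul_le_mul_right _ (by omega)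
      have h11 : 2 ^ n * 2 ^ n ≤ 2 ^ n * 2 ^ n * 2 ^ l := Nat.le_mul_of_pos_right _ h8
      have h12 : 2 ^ l ≤ 2 ^ n * 2 ^ n * 2 ^ l := Nat.le_mul_of_pos_left _ (by positivity)
      nlinarith
    exact_mod_cast this
  refine le_trans ?_ h1
  exact mul_le_mul_of_nonneg_right h3 (sc_pos' _).le

theorem zeta_le_delta (n l s : ℕ) : (sc (N3 n l s) : ℝ) ≤ sc (N2 n l s) := by
  have h1 := sc_add (N2 n l s) (n + l + 3) 0 (by
    have : 1 ≤ 2 ^ (n + l + 3) := Nat.one_le_two_pow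
    omega)
  rw [pow_zero, one_mul] at h1
  exact h1

theorem kap_ge (l s : ℕ) : 16 ≤ kap l s := by
  unfold kap Gx
  nlinarith

theorem K_ge (l s : ℕ) : 7 ≤ 2 ^ kap l s := by
  calc 7 ≤ 2 ^ 16 := by norm_num
    _ ≤ _ := Nat.pow_le_pow_right (by norm_num) (kap_ge l s)

/-- The function with the chosen parameters. -/
noncomputable def gp (c x : Fin n → ℝ) (Y : Fin (l + 1) → ℝ) : ℝ :=
  gf loc S (2 ^ kap l S.length) (sc (N1 n l S.length)) (sc (N3 n l S.length))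
    (sc (N2 n l S.length)) c x Y

theorem sum_cx_le {c x : Fin n → ℝ} (hc : ∀ a, |c a| ≤ 1) {R : ℝ} (hx : ∀ a, |x a| ≤ R) :
    |∑ a, c a * x a| ≤ n * R := by
  refine (Finset.abs_sum_le_sum_abs _ _).trans ?_
  calc ∑ a, |c a * x a| ≤ ∑ _a : Fin n, R := Finset.sum_le_sum fun a _ => by
        rw [abs_mul]
        have := hx a
        have := hc a
        nlinarith [abs_nonneg (x a), abs_nonneg (c a)]
    _ = n * R := by simp

theorem gp_pos (h : Sent2 loc S) (c : Fin n → ℝ) (hc : ∀ a, |c a| ≤ 1) :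
    ∃ x ∈ cube n, ∀ Y ∈ box l, 0 < gp loc S c x Y := by
  obtain ⟨x, hx, hY⟩ := gap_T loc S h
  refine ⟨x, hx, fun Y hYb => ?_⟩
  have h1 := hY Y hYb
  rw [← sc_real] at h1
  unfold gp gf val
  have h2 : (0 : ℝ) ≤ sc (N3 n l S.length) * ∑ b : Fin l, Y b.succ ^ 6 :=
    mul_nonneg (sc_pos' _).le (Finset.sum_nonneg fun _ _ => by positivity)
  have h3 : ∑ a, x a ^ 2 ≤ n := by
    calc ∑ a, x a ^ 2 ≤ ∑ _a : Fin n, (1 : ℝ) := Finset.sum_le_sum fun a _ => by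
          rw [← sq_abs]
          nlinarith [abs_nonneg (x a), hx a]
      _ = n := by simp
  have h4 := sum_cx_le hc hx
  have h5 := (abs_le.1 h4).1
  have h6 := sc_pos' (N2 n l S.length)
  have h7 := sc_pos' (N3 n l S.length)
  have h8 := zeta_le_delta n l S.length
  have hn : (0 : ℝ) ≤ n := Nat.cast_nonneg n
  have h9 : (sc (N2 n l S.length) : ℝ) * (n + 2) ≤
      sc (N2 n l S.length) * (2 * n + 2 - ∑ a, x a ^ 2) :=
    mul_le_mul_of_nonneg_left (by linarith) h6.le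
  have h10 : -(sc (N3 n l S.length) * (n : ℝ)) ≤
      sc (N3 n l S.length) * ∑ a, c a * x a := by
    have := mul_le_mul_of_nonneg_left h5 h7.le
    linarith
  have h11 : (sc (N3 n l S.length) : ℝ) * n ≤ sc (N2 n l S.length) * n :=
    mul_le_mul_of_nonneg_right h8 hn
  linarith

theorem gp_zero (c x : Fin n → ℝ) : gp loc S c x 0 =
    sc (N2 n l S.length) * (2 * n + 2 - ∑ a, x a ^ 2) + sc (N3 n l S.length) * ∑ a, c a * x a := by
  unfold gp gf val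
  have h1 : ∀ τ : ℝ, qh loc S τ x 0 = 0 := by
    intro τ
    have h2 : (Vv loc τ x 0 : ℕ → ℝ) = fun i => 0 * 0 := by
      funext i
      unfold Vv
      rcases loc i with j | j <;> simp
    unfold qh
    rw [h2, Pi.zero_apply, mul_zero]
    have h3 := qsum_scale (0 : ℝ) (fun _ => 0) 0 S
    simp only [mul_zero] at h3 ⊢
    rw [h3]
    ring
  rw [h1]
  simp

theorem gp_far (c : Fin n → ℝ) (hc : ∀ a, |c a| ≤ 1) (x : Fin n → ℝ)
    (hx : ∃ a, 2 ^ (n + 1) < |x a|) : gp loc S c x 0 < 0 := by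
  rw [gp_zero]
  obtain ⟨a, ha⟩ := hx
  have hn : (1 : ℝ) ≤ n := by
    have : 1 ≤ n := Nat.one_le_iff_ne_zero.2 (by
      rintro rfl
      exact a.elim0)
    exact_mod_cast this
  set q := ∑ a, x a ^ 2 with hq
  have h1 : (4 : ℝ) ^ (n + 1) < q := by
    have e1 : x a ^ 2 ≤ q := Finset.single_le_sum (f := fun a => x a ^ 2)
      (fun _ _ => sq_nonneg _) (mem_univ a)
    have e2 : ((2 : ℝ) ^ (n + 1)) ^ 2 < x a ^ 2 := by
      rw [← sq_abs (x a)]
      exact pow_lt_pow_left₀ ha (by positivity) two_ne_zero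
    have e3 : ((2 : ℝ) ^ (n + 1)) ^ 2 = 4 ^ (n + 1) := by
      rw [← pow_mul, mul_comm, pow_mul]; norm_num
    linarith
  have h2 : ∑ a, c a * x a ≤ (n + q) / 2 := by
    have e1 : ∀ a, c a * x a ≤ (1 + x a ^ 2) / 2 := by
      intro a
      have e2 : c a * x a ≤ |x a| := by
        refine (le_abs_self _).trans ?_
        rw [abs_mul]
        nlinarith [abs_nonneg (x a), hc a]
      have e3 : |x a| ^ 2 = x a ^ 2 := sq_abs _
      nlinarith [sq_nonneg (|x a| - 1)]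
    refine (Finset.sum_le_sum fun a _ => e1 a).trans ?_
    rw [← Finset.sum_div, Finset.sum_add_distrib]
    simp [hq]
  have h3 : (n : ℝ) + 1 ≤ 4 ^ n := by
    have e1 : n + 1 ≤ 2 ^ n := Nat.lt_two_pow_self
    have e2 : 2 ^ n ≤ 4 ^ n := Nat.pow_le_pow_left (by norm_num) n
    exact_mod_cast e1.trans e2
  have h4 : (4 : ℝ) ^ (n + 1) = 4 * 4 ^ n := by rw [pow_succ]; ring
  have h6 := sc_pos' (N2 n l S.length)
  have h7 := sc_pos' (N3 n l S.length)
  have h8 := zeta_le_delta n l S.length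
  have h9 : (sc (N3 n l S.length) : ℝ) * ∑ a, c a * x a ≤
      sc (N2 n l S.length) * ((n + q) / 2) :=
    (mul_le_mul_of_nonneg_left h2 h7.le).trans (mul_le_mul_of_nonneg_right h8 (by linarith))
  have h10 : (sc (N2 n l S.length) : ℝ) * (2 * n + 2 - q) +
      sc (N2 n l S.length) * ((n + q) / 2) =
      sc (N2 n l S.length) * ((5 / 2) * n + 2 - q / 2) := by ring
  have h11 : (5 / 2 : ℝ) * n + 2 - q / 2 < 0 := by
    have h12 : 2 * (n + 1 : ℝ) + n ≤ 2 * 4 ^ n := by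
      have e1 : 2 * (n + 1) + n ≤ 2 * 4 ^ n := by
        have e2 : n + 1 ≤ 2 ^ n := Nat.lt_two_pow_self
        have e3 : 2 ^ n * 2 ^ n = 4 ^ n := by rw [← mul_pow]; norm_num
        have e4 : (n + 1) * (n + 1) ≤ 2 ^ n * 2 ^ n := Nat.mul_le_mul e2 e2
        nlinarith
      exact_mod_cast e1
    nlinarith
  have h12 : (sc (N2 n l S.length) : ℝ) * ((5 / 2) * n + 2 - q / 2) < 0 :=
    mul_neg_of_pos_of_neg h6 h11
  linarith

theorem gp_neg (h : ¬ Sent2 loc S) (c : Fin n → ℝ) (hc : ∀ a, |c a| ≤ 1) (x : Fin n → ℝ) :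
    ∃ Y ∈ box l, gp loc S c x Y < 0 := by
  by_cases hx : ∃ a, 2 ^ (n + 1) < |x a|
  · exact ⟨0, zero_mem_box l, gp_far loc S c hc x hx⟩
  · push Not at hx
    obtain ⟨Y, hY, h1⟩ := gap_F loc S h x hx
    refine ⟨Y, hY, ?_⟩
    rw [← sc_real, ← sc_real] at h1
    unfold gp gf val
    have h6 := sc_pos' (N2 n l S.length)
    have h7 := sc_pos' (N3 n l S.length)
    have h2 : (sc (N3 n l S.length) : ℝ) * ∑ b : Fin l, Y b.succ ^ 6 ≤
        sc (N3 n l S.length) * l := by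
      refine mul_le_mul_of_nonneg_left ?_ h7.le
      calc ∑ b : Fin l, Y b.succ ^ 6 ≤ ∑ _b : Fin l, (1 : ℝ) := Finset.sum_le_sum fun b _ => by
            rw [← Even.pow_abs (by decide : Even 6)]
            exact pow_le_one₀ (abs_nonneg _) (hY.2.2 b)
        _ = l := by simp
    have h3 : (0 : ℝ) ≤ ∑ a, x a ^ 2 := Finset.sum_nonneg fun _ _ => sq_nonneg _
    have h4 := (abs_le.1 (sum_cx_le hc hx)).2
    have h5 : (sc (N3 n l S.length) : ℝ) * ∑ a, c a * x a ≤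
        sc (N3 n l S.length) * (n * 2 ^ (n + 1)) := mul_le_mul_of_nonneg_left h4 h7.le
    have h8 := zeta_le n l S.length
    have h9 := delta_le n l S.length
    have h10 : (sc (N2 n l S.length) : ℝ) * (2 * n + 2 - ∑ a, x a ^ 2) ≤
        sc (N2 n l S.length) * (2 * n + 2) := mul_le_mul_of_nonneg_left (by linarith) h6.le
    linarith

theorem gp_max (h : Sent2 loc S) (c : Fin n → ℝ) (hc : ∀ a, |c a| ≤ 1) :
    ∃ (x : Fin n → ℝ) (v : ℝ), 0 < v ∧ (∀ Y ∈ box l, v ≤ gp loc S c x Y) ∧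
      ∀ x', ∃ Y ∈ box l, gp loc S c x' Y ≤ v := by
  refine exists_max loc S _ _ _ _ c (2 ^ (n + 1)) (one_le_pow₀ (by norm_num))
    (gp_pos loc S h c hc) fun x hx => ?_
  exact ⟨0, zero_mem_box l, (gp_far loc S c hc x hx).le⟩

end Pool.Agent.K9h83.IP
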