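import Pool.Agent.K9h83.IP.Red

/-!
# The reduction is computable in polynomial time
-/

set_option autoImplicit false

namespace Pool.Agent.NPC.K9IP

open Pool.Agent.R537.RN (kap kap' Gx)
open Pool.Agent.NPC Pool.Agent.NPC.ER Pool.Agent.NPC.H612
open Pool.Agent.NPC.R537HD Pool.Agent.K9h83.IP

section general

variable {α : Type} [TEnc α]

theorem upoly_sub {m n : α → ℕ} (hm : UPoly m) (hn : UPoly n) : UPoly (fun a => m a - n a) :=
  UPoly.of_le (Poly.sub hm.toPoly hn.toPoly) hm fun _ => Nat.sub_le _ _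

theorem poly_app {β : Type} [TEnc β] {V : α → ℕ → β} (hV : Poly (fun q : α × ℕ => V q.1 q.2))
    {i : α → ℕ} (hi : Poly i) : Poly (fun a => V a (i a)) :=
  hV.comp (Poly.pair Poly.id hi)

theorem poly_tCe {V : α → ℕ → Tm} {w : α → Tm} {c : α → ER.Con}
    (hV : Poly (fun q : α × ℕ => V q.1 q.2)) (hw : Poly w) (hc : Poly c) :
    Poly (fun a => tCe (V a) (w a) (c a)) := by
  have h0 : Poly (fun a => (c a).code) := poly_con_code hc
  have d0 : Poly (fun a => decide ((c a).code.1 = 0)) :=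
    Poly.decide_eq (Poly.fst h0) (Poly.const 0)
  have d1 : Poly (fun a => decide ((c a).code.1 = 1)) :=
    Poly.decide_eq (Poly.fst h0) (Poly.const 1)
  have e1 := poly_app hV (Poly.fst (Poly.snd h0))
  have e2 := poly_app hV (Poly.fst (Poly.snd (Poly.snd h0)))
  have e3 := poly_app hV (Poly.snd (Poly.snd (Poly.snd h0)))
  exact Poly.ite d0 (poly_tmul hw (poly_subT e1 hw)) (Poly.ite d1
    (poly_tmul hw (poly_subT (poly_tadd e1 e2) e3)) (poly_subT (poly_tmul e1 e2)
      (poly_tmul hw e3)))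

theorem poly_tDe {V : α → ℕ → Tm} {w : α → Tm} {V' : α → ℕ → Tm} {w' : α → Tm}
    {c : α → ER.Con} (hV : Poly (fun q : α × ℕ => V q.1 q.2)) (hw : Poly w)
    (hV' : Poly (fun q : α × ℕ => V' q.1 q.2)) (hw' : Poly w') (hc : Poly c) :
    Poly (fun a => tDe (V a) (w a) (V' a) (w' a) (c a)) := by
  have h0 : Poly (fun a => (c a).code) := poly_con_code hc
  have d0 : Poly (fun a => decide ((c a).code.1 = 0)) :=
    Poly.decide_eq (Poly.fst h0) (Poly.const 0)
  have d1 : Poly (fun a => decide ((c a).code.1 = 1)) :=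
    Poly.decide_eq (Poly.fst h0) (Poly.const 1)
  have e1 := poly_app hV (Poly.fst (Poly.snd h0))
  have e2 := poly_app hV (Poly.fst (Poly.snd (Poly.snd h0)))
  have e3 := poly_app hV (Poly.snd (Poly.snd (Poly.snd h0)))
  have g1 := poly_app hV' (Poly.fst (Poly.snd h0))
  have g2 := poly_app hV' (Poly.fst (Poly.snd (Poly.snd h0)))
  have g3 := poly_app hV' (Poly.snd (Poly.snd (Poly.snd h0)))
  exact Poly.ite d0 (poly_tadd (poly_tmul hw' (poly_subT e1 hw)) (poly_tmul hw (poly_subT g1 hw')))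
    (Poly.ite d1 (poly_tadd (poly_tmul hw' (poly_subT (poly_tadd e1 e2) e3))
      (poly_tmul hw (poly_subT (poly_tadd g1 g2) g3)))
      (poly_subT (poly_tadd (poly_tmul g1 e2) (poly_tmul e1 g2))
        (poly_tadd (poly_tmul hw' e3) (poly_tmul hw g3))))

theorem poly_tQs {V : α → ℕ → Tm} {w : α → Tm} {S : α → List ER.Con}
    (hV : Poly (fun q : α × ℕ => V q.1 q.2)) (hw : Poly w) (hS : Poly S) :
    Poly (fun a => tQs (V a) (w a) (S a)) := by
  refine poly_sumT (Poly.map (F := fun a c => sqT (tCe (V a) (w a) c)) hS (poly_sqT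
    (poly_tCe (V := fun q : α × ER.Con => V q.1) ?_ (hw.comp (Poly.fst Poly.id))
      (Poly.snd Poly.id))))
  exact hV.comp (Poly.pair (Poly.fst (Poly.fst Poly.id)) (Poly.snd Poly.id))

theorem poly_tDs {V : α → ℕ → Tm} {w : α → Tm} {V' : α → ℕ → Tm} {w' : α → Tm}
    {S : α → List ER.Con} (hV : Poly (fun q : α × ℕ => V q.1 q.2)) (hw : Poly w)
    (hV' : Poly (fun q : α × ℕ => V' q.1 q.2)) (hw' : Poly w') (hS : Poly S) :
    Poly (fun a => tDs (V a) (w a) (V' a) (w' a) (S a)) := by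
  have c1 := hV.comp (α := (α × ER.Con) × ℕ)
    (f := fun q => (q.1.1, q.2)) (Poly.pair (Poly.fst (Poly.fst Poly.id)) (Poly.snd Poly.id))
  have c2 := hV'.comp (α := (α × ER.Con) × ℕ)
    (f := fun q => (q.1.1, q.2)) (Poly.pair (Poly.fst (Poly.fst Poly.id)) (Poly.snd Poly.id))
  have w1 := hw.comp (α := α × ER.Con) (f := fun q => q.1) (Poly.fst Poly.id)
  have w2 := hw'.comp (α := α × ER.Con) (f := fun q => q.1) (Poly.fst Poly.id)
  refine poly_sumT (Poly.map (F := fun a c => Tm.mul twoT (Tm.mul (tCe (V a) (w a) c)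
    (tDe (V a) (w a) (V' a) (w' a) c))) hS (poly_tmul (Poly.const _) (poly_tmul
      (poly_tCe (V := fun q : α × ER.Con => V q.1) c1 w1 (Poly.snd Poly.id))
      (poly_tDe (V := fun q : α × ER.Con => V q.1) (V' := fun q : α × ER.Con => V' q.1) c1 w1 c2 w2
        (Poly.snd Poly.id)))))

theorem poly_p5 {t : α → Tm} (ht : Poly t) : Poly (fun a => p5 (t a)) :=
  poly_tmul (poly_sqT (poly_sqT ht)) ht

theorem poly_p6 {t : α → Tm} (ht : Poly t) : Poly (fun a => p6 (t a)) :=
  poly_tmul (poly_sqT (poly_sqT ht)) (poly_sqT ht)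

end general

section

variable {α : Type} [TEnc α] {p : α → InpE} (hp : Poly p)

include hp

theorem poly_eS : Poly (fun a => eS (p a)) := poly_sysOf (poly_fnot (Poly.snd hp))

theorem poly_eV : Poly (fun a => eV (p a)) :=
  Poly.flatMap (F := fun _ c => Con.vars c) (poly_eS hp) (poly_con_vars' (Poly.snd Poly.id))

theorem upoly_en : UPoly (fun a => en (p a)) := UPoly.length (Poly.fst hp)
theorem upoly_el : UPoly (fun a => el (p a)) :=
  UPoly.add (UPoly.length (poly_eV hp)) (UPoly.const 1)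
theorem upoly_es : UPoly (fun a => es (p a)) := UPoly.length (poly_eS hp)

theorem upoly_ek : UPoly (fun a => ek (p a)) :=
  upoly_Gx (upoly_el hp) (UPoly.add (upoly_es hp) (UPoly.const 4))

theorem upoly_x1 : UPoly (fun a => x1 (p a)) :=
  UPoly.add (upoly_Gx (upoly_en hp) (upoly_Gx (UPoly.add (upoly_el hp) (UPoly.const 1))
    (UPoly.add (UPoly.add (upoly_ek hp) (upoly_es hp)) (UPoly.const 6)))) (UPoly.const 1)

theorem upoly_k2 : UPoly (fun a => k2 (en (p a)) (el (p a)) (es (p a))) :=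
  upoly_Gx (upoly_en hp) (upoly_Gx (UPoly.add (upoly_el hp) (UPoly.const 1))
    (UPoly.add (UPoly.add (UPoly.add (UPoly.add (upoly_x1 hp) (upoly_en hp)) (upoly_es hp))
      (upoly_ek hp)) (UPoly.const 8)))

theorem upoly_x2 : UPoly (fun a => x2 (p a)) :=
  UPoly.add (UPoly.add (upoly_k2 hp) (UPoly.const 1)) (UPoly.add (upoly_en hp) (UPoly.const 3))

theorem upoly_x3 : UPoly (fun a => x3 (p a)) :=
  UPoly.add (upoly_x2 hp) (UPoly.add (UPoly.add (upoly_en hp) (upoly_el hp)) (UPoly.const 3))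

theorem upoly_bm : UPoly (fun a => bm (p a)) :=
  UPoly.add (UPoly.add (UPoly.const 1) (UPoly.add (upoly_ek hp) (UPoly.const 1))) (upoly_el hp)

theorem upoly_2n : UPoly (fun a => 2 * en (p a)) := UPoly.mul (UPoly.const 2) (upoly_en hp)

theorem poly_bb {j : α → ℕ} (hj : Poly j) : Poly (fun a => bb (p a) (j a)) :=
  Poly.add (Poly.add (upoly_2n hp).toPoly (Poly.const 1)) (Poly.mul hj (upoly_bm hp).toPoly)

theorem upoly_bs : UPoly (fun a => bs (p a)) :=
  UPoly.add (UPoly.add (upoly_2n hp) (UPoly.const 1))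
    (UPoly.mul (UPoly.add (upoly_en hp) (UPoly.const 2)) (upoly_bm hp))

theorem upoly_d1 : UPoly (fun a => d1 (p a)) :=
  UPoly.add (upoly_bs hp) (UPoly.add (upoly_x3 hp) (UPoly.const 1))

omit hp in
theorem poly_tT {β k : α → ℕ} (hβ : Poly β) (hk : Poly k) : Poly (fun a => tT (β a) (k a)) :=
  poly_tvar (Poly.add (Poly.add hβ (Poly.const 1)) hk)

theorem poly_tZ {β b : α → ℕ} (hβ : Poly β) (hb : Poly b) :
    Poly (fun a => tZ (p a) (β a) (b a)) :=
  poly_tvar (Poly.add (Poly.add (Poly.add hβ (Poly.const 1))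
    (Poly.add (upoly_ek hp).toPoly (Poly.const 1))) hb)

theorem poly_tX {b : α → ℕ} (hb : Poly b) : Poly (fun a => tX (p a) (b a)) :=
  poly_tvar (Poly.add (upoly_en hp).toPoly hb)

theorem poly_tτ : Poly (fun a => tτ (p a)) :=
  poly_tvar (Poly.add (upoly_bs hp).toPoly (upoly_x1 hp).toPoly)
theorem poly_tδ : Poly (fun a => tδ (p a)) :=
  poly_tvar (Poly.add (upoly_bs hp).toPoly (upoly_x2 hp).toPoly)
theorem poly_tζ : Poly (fun a => tζ (p a)) :=
  poly_tvar (Poly.add (upoly_bs hp).toPoly (upoly_x3 hp).toPoly)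

theorem poly_tK : Poly (fun a => tK (p a)) := by
  have h1 : Poly (fun a => List.replicate (ek (p a)) false) := by
    refine (poly_replicate (upoly_ek hp).range false).congr fun a => ?_
    rw [List.length_range]
  exact poly_natT (Poly.append h1 (Poly.const _))

theorem poly_cond {i : α → ℕ} (hi : Poly i) :
    Poly (fun a => decide (i a % 2 = 0 ∧ i a / 2 ∈ (p a).1)) :=
  Poly.decide_and (Poly.decide_eq (Poly.mod hi (Poly.const 2)) (Poly.const 0))
    (Poly.decide_mem (Poly.div hi (Poly.const 2)) (Poly.fst hp))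

theorem poly_xV {β i : α → ℕ} (hβ : Poly β) (hi : Poly i) :
    Poly (fun a => xV (p a) (β a) (i a)) :=
  Poly.ite (poly_cond hp hi) (poly_tmul (poly_tT hβ (Poly.const 0))
    (poly_tX hp (poly_idxOf (Poly.fst hp) (Poly.div hi (Poly.const 2)))))
    (poly_tmul (poly_tτ hp) (poly_tZ hp hβ (poly_idxOf (poly_eV hp) hi)))

theorem poly_xVx {β b i : α → ℕ} (hβ : Poly β) (hb : Poly b) (hi : Poly i) :
    Poly (fun a => xVx (p a) (β a) (b a) (i a)) :=
  Poly.ite (poly_cond hp hi) (Poly.ite (Poly.decide_eq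
    (poly_idxOf (Poly.fst hp) (Poly.div hi (Poly.const 2))) hb) (poly_tT hβ (Poly.const 0))
      (Poly.const _)) (Poly.const _)

theorem poly_xVt {i : α → ℕ} (hi : Poly i) : Poly (fun a => xVt (p a) (i a)) :=
  Poly.ite (poly_cond hp hi)
    (poly_tX hp (poly_idxOf (Poly.fst hp) (Poly.div hi (Poly.const 2)))) (Poly.const _)

theorem poly_xVz {b i : α → ℕ} (hb : Poly b) (hi : Poly i) :
    Poly (fun a => xVz (p a) (b a) (i a)) :=
  Poly.ite (poly_cond hp hi) (Poly.const _) (Poly.ite (Poly.decide_eq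
    (poly_idxOf (poly_eV hp) hi) hb) (poly_tτ hp) (Poly.const _))

theorem poly_xw {β : α → ℕ} (hβ : Poly β) : Poly (fun a => xw (p a) (β a)) :=
  poly_tmul (poly_tτ hp) (poly_tT hβ (Poly.const 0))

theorem poly_xVq {β : α → ℕ} (hβ : Poly β) :
    Poly (fun q : α × ℕ => xV (p q.1) (β q.1) q.2) :=
  poly_xV (hp.comp (Poly.fst Poly.id)) (hβ.comp (Poly.fst Poly.id)) (Poly.snd Poly.id)

theorem poly_xQ {β : α → ℕ} (hβ : Poly β) : Poly (fun a => xQ (p a) (β a)) :=
  poly_tQs (V := fun a => xV (p a) (β a)) (poly_xVq hp hβ) (poly_xw hp hβ) (poly_eS hp)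

theorem poly_xGx {β b : α → ℕ} (hβ : Poly β) (hb : Poly b) :
    Poly (fun a => xGx (p a) (β a) (b a)) :=
  poly_tDs (V := fun a => xV (p a) (β a)) (V' := fun a => xVx (p a) (β a) (b a)) (poly_xVq hp hβ)
    (poly_xw hp hβ) (poly_xVx (hp.comp (Poly.fst Poly.id)) (hβ.comp (Poly.fst Poly.id))
      (hb.comp (Poly.fst Poly.id)) (Poly.snd Poly.id)) (Poly.const _) (poly_eS hp)

theorem poly_xGt {β : α → ℕ} (hβ : Poly β) : Poly (fun a => xGt (p a) (β a)) :=
  poly_tDs (V := fun a => xV (p a) (β a)) (V' := fun a => xVt (p a)) (poly_xVq hp hβ)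
    (poly_xw hp hβ) (poly_xVt (hp.comp (Poly.fst Poly.id)) (Poly.snd Poly.id)) (poly_tτ hp)
    (poly_eS hp)

theorem poly_xGz {β b : α → ℕ} (hβ : Poly β) (hb : Poly b) :
    Poly (fun a => xGz (p a) (β a) (b a)) :=
  poly_tDs (V := fun a => xV (p a) (β a)) (V' := fun a => xVz (p a) (b a)) (poly_xVq hp hβ)
    (poly_xw hp hβ) (poly_xVz (hp.comp (Poly.fst Poly.id))
      (hb.comp (Poly.fst Poly.id)) (Poly.snd Poly.id)) (Poly.const _) (poly_eS hp)

theorem poly_xET {β : α → ℕ} (hβ : Poly β) : Poly (fun a => xET (p a) (β a)) := by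
  have h0 := poly_tT hβ (Poly.const 0)
  exact poly_tmul (poly_subT (Poly.const _) h0) (poly_subT (poly_tmul h0 (poly_xGt hp hβ))
    (poly_tmul (poly_tmul (poly_tK hp) (poly_p5 (poly_tτ hp)))
      (poly_tT hβ (upoly_ek hp).toPoly)))

theorem poly_xEZ {β b : α → ℕ} (hβ : Poly β) (hb : Poly b) :
    Poly (fun a => xEZ (p a) (β a) (b a)) := by
  have h0 := poly_tZ hp hβ hb
  exact poly_tmul (poly_subT (Poly.const _) (poly_sqT h0)) (poly_tadd (poly_tmul h0
    (poly_xGz hp hβ hb)) (poly_tmul (poly_tmul (Poly.const _) (poly_tζ hp)) (poly_p6 h0)))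

theorem poly_xZ6 {β : α → ℕ} (hβ : Poly β) : Poly (fun a => xZ6 (p a) (β a)) :=
  poly_sumT (Poly.map (F := fun a b => p6 (tZ (p a) (β a) b)) (upoly_el hp).range
    (poly_p6 (poly_tZ (hp.comp (Poly.fst Poly.id)) (hβ.comp (Poly.fst Poly.id))
      (Poly.snd Poly.id))))

theorem poly_xVal {β : α → ℕ} (hβ : Poly β) : Poly (fun a => xVal (p a) (β a)) :=
  poly_tadd (poly_subT (poly_xQ hp hβ) (poly_tmul (poly_p5 (poly_tτ hp))
    (poly_tT hβ (upoly_ek hp).toPoly))) (poly_tmul (poly_tζ hp) (poly_xZ6 hp hβ))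

theorem poly_xX2 : Poly (fun a => xX2 (p a)) :=
  poly_sumT (Poly.map (F := fun a b => sqT (tX (p a) b)) (upoly_en hp).range
    (poly_sqT (poly_tX (hp.comp (Poly.fst Poly.id)) (Poly.snd Poly.id))))

theorem poly_xCX : Poly (fun a => xCX (p a)) :=
  poly_sumT (Poly.map (F := fun a b => Tm.mul (Tm.var b) (tX (p a) b)) (upoly_en hp).range
    (poly_tmul (poly_tvar (Poly.snd Poly.id))
      (poly_tX (hp.comp (Poly.fst Poly.id)) (Poly.snd Poly.id))))

theorem poly_xCone {β : α → ℕ} (hβ : Poly β) : Poly (fun a => xCone (p a) (β a)) := by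
  have hh := poly_tvar hβ
  refine poly_tadd (poly_tadd (poly_subT (poly_tmul (poly_sqT hh) (poly_xQ hp hβ))
    (poly_tmul (poly_tmul (poly_p5 (poly_tτ hp)) (poly_p5 hh))
      (poly_tT hβ (upoly_ek hp).toPoly))) (poly_tmul (poly_tζ hp) (poly_xZ6 hp hβ)))
    (poly_tmul (poly_p6 hh) (poly_tadd (poly_tmul (poly_tδ hp) (poly_subT ?_ (poly_xX2 hp)))
      (poly_tmul (poly_tζ hp) (poly_xCX hp))))
  exact poly_numT (Poly.add (upoly_2n hp).toPoly (Poly.const 2))

theorem poly_fBd : Poly (fun a => fBd (p a)) :=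
  Poly.map (F := fun _ b => Fm.le (sqT (Tm.var b)) Tm.one) (upoly_en hp).range
    (poly_fle (poly_sqT (poly_tvar (Poly.snd Poly.id))) (Poly.const _))

theorem poly_fCs : Poly (fun a => fCs (p a)) := by
  have hb := poly_tvar (upoly_bs hp).toPoly
  exact Poly.cons (poly_feq (poly_tadd hb hb) (Poly.const _))
    (poly_chain (upoly_bs hp).toPoly (upoly_x3 hp))

theorem poly_fIn {β : α → ℕ} (hβ : Poly β) : Poly (fun a => fIn (p a) (β a)) := by
  refine Poly.cons (poly_feq (poly_tvar hβ) (Poly.const _)) (Poly.cons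
    (poly_feq (poly_tT hβ (Poly.const 0)) (Poly.const _)) (Poly.map
      (F := fun a b => Fm.eq (tZ (p a) (β a) b) twoT) (upoly_el hp).range
        (poly_feq (poly_tZ (hp.comp (Poly.fst Poly.id)) (hβ.comp (Poly.fst Poly.id))
      (Poly.snd Poly.id)) (Poly.const _))))

theorem poly_fAc {β : α → ℕ} (hβ : Poly β) : Poly (fun a => fAc (p a) (β a)) := by
  have h0 := poly_tT hβ (Poly.const 0)
  have hh := poly_tvar hβ
  refine Poly.cons (poly_flt (Poly.const _) hh) (Poly.cons (poly_fle (Poly.const _) h0)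
    (Poly.cons (poly_fle h0 (Poly.const _)) (Poly.cons (poly_feq (poly_xET hp hβ) (Poly.const _))
      (Poly.cons (poly_feq (poly_xVal hp hβ) (poly_tvar (upoly_2n hp).toPoly))
        (Poly.append ?_ ?_)))))
  · exact Poly.map (F := fun a b => Fm.le (sqT (tZ (p a) (β a) b)) Tm.one) (upoly_el hp).range
      (poly_fle (poly_sqT (poly_tZ (hp.comp (Poly.fst Poly.id)) (hβ.comp (Poly.fst Poly.id))
      (Poly.snd Poly.id))) (Poly.const _))
  · exact Poly.map (F := fun a b => Fm.eq (xEZ (p a) (β a) b) Tm.zero) (upoly_el hp).range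
      (poly_feq (poly_xEZ (hp.comp (Poly.fst Poly.id)) (hβ.comp (Poly.fst Poly.id))
      (Poly.snd Poly.id)) (Poly.const _))

theorem poly_fCp {β : α → ℕ} (hβ : Poly β) : Poly (fun a => fCp (p a) (β a)) :=
  poly_fand (poly_conj (poly_chain (Poly.add hβ (Poly.const 1)) (upoly_ek hp)))
    (poly_for (poly_conj (poly_fIn hp hβ)) (poly_conj (poly_fAc hp hβ)))

theorem upoly_n1 : UPoly (fun a => en (p a) + 1) := UPoly.add (upoly_en hp) (UPoly.const 1)

theorem poly_fSm : Poly (fun a => fSm (p a)) :=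
  poly_feq (poly_sumT (Poly.map (F := fun a j => Tm.var (bb (p a) j)) (upoly_n1 hp).range
    (poly_tvar (poly_bb (hp.comp (Poly.fst Poly.id)) (Poly.snd Poly.id))))) (Poly.const _)

theorem poly_fKt {b : α → ℕ} (hb : Poly b) : Poly (fun a => fKt (p a) (b a)) := by
  refine poly_feq (poly_tadd (poly_subT (poly_sumT (Poly.map (F := fun a j =>
    Tm.mul (Tm.var (bb (p a) j)) (xGx (p a) (bb (p a) j) (b a))) (upoly_n1 hp).range ?_))
    (poly_tmul (poly_tmul (Poly.const _) (poly_tδ hp)) (poly_tX hp hb)))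
    (poly_tmul (poly_tζ hp) (poly_tvar hb))) (Poly.const _)
  have hp' := hp.comp (α := α × ℕ) (f := fun q => q.1) (Poly.fst Poly.id)
  have hb' := hb.comp (α := α × ℕ) (f := fun q => q.1) (Poly.fst Poly.id)
  have hbb := poly_bb hp' (j := fun q : α × ℕ => q.2) (Poly.snd Poly.id)
  exact poly_tmul (poly_tvar hbb) (poly_xGx hp' hbb hb')

theorem poly_fC0 {β : α → ℕ} (hβ : Poly β) : Poly (fun a => fC0 (p a) (β a)) :=
  Poly.map (F := fun a i => Fm.eq (Tm.var (β a + i)) Tm.zero) (upoly_bm hp).range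
    (poly_feq (poly_tvar (Poly.add (hβ.comp (Poly.fst Poly.id)) (Poly.snd Poly.id)))
      (Poly.const _))

theorem poly_fC1 {β : α → ℕ} (hβ : Poly β) : Poly (fun a => fC1 (p a) (β a)) := by
  have h0 := poly_tT hβ (Poly.const 0)
  have hh := poly_tvar hβ
  have hp' := hp.comp (α := α × ℕ) (f := fun q => q.1) (Poly.fst Poly.id)
  have hβ' := hβ.comp (α := α × ℕ) (f := fun q => q.1) (Poly.fst Poly.id)
  have h2 : Poly (fun q : α × ℕ => q.2) := Poly.snd Poly.id
  refine Poly.cons (poly_flt (Poly.const _) hh) (Poly.cons (poly_fle (Poly.const _) h0)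
    (Poly.cons (poly_fle h0 hh) (Poly.cons (poly_fle (poly_xCone hp hβ) (Poly.const _))
      (Poly.append ?_ ?_))))
  · exact Poly.map (F := fun a b => Fm.le (sqT (tZ (p a) (β a) b)) (sqT (Tm.var (β a))))
      (upoly_el hp).range (poly_fle (poly_sqT (poly_tZ hp' hβ' h2)) (poly_sqT (poly_tvar hβ')))
  · exact Poly.map (F := fun a k => Fm.eq (Tm.mul (tT (β a) (k + 1)) (Tm.var (β a)))
      (sqT (tT (β a) k))) (upoly_ek hp).range (poly_feq (poly_tmul
        (poly_tT hβ' (Poly.add h2 (Poly.const 1))) (poly_tvar hβ')) (poly_sqT (poly_tT hβ' h2)))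

theorem poly_F1 : Poly (fun a => F1 (p a)) := by
  have hp' := hp.comp (α := α × ℕ) (f := fun q => q.1) (Poly.fst Poly.id)
  have h2 : Poly (fun q : α × ℕ => q.2) := Poly.snd Poly.id
  have hβ := poly_bb hp (upoly_n1 hp).toPoly
  refine poly_conj (Poly.append (poly_fBd hp) (Poly.append (poly_fCs hp) (Poly.append
    (Poly.map (F := fun a j => fCp (p a) (bb (p a) j)) (upoly_n1 hp).range
      (poly_fCp hp' (poly_bb hp' h2))) (Poly.cons (poly_fSm hp) (Poly.append
        (Poly.map (F := fun a b => fKt (p a) b) (upoly_en hp).range (poly_fKt hp' h2))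
        (Poly.cons (poly_for (poly_conj (poly_fC0 hp hβ)) (poly_conj (poly_fC1 hp hβ)))
          (Poly.const _)))))))

end

section iso

variable {α : Type} [TEnc α]

theorem poly_eqsF {k : α → ℕ} (hk : UPoly k) : Poly (fun a => eqsF (k a)) := by
  have hi : Poly (fun q : α × ℕ => 6 * q.2) := Poly.mul (Poly.const 6) (Poly.snd Poly.id)
  exact Poly.map (F := fun _ i => Fm.eq (Tm.var (6 * i + 1)) (Tm.var (6 * i + 0))) hk.range
    (poly_feq (poly_tvar (Poly.add hi (Poly.const _))) (poly_tvar (Poly.add hi (Poly.const _))))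

theorem poly_dsT {k : α → ℕ} (hk : UPoly k) : Poly (fun a => dsT (k a)) := by
  have hi : Poly (fun q : α × ℕ => 6 * q.2) := Poly.mul (Poly.const 6) (Poly.snd Poly.id)
  exact poly_sumT (Poly.map (F := fun _ i => sqT (subT (Tm.var (6 * i + 1))
    (Tm.var (6 * i + 0)))) hk.range (poly_sqT (poly_subT (poly_tvar (Poly.add hi (Poly.const _)))
      (poly_tvar (Poly.add hi (Poly.const _))))))

theorem poly_isoF {n D : α → ℕ} {φ : α → Fm} (hn : UPoly n) (hD : UPoly D) (hφ : Poly φ) :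
    Poly (fun a => isoF (n a) (D a) (φ a)) :=
  poly_fand (Poly.const _) (poly_fand (poly_renF 0 hD.toPoly hφ) (poly_impF
    (poly_fand (poly_flt (poly_dsT hD) (Poly.const _)) (poly_fand (poly_conj (poly_eqsF hn))
      (poly_renF 1 hD.toPoly hφ))) (poly_conj (poly_eqsF hD))))

theorem poly_isoE {D : α → ℕ} (hD : UPoly D) : Poly (fun a => isoE (D a)) :=
  Poly.append (Poly.map (F := fun _ i => 6 * i) hD.range
    (Poly.mul (Poly.const 6) (Poly.snd Poly.id))) (Poly.const _)

theorem poly_isoG {D : α → ℕ} (hD : UPoly D) : Poly (fun a => isoG (D a)) :=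
  Poly.map (F := fun _ i => 6 * i + 1) hD.range
    (Poly.add (Poly.mul (Poly.const 6) (Poly.snd Poly.id)) (Poly.const _))

theorem poly_isoP {n D : α → ℕ} {φ : α → Fm} (hn : UPoly n) (hD : UPoly D) (hφ : Poly φ) :
    Poly (fun a => isoP (n a) (D a) (φ a)) :=
  Poly.pair (poly_isoE hD) (Poly.pair (poly_isoG hD) (poly_isoF hn hD hφ))

end iso

section

variable {α : Type} [TEnc α] {p : α → InpE} (hp : Poly p)

include hp

theorem poly_isoP1 : Poly (fun a => isoP (en (p a)) (d1 (p a)) (F1 (p a))) :=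
  poly_isoP (upoly_en hp) (upoly_d1 hp) (poly_F1 hp)

theorem upoly_tN : UPoly (fun a => tN (p a)) := by
  have hq := poly_isoP1 hp
  have h1 := upoly_sub (UPoly.add (upoly_d1 hp) (UPoly.const 1)) (upoly_en hp)
  have hm := upoly_dm hq
  have hl := upoly_dl hq
  have hs := upoly_ds hq
  have hk := upoly_dk hq
  have hk' := upoly_dk' hq
  exact UPoly.add (upoly_Gx h1 (upoly_Gx (UPoly.add hm (UPoly.const 2))
    (upoly_Gx (UPoly.add hl (UPoly.const 1))
      (UPoly.add (UPoly.add (UPoly.add hk hk') hs) (UPoly.const 6))))) (UPoly.const 1)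

theorem poly_nb {j : α → ℕ} (hj : Poly j) : Poly (fun a => nb (p a) (j a)) :=
  Poly.add (upoly_d1 hp).toPoly (Poly.mul hj (Poly.add (upoly_tN hp).toPoly (Poly.const 1)))

theorem upoly_d2 : UPoly (fun a => d2 (p a)) :=
  UPoly.add (upoly_d1 hp) (UPoly.mul (upoly_en hp) (UPoly.add (upoly_tN hp) (UPoly.const 1)))

theorem poly_fNet {b : α → ℕ} (hb : Poly b) : Poly (fun a => fNet (p a) (b a)) := by
  have hn := poly_nb hp hb
  have hn' := hn.comp (α := α × ℕ) (f := fun q => q.1) (Poly.fst Poly.id)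
  have h2 : Poly (fun q : α × ℕ => q.2) := Poly.snd Poly.id
  refine poly_fand (poly_feq (poly_tvar hn) (poly_tvar hb)) (poly_fand (poly_conj (Poly.map
    (F := fun a k => Fm.eq (Tm.var (nb (p a) (b a) + k + 1))
    (subT (Tm.mul twoT (sqT (Tm.var (nb (p a) (b a) + k)))) Tm.one)) (upoly_tN hp).range ?_))
      (poly_feq (poly_tvar (Poly.add hn (upoly_tN hp).toPoly)) (Poly.const _)))
  exact poly_feq (poly_tvar (Poly.add (Poly.add hn' h2) (Poly.const 1))) (poly_subT
    (poly_tmul (Poly.const _) (poly_sqT (poly_tvar (Poly.add hn' h2)))) (Poly.const _))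

theorem poly_F2 : Poly (fun a => F2 (p a)) := by
  have hp' := hp.comp (α := α × ℕ) (f := fun q => q.1) (Poly.fst Poly.id)
  have h2 : Poly (fun q : α × ℕ => q.2) := Poly.snd Poly.id
  exact poly_fand (poly_F1 hp) (poly_conj (Poly.map (F := fun a b => fNet (p a) b)
    (upoly_en hp).range (poly_fNet hp' h2)))

theorem poly_red : Poly (fun a => red (p a)) := Poly.pair (upoly_d2 hp) (poly_F2 hp)

end

/-! ### Restricting the variables -/

/-- Variables with large indices are replaced by zero. -/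
def trT (n : ℕ) : Tm → Tm
  | .var i => if i < n then Tm.var i else Tm.zero
  | .zero => Tm.zero
  | .one => Tm.one
  | .add s t => Tm.add (trT n s) (trT n t)
  | .neg t => Tm.neg (trT n t)
  | .mul s t => Tm.mul (trT n s) (trT n t)

/-- Variables with large indices are replaced by zero. -/
def trF (n : ℕ) : Fm → Fm
  | .eq s t => Fm.eq (trT n s) (trT n t)
  | .lt s t => Fm.lt (trT n s) (trT n t)
  | .le s t => Fm.le (trT n s) (trT n t)
  | .not φ => Fm.not (trF n φ)
  | .and φ ψ => Fm.and (trF n φ) (trF n ψ)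
  | .or φ ψ => Fm.or (trF n φ) (trF n ψ)

theorem tmIn_trT (n : ℕ) (t : Tm) : TmIn n (trT n t) := by
  induction t with
  | var i =>
    unfold trT
    split_ifs with h
    · exact h
    · trivial
  | zero => trivial
  | one => trivial
  | add s t h1 h2 => exact ⟨h1, h2⟩
  | neg s h1 => exact h1
  | mul s t h1 h2 => exact ⟨h1, h2⟩

theorem fmIn_trF (n : ℕ) (φ : Fm) : FmIn n (trF n φ) := by
  induction φ with
  | eq s t => exact ⟨tmIn_trT n s, tmIn_trT n t⟩
  | lt s t => exact ⟨tmIn_trT n s, tmIn_trT n t⟩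
  | le s t => exact ⟨tmIn_trT n s, tmIn_trT n t⟩
  | not φ h1 => exact h1
  | and φ ψ h1 h2 => exact ⟨h1, h2⟩
  | or φ ψ h1 h2 => exact ⟨h1, h2⟩

theorem eval_trT {n : ℕ} (x : EuclideanSpace ℝ (Fin n)) (t : Tm) :
    (trT n t).eval (asg x) = t.eval (asg x) := by
  induction t with
  | var i =>
    unfold trT
    split_ifs with h
    · rfl
    · simp [Tm.eval, asg, h]
  | zero => rfl
  | one => rfl
  | add s t h1 h2 => simp [trT, Tm.eval, h1, h2]
  | neg s h1 => simp [trT, Tm.eval, h1]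
  | mul s t h1 h2 => simp [trT, Tm.eval, h1, h2]

theorem holds_trF {n : ℕ} (x : EuclideanSpace ℝ (Fin n)) (φ : Fm) :
    (trF n φ).Holds (asg x) ↔ φ.Holds (asg x) := by
  induction φ with
  | eq s t => simp [trF, Fm.Holds, eval_trT]
  | lt s t => simp [trF, Fm.Holds, eval_trT]
  | le s t => simp [trF, Fm.Holds, eval_trT]
  | not φ h1 => simp [trF, Fm.Holds, h1]
  | and φ ψ h1 h2 => simp [trF, Fm.Holds, h1, h2]
  | or φ ψ h1 h2 => simp [trF, Fm.Holds, h1, h2]

theorem semi_trF (n : ℕ) (φ : Fm) : semi n (trF n φ) = semi n φ := by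
  ext x
  exact holds_trF x φ

/-- Renaming of symbols. -/
def tokZ (n : ℕ) (t : Tok) : List Tok :=
  if t.code.1 = 0 then (if t.code.2 < n then [t] else [Tok.zero]) else [t]

theorem toks_trT (n : ℕ) (t : Tm) : (trT n t).toks = t.toks.flatMap (tokZ n) := by
  induction t with
  | var i =>
    have h : tokZ n (Tok.var i) = if i < n then [Tok.var i] else [Tok.zero] := rfl
    have h2 : (Tm.var i).toks.flatMap (tokZ n) = tokZ n (Tok.var i) := by
      simp [Tm.toks]
    rw [h2, h]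
    unfold trT
    split_ifs <;> rfl
  | zero => rfl
  | one => rfl
  | add s t h1 h2 => simp [trT, Tm.toks, h1, h2, tokZ, Tok.code]
  | neg s h1 => simp [trT, Tm.toks, h1, tokZ, Tok.code]
  | mul s t h1 h2 => simp [trT, Tm.toks, h1, h2, tokZ, Tok.code]

theorem toks_trF (n : ℕ) (φ : Fm) : (trF n φ).toks = φ.toks.flatMap (tokZ n) := by
  induction φ with
  | eq s t => simp [trF, Fm.toks, toks_trT, tokZ, Tok.code]
  | lt s t => simp [trF, Fm.toks, toks_trT, tokZ, Tok.code]
  | le s t => simp [trF, Fm.toks, toks_trT, tokZ, Tok.code]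
  | not φ h1 => simp [trF, Fm.toks, h1, tokZ, Tok.code]
  | and φ ψ h1 h2 => simp [trF, Fm.toks, h1, h2, tokZ, Tok.code]
  | or φ ψ h1 h2 => simp [trF, Fm.toks, h1, h2, tokZ, Tok.code]

/-- The test for the variables. -/
def tokIn (n : ℕ) (t : Tok) : Bool := decide (¬ t.code.1 = 0) || decide (t.code.2 < n)

theorem tmIn_iff (n : ℕ) (t : Tm) : t.toks.all (tokIn n) = true ↔ TmIn n t := by
  induction t with
  | var i => simp [Tm.toks, TmIn, tokIn, Tok.code]
  | zero => simp [Tm.toks, TmIn, tokIn, Tok.code]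
  | one => simp [Tm.toks, TmIn, tokIn, Tok.code]
  | add s t h1 h2 =>
    rw [Tm.toks, List.all_append, List.all_append, Bool.and_eq_true, Bool.and_eq_true, h1, h2]
    simp [TmIn, tokIn, Tok.code]
  | neg s h1 =>
    rw [Tm.toks, List.all_append, Bool.and_eq_true, h1]
    simp [TmIn, tokIn, Tok.code]
  | mul s t h1 h2 =>
    rw [Tm.toks, List.all_append, List.all_append, Bool.and_eq_true, Bool.and_eq_true, h1, h2]
    simp [TmIn, tokIn, Tok.code]

theorem fmIn_iff (n : ℕ) (φ : Fm) : φ.toks.all (tokIn n) = true ↔ FmIn n φ := by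
  induction φ with
  | eq s t =>
    rw [Fm.toks, List.all_append, List.all_append, Bool.and_eq_true, Bool.and_eq_true,
      tmIn_iff, tmIn_iff]
    simp [FmIn, tokIn, Tok.code]
  | lt s t =>
    rw [Fm.toks, List.all_append, List.all_append, Bool.and_eq_true, Bool.and_eq_true,
      tmIn_iff, tmIn_iff]
    simp [FmIn, tokIn, Tok.code]
  | le s t =>
    rw [Fm.toks, List.all_append, List.all_append, Bool.and_eq_true, Bool.and_eq_true,
      tmIn_iff, tmIn_iff]
    simp [FmIn, tokIn, Tok.code]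
  | not φ h1 =>
    rw [Fm.toks, List.all_append, Bool.and_eq_true, h1]
    simp [FmIn, tokIn, Tok.code]
  | and φ ψ h1 h2 =>
    rw [Fm.toks, List.all_append, List.all_append, Bool.and_eq_true, Bool.and_eq_true, h1, h2]
    simp [FmIn, tokIn, Tok.code]
  | or φ ψ h1 h2 =>
    rw [Fm.toks, List.all_append, List.all_append, Bool.and_eq_true, Bool.and_eq_true, h1, h2]
    simp [FmIn, tokIn, Tok.code]

section

variable {α : Type} [TEnc α]

theorem poly_trF {n : α → ℕ} {φ : α → Fm} (hn : Poly n) (hφ : Poly φ) :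
    Poly (fun a => trF (n a) (φ a)) := by
  refine fm_of_toks (Poly.congr (f := fun a => (φ a).toks.flatMap (tokZ (n a))) ?_
    fun a => (toks_trF _ _).symm)
  have ht : Poly (fun q : α × Tok => q.2) := Poly.snd Poly.id
  have h0 := poly_tok_code ht
  exact Poly.flatMap (F := fun a t => tokZ (n a) t) (fm_toks hφ)
    (Poly.ite (Poly.decide_eq (Poly.fst h0) (Poly.const 0))
      (Poly.ite (Poly.decide_lt (Poly.snd h0) (hn.comp (Poly.fst Poly.id)))
        (Poly.cons ht (Poly.const _)) (Poly.const _)) (Poly.cons ht (Poly.const _)))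

theorem poly_tokIn {n : α → ℕ} {φ : α → Fm} (hn : Poly n) (hφ : Poly φ) :
    Poly (fun a => (φ a).toks.all (tokIn (n a))) := by
  have ht : Poly (fun q : α × Tok => q.2) := Poly.snd Poly.id
  have h0 := poly_tok_code ht
  exact Poly.all (p := fun a t => tokIn (n a) t) (fm_toks hφ)
    (Poly.or (Poly.decide_not (Poly.decide_eq (Poly.fst h0) (Poly.const 0)))
      (Poly.decide_lt (Poly.snd h0) (hn.comp (Poly.fst Poly.id))))

end

/-- **The existence of an isolated point is `∃∀ℝ`-hard.** -/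
theorem isolated_hard : EARHard (lang IsolatedPoint) := by
  have h := poly_red (α := InpE) (p := fun p => p) Poly.id
  refine EARHard.of_poly (F := fun p : InpE => ((red p).1, trF (red p).1.length (red p).2))
    (Poly.pair (Poly.fst h) (poly_trF (UPoly.length (Poly.fst h)).toPoly (Poly.snd h)))
    fun p => ?_
  rw [red_correct]
  unfold IsolatedPoint HasIso
  simp only
  rw [semi_trF]
  exact ⟨fun h1 => ⟨fmIn_trF _ _, h1⟩, fun h1 => h1.2⟩

/-! ### Membership -/

theorem isoAt_zero_iff (D : ℕ) (φ : Fm) :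
    (∃ x, IsIsolated (semi D φ) x) ↔ IsoAt 0 D φ (fun i => i.elim0) := by
  unfold IsoAt
  constructor
  · rintro ⟨P, hP⟩
    rw [isIsolated_iff] at hP
    obtain ⟨h1, ε, hε, h2⟩ := hP
    exact ⟨P, h1, fun i => i.elim0, ε, hε, fun Q hQ hd _ => h2 Q hQ hd⟩
  · rintro ⟨P, h1, -, ε, hε, h2⟩
    exact ⟨P, (isIsolated_iff _ _).2 ⟨h1, ε, hε, fun Q hQ hd => h2 Q hQ hd fun i => i.elim0⟩⟩

theorem hasIso_iff_ear (I : K9h83.IP.Inst) :
    HasIso I ↔ EAR (isoE I.1.length, isoF 0 I.1.length I.2) := by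
  unfold HasIso
  rw [isoAt_zero_iff, isoAt_iff (Nat.zero_le _)]
  unfold EAR
  constructor
  · rintro ⟨x, -, h⟩
    exact ⟨x, h⟩
  · rintro ⟨x, h⟩
    exact ⟨x, fun j => j.elim0, h⟩

/-- The sentence of an instance. -/
def memE (I : K9h83.IP.Inst) : InpE :=
  if I.2.toks.all (tokIn I.1.length) = true then (isoE I.1.length, isoF 0 I.1.length I.2)
  else ([], Fm.ff)

theorem isolated_iff_ear (I : K9h83.IP.Inst) : IsolatedPoint I ↔ EAR (memE I) := by
  unfold memE
  by_cases h : I.2.toks.all (tokIn I.1.length) = true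
  · rw [if_pos h, ← hasIso_iff_ear]
    exact ⟨fun h1 => h1.2, fun h1 => ⟨(fmIn_iff _ _).1 h, h1⟩⟩
  · rw [if_neg h]
    constructor
    · rintro ⟨h1, -⟩
      exact (h ((fmIn_iff _ _).2 h1)).elim
    · rintro ⟨x, h1⟩
      exact (lt_irrefl _ (h1 x)).elim

theorem poly_memE : Poly memE := by
  have hI : Poly (fun I : K9h83.IP.Inst => I) := Poly.id
  have hn : UPoly (fun I : K9h83.IP.Inst => I.1.length) := UPoly.length (Poly.fst hI)
  exact Poly.ite (Poly.decide_bool (poly_tokIn hn.toPoly (Poly.snd hI)))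
    (Poly.pair (poly_isoE hn) (poly_isoF (UPoly.const 0) hn (Poly.snd hI))) (Poly.const _)

/-- **The existence of an isolated point belongs to `∃∀ℝ`.** -/
theorem isolated_mem : InEAR (lang IsolatedPoint) := InEAR.of_poly poly_memE isolated_iff_ear

/-- **The existence of an isolated point is `∃∀ℝ`-complete.** -/
theorem isolated_complete : EARComplete (lang IsolatedPoint) := ⟨isolated_mem, isolated_hard⟩

end Pool.Agent.NPC.K9IP
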