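import Pool.Agent.K9h83.IP.Iso
import Pool.Agent.K9h83.IP.Defs

/-!
# The reduction
-/

set_option autoImplicit false

namespace Pool.Agent.K9h83.IP

open Finset Filter Topology Pool.Agent.R537.RN
open Pool.Agent.NPC Pool.Agent.NPC.ER Pool.Agent.NPC.H612
open Pool.Agent.NPC.R537HD (asg semi sqT subT eval_sqT eval_subT renF pnt holds_renF impF
  holds_impF Inp nS vS dn dm dl ds loc pnt_congr)

/-- The semialgebraic set of the instance has an isolated point. -/
def HasIso (I : Inst) : Prop := ∃ x, IsIsolated (semi I.1.length I.2) x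

theorem isIsolated_iff {n : ℕ} (S : Set (EuclideanSpace ℝ (Fin n)))
    (x : EuclideanSpace ℝ (Fin n)) : IsIsolated S x ↔
    x ∈ S ∧ ∃ ε > 0, ∀ y ∈ S, dist y x < ε → y = x := by
  unfold IsIsolated
  refine and_congr_right fun hx => exists_congr fun ε => and_congr_right fun hε => ?_
  constructor
  · intro h y hy hd
    have : y ∈ Metric.ball x ε ∩ S := ⟨hd, hy⟩
    rw [h] at this
    exact this
  · intro h
    ext y
    constructor
    · rintro ⟨h1, h2⟩
      exact h y h2 h1
    · rintro rfl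
      exact ⟨Metric.mem_ball_self hε, hx⟩

variable (p : InpE)

theorem en_le : en p ≤ d1 p := by unfold d1 bs; omega

/-- The number of the iterations. -/
def tN : ℕ := kapC (d1 p + 1 - en p) (dm (isoP (en p) (d1 p) (F1 p)))
  (dl (isoP (en p) (d1 p) (F1 p))) (nS (isoP (en p) (d1 p) (F1 p))).length + 1
/-- The first index of the variables of a net. -/
def nb (a : ℕ) : ℕ := d1 p + a * (tN p + 1)
/-- The dimension. -/
def d2 : ℕ := d1 p + en p * (tN p + 1)
/-- The equations of the net. -/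
def fNet (a : ℕ) : Fm := Fm.and (Fm.eq (Tm.var (nb p a)) (Tm.var a)) (Fm.and
  (conj ((List.range (tN p)).map fun k => Fm.eq (Tm.var (nb p a + k + 1))
    (subT (Tm.mul twoT (sqT (Tm.var (nb p a + k)))) Tm.one)))
  (Fm.eq (Tm.var (nb p a + tN p)) Tm.zero))
/-- The final formula. -/
def F2 : Fm := Fm.and (F1 p) (conj ((List.range (en p)).map (fNet p)))
/-- The instance. -/
def red : Inst := (List.replicate (d2 p) (), F2 p)

theorem holds_fNet (v : ℕ → ℝ) (a : ℕ) : (fNet p a).Holds v ↔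
    (∀ k ≤ tN p, v (nb p a + k) = chb (v a) k) ∧ chb (v a) (tN p) = 0 := by
  unfold fNet
  simp only [Fm.Holds, holds_conj, List.forall_mem_map, List.mem_range, Tm.eval, eval_subT,
    eval_sqT, twoT]
  constructor
  · rintro ⟨h1, h2, h3⟩
    have h4 : ∀ k ≤ tN p, v (nb p a + k) = chb (v a) k := by
      intro k
      induction k with
      | zero => intro _; exact h1
      | succ k ih =>
        intro hk
        rw [← add_assoc, h2 k (by omega), ih (by omega), chb]
        ring
    exact ⟨h4, by rw [← h4 _ (le_refl _)]; exact h3⟩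
  · rintro ⟨h1, h2⟩
    refine ⟨?_, fun k hk => ?_, ?_⟩
    · have := h1 0 (by omega)
      simpa [chb] using this
    · have e1 := h1 (k + 1) (by omega)
      have e2 := h1 k (by omega)
      rw [← add_assoc] at e1
      rw [e1, e2, chb]
      ring
    · rw [h1 _ (le_refl _)]; exact h2

theorem holds_F2 (v : ℕ → ℝ) : (F2 p).Holds v ↔ SemF p v ∧
    ∀ a < en p, (∀ k ≤ tN p, v (nb p a + k) = chb (v a) k) ∧ chb (v a) (tN p) = 0 := by
  unfold F2
  change (F1 p).Holds v ∧ _ ↔ _
  rw [holds_F1, holds_conj, List.forall_mem_map]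
  simp only [List.mem_range, holds_fNet]

/-- The meaning of the formula depends only on the first variables. -/
theorem semF_of_eq {v w : ℕ → ℝ} (hv : SemF p v) (h : ∀ i < d1 p, w i = v i) : SemF p w := by
  have hbs := bs_eq p
  have hd : bs p < d1 p := by unfold d1; omega
  refine semF_congr p hv (fun i hi => h i (by omega)) (fun j hj => h _ (bs_lt p hj)) ?_
  rcases hv.cn with h1 | ⟨h', Y, a1, a2, a3, a4⟩
  · left
    intro r hr
    rw [h _ (by omega)]; exact h1 r hr
  · right
    refine ⟨h', Y, a1, a2, a3, fun r hr => ?_⟩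
    rw [h _ (by omega)]; exact a4 r hr

/-- The roots of the iterates are isolated. -/
theorem chb_isolated (N : ℕ) (c : ℝ) : ∀ᶠ c' in 𝓝 c, chb c' N = 0 → chb c N = 0 → c' = c := by
  classical
  obtain ⟨q, hq⟩ : ∃ q : Polynomial ℝ, ∀ c, Polynomial.eval c q = chb c N := by
    clear c
    induction N with
    | zero => exact ⟨Polynomial.X, fun c => by simp [chb]⟩
    | succ N ih =>
      obtain ⟨q, hq⟩ := ih
      refine ⟨Polynomial.C 2 * q ^ 2 - 1, fun c => ?_⟩
      simp [chb, hq]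
  have hq0 : q ≠ 0 := by
    rintro rfl
    have h1 := hq 1
    rw [Polynomial.eval_zero] at h1
    exact chb_one 1 (by norm_num) N h1.symm
  have hfin : (↑(q.roots.toFinset.erase c) : Set ℝ).Finite := Finset.finite_toSet _
  have hcl := hfin.isClosed
  have hmem : c ∉ (↑(q.roots.toFinset.erase c) : Set ℝ) := by simp
  filter_upwards [hcl.isOpen_compl.mem_nhds hmem] with c' hc' h1 _
  by_contra hne
  apply hc'
  rw [Finset.mem_coe, Finset.mem_erase, Multiset.mem_toFinset, Polynomial.mem_roots hq0]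
  exact ⟨hne, by rw [Polynomial.IsRoot, hq]; exact h1⟩

theorem nb_lt {a k : ℕ} (ha : a < en p) (hk : k ≤ tN p) : nb p a + k < d2 p := by
  unfold nb d2
  have h1 : (a + 1) * (tN p + 1) ≤ en p * (tN p + 1) := Nat.mul_le_mul_right _ (by omega)
  have h2 : (a + 1) * (tN p + 1) = a * (tN p + 1) + (tN p + 1) := by ring
  omega

theorem idx2_cases {P : ℕ → Prop} (h1 : ∀ i < d1 p, P i)
    (h2 : ∀ a < en p, ∀ k ≤ tN p, P (nb p a + k)) : ∀ i < d2 p, P i := by
  intro i hi
  by_cases h : i < d1 p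
  · exact h1 i h
  · have hpos : 0 < tN p + 1 := by omega
    have h5 : (i - d1 p) / (tN p + 1) < en p := by
      rw [Nat.div_lt_iff_lt_mul hpos]
      unfold d2 at hi
      omega
    have h6 : (i - d1 p) % (tN p + 1) < tN p + 1 := Nat.mod_lt _ hpos
    have h7 := h2 _ h5 _ (Nat.lt_succ_iff.1 h6)
    have h8 : nb p ((i - d1 p) / (tN p + 1)) + (i - d1 p) % (tN p + 1) = i := by
      unfold nb
      have := Nat.div_add_mod (i - d1 p) (tN p + 1)
      rw [mul_comm] at this
      omega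
    rwa [h8] at h7

/-- From a fibre over a point of the net to the whole set. -/
theorem isolated_of_isoAt (c : Fin (en p) → ℝ) (hc : ∀ j, chb (c j) (tN p) = 0)
    (h : IsoAt (en p) (d1 p) (F1 p) c) : HasIso (red p) := by
  obtain ⟨P, hP, hPc, ε, hε, hiso⟩ := h
  have hsP : SemF p (asg P) := (holds_F1 p _).1 hP
  have hlen : (red p).1.length = d2 p := by simp [red]
  have hle := en_le p
  obtain ⟨w, hw⟩ : ∃ w : ℕ → ℝ, ∀ i, w i = if i < d1 p then asg P i
      else chb (asg P ((i - d1 p) / (tN p + 1))) ((i - d1 p) % (tN p + 1)) := ⟨_, fun i => rfl⟩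
  have hw1 : ∀ i < d1 p, w i = asg P i := fun i hi => by rw [hw, if_pos hi]
  have hw2 : ∀ a < en p, ∀ k ≤ tN p, w (nb p a + k) = chb (asg P a) k := by
    intro a ha k hk
    have h1 : ¬ nb p a + k < d1 p := by unfold nb; omega
    have h2 : nb p a + k - d1 p = k + (tN p + 1) * a := by
      have h5 : (tN p + 1) * a = a * (tN p + 1) := Nat.mul_comm _ _
      unfold nb
      omega
    rw [hw, if_neg h1, h2, Nat.add_mul_div_left _ _ (by omega : 0 < tN p + 1),
      Nat.add_mul_mod_self_left, Nat.div_eq_of_lt (by omega), Nat.mod_eq_of_lt (by omega), zero_add]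
  unfold HasIso
  rw [hlen]
  change ∃ x, IsIsolated (semi (d2 p) (F2 p)) x
  obtain ⟨P2, hP2⟩ : ∃ P2 : EuclideanSpace ℝ (Fin (d2 p)),
    P2 = WithLp.toLp 2 (fun j : Fin (d2 p) => w j) := ⟨_, rfl⟩
  have hv : ∀ i < d2 p, asg P2 i = w i := fun i hi => by rw [hP2, asg_toLp w hi]
  have hd12 : d1 p ≤ d2 p := by unfold d2; omega
  have hv1 : ∀ i < d1 p, asg P2 i = asg P i := fun i hi => by rw [hv i (by omega), hw1 i hi]
  have hv2 : ∀ a < en p, ∀ k ≤ tN p, asg P2 (nb p a + k) = chb (asg P a) k := fun a ha k hk => by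
    rw [hv _ (nb_lt p ha hk), hw2 a ha k hk]
  refine ⟨P2, (isIsolated_iff _ _).2 ⟨?_, ?_⟩⟩
  · change (F2 p).Holds (asg P2)
    rw [holds_F2]
    refine ⟨semF_of_eq p hsP hv1, fun a ha => ⟨fun k hk => ?_, ?_⟩⟩
    · rw [hv2 a ha k hk, hv1 a (by omega)]
    · rw [hv1 a (by omega), ← hc ⟨a, ha⟩, ← hPc ⟨a, ha⟩]
  · obtain ⟨rs, hrs⟩ : ∃ rs : EuclideanSpace ℝ (Fin (d2 p)) → EuclideanSpace ℝ (Fin (d1 p)),
        ∀ Q, rs Q = WithLp.toLp 2 (fun j : Fin (d1 p) => asg Q j) := ⟨_, fun Q => rfl⟩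
    have hrsv : ∀ Q, ∀ i < d1 p, asg (rs Q) i = asg Q i := fun Q i hi => by
      rw [hrs, asg_toLp (asg Q) hi]
    have hrsP : rs P2 = P := eq_of_asg fun i hi => by rw [hrsv P2 i hi, hv1 i hi]
    have hrsc : Continuous rs := by
      have h1 : rs = fun Q => WithLp.toLp 2 (fun j : Fin (d1 p) => asg Q j) := funext hrs
      rw [h1]
      exact (PiLp.continuous_toLp 2 _).comp (continuous_pi fun j => asg_cont _)
    have E1 : ∀ᶠ Q in 𝓝 P2, dist (rs Q) P < ε := by
      have h1 := hrsc.tendsto P2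
      rw [hrsP] at h1
      exact h1.eventually (Metric.ball_mem_nhds P hε)
    have E2 : ∀ᶠ Q in 𝓝 P2, ∀ a : Fin (en p), chb (asg Q a) (tN p) = 0 →
        chb (asg P2 a) (tN p) = 0 → asg Q a = asg P2 a := by
      rw [Filter.eventually_all]
      intro a
      exact ((asg_cont (D := d2 p) (a : ℕ)).tendsto P2).eventually (chb_isolated (tN p) _)
    obtain ⟨ε', hε', hmain⟩ := Metric.eventually_nhds_iff.1 (E1.and E2)
    refine ⟨ε', hε', fun Q hQ hd => ?_⟩
    obtain ⟨f1, f2⟩ := hmain hd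
    have hQ' : (F2 p).Holds (asg Q) := hQ
    rw [holds_F2] at hQ'
    obtain ⟨g1, g2⟩ := hQ'
    have hcQ : ∀ a < en p, asg Q a = asg P2 a := by
      intro a ha
      refine f2 ⟨a, ha⟩ (g2 a ha).2 ?_
      rw [hv1 a (by omega), ← hc ⟨a, ha⟩, ← hPc ⟨a, ha⟩]
    have hrQ : rs Q = P := by
      refine hiso (rs Q) ?_ f1 fun a => ?_
      · change (F1 p).Holds (asg (rs Q))
        rw [holds_F1]
        exact semF_of_eq p g1 fun i hi => hrsv Q i hi
      · rw [hrsv Q a (by omega), hcQ a a.2, hv1 a (by omega)]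
    have h1 : ∀ i < d1 p, asg Q i = asg P2 i := by
      intro i hi
      rw [← hrsv Q i hi, hrQ, hv1 i hi]
    refine eq_of_asg (idx2_cases p h1 fun a ha k hk => ?_)
    rw [(g2 a ha).1 k hk, hv2 a ha k hk, hcQ a ha, hv1 a (by omega)]

/-- From the whole set to a fibre. -/
theorem isoAt_of_isolated (h : HasIso (red p)) :
    ∃ c, IsoAt (en p) (d1 p) (F1 p) c := by
  have hlen : (red p).1.length = d2 p := by simp [red]
  unfold HasIso at h
  rw [hlen] at h
  change ∃ x, IsIsolated (semi (d2 p) (F2 p)) x at h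
  obtain ⟨P2, hP2⟩ := h
  rw [isIsolated_iff] at hP2
  obtain ⟨hmem, ε, hε, hiso⟩ := hP2
  have hmem' : (F2 p).Holds (asg P2) := hmem
  rw [holds_F2] at hmem'
  obtain ⟨g1, g2⟩ := hmem'
  have hle := en_le p
  have hd12 : d1 p ≤ d2 p := by unfold d2; omega
  obtain ⟨P, hP⟩ : ∃ P : EuclideanSpace ℝ (Fin (d1 p)),
    P = WithLp.toLp 2 (fun j : Fin (d1 p) => asg P2 j) := ⟨_, rfl⟩
  have hPv : ∀ i < d1 p, asg P i = asg P2 i := fun i hi => by rw [hP, asg_toLp (asg P2) hi]
  obtain ⟨L, hL⟩ : ∃ L : EuclideanSpace ℝ (Fin (d1 p)) → EuclideanSpace ℝ (Fin (d2 p)),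
      ∀ Q, L Q = WithLp.toLp 2 (fun j : Fin (d2 p) =>
        (fun i : ℕ => if i < d1 p then asg Q i else asg P2 i) j) := ⟨_, fun Q => rfl⟩
  have hLv : ∀ Q, ∀ i < d2 p, asg (L Q) i = if i < d1 p then asg Q i else asg P2 i :=
    fun Q i hi => by
      rw [hL, asg_toLp (fun i : ℕ => if i < d1 p then asg Q i else asg P2 i) hi]
  have hLP : L P = P2 := eq_of_asg fun i hi => by
    rw [hLv P i hi]
    split_ifs with h1
    · exact hPv i h1
    · rfl
  have hLc : Continuous L := by
    have h1 : L = fun Q => WithLp.toLp 2 (fun j : Fin (d2 p) =>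
        (fun i : ℕ => if i < d1 p then asg Q i else asg P2 i) j) := funext hL
    rw [h1]
    refine (PiLp.continuous_toLp 2 _).comp (continuous_pi fun j => ?_)
    simp only
    split_ifs with h2
    · exact asg_cont _
    · exact continuous_const
  refine ⟨fun a => asg P a, P, ?_, fun _ => rfl, ?_⟩
  · change (F1 p).Holds (asg P)
    rw [holds_F1]
    exact semF_of_eq p g1 hPv
  · have E1 : ∀ᶠ Q in 𝓝 P, dist (L Q) P2 < ε := by
      have h1 := hLc.tendsto P
      rw [hLP] at h1
      exact h1.eventually (Metric.ball_mem_nhds P2 hε)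
    obtain ⟨ε', hε', hmain⟩ := Metric.eventually_nhds_iff.1 E1
    refine ⟨ε', hε', fun Q hQ hd hc => ?_⟩
    have hsQ : SemF p (asg Q) := (holds_F1 p _).1 hQ
    have hL1 : ∀ i < d1 p, asg (L Q) i = asg Q i := fun i hi => by
      rw [hLv Q i (by omega), if_pos hi]
    have hL2 : ∀ a < en p, ∀ k ≤ tN p, asg (L Q) (nb p a + k) = asg P2 (nb p a + k) := by
      intro a ha k hk
      rw [hLv Q _ (nb_lt p ha hk), if_neg (by unfold nb; omega)]
    have hca : ∀ a < en p, asg (L Q) a = asg P2 a := by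
      intro a ha
      rw [hL1 a (by omega)]
      have h1 := hc ⟨a, ha⟩
      simp only at h1
      rw [h1, hPv a (by omega)]
    have hLQ : L Q = P2 := by
      refine hiso (L Q) ?_ (hmain hd)
      change (F2 p).Holds (asg (L Q))
      rw [holds_F2]
      refine ⟨semF_of_eq p hsQ hL1, fun a ha => ⟨fun k hk => ?_, ?_⟩⟩
      · rw [hL2 a ha k hk, (g2 a ha).1 k hk, hca a ha]
      · rw [hca a ha]; exact (g2 a ha).2
    refine eq_of_asg fun i hi => ?_
    rw [← hL1 i hi, hLQ, hPv i hi]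

/-- **Correctness of the reduction.** -/
theorem red_correct : EAR p ↔ HasIso (red p) := by
  rw [ear_iff_sent]
  constructor
  · intro h
    have hle := en_le p
    obtain ⟨R, hR0, hRd, hR⟩ := transfer
      (locC (isoP (en p) (d1 p) (F1 p)) (isoP_len hle (F1 p))) (nS (isoP (en p) (d1 p) (F1 p)))
      (fun U hU hne => by
        have hopen : IsOpen (U ∩ ocube (en p)) := hU.inter (isOpen_ocube _)
        obtain ⟨c, hcU, hcA⟩ := (dense_algInd (en p)).inter_open_nonempty _ hopen hne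
        refine ⟨c, hcU.1, ?_⟩
        rw [← isoAt_iff_sentC hle]
        exact isoAt_generic p h c (fun a => (hcU.2 a).le) hcA)
    obtain ⟨c, hc, hcR⟩ := exists_net_point R hR0 (tN p) (lt_of_le_of_lt hRd (by
      unfold tN
      exact Nat.pow_lt_pow_right (by norm_num) (Nat.lt_succ_self _)))
    have h1 := hR c (fun j => (hc j).1) hcR
    rw [← isoAt_iff_sentC hle] at h1
    exact isolated_of_isoAt p c (fun j => (hc j).2) h1
  · intro h
    obtain ⟨c, hc⟩ := isoAt_of_isolated p h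
    exact sent_of_isoAt p c hc

end Pool.Agent.K9h83.IP
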