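import Pool.Agent.R537.RN.Loj

/-!
# Countable real algebraic sets are discrete
-/

set_option autoImplicit false

namespace Pool.Agent.K9h83.IP

open Finset Filter Topology Pool.Agent.H612 Pool.Agent.R537.RN

/-- A polynomial with prescribed values at finitely many points. -/
theorem exists_interp {N m : ℕ} (z : Fin m → (Fin N → ℝ)) (hinj : Function.Injective z)
    (s : Fin m) : ∃ h : MvPolynomial (Fin N) ℝ, MvPolynomial.eval (z s) h = 1 ∧
      ∀ t, t ≠ s → MvPolynomial.eval (z t) h = 0 := by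
  classical
  have h1 : ∀ t, t ≠ s → ∃ h : MvPolynomial (Fin N) ℝ, MvPolynomial.eval (z s) h = 1 ∧
      MvPolynomial.eval (z t) h = 0 := by
    intro t ht
    have h0 : ∃ i, z s i ≠ z t i := by
      by_contra hcon
      push Not at hcon
      exact ht (hinj (funext fun i => (hcon i).symm))
    obtain ⟨i, hi⟩ := h0
    refine ⟨MvPolynomial.C (z s i - z t i)⁻¹ * (MvPolynomial.X i - MvPolynomial.C (z t i)), ?_, ?_⟩
    · simp only [map_mul, map_sub, MvPolynomial.eval_C, MvPolynomial.eval_X]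
      exact inv_mul_cancel₀ (sub_ne_zero.2 hi)
    · simp
  choose! h ha hb using h1
  refine ⟨∏ t ∈ univ.erase s, h t, ?_, ?_⟩
  · rw [map_prod]
    exact Finset.prod_eq_one fun t ht => ha t (Finset.ne_of_mem_erase ht)
  · intro t ht
    rw [map_prod]
    exact Finset.prod_eq_zero (Finset.mem_erase.2 ⟨ht, mem_univ t⟩) (hb t ht)

theorem card_crit_le {K : Type} [CommRing K] (nr : RNorm K) {N q m : ℕ}
    (V : Fin N → MvPolynomial (Fin N) K)
    (hdeg : ∀ i, ∀ γ ∈ (V i).support, (∑ j, γ j) < q) (φ : K →+* ℝ)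
    (z : Fin m → (Fin N → ℝ)) (hz : ∀ s, IsCritQ q V φ (z s)) (hinj : Function.Injective z) :
    m ≤ q ^ N := by
  classical
  let A : ((Fin N → Fin q) → ℝ) →ₗ[ℝ] (Fin m → ℝ) :=
    { toFun := fun c t => ∑ β, c β * ∏ j, z t j ^ (β j : ℕ)
      map_add' := fun c d => by
        funext t
        simp only [Pi.add_apply, add_mul, Finset.sum_add_distrib]
      map_smul' := fun a c => by
        funext t
        simp only [Pi.smul_apply, smul_eq_mul, RingHom.id_apply, mul_assoc, Finset.mul_sum] }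
  have hmem : ∀ p : MvPolynomial (Fin N) ℝ,
      (fun t => MvPolynomial.eval (z t) p) ∈ LinearMap.range A := by
    intro p
    have hmon : ∀ α : Fin N → ℕ, (fun t => ∏ j, z t j ^ α j) ∈ LinearMap.range A := by
      intro α
      obtain ⟨C, hC⟩ : ∃ C : ℕ, ∀ i, nr.mν (V i) ≤ C :=
        ⟨∑ i, nr.mν (V i), fun i => Finset.single_le_sum (f := fun i => nr.mν (V i))
          (fun _ _ => Nat.zero_le _) (mem_univ i)⟩
      obtain ⟨c, -, hc⟩ := nf_existsQ nr V (C + 1) (by omega) hdeg (fun i => (hC i).trans (by omega))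
        (∑ j, α j) α (le_refl _)
      refine ⟨fun β => φ (c β), ?_⟩
      funext t
      exact (hc φ (z t) (hz t)).symm
    have : (fun t => MvPolynomial.eval (z t) p) =
        ∑ d ∈ p.support, (p.coeff d) • fun t => ∏ j, z t j ^ d j := by
      funext t
      rw [MvPolynomial.eval_eq', Finset.sum_apply]
      rfl
    rw [this]
    exact Submodule.sum_mem _ fun d _ => Submodule.smul_mem _ _ (hmon _)
  have hsurj : LinearMap.range A = ⊤ := by
    rw [eq_top_iff]
    intro y _
    choose h h1 h2 using exists_interp z hinj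
    have : y = ∑ s, y s • fun t => MvPolynomial.eval (z t) (h s) := by
      funext t
      rw [Finset.sum_apply, Finset.sum_eq_single t]
      · simp [h1]
      · intro s _ hst
        simp [h2 s t hst.symm]
      · simp
    rw [this]
    exact Submodule.sum_mem _ fun s _ => Submodule.smul_mem _ _ (hmem _)
  have h3 := LinearMap.finrank_range_le A
  rw [hsurj, finrank_top] at h3
  simpa using h3

section

variable {N : ℕ} (P : MvPolynomial (Fin N) ℝ) (p : Fin N → ℝ)

/-- A bound for the number of disjoint regions. -/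
theorem regions (hP : ∀ z, 0 ≤ MvPolynomial.eval z P) {q : ℕ} (hq : Odd q)
    (hdeg : DegLE P q) (m : ℕ) (ρ : ℕ → ℝ) (hρ : ∀ k, ρ (k + 1) < ρ k)
    (hs : ∀ k, ∀ z, dist z p = ρ k → MvPolynomial.eval z P ≠ 0) (w : ℕ → (Fin N → ℝ))
    (hw : ∀ k, MvPolynomial.eval (w k) P = 0) (hw1 : ∀ k, ρ (k + 1) < dist (w k) p)
    (hw2 : ∀ k, dist (w k) p < ρ k) : m ≤ q ^ N := by
  classical
  have hPc : Continuous fun z : Fin N → ℝ => MvPolynomial.eval z P := MvPolynomial.continuous_eval P
  have hΓ : DegLE (-P) q := hdeg.neg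
  have hq1 : (0 : ℝ) < q + 1 := by positivity
  have hev : Even (q + 1) := hq.add_one
  -- the regularised function
  let f : ℝ → (Fin N → ℝ) → ℝ := fun e x =>
    (-P).eval₂ (RingHom.id ℝ) x - Sp (q + 1) x / ((q + 1) * e)
  have hfeq : ∀ e x, f e x = -(MvPolynomial.eval x P) - Sp (q + 1) x / ((q + 1) * e) := by
    intro e x
    simp only [f, MvPolynomial.eval₂_neg]
    rfl
  have hfc : ∀ e, Continuous (f e) := by
    intro e
    have : f e = fun x => -(MvPolynomial.eval x P) - Sp (q + 1) x / ((q + 1) * e) :=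
      funext (hfeq e)
    rw [this]
    exact hPc.neg.sub ((Sp_cont _).div_const _)
  have key : ∀ k, ∀ᶠ e : ℝ in atTop, ∃ x, ρ (k + 1) < dist x p ∧ dist x p < ρ k ∧
      ∀ᶠ y in 𝓝 x, f e y ≤ f e x := by
    intro k
    have hK : IsCompact (Metric.closedBall p (ρ k) ∩ {x | ρ (k + 1) ≤ dist x p}) :=
      (isCompact_closedBall _ _).inter_right (isClosed_le continuous_const (by fun_prop))
    have hSc : IsCompact (Metric.sphere p (ρ k) ∪ Metric.sphere p (ρ (k + 1))) :=
      (isCompact_sphere _ _).union (isCompact_sphere _ _)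
    obtain ⟨δ, hδ0, hδ⟩ : ∃ δ : ℝ, 0 < δ ∧
        ∀ x ∈ Metric.sphere p (ρ k) ∪ Metric.sphere p (ρ (k + 1)), δ ≤ MvPolynomial.eval x P := by
      rcases (Metric.sphere p (ρ k) ∪ Metric.sphere p (ρ (k + 1))).eq_empty_or_nonempty with h | h
      · exact ⟨1, one_pos, fun x hx => by rw [h] at hx; exact hx.elim⟩
      · obtain ⟨x0, hx0, hmin⟩ := hSc.exists_isMinOn h hPc.continuousOn
        refine ⟨_, ?_, fun x hx => hmin hx⟩
        refine lt_of_le_of_ne (hP _) (Ne.symm ?_)
        rcases hx0 with h0 | h0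
        · exact hs k x0 h0
        · exact hs (k + 1) x0 h0
    have h1 : Tendsto (fun e : ℝ => -(Sp (q + 1) (w k) / ((q + 1) * e))) atTop (𝓝 0) := by
      have h2 : Tendsto (fun e : ℝ => Sp (q + 1) (w k) / ((q + 1) * e)) atTop (𝓝 0) :=
        (tendsto_const_nhds).div_atTop (tendsto_id.const_mul_atTop hq1)
      simpa using h2.neg
    filter_upwards [h1.eventually (lt_mem_nhds (show -δ < 0 by linarith)),
      eventually_gt_atTop (0 : ℝ)] with e he he0
    obtain ⟨x, hx, hmx⟩ := hK.exists_isMaxOn ⟨w k, (hw2 k).le, (hw1 k).le⟩ (hfc e).continuousOn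
    have hxw : f e (w k) ≤ f e x := hmx ⟨(hw2 k).le, (hw1 k).le⟩
    have hfw : -δ < f e (w k) := by
      rw [hfeq, hw k]
      linarith
    have hns : ∀ y, (dist y p = ρ k ∨ dist y p = ρ (k + 1)) → f e y ≤ -δ := by
      intro y hy
      have h3 := hδ y hy
      have h4 := div_nonneg (Sp_nonneg hev y) (by positivity : (0:ℝ) ≤ (q + 1) * e)
      rw [hfeq]
      linarith
    have hx1 : dist x p < ρ k := by
      refine lt_of_le_of_ne hx.1 fun h => ?_
      have := hns x (Or.inl h)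
      linarith
    have hx2 : ρ (k + 1) < dist x p := by
      refine lt_of_le_of_ne hx.2 fun h => ?_
      have := hns x (Or.inr h.symm)
      linarith
    refine ⟨x, hx2, hx1, ?_⟩
    have ho : IsOpen {y : Fin N → ℝ | ρ (k + 1) < dist y p ∧ dist y p < ρ k} :=
      (isOpen_lt (f := fun _ : Fin N → ℝ => ρ (k + 1)) (g := fun y => dist y p)
        continuous_const (by fun_prop)).inter
        (isOpen_lt (f := fun y : Fin N → ℝ => dist y p) (by fun_prop) continuous_const)
    filter_upwards [ho.mem_nhds ⟨hx2, hx1⟩] with y hy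
    exact hmx ⟨hy.2.le, hy.1.le⟩
  have hall : ∀ᶠ e : ℝ in atTop, ∀ k ∈ Finset.range m, ∃ x, ρ (k + 1) < dist x p ∧
      dist x p < ρ k ∧ ∀ᶠ y in 𝓝 x, f e y ≤ f e x :=
    (Filter.eventually_all_finset _).2 fun k _ => key k
  obtain ⟨e, he, he0⟩ := (hall.and (eventually_gt_atTop (0 : ℝ))).exists
  choose! x hx1 hx2 hx3 using he
  refine card_crit_le (RNorm.poly trN) (q := q) (mV (-P)) (mV_deg hq.pos hΓ)
    (Polynomial.eval₂RingHom (RingHom.id ℝ) e) (fun s : Fin m => x s) (fun s => ?_) ?_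
  · exact (max_crit (-P) (RingHom.id ℝ) e he0 (x s) (hx3 s (Finset.mem_range.2 s.2))).1
  · intro s t hst
    have hanti : ∀ a b : ℕ, a ≤ b → ρ b ≤ ρ a := fun a b hab => by
      induction b, hab using Nat.le_induction with
      | base => exact le_refl _
      | succ b _ ih => exact (hρ b).le.trans ih
    have a1 := hx1 s (Finset.mem_range.2 s.2)
    have a2 := hx2 s (Finset.mem_range.2 s.2)
    have b1 := hx1 t (Finset.mem_range.2 t.2)
    have b2 := hx2 t (Finset.mem_range.2 t.2)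
    simp only at hst
    rw [hst] at a1 a2
    by_contra hne
    rcases lt_or_gt_of_ne (fun h => hne (Fin.ext h) : (s : ℕ) ≠ t) with h | h
    · have := hanti (s + 1) t h
      linarith
    · have := hanti (t + 1) s h
      linarith

/-- A zero of a nonnegative polynomial near which there are only countably many zeros is
isolated. -/
theorem isolated_of_countable (hP : ∀ z, 0 ≤ MvPolynomial.eval z P) (r0 : ℝ) (hr0 : 0 < r0)
    (hc : Set.Countable {z | dist z p < r0 ∧ MvPolynomial.eval z P = 0}) :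
    ∃ r > 0, ∀ z, dist z p < r → MvPolynomial.eval z P = 0 → z = p := by
  classical
  by_contra hcon
  push Not at hcon
  have hR : Set.Countable ((fun z => dist z p) '' {z | dist z p < r0 ∧ MvPolynomial.eval z P = 0}) :=
    hc.image _
  -- good radii
  have hgood : ∀ d : ℝ, 0 < d → d ≤ r0 → ∃ ρ, 0 < ρ ∧ ρ < d ∧
      ∀ z, dist z p = ρ → MvPolynomial.eval z P ≠ 0 := by
    intro d hd hdr
    have h1 : ¬ (Set.Ioo 0 d).Countable := by
      intro h
      have := Cardinal.Real.Ioo_countable_iff.1 h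
      linarith
    obtain ⟨ρ, hρ1, hρ2⟩ : ∃ ρ ∈ Set.Ioo 0 d,
        ρ ∉ ((fun z => dist z p) '' {z | dist z p < r0 ∧ MvPolynomial.eval z P = 0}) := by
      by_contra h
      push Not at h
      exact h1 (hR.mono h)
    refine ⟨ρ, hρ1.1, hρ1.2, fun z hz h => hρ2 ⟨z, ⟨?_, h⟩, hz⟩⟩
    rw [hz]
    exact hρ1.2.trans_le hdr
  have hstep : ∀ ρ : {ρ : ℝ // 0 < ρ ∧ ρ < r0 ∧ ∀ z, dist z p = ρ → MvPolynomial.eval z P ≠ 0},
      ∃ ρ' : {ρ : ℝ // 0 < ρ ∧ ρ < r0 ∧ ∀ z, dist z p = ρ → MvPolynomial.eval z P ≠ 0},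
      ∃ w, MvPolynomial.eval w P = 0 ∧ (ρ' : ℝ) < dist w p ∧ dist w p < ρ := by
    rintro ⟨ρ, h0, h1, h2⟩
    obtain ⟨w, hw1, hw2, hw3⟩ := hcon ρ h0
    have hd : 0 < dist w p := dist_pos.2 hw3
    obtain ⟨ρ', a1, a2, a3⟩ := hgood _ hd (hw1.trans h1).le
    exact ⟨⟨ρ', a1, (a2.trans hw1).trans h1, a3⟩, w, hw2, a2, hw1⟩
  choose nx w hw1 hw2 hw3 using hstep
  obtain ⟨ρ0, a1, a2, a3⟩ := hgood r0 hr0 (le_refl _)
  let ρ : ℕ → {ρ : ℝ // 0 < ρ ∧ ρ < r0 ∧ ∀ z, dist z p = ρ → MvPolynomial.eval z P ≠ 0} :=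
    fun k => nx^[k] ⟨ρ0, a1, a2, a3⟩
  have hρs : ∀ k, ρ (k + 1) = nx (ρ k) := fun k => Function.iterate_succ_apply' _ _ _
  have hq : Odd (2 * P.totalDegree + 1) := ⟨_, rfl⟩
  have := regions P p hP hq (degLE_of_totalDegree (by omega))
    ((2 * P.totalDegree + 1) ^ N + 1) (fun k => ρ k) (fun k => by
      rw [hρs]; exact (hw2 (ρ k)).trans (hw3 (ρ k))) (fun k => (ρ k).2.2.2) (fun k => w (ρ k))
    (fun k => hw1 _) (fun k => by rw [hρs]; exact hw2 _) (fun k => hw3 _)
  omega

end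

/-- The same for arbitrary finite index types. -/
theorem isolated_of_countable' {ι : Type} [Fintype ι] (P : MvPolynomial ι ℝ) (p : ι → ℝ)
    (hP : ∀ z, 0 ≤ MvPolynomial.eval z P)
    (hc : ∃ U ∈ 𝓝 p, Set.Countable {z | z ∈ U ∧ MvPolynomial.eval z P = 0}) :
    ∀ᶠ z in 𝓝 p, MvPolynomial.eval z P = 0 → z = p := by
  classical
  let e := Fintype.equivFin ι
  have hev : ∀ z : Fin (Fintype.card ι) → ℝ,
      MvPolynomial.eval z (MvPolynomial.rename e P) = MvPolynomial.eval (z ∘ e) P :=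
    fun z => MvPolynomial.eval_rename _ _ _
  obtain ⟨U, hU, hcU⟩ := hc
  have hcont : Continuous fun z : Fin (Fintype.card ι) → ℝ => z ∘ e := by fun_prop
  have hcont' : Continuous fun z : ι → ℝ => z ∘ e.symm := by fun_prop
  have hpe : (p ∘ e.symm) ∘ e = p := by
    funext i
    simp
  have hU' : (fun z : Fin (Fintype.card ι) → ℝ => z ∘ e) ⁻¹' U ∈ 𝓝 (p ∘ e.symm) := by
    apply hcont.continuousAt
    change U ∈ 𝓝 ((p ∘ e.symm) ∘ e)
    rw [hpe]
    exact hU
  obtain ⟨r0, hr0, hball⟩ := Metric.mem_nhds_iff.1 hU'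
  obtain ⟨r, hr, hiso⟩ := isolated_of_countable (MvPolynomial.rename e P) (p ∘ e.symm)
    (fun z => by rw [hev]; exact hP _) r0 hr0 (by
      have hinj : Function.Injective fun z : Fin (Fintype.card ι) → ℝ => z ∘ e := by
        intro a b hab
        funext i
        have := congrFun hab (e.symm i)
        simpa using this
      refine Set.Countable.mono (s₂ := (fun z : Fin (Fintype.card ι) → ℝ => z ∘ e) ⁻¹'
        {z | z ∈ U ∧ MvPolynomial.eval z P = 0}) ?_ (hcU.preimage hinj)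
      intro z hz
      refine ⟨hball hz.1, ?_⟩
      rw [← hev]
      exact hz.2)
  have h1 : ∀ᶠ z in 𝓝 p, dist (z ∘ e.symm) (p ∘ e.symm) < r := by
    have := hcont'.continuousAt (x := p) (Metric.ball_mem_nhds _ hr)
    exact this
  filter_upwards [h1] with z hz h0
  have h2 := hiso (z ∘ e.symm) hz (by
    rw [hev]
    have : (z ∘ e.symm) ∘ e = z := by funext i; simp
    rw [this]
    exact h0)
  funext i
  have := congrFun h2 (e i)
  simpa using this

end Pool.Agent.K9h83.IP
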