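import Pool.Agent.K9h83.IP.Fml

/-!
# The meaning of the formula
-/

set_option autoImplicit false

namespace Pool.Agent.K9h83.IP

open Finset Filter Topology Pool.Agent.R537.RN
open Pool.Agent.NPC Pool.Agent.NPC.ER Pool.Agent.NPC.H612
open Pool.Agent.NPC.R537HD (chain holds_chain chain_val sqT subT numT eval_sqT eval_subT
  eval_numT asg semi)

variable (p : InpE)

/-- The values on an inactive block. -/
def inB (r : ℕ) : ℝ := if r = 0 then 0 else if r ≤ ek p + 1 then 2 ^ 2 ^ (r - 1) else 2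

/-- The values on an active block. -/
noncomputable def acB (lam : ℝ) (Y : Fin (el p + 1) → ℝ) (r : ℕ) : ℝ :=
  if r = 0 then lam else if r ≤ ek p + 1 then Y 0 ^ 2 ^ (r - 1)
  else if h : r - (ek p + 1) < el p + 1 then Y ⟨r - (ek p + 1), h⟩ else 0

/-- The values on the block of the cone. -/
noncomputable def coB (h : ℝ) (Y : Fin (el p + 1) → ℝ) (r : ℕ) : ℝ :=
  if r = 0 then h else h * acB p h Y r

/-- The function of the max-min problem. -/
noncomputable def gq (c x : Fin (en p) → ℝ) (Y : Fin (el p + 1) → ℝ) : ℝ :=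
  gp (locE p) (eS p) c x Y

/-- The parameters. -/
def CC (v : ℕ → ℝ) (a : Fin (en p)) : ℝ := v a

/-- The real numbers `τ`, `δ`, `ζ`. -/
noncomputable def rτ : ℝ := (sc (x1 p) : ℚ)
/-- The real numbers `τ`, `δ`, `ζ`. -/
noncomputable def rδ : ℝ := (sc (x2 p) : ℚ)
/-- The real numbers `τ`, `δ`, `ζ`. -/
noncomputable def rζ : ℝ := (sc (x3 p) : ℚ)

theorem gq_eq (c x : Fin (en p) → ℝ) (Y : Fin (el p + 1) → ℝ) : gq p c x Y =
    qh (locE p) (eS p) (rτ p) x Y - rτ p ^ 5 * Y 0 ^ 2 ^ ek p + rζ p * ∑ b : Fin (el p), Y b.succ ^ 6 +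
      rδ p * (2 * en p + 2 - ∑ a, x a ^ 2) + rζ p * ∑ a, c a * x a := rfl

/-- The meaning of the formula. -/
structure SemF (v : ℕ → ℝ) : Prop where
  bd : ∀ a < en p, v a ^ 2 ≤ 1
  cs : ∀ j ≤ x3 p, v (bs p + j) = (1 / 2) ^ 2 ^ j
  cp : ∀ j < en p + 1, (∀ r < bm p, v (bb p j + r) = inB p r) ∨
    (0 < v (bb p j) ∧ YY p v (bb p j) ∈ box (el p) ∧
      (∀ r < bm p, v (bb p j + r) = acB p (v (bb p j)) (YY p v (bb p j)) r) ∧
      eqT (locE p) (eS p) (2 ^ ek p) (rτ p) (XX p v) (YY p v (bb p j)) = 0 ∧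
      (∀ b, eqZ (locE p) (eS p) (rτ p) (rζ p) (XX p v) (YY p v (bb p j)) b = 0) ∧
      val (locE p) (eS p) (2 ^ ek p) (rτ p) (rζ p) (XX p v) (YY p v (bb p j)) = v (2 * en p))
  sm : ∑ j ∈ range (en p + 1), v (bb p j) = 1
  kt : ∀ a : Fin (en p), ∑ j ∈ range (en p + 1), v (bb p j) *
    gx (locE p) (eS p) (rτ p) (XX p v) (YY p v (bb p j)) a - 2 * rδ p * XX p v a +
      rζ p * CC p v a = 0
  cn : (∀ r < bm p, v (bb p (en p + 1) + r) = 0) ∨
    ∃ h Y, 0 < h ∧ Y ∈ box (el p) ∧ gq p (CC p v) (XX p v) Y ≤ 0 ∧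
      ∀ r < bm p, v (bb p (en p + 1) + r) = coB p h Y r

/-- The cases for the indices in a block. -/
theorem blk_cases {P : ℕ → Prop} (h0 : P 0) (h1 : ∀ k ≤ ek p, P (1 + k))
    (h2 : ∀ b < el p, P (1 + (ek p + 1) + b)) : ∀ r < bm p, P r := by
  intro r hr
  unfold bm at hr
  rcases Nat.eq_zero_or_pos r with h | h
  · rw [h]; exact h0
  · by_cases h3 : r ≤ ek p + 1
    · have := h1 (r - 1) (by omega)
      rwa [show 1 + (r - 1) = r by omega] at this
    · have := h2 (r - (1 + (ek p + 1))) (by omega)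
      rwa [show 1 + (ek p + 1) + (r - (1 + (ek p + 1))) = r by omega] at this

theorem inB_T (k : ℕ) (hk : k ≤ ek p) : inB p (1 + k) = 2 ^ 2 ^ k := by
  unfold inB
  rw [if_neg (by omega), if_pos (by omega)]
  congr 2
  omega

theorem inB_Z (b : ℕ) : inB p (1 + (ek p + 1) + b) = 2 := by
  unfold inB
  rw [if_neg (by omega), if_neg (by omega)]

theorem acB_zero (lam : ℝ) (Y : Fin (el p + 1) → ℝ) : acB p lam Y 0 = lam := by
  unfold acB
  rw [if_pos rfl]

theorem acB_T (lam : ℝ) (Y : Fin (el p + 1) → ℝ) (k : ℕ) (hk : k ≤ ek p) :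
    acB p lam Y (1 + k) = Y 0 ^ 2 ^ k := by
  unfold acB
  rw [if_neg (by omega), if_pos (by omega)]
  congr 2
  omega

theorem acB_Z (lam : ℝ) (Y : Fin (el p + 1) → ℝ) (b : Fin (el p)) :
    acB p lam Y (1 + (ek p + 1) + b) = Y b.succ := by
  unfold acB
  rw [if_neg (by omega), if_neg (by omega), dif_pos (by have := b.2; omega)]
  congr 1
  refine Fin.ext ?_
  simp only [Fin.val_succ]
  omega

theorem coB_zero (h : ℝ) (Y : Fin (el p + 1) → ℝ) : coB p h Y 0 = h := by
  unfold coB
  rw [if_pos rfl]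

theorem coB_pos (h : ℝ) (Y : Fin (el p + 1) → ℝ) {r : ℕ} (hr : r ≠ 0) :
    coB p h Y r = h * acB p h Y r := by
  unfold coB
  rw [if_neg hr]

/-- The homogeneity of the main form. -/
theorem qh_smul {n l : ℕ} (loc : ℕ → Fin n ⊕ Fin l) (S : List ER.Con) (τ : ℝ) (x : Fin n → ℝ)
    (h : ℝ) (Y : Fin (l + 1) → ℝ) :
    qh loc S τ x (fun b => h * Y b) = h ^ 4 * qh loc S τ x Y := by
  unfold qh
  rw [← qsum_scale]
  congr 1
  · funext i
    unfold Vv
    rcases loc i with j | j
    · simp only [Sum.elim_inl]; ring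
    · simp only [Sum.elim_inr]; ring
  · ring

theorem eval_xCone (v : ℕ → ℝ) (β : ℕ) (h : ℝ) (Y : Fin (el p + 1) → ℝ)
    (hτ : v (bs p + x1 p) = rτ p) (hδ : v (bs p + x2 p) = rδ p) (hζ : v (bs p + x3 p) = rζ p)
    (hv : ∀ r < bm p, v (β + r) = coB p h Y r) :
    (xCone p β).eval v = h ^ 6 * gq p (CC p v) (XX p v) Y := by
  have h0 : v β = h := by
    have := hv 0 (by unfold bm; omega)
    rwa [coB_zero] at this
  have hY : YY p v β = fun b => h * Y b := by
    funext b
    refine Fin.cases ?_ (fun b => ?_) b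
    · simp only [YY, Fin.cons_zero]
      have := hv (1 + 0) (by unfold bm; omega)
      rw [coB_pos p _ _ (by omega), acB_T p _ _ 0 (by omega)] at this
      simpa using this
    · simp only [YY, Fin.cons_succ]
      have := hv (1 + (ek p + 1) + b) (by have := b.2; unfold bm; omega)
      rw [coB_pos p _ _ (by omega), acB_Z] at this
      rw [← this]
      congr 1
      ring
  have hT : (tT β (ek p)).eval v = h * Y 0 ^ 2 ^ ek p := by
    have := hv (1 + ek p) (by unfold bm; omega)
    rw [coB_pos p _ _ (by omega), acB_T p _ _ _ (le_refl _)] at this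
    rw [← this]
    simp only [tT, Tm.eval]
    congr 1
    ring
  unfold xCone
  simp only [Tm.eval, eval_subT, eval_sqT, eval_p5, eval_p6, eval_xQ, eval_xZ6, eval_xX2,
    eval_xCX, eval_numT]
  have e1 : (tτ p).eval v = rτ p := hτ
  have e2 : (tδ p).eval v = rδ p := hδ
  have e3 : (tζ p).eval v = rζ p := hζ
  rw [hT, h0, hY, qh_smul, e1, e2, e3, hτ, gq_eq]
  have e4 : ∑ b : Fin (el p), (h * Y b.succ) ^ 6 = h ^ 6 * ∑ b : Fin (el p), Y b.succ ^ 6 := by
    rw [Finset.mul_sum]
    exact Finset.sum_congr rfl fun b _ => by ring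
  rw [e4]
  have e5 : ∑ a : Fin (en p), v a * XX p v a = ∑ a, CC p v a * XX p v a := rfl
  rw [e5]
  push_cast
  ring

/-- The constants. -/
theorem cs_iff (v : ℕ → ℝ) : (∀ φ ∈ fCs p, φ.Holds v) ↔ ∀ j ≤ x3 p, v (bs p + j) = (1 / 2) ^ 2 ^ j := by
  unfold fCs
  rw [List.forall_mem_cons, holds_chain]
  simp only [Fm.Holds, Tm.eval]
  constructor
  · rintro ⟨h1, h2⟩ j hj
    have h3 := chain_val v (bs p) (x3 p) h2 j hj
    rw [h3]
    congr 1
    linarith
  · intro h
    have h0 := h 0 (by omega)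
    simp only [add_zero, pow_zero, pow_one] at h0
    refine ⟨by rw [h0]; norm_num, fun j hj => ?_⟩
    rw [show bs p + j + 1 = bs p + (j + 1) by ring, h (j + 1) (by omega), h j (by omega), ← pow_mul]
    congr 1

theorem mem_box_iff (v : ℕ → ℝ) (β : ℕ) : YY p v β ∈ box (el p) ↔
    0 ≤ v (β + 1) ∧ v (β + 1) ≤ 1 ∧ ∀ b < el p, v (β + 1 + (ek p + 1) + b) ^ 2 ≤ 1 := by
  unfold box
  simp only [Set.mem_ofPred_eq, YY, Fin.cons_zero, Fin.cons_succ]
  refine and_congr_right fun _ => and_congr_right fun _ => ?_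
  constructor
  · intro h b hb
    exact R537HD.sq_le_one_iff'.2 (h ⟨b, hb⟩)
  · intro h b
    exact R537HD.sq_le_one_iff'.1 (h b b.2)

/-- The copies. -/
theorem cp_iff (v : ℕ → ℝ) (β : ℕ) (hτ : v (bs p + x1 p) = rτ p) (hζ : v (bs p + x3 p) = rζ p) :
    (fCp p β).Holds v ↔ (∀ r < bm p, v (β + r) = inB p r) ∨
    (0 < v β ∧ YY p v β ∈ box (el p) ∧
      (∀ r < bm p, v (β + r) = acB p (v β) (YY p v β) r) ∧
      eqT (locE p) (eS p) (2 ^ ek p) (rτ p) (XX p v) (YY p v β) = 0 ∧
      (∀ b, eqZ (locE p) (eS p) (rτ p) (rζ p) (XX p v) (YY p v β) b = 0) ∧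
      val (locE p) (eS p) (2 ^ ek p) (rτ p) (rζ p) (XX p v) (YY p v β) = v (2 * en p)) := by
  unfold fCp
  simp only [Fm.Holds, holds_conj, holds_chain]
  have hin : (∀ φ ∈ fIn p β, φ.Holds v) ↔ v β = 0 ∧ v (β + 1) = 2 ∧
      ∀ b < el p, v (β + 1 + (ek p + 1) + b) = 2 := by
    unfold fIn
    rw [List.forall_mem_cons, List.forall_mem_cons, List.forall_mem_map]
    simp only [Fm.Holds, Tm.eval, tT, tZ, twoT, List.mem_range, add_zero]
    norm_num
  have hac : (∀ j < ek p, v (β + 1 + j + 1) = v (β + 1 + j) ^ 2) →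
      ((∀ φ ∈ fAc p β, φ.Holds v) ↔ 0 < v β ∧ YY p v β ∈ box (el p) ∧
        eqT (locE p) (eS p) (2 ^ ek p) (rτ p) (XX p v) (YY p v β) = 0 ∧
        (∀ b, eqZ (locE p) (eS p) (rτ p) (rζ p) (XX p v) (YY p v β) b = 0) ∧
        val (locE p) (eS p) (2 ^ ek p) (rτ p) (rζ p) (XX p v) (YY p v β) = v (2 * en p)) := by
    intro hch
    have hk := chain_val v (β + 1) (ek p) hch _ (le_refl _)
    unfold fAc
    rw [List.forall_mem_cons, List.forall_mem_cons, List.forall_mem_cons, List.forall_mem_cons,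
      List.forall_mem_cons, List.forall_mem_append, List.forall_mem_map, List.forall_mem_map]
    simp only [Fm.Holds, Tm.eval, eval_sqT, List.mem_range, eval_xET p v β hk, eval_xVal p v β hk,
      hτ, hζ, mem_box_iff]
    simp only [tT, tZ, Tm.eval, add_zero]
    have hz : (∀ b < el p, (xEZ p β b).eval v = 0) ↔
        ∀ b, eqZ (locE p) (eS p) (rτ p) (rζ p) (XX p v) (YY p v β) b = 0 := by
      constructor
      · intro h b
        have := h b b.2
        rw [eval_xEZ, hτ, hζ] at this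
        exact this
      · intro h b hb
        have := h ⟨b, hb⟩
        rw [← hτ, ← hζ, ← eval_xEZ] at this
        exact this
    rw [hz]
    tauto
  constructor
  · rintro ⟨hch, h | h⟩
    · left
      rw [hin] at h
      obtain ⟨h0, h1, h2⟩ := h
      refine blk_cases p ?_ (fun k hk => ?_) (fun b hb => ?_)
      · rw [add_zero, h0]; unfold inB; rw [if_pos rfl]
      · have := chain_val v (β + 1) (ek p) hch k hk
        rw [inB_T p k hk, ← add_assoc, this, h1]
      · rw [inB_Z, ← h2 b hb]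
        congr 1
        ring
    · right
      rw [hac hch] at h
      obtain ⟨h1, h2, h3, h4, h5⟩ := h
      refine ⟨h1, h2, ?_, h3, h4, h5⟩
      refine blk_cases p ?_ (fun k hk => ?_) (fun b hb => ?_)
      · rw [acB_zero, add_zero]
      · have := chain_val v (β + 1) (ek p) hch k hk
        rw [acB_T p _ _ k hk, ← add_assoc, this]
        simp [YY]
      · have := acB_Z p (v β) (YY p v β) ⟨b, hb⟩
        simp only at this
        rw [this]
        simp only [YY, Fin.cons_succ]
        congr 1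
        ring
  · rintro (h | ⟨h1, h2, h3, h4, h5, h6⟩)
    · have hT : ∀ k ≤ ek p, v (β + 1 + k) = 2 ^ 2 ^ k := by
        intro k hk
        have := h (1 + k) (by unfold bm; omega)
        rw [inB_T p k hk] at this
        rw [← this]
        congr 1
        ring
      refine ⟨fun j hj => ?_, Or.inl (hin.2 ⟨?_, ?_, fun b hb => ?_⟩)⟩
      · rw [show β + 1 + j + 1 = β + 1 + (j + 1) by ring, hT (j + 1) (by omega), hT j (by omega),
          ← pow_mul]
        congr 1
      · have := h 0 (by unfold bm; omega)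
        rw [add_zero] at this
        rw [this]; unfold inB; rw [if_pos rfl]
      · have := hT 0 (by omega)
        simpa using this
      · have := h (1 + (ek p + 1) + b) (by unfold bm; omega)
        rw [inB_Z] at this
        rw [← this]
        congr 1
        ring
    · have hT : ∀ k ≤ ek p, v (β + 1 + k) = v (β + 1) ^ 2 ^ k := by
        intro k hk
        have := h3 (1 + k) (by unfold bm; omega)
        rw [acB_T p _ _ k hk] at this
        simp only [YY, Fin.cons_zero] at this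
        rw [← this]
        congr 1
        ring
      have hch : ∀ j < ek p, v (β + 1 + j + 1) = v (β + 1 + j) ^ 2 := by
        intro j hj
        rw [show β + 1 + j + 1 = β + 1 + (j + 1) by ring, hT (j + 1) (by omega), hT j (by omega),
          ← pow_mul]
        congr 1
      exact ⟨hch, Or.inr ((hac hch).2 ⟨h1, h2, h4, h5, h6⟩)⟩

theorem h_pow_succ {a h t : ℝ} (hh : 0 < h) {k : ℕ} (h1 : a * h = (h * t ^ 2 ^ k) ^ 2) :
    a = h * t ^ 2 ^ (k + 1) := by
  have h2 : a * h = (h * t ^ 2 ^ (k + 1)) * h := by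
    rw [h1, mul_pow, ← pow_mul, ← pow_succ]
    ring
  exact mul_right_cancel₀ hh.ne' h2

/-- The cone. -/
theorem cn_iff (v : ℕ → ℝ) (β : ℕ) (hτ : v (bs p + x1 p) = rτ p) (hδ : v (bs p + x2 p) = rδ p)
    (hζ : v (bs p + x3 p) = rζ p) :
    (Fm.or (conj (fC0 p β)) (conj (fC1 p β))).Holds v ↔ (∀ r < bm p, v (β + r) = 0) ∨
    ∃ h Y, 0 < h ∧ Y ∈ box (el p) ∧ gq p (CC p v) (XX p v) Y ≤ 0 ∧
      ∀ r < bm p, v (β + r) = coB p h Y r := by
  simp only [Fm.Holds, holds_conj]
  have h0 : (∀ φ ∈ fC0 p β, φ.Holds v) ↔ ∀ r < bm p, v (β + r) = 0 := by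
    unfold fC0
    rw [List.forall_mem_map]
    simp only [Fm.Holds, Tm.eval, List.mem_range]
  have h1 : (∀ φ ∈ fC1 p β, φ.Holds v) ↔ 0 < v β ∧ 0 ≤ v (β + 1) ∧ v (β + 1) ≤ v β ∧
      (xCone p β).eval v ≤ 0 ∧ (∀ b < el p, v (β + 1 + (ek p + 1) + b) ^ 2 ≤ v β ^ 2) ∧
      ∀ k < ek p, v (β + 1 + (k + 1)) * v β = v (β + 1 + k) ^ 2 := by
    unfold fC1
    rw [List.forall_mem_cons, List.forall_mem_cons, List.forall_mem_cons, List.forall_mem_cons,
      List.forall_mem_append, List.forall_mem_map, List.forall_mem_map]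
    simp only [Fm.Holds, Tm.eval, eval_sqT, tT, tZ, List.mem_range, add_zero]
  rw [h0, h1]
  refine or_congr Iff.rfl ?_
  constructor
  · rintro ⟨a0, a1, a2, a3, a4, a5⟩
    refine ⟨v β, fun b => (v β)⁻¹ * YY p v β b, a0, ?_, ?_⟩
    · refine ⟨?_, ?_, fun b => ?_⟩
      · simp only [YY, Fin.cons_zero]; positivity
      · simp only [YY, Fin.cons_zero]
        rw [inv_mul_le_iff₀ a0, mul_one]; exact a2
      · simp only [YY, Fin.cons_succ]
        rw [abs_mul, abs_of_pos (inv_pos.2 a0), inv_mul_le_iff₀ a0, mul_one]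
        have := a4 b b.2
        rw [← abs_of_pos a0]
        exact sq_le_sq.1 this
    · have hv : ∀ r < bm p, v (β + r) = coB p (v β) (fun b => (v β)⁻¹ * YY p v β b) r := by
        refine blk_cases p ?_ (fun k hk => ?_) (fun b hb => ?_)
        · rw [coB_zero, add_zero]
        · rw [coB_pos p _ _ (by omega), acB_T p _ _ k hk]
          induction k with
          | zero =>
            simp only [pow_zero, pow_one, YY, Fin.cons_zero]
            rw [← mul_assoc, mul_inv_cancel₀ a0.ne', one_mul]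
          | succ k ih =>
            have e1 := ih (by omega)
            have e2 := a5 k (by omega)
            rw [show β + (1 + (k + 1)) = β + 1 + (k + 1) by ring]
            rw [show β + (1 + k) = β + 1 + k by ring] at e1
            rw [e1] at e2
            exact h_pow_succ a0 e2
        · rw [coB_pos p _ _ (by omega)]
          have := acB_Z p (v β) (fun b => (v β)⁻¹ * YY p v β b) ⟨b, hb⟩
          simp only at this
          rw [this, ← mul_assoc, mul_inv_cancel₀ a0.ne', one_mul]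
          simp only [YY, Fin.cons_succ]
          congr 1
          ring
      refine ⟨?_, hv⟩
      rw [eval_xCone p v β _ _ hτ hδ hζ hv] at a3
      exact nonpos_of_mul_nonpos_right a3 (by positivity)
  · rintro ⟨h, Y, hh, hY, hg, hv⟩
    have e0 : v β = h := by
      have := hv 0 (by unfold bm; omega)
      rwa [coB_zero] at this
    have eT : ∀ k ≤ ek p, v (β + 1 + k) = h * Y 0 ^ 2 ^ k := by
      intro k hk
      have := hv (1 + k) (by unfold bm; omega)
      rw [coB_pos p _ _ (by omega), acB_T p _ _ k hk] at this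
      rw [← this]
      congr 1
      ring
    have eZ : ∀ b (hb : b < el p), v (β + 1 + (ek p + 1) + b) = h * Y (Fin.succ ⟨b, hb⟩) := by
      intro b hb
      have := hv (1 + (ek p + 1) + b) (by unfold bm; omega)
      have h2 := acB_Z p h Y ⟨b, hb⟩
      simp only at h2
      rw [coB_pos p _ _ (by omega), h2] at this
      rw [← this]
      congr 1
      ring
    have eT0 : v (β + 1) = h * Y 0 := by
      have := eT 0 (by omega)
      simpa using this
    refine ⟨by rw [e0]; exact hh, ?_, ?_, ?_, ?_, ?_⟩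
    · rw [eT0]; exact mul_nonneg hh.le hY.1
    · rw [eT0, e0]
      have := mul_le_mul_of_nonneg_left hY.2.1 hh.le
      linarith
    · rw [eval_xCone p v β _ _ hτ hδ hζ hv]
      exact mul_nonpos_of_nonneg_of_nonpos (by positivity) hg
    · intro b hb
      rw [eZ b hb, e0, mul_pow]
      have h3 := hY.2.2 ⟨b, hb⟩
      have h4 : Y (Fin.succ ⟨b, hb⟩) ^ 2 ≤ 1 := R537HD.sq_le_one_iff'.2 h3
      have h5 : 0 < h ^ 2 := by positivity
      nlinarith
    · intro k hk
      rw [eT (k + 1) (by omega), eT k (by omega), e0, mul_pow, ← pow_mul, ← pow_succ]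
      ring

theorem holds_F1 (v : ℕ → ℝ) : (F1 p).Holds v ↔ SemF p v := by
  unfold F1
  rw [holds_conj]
  rw [List.forall_mem_append, List.forall_mem_append, List.forall_mem_append,
    List.forall_mem_cons, List.forall_mem_append, List.forall_mem_map, List.forall_mem_map,
    List.forall_mem_singleton, cs_iff]
  have hbd : (∀ φ ∈ fBd p, φ.Holds v) ↔ ∀ a < en p, v a ^ 2 ≤ 1 := by
    unfold fBd
    rw [List.forall_mem_map]
    simp only [Fm.Holds, Tm.eval, eval_sqT, List.mem_range]
  rw [hbd]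
  have hsm : (fSm p).Holds v ↔ ∑ j ∈ range (en p + 1), v (bb p j) = 1 := by
    unfold fSm
    simp only [Fm.Holds, Tm.eval]
    rw [eval_sumT, List.map_map]
    have h : (Tm.eval v ∘ fun j => Tm.var (bb p j)) = fun j => v (bb p j) := rfl
    rw [h, list_range_sum]
  rw [hsm]
  constructor
  · rintro ⟨h1, h2, h3, h4, h5, h6⟩
    have hτ : v (bs p + x1 p) = rτ p := by rw [h2 _ (x1_le p)]; unfold rτ; rw [sc_real]
    have hδ : v (bs p + x2 p) = rδ p := by rw [h2 _ (x2_le p)]; unfold rδ; rw [sc_real]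
    have hζ : v (bs p + x3 p) = rζ p := by rw [h2 _ (le_refl _)]; unfold rζ; rw [sc_real]
    refine ⟨h1, h2, fun j hj => ?_, h4, fun a => ?_, ?_⟩
    · exact (cp_iff p v _ hτ hζ).1 (h3 j (List.mem_range.2 hj))
    · have := h5 a (List.mem_range.2 a.2)
      unfold fKt at this
      simp only [Fm.Holds, Tm.eval, eval_subT, twoT] at this
      rw [eval_sumT, List.map_map] at this
      have h : (Tm.eval v ∘ fun j => Tm.mul (Tm.var (bb p j)) (xGx p (bb p j) a)) =
          fun j => v (bb p j) * gx (locE p) (eS p) (rτ p) (XX p v) (YY p v (bb p j)) a := by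
        funext j
        simp only [Function.comp_apply, Tm.eval]
        rw [eval_xGx, hτ]
      rw [h, list_range_sum] at this
      have e2 : (tδ p).eval v = rδ p := hδ
      have e3 : (tζ p).eval v = rζ p := hζ
      have e4 : (tX p a).eval v = XX p v a := rfl
      rw [e2, e3, e4] at this
      have e5 : CC p v a = v a := rfl
      rw [e5]
      linarith
    · exact (cn_iff p v _ hτ hδ hζ).1 h6
  · rintro ⟨h1, h2, h3, h4, h5, h6⟩
    have hτ : v (bs p + x1 p) = rτ p := by rw [h2 _ (x1_le p)]; unfold rτ; rw [sc_real]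
    have hδ : v (bs p + x2 p) = rδ p := by rw [h2 _ (x2_le p)]; unfold rδ; rw [sc_real]
    have hζ : v (bs p + x3 p) = rζ p := by rw [h2 _ (le_refl _)]; unfold rζ; rw [sc_real]
    refine ⟨h1, h2, fun j hj => ?_, h4, fun a ha => ?_, ?_⟩
    · exact (cp_iff p v _ hτ hζ).2 (h3 j (List.mem_range.1 hj))
    · have := h5 ⟨a, List.mem_range.1 ha⟩
      unfold fKt
      simp only [Fm.Holds, Tm.eval, eval_subT, twoT]
      rw [eval_sumT, List.map_map]
      have h : (Tm.eval v ∘ fun j => Tm.mul (Tm.var (bb p j)) (xGx p (bb p j) a)) =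
          fun j => v (bb p j) * gx (locE p) (eS p) (rτ p) (XX p v) (YY p v (bb p j))
            ⟨a, List.mem_range.1 ha⟩ := by
        funext j
        simp only [Function.comp_apply, Tm.eval]
        have := eval_xGx p v (bb p j) ⟨a, List.mem_range.1 ha⟩
        simp only at this
        rw [this, hτ]
      rw [h, list_range_sum]
      have e2 : (tδ p).eval v = rδ p := hδ
      have e3 : (tζ p).eval v = rζ p := hζ
      have e4 : (tX p a).eval v = XX p v ⟨a, List.mem_range.1 ha⟩ := rfl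
      rw [e2, e3, e4]
      have e5 : CC p v ⟨a, List.mem_range.1 ha⟩ = v a := rfl
      rw [e5] at this
      linarith
    · exact (cn_iff p v _ hτ hδ hζ).2 h6

end Pool.Agent.K9h83.IP
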