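import Pool.Agent.R537.RN.NFEff

/-!
# Values of iterated block optima and the constancy of their sign
-/

set_option autoImplicit false

namespace Pool.Agent.K9h83.IP

open Finset Filter Topology Pool.Agent.H612 Pool.Agent.R537.RN Pool.Agent.NPC

variable {K : Type} [CommRing K] {T : Type} [TopologicalSpace T]

/-- The value of a max-min problem. -/
theorem maxmin [Nontrivial K] (L : Lvl K T) (nr : RNorm K)
    (hpos : ∀ c : K, c ≠ 0 → 1 ≤ nr.ν c) {n N a : ℕ}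
    (F : MvPolynomial (Fin N) (MvPolynomial (Fin n) K))
    (hF : 1 + (wm (wm nr n) N).ν F ≤ 2 ^ 2 ^ a) :
    ∃ Q : Polynomial K, Q ≠ 0 ∧ nr.poly.ν Q ≤ 2 ^ 2 ^ Gx n (Gx N a) ∧
      ∃ b : T → ℝ, Continuous b ∧ (∀ t, Q.eval₂ (L.φ t) (b t) = 0) ∧
        (∀ t, ∀ x ∈ cube n, ∃ U ∈ cube N, ((L.ext n).ext N).φ ((t, x), U) F ≤ b t) ∧
        ∀ t, ∃ x ∈ cube n, ∀ U ∈ cube N, b t ≤ ((L.ext n).ext N).φ ((t, x), U) F := by
  obtain ⟨h, hh⟩ : ∃ h : (T × (Fin n → ℝ)) × (Fin N → ℝ) → ℝ,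
      ∀ s, h s = -((L.ext n).ext N).φ s F := ⟨_, fun s => rfl⟩
  have hc : Continuous h := by
    have : h = fun s => -((L.ext n).ext N).φ s F := funext hh
    rw [this]
    exact (((L.ext n).ext N).cont F).neg
  have hP0 : Polynomial.X + Polynomial.C F ≠ 0 := (Polynomial.monic_X_add_C F).ne_zero
  have hB : (wm (wm nr n) N).poly.ν (Polynomial.X + Polynomial.C F) ≤ 2 ^ 2 ^ a :=
    (ν_X_add_C _ F).trans hF
  have p1 := wm_pos nr hpos (N := n)
  obtain ⟨Q, hQ0, hQν, hQ⟩ := (L.ext n).step (wm nr n) p1 (Polynomial.X + Polynomial.C F) hP0 _ hB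
    Nat.one_le_two_pow h hc (fun s => by
      rw [Polynomial.eval₂_add, Polynomial.eval₂_X, Polynomial.eval₂_C, hh]; ring)
  have hQν' := (flip_ν (wm nr n) Q).trans (hQν.trans (bndL_le N a _ (le_refl _)))
  obtain ⟨h1, hh1⟩ : ∃ h1 : T × (Fin n → ℝ) → ℝ, ∀ s, h1 s = -bmax h s := ⟨_, fun s => rfl⟩
  have hc1 : Continuous h1 := by
    have : h1 = fun s => -bmax h s := funext hh1
    rw [this]
    exact (continuous_bmax hc).neg
  obtain ⟨Q1, hQ10, hQ1ν, hQ1⟩ := L.step nr hpos (flip Q) (flip_ne_zero Q hQ0) _ hQν'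
    Nat.one_le_two_pow h1 hc1 (fun s => by
      rw [flip_eval, hh1, neg_neg]
      exact hQ s)
  refine ⟨Q1, hQ10, hQ1ν.trans (bndL_le n _ _ (le_refl _)), fun t => bmax h1 t,
    continuous_bmax hc1, hQ1, ?_, ?_⟩
  · intro t x hx
    obtain ⟨U, hU, hU2⟩ := exists_bmax hc (t, x)
    refine ⟨U, hU, ?_⟩
    have e1 := le_bmax hc1 t hx
    rw [hh1, ← hU2, hh, neg_neg] at e1
    exact e1
  · intro t
    obtain ⟨x, hx, hx2⟩ := exists_bmax hc1 t
    refine ⟨x, hx, fun U hU => ?_⟩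
    have e1 := le_bmax hc (t, x) hU
    rw [hh] at e1
    change bmax h1 t ≤ _
    rw [← hx2, hh1]
    linarith

/-- The value of a min-max-min problem. -/
theorem minmaxmin [Nontrivial K] (L : Lvl K T) (nr : RNorm K)
    (hpos : ∀ c : K, c ≠ 0 → 1 ≤ nr.ν c) {n m N a : ℕ}
    (F : MvPolynomial (Fin N) (MvPolynomial (Fin m) (MvPolynomial (Fin n) K)))
    (hF : 1 + (wm (wm (wm nr n) m) N).ν F ≤ 2 ^ 2 ^ a) :
    ∃ Q : Polynomial K, Q ≠ 0 ∧ nr.poly.ν Q ≤ 2 ^ 2 ^ Gx n (Gx m (Gx N a)) ∧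
      ∃ b : T → ℝ, Continuous b ∧ (∀ t, Q.eval₂ (L.φ t) (b t) = 0) ∧
        ∀ t, (∃ x ∈ cube n, ∀ Y ∈ cube m, ∃ U ∈ cube N,
          (((L.ext n).ext m).ext N).φ (((t, x), Y), U) F ≤ 0) ↔ b t ≤ 0 := by
  have p1 := wm_pos nr hpos (N := n)
  obtain ⟨Q, hQ0, hQν, b1, hb1, hQ, hb2, hb3⟩ := maxmin (L.ext n) (wm nr n) p1 F hF
  obtain ⟨h1, hh1⟩ : ∃ h1 : T × (Fin n → ℝ) → ℝ, ∀ s, h1 s = -b1 s := ⟨_, fun s => rfl⟩
  have hc1 : Continuous h1 := by
    have : h1 = fun s => -b1 s := funext hh1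
    rw [this]
    exact hb1.neg
  obtain ⟨Q1, hQ10, hQ1ν, hQ1⟩ := L.step nr hpos (flip Q) (flip_ne_zero Q hQ0) _
    ((flip_ν (wm nr n) Q).trans hQν) Nat.one_le_two_pow h1 hc1 (fun s => by
      rw [flip_eval, hh1, neg_neg]
      exact hQ s)
  refine ⟨flip Q1, flip_ne_zero Q1 hQ10, (flip_ν nr Q1).trans
    (hQ1ν.trans (bndL_le n _ _ (le_refl _))), fun t => -bmax h1 t,
    (continuous_bmax hc1).neg, fun t => ?_, fun t => ?_⟩
  · rw [flip_eval, neg_neg]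
    exact hQ1 t
  · constructor
    · rintro ⟨x, hx, hY⟩
      have e1 := le_bmax hc1 t hx
      rw [hh1] at e1
      obtain ⟨Y, hYc, hY2⟩ := hb3 (t, x)
      obtain ⟨U, hU, hU2⟩ := hY Y hYc
      have := hY2 U hU
      linarith
    · intro hbt
      obtain ⟨x, hx, hx2⟩ := exists_bmax hc1 t
      rw [hh1] at hx2
      refine ⟨x, hx, fun Y hY => ?_⟩
      obtain ⟨U, hU, hU2⟩ := hb2 (t, x) Y hY
      exact ⟨U, hU, by linarith⟩

theorem eq_zero_of_pow {a : ℝ} {r : ℕ} (h : a ^ r = 0) : a = 0 := by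
  by_contra hne
  exact pow_ne_zero r hne h

/-- The sign is constant where the trailing coefficient does not vanish. -/
theorem sign_const (L : Lvl K T) (nr : RNorm K) (Q : Polynomial K) (hQ : Q ≠ 0) (b : T → ℝ)
    (hb : Continuous b) (hrel : ∀ t, Q.eval₂ (L.φ t) (b t) = 0) :
    ∃ c : K, c ≠ 0 ∧ nr.ν c ≤ nr.poly.ν Q ∧ ∀ C : Set T, IsPreconnected C →
      (∀ t ∈ C, L.φ t c ≠ 0) →
      (∀ t ∈ C, b t < 0) ∨ (∀ t ∈ C, b t = 0) ∨ (∀ t ∈ C, 0 < b t) := by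
  obtain ⟨r, P', hfac, hc0, hcr⟩ := exists_trailing Q hQ
  refine ⟨P'.coeff 0, hc0, by rw [hcr]; exact nr.ν_coeff_le Q r, fun C hC hne => ?_⟩
  have hz2 : IsClosed {t | P'.eval₂ (L.φ t) (b t) = 0} :=
    isClosed_eq (L.cont_eval P' hb) continuous_const
  have hz1 : IsClosed {t | b t = 0} := isClosed_eq hb continuous_const
  have hcov : C ⊆ {t | b t = 0} ∪ {t | P'.eval₂ (L.φ t) (b t) = 0} := by
    intro t _
    have h1 := hrel t
    rw [hfac, Polynomial.eval₂_mul, Polynomial.eval₂_pow, Polynomial.eval₂_X] at h1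
    rcases mul_eq_zero.1 h1 with h2 | h2
    · exact Or.inl (eq_zero_of_pow h2)
    · exact Or.inr h2
  by_cases hA : (C ∩ {t | b t = 0}).Nonempty
  · by_cases hB : (C ∩ {t | P'.eval₂ (L.φ t) (b t) = 0}).Nonempty
    · obtain ⟨t, ht, ht1, ht2⟩ := (isPreconnected_closed_iff.1 hC) _ _ hz1 hz2 hcov hA hB
      exfalso
      apply hne t ht
      simp only [Set.mem_ofPred_eq] at ht1 ht2
      rw [ht1, Polynomial.eval₂_at_zero] at ht2
      exact ht2
    · right; left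
      intro t ht
      rcases hcov ht with h1 | h1
      · exact h1
      · exact absurd ⟨t, ht, h1⟩ hB
  · have hpc := hC.image b hb.continuousOn
    have hord := hpc.ordConnected
    by_cases hneg : ∃ t ∈ C, b t < 0
    · left
      obtain ⟨t0, ht0, hb0⟩ := hneg
      intro t ht
      by_contra hcon
      rw [not_lt] at hcon
      have h0 : (0 : ℝ) ∈ b '' C := hord.out ⟨t0, ht0, rfl⟩ ⟨t, ht, rfl⟩ ⟨hb0.le, hcon⟩
      obtain ⟨t1, ht1, hb1⟩ := h0
      exact hA ⟨t1, ht1, hb1⟩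
    · right; right
      intro t ht
      by_contra hcon
      rw [not_lt] at hcon
      rcases eq_or_lt_of_le hcon with h1 | h1
      · exact hA ⟨t, ht, h1⟩
      · exact hneg ⟨t, ht, h1⟩

/-- One parameter, integer coefficients. -/
theorem sign_const_int (Q : Polynomial (MvPolynomial (Fin 1) ℤ)) (hQ : Q ≠ 0) (B : ℕ)
    (hB : (wm RNorm.int 1).poly.ν Q ≤ B) (b : ℝ → ℝ) (hb : Continuous b)
    (hrel : ∀ s : ℝ, Q.eval₂ ((Lvl.int.ext 1).φ ((), fun _ => s)) (b s) = 0) :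
    (∀ s : ℝ, 0 < s → B * s < 1 → b s < 0) ∨ (∀ s : ℝ, 0 < s → B * s < 1 → b s = 0) ∨
      (∀ s : ℝ, 0 < s → B * s < 1 → 0 < b s) := by
  obtain ⟨c, hc0, hcν, hc⟩ := sign_const (Lvl.int.ext 1) (wm RNorm.int 1) Q hQ (fun s => b (s.2 0))
    (hb.comp (by fun_prop)) (fun s => by
      have h := hrel (s.2 0)
      have e : s = ((), fun _ => s.2 0) := by
        obtain ⟨u, v⟩ := s
        refine Prod.ext rfl ?_
        funext j
        rw [Subsingleton.elim j 0]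
      conv_lhs => rw [e]
      exact h)
  have hB1 : 1 ≤ B := (wm_pos RNorm.int int_pos _ hc0).trans (hcν.trans hB)
  have hB0 : (0 : ℝ) < B := by exact_mod_cast hB1
  have hB1' : (1 : ℝ) ≤ B := by exact_mod_cast hB1
  have hpc : IsPreconnected ((fun s : ℝ => (((), fun _ => s) : Unit × (Fin 1 → ℝ))) ''
      Set.Ioo 0 (1 / (B : ℝ))) :=
    isPreconnected_Ioo.image _ (Continuous.continuousOn (by fun_prop))
  have key := hc _ hpc (by
    rintro _ ⟨s, hs, rfl⟩ h0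
    have h1 : s * B < 1 := (lt_div_iff₀ hB0).1 hs.2
    have h2 := root_bound (uni c) (uni_ne_zero hc0) B ((uni_ν RNorm.int _).trans (hcν.trans hB)) s
      hs.1 (by nlinarith [hs.1]) (by
        rw [uni_eval]
        exact h0)
    linarith)
  have hmem : ∀ s : ℝ, 0 < s → B * s < 1 → (((), fun _ => s) : Unit × (Fin 1 → ℝ)) ∈
      (fun s : ℝ => (((), fun _ => s) : Unit × (Fin 1 → ℝ))) '' Set.Ioo 0 (1 / (B : ℝ)) := by
    intro s h0 h1
    refine ⟨s, ⟨h0, ?_⟩, rfl⟩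
    rw [lt_div_iff₀ hB0]
    linarith
  rcases key with h | h | h
  · exact Or.inl fun s h0 h1 => h _ (hmem s h0 h1)
  · exact Or.inr (Or.inl fun s h0 h1 => h _ (hmem s h0 h1))
  · exact Or.inr (Or.inr fun s h0 h1 => h _ (hmem s h0 h1))

end Pool.Agent.K9h83.IP
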