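import Pool.Agent.K9h83.IP.Comp

/-!
# Soundness
-/

set_option autoImplicit false

namespace Pool.Agent.K9h83.IP

open Finset Filter Topology Pool.Agent.R537.RN
open Pool.Agent.NPC Pool.Agent.NPC.ER Pool.Agent.NPC.H612
open Pool.Agent.NPC.R537HD (asg semi)

variable (p : InpE)

theorem coB_lin (h : ℝ) (Y : Fin (el p + 1) → ℝ) (r : ℕ) :
    coB p h Y r = h * (if r = 0 then 1 else acB p 0 Y r) := by
  unfold coB
  by_cases hr : r = 0
  · rw [if_pos hr, if_pos hr, mul_one]
  · rw [if_neg hr, if_neg hr]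
    congr 1
    unfold acB
    rw [if_neg hr, if_neg hr]

theorem bs_eq : bs p = bb p (en p + 1) + bm p := by
  unfold bs bb
  ring

theorem bb_le {j r : ℕ} (hj : j < en p + 1) (hr : r < bm p) : bb p j + r < bb p (en p + 1) := by
  unfold bb
  have h1 : (j + 1) * bm p ≤ (en p + 1) * bm p := Nat.mul_le_mul_right _ (by omega)
  have h2 : (j + 1) * bm p = j * bm p + bm p := by ring
  omega

/-- Changing the block of the cone. -/
theorem semF_congr {v w : ℕ → ℝ} (hv : SemF p v)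
    (h1 : ∀ i < bb p (en p + 1), w i = v i) (h2 : ∀ j ≤ x3 p, w (bs p + j) = v (bs p + j))
    (h3 : (∀ r < bm p, w (bb p (en p + 1) + r) = 0) ∨
      ∃ h Y, 0 < h ∧ Y ∈ box (el p) ∧ gq p (CC p v) (XX p v) Y ≤ 0 ∧
        ∀ r < bm p, w (bb p (en p + 1) + r) = coB p h Y r) : SemF p w := by
  have hb := bb_ge p (en p + 1)
  have hX : XX p w = XX p v := by
    funext a
    exact h1 _ (by have := a.2; omega)
  have hC : CC p w = CC p v := by
    funext a
    exact h1 _ (by have := a.2; omega)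
  have hbb : ∀ j < en p + 1, ∀ r < bm p, w (bb p j + r) = v (bb p j + r) := fun j hj r hr =>
    h1 _ (bb_le p hj hr)
  have hbb0 : ∀ j < en p + 1, w (bb p j) = v (bb p j) := fun j hj => by
    have := hbb j hj 0 (bm_pos p)
    simpa using this
  have hY : ∀ j < en p + 1, YY p w (bb p j) = YY p v (bb p j) := by
    intro j hj
    funext b
    refine Fin.cases ?_ (fun b => ?_) b
    · simp only [YY, Fin.cons_zero]
      exact hbb j hj 1 (by unfold bm; omega)
    · simp only [YY, Fin.cons_succ]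
      have := hbb j hj (1 + (ek p + 1) + b) (by have := b.2; unfold bm; omega)
      rw [show bb p j + 1 + (ek p + 1) + b = bb p j + (1 + (ek p + 1) + b) by ring]
      exact this
  obtain ⟨q1, q2, q3, q4, q5, q6⟩ := hv
  refine ⟨fun a ha => ?_, fun j hj => ?_, fun j hj => ?_, ?_, fun a => ?_, ?_⟩
  · rw [h1 a (by omega)]; exact q1 a ha
  · rw [h2 j hj]; exact q2 j hj
  · rw [hX, hY j hj, hbb0 j hj, h1 (2 * en p) (by omega)]
    rcases q3 j hj with h | ⟨g1, g2, g3, g4⟩
    · left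
      intro r hr
      rw [hbb j hj r hr]; exact h r hr
    · right
      refine ⟨g1, g2, fun r hr => ?_, g4⟩
      rw [hbb j hj r hr]; exact g3 r hr
  · rw [← q4]
    exact Finset.sum_congr rfl fun j hj => hbb0 j (Finset.mem_range.1 hj)
  · rw [hX, hC, ← q5 a]
    congr 2
    refine Finset.sum_congr rfl fun j hj => ?_
    rw [hbb0 j (Finset.mem_range.1 hj), hY j (Finset.mem_range.1 hj)]
  · rw [hX, hC]
    exact h3

/-- **Soundness.** -/
theorem sent_of_isoAt (c : Fin (en p) → ℝ) (h : IsoAt (en p) (d1 p) (F1 p) c) :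
    Sent2 (locE p) (eS p) := by
  by_contra hno
  obtain ⟨P, hP, hPc, ε, hε, hiso⟩ := h
  obtain ⟨v, hv⟩ : ∃ v, v = asg P := ⟨_, rfl⟩
  have hs : SemF p v := by
    rw [hv]
    exact (holds_F1 p _).1 hP
  have hb := bb_ge p (en p + 1)
  have hbs := bs_eq p
  have hd : bs p < d1 p := by unfold d1; omega
  have hc : ∀ a, |CC p v a| ≤ 1 := fun a => R537HD.sq_le_one_iff'.1 (hs.bd a a.2)
  obtain ⟨h0, Y, hh0, hY, hg, hblk⟩ : ∃ h0 Y, 0 ≤ h0 ∧ Y ∈ box (el p) ∧
      gq p (CC p v) (XX p v) Y ≤ 0 ∧ ∀ r < bm p, v (bb p (en p + 1) + r) = coB p h0 Y r := by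
    rcases hs.cn with h1 | ⟨h', Y, a1, a2, a3, a4⟩
    · obtain ⟨Y, hY, hg⟩ := gp_neg (locE p) (eS p) hno (CC p v) hc (XX p v)
      refine ⟨0, Y, le_refl _, hY, hg.le, fun r hr => ?_⟩
      rw [h1 r hr, coB_lin, zero_mul]
    · exact ⟨h', Y, a1.le, a2, a3, a4⟩
  obtain ⟨w, hw⟩ : ∃ w : ℝ → ℕ → ℝ, ∀ s i, w s i =
      if bb p (en p + 1) ≤ i ∧ i < bb p (en p + 1) + bm p then
        coB p (h0 + s) Y (i - bb p (en p + 1)) else v i := ⟨_, fun s i => rfl⟩
  obtain ⟨Q, hQ⟩ : ∃ Q : ℝ → EuclideanSpace ℝ (Fin (d1 p)),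
    ∀ s, Q s = WithLp.toLp 2 (fun j : Fin (d1 p) => w s j) := ⟨_, fun s => rfl⟩
  have hQw : ∀ s, ∀ i < d1 p, asg (Q s) i = w s i := by
    intro s i hi
    rw [hQ, asg_toLp (w s) hi]
  have hwb : ∀ s, ∀ r < bm p, w s (bb p (en p + 1) + r) = coB p (h0 + s) Y r := by
    intro s r hr
    rw [hw, if_pos ⟨by omega, by omega⟩]
    congr 1
    omega
  have hw1 : ∀ s, ∀ i < bb p (en p + 1), w s i = v i := by
    intro s i hi
    rw [hw, if_neg (by omega)]
  have hw2 : ∀ s, ∀ j, w s (bs p + j) = v (bs p + j) := by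
    intro s j
    rw [hw, if_neg (by omega)]
  have hmem : ∀ s, 0 < s → Q s ∈ semi (d1 p) (F1 p) := by
    intro s hs0
    change (F1 p).Holds (asg (Q s))
    rw [holds_F1]
    refine semF_congr p hs (fun i hi => ?_) (fun j hj => ?_) (Or.inr ⟨h0 + s, Y, by linarith, hY,
      hg, fun r hr => ?_⟩)
    · rw [hQw s i (by omega), hw1 s i hi]
    · rw [hQw s _ (bs_lt p hj), hw2]
    · rw [hQw s _ (by omega), hwb s r hr]
  have hQ0 : Q 0 = P := by
    refine eq_of_asg fun i hi => ?_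
    rw [hQw 0 i hi, hw]
    split_ifs with h1
    · have h2 := hblk (i - bb p (en p + 1)) (by omega)
      rw [show bb p (en p + 1) + (i - bb p (en p + 1)) = i by omega] at h2
      rw [add_zero, ← h2, hv]
    · rw [hv]
  have hQc : Continuous Q := by
    have h1 : Q = fun s => WithLp.toLp 2 (fun j : Fin (d1 p) => w s j) := funext hQ
    rw [h1]
    refine (PiLp.continuous_toLp 2 _).comp (continuous_pi fun j => ?_)
    simp only [hw]
    split_ifs with h2
    · simp only [coB_lin]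
      fun_prop
    · exact continuous_const
  have hlim : ∀ᶠ s in 𝓝 (0 : ℝ), dist (Q s) P < ε := by
    have h1 := hQc.tendsto 0
    rw [hQ0] at h1
    exact h1.eventually (Metric.ball_mem_nhds P hε)
  obtain ⟨η, hη, hη2⟩ := Metric.eventually_nhds_iff.1 hlim
  have h1 := hη2 (y := η / 2) (by rw [Real.dist_eq, sub_zero, abs_of_pos (by linarith)]; linarith)
  have h2 := hiso (Q (η / 2)) (hmem _ (by linarith)) h1 (fun a => by
    rw [hQw _ _ (by have := a.2; omega), hw1 _ _ (by have := a.2; omega), hv])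
  have h3 : asg (Q (η / 2)) (bb p (en p + 1)) = v (bb p (en p + 1)) := by rw [h2, hv]
  have h4 := hwb (η / 2) 0 (bm_pos p)
  have h5 := hblk 0 (bm_pos p)
  rw [coB_zero, add_zero] at h4 h5
  rw [hQw _ _ (by omega), h4, h5] at h3
  linarith

end Pool.Agent.K9h83.IP
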