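import Pool.Agent.K9h83.IP.Gen
import Pool.Agent.K9h83.IP.Reg
import Pool.Agent.K9h83.IP.Dan
import Pool.Agent.K9h83.IP.Gap

/-!
# Stationary configurations
-/

set_option autoImplicit false

namespace Pool.Agent.K9h83.IP

open Finset Filter Topology Pool.Agent.H612 Pool.Agent.R537.RN Pool.Agent.NPC

variable {n l : ℕ} (loc : ℕ → Fin n ⊕ Fin l) (S : List ER.Con) (K : ℕ)

/-- A stationary configuration. -/
def Stat (τ ζ δ : ℝ) (c : Fin n → ℝ) {J : Type} [Fintype J] (x : Fin n → ℝ) (lam : J → ℝ)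
    (Y : J → Fin (l + 1) → ℝ) : Prop :=
  (∀ j, eqT loc S K τ x (Y j) = 0) ∧ (∀ j b, eqZ loc S τ ζ x (Y j) b = 0) ∧
    (∀ j j', val loc S K τ ζ x (Y j) = val loc S K τ ζ x (Y j')) ∧ ∑ j, lam j = 1 ∧
    ∀ a, ∑ j, lam j * gx loc S τ x (Y j) a - 2 * δ * x a + ζ * c a = 0

section cont

variable {X : Type} [TopologicalSpace X]

theorem continuous_cerr {V : X → ℕ → ℝ} {w : X → ℝ} (hV : ∀ i, Continuous fun s => V s i)
    (hw : Continuous w) (c : ER.Con) : Continuous fun s => cerr (V s) (w s) c := by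
  cases c with
  | one i => exact hw.mul ((hV i).sub hw)
  | add i j k => exact hw.mul (((hV i).add (hV j)).sub (hV k))
  | mul i j k => exact ((hV i).mul (hV j)).sub (hw.mul (hV k))

theorem continuous_dcerr {V : X → ℕ → ℝ} {w : X → ℝ} {V' : X → ℕ → ℝ} {w' : X → ℝ}
    (hV : ∀ i, Continuous fun s => V s i)
    (hw : Continuous w) (hV' : ∀ i, Continuous fun s => V' s i) (hw' : Continuous w')
    (c : ER.Con) : Continuous fun s => dcerr (V s) (w s) (V' s) (w' s) c := by
  cases c with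
  | one i =>
    exact (hw'.mul ((hV i).sub hw)).add (hw.mul ((hV' i).sub hw'))
  | add i j k =>
    exact (hw'.mul (((hV i).add (hV j)).sub (hV k))).add
      (hw.mul (((hV' i).add (hV' j)).sub (hV' k)))
  | mul i j k =>
    exact (((hV' i).mul (hV j)).add ((hV i).mul (hV' j))).sub
      ((hw'.mul (hV k)).add (hw.mul (hV' k)))

theorem continuous_qsum {V : X → ℕ → ℝ} {w : X → ℝ} (hV : ∀ i, Continuous fun s => V s i)
    (hw : Continuous w) (S : List ER.Con) : Continuous fun s => qsum (V s) (w s) S := by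
  induction S with
  | nil => simpa using continuous_const
  | cons c S ih =>
    simp only [qsum_cons]
    exact ((continuous_cerr hV hw c).pow 2).add ih

theorem continuous_dqsum {V : X → ℕ → ℝ} {w : X → ℝ} {V' : X → ℕ → ℝ} {w' : X → ℝ}
    (hV : ∀ i, Continuous fun s => V s i)
    (hw : Continuous w) (hV' : ∀ i, Continuous fun s => V' s i) (hw' : Continuous w')
    (S : List ER.Con) : Continuous fun s => dqsum (V s) (w s) (V' s) (w' s) S := by
  induction S with
  | nil => simpa using continuous_const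
  | cons c S ih =>
    simp only [dqsum_cons]
    exact (continuous_const.mul ((continuous_cerr hV hw c).mul
      (continuous_dcerr hV hw hV' hw' c))).add ih

variable {x : X → Fin n → ℝ} {Y : X → Fin (l + 1) → ℝ} (hx : Continuous x) (hY : Continuous Y)
  (τ ζ : ℝ)

include hx hY in
theorem continuous_Vv (i : ℕ) : Continuous fun s => Vv loc τ (x s) (Y s) i := by
  unfold Vv
  rcases loc i with j | j
  · simp only [Sum.elim_inl]; fun_prop
  · simp only [Sum.elim_inr]; fun_prop

include hx hY in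
theorem continuous_qh : Continuous fun s => qh loc S τ (x s) (Y s) :=
  continuous_qsum (continuous_Vv loc hx hY τ) (by fun_prop) S

include hx hY in
theorem continuous_gx (a : Fin n) : Continuous fun s => gx loc S τ (x s) (Y s) a := by
  refine continuous_dqsum (continuous_Vv loc hx hY τ) (by fun_prop) (fun i => ?_)
    continuous_const S
  rcases loc i with j | j
  · simp only [Sum.elim_inl]
    split_ifs <;> fun_prop
  · simp only [Sum.elim_inr]; fun_prop

include hx hY in
theorem continuous_val : Continuous fun s => val loc S K τ ζ (x s) (Y s) := by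
  unfold val
  have := continuous_qh loc S hx hY τ
  fun_prop

end cont

/-- A generic stationary configuration is isolated. -/
theorem stat_isolated (hK : 7 ≤ K) (τ ζ δ : ℚ) (hτ : τ ≠ 0) (hζ : ζ ≠ 0) (c : Fin n → ℝ)
    (hc : AlgebraicIndependent ℚ c) {J : Type} [Fintype J] (x : Fin n → ℝ) (lam : J → ℝ)
    (Y : J → Fin (l + 1) → ℝ) (haff : AffineIndependent ℝ fun j => gx loc S (τ : ℝ) x (Y j)) :
    ∀ᶠ q : (Fin n → ℝ) × (J → ℝ) × (J → Fin (l + 1) → ℝ) in 𝓝 (x, lam, Y),
      Stat loc S K τ ζ δ c q.1 q.2.1 q.2.2 → q = (x, lam, Y) := by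
  classical
  obtain ⟨P, hP⟩ : ∃ P : MvPolynomial (Fin n ⊕ (J ⊕ (J × Fin (l + 1)))) ℝ, P =
      ∑ j : J, (eqT loc S K (MvPolynomial.C (τ : ℝ)) (fun a => MvPolynomial.X (Sum.inl a))
        (fun b => MvPolynomial.X (Sum.inr (Sum.inr (j, b))))) ^ 2 +
      ∑ j : J, ∑ b : Fin l, (eqZ loc S (MvPolynomial.C (τ : ℝ)) (MvPolynomial.C (ζ : ℝ))
        (fun a => MvPolynomial.X (Sum.inl a))
        (fun b => MvPolynomial.X (Sum.inr (Sum.inr (j, b)))) b) ^ 2 +
      ∑ j : J, ∑ j' : J, (val loc S K (MvPolynomial.C (τ : ℝ)) (MvPolynomial.C (ζ : ℝ))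
        (fun a => MvPolynomial.X (Sum.inl a))
        (fun b => MvPolynomial.X (Sum.inr (Sum.inr (j, b)))) -
        val loc S K (MvPolynomial.C (τ : ℝ)) (MvPolynomial.C (ζ : ℝ))
        (fun a => MvPolynomial.X (Sum.inl a))
        (fun b => MvPolynomial.X (Sum.inr (Sum.inr (j', b))))) ^ 2 +
      (∑ j : J, MvPolynomial.X (Sum.inr (Sum.inl j)) - 1) ^ 2 +
      ∑ a : Fin n, (∑ j : J, MvPolynomial.X (Sum.inr (Sum.inl j)) *
        gx loc S (MvPolynomial.C (τ : ℝ)) (fun a => MvPolynomial.X (Sum.inl a))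
        (fun b => MvPolynomial.X (Sum.inr (Sum.inr (j, b)))) a -
        2 * MvPolynomial.C (δ : ℝ) * MvPolynomial.X (Sum.inl a) +
        MvPolynomial.C (ζ : ℝ) * MvPolynomial.C (c a)) ^ 2 := ⟨_, rfl⟩
  have hev : ∀ z : Fin n ⊕ (J ⊕ (J × Fin (l + 1))) → ℝ, MvPolynomial.eval z P =
      ∑ j : J, (eqT loc S K (τ : ℝ) (fun a => z (Sum.inl a))
        (fun b => z (Sum.inr (Sum.inr (j, b))))) ^ 2 +
      ∑ j : J, ∑ b : Fin l, (eqZ loc S (τ : ℝ) (ζ : ℝ)
        (fun a => z (Sum.inl a)) (fun b => z (Sum.inr (Sum.inr (j, b)))) b) ^ 2 +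
      ∑ j : J, ∑ j' : J, (val loc S K (τ : ℝ) (ζ : ℝ)
        (fun a => z (Sum.inl a)) (fun b => z (Sum.inr (Sum.inr (j, b)))) -
        val loc S K (τ : ℝ) (ζ : ℝ) (fun a => z (Sum.inl a))
        (fun b => z (Sum.inr (Sum.inr (j', b))))) ^ 2 +
      (∑ j : J, z (Sum.inr (Sum.inl j)) - 1) ^ 2 +
      ∑ a : Fin n, (∑ j : J, z (Sum.inr (Sum.inl j)) *
        gx loc S (τ : ℝ) (fun a => z (Sum.inl a)) (fun b => z (Sum.inr (Sum.inr (j, b)))) a -
        2 * (δ : ℝ) * z (Sum.inl a) + (ζ : ℝ) * c a) ^ 2 := by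
    intro z
    rw [hP]
    simp only [map_add, map_sub, map_mul, map_pow, map_sum, map_one, map_ofNat, eqT_map, eqZ_map,
      val_map, gx_map, MvPolynomial.eval_C, MvPolynomial.eval_X]
  have hiff : ∀ z : Fin n ⊕ (J ⊕ (J × Fin (l + 1))) → ℝ, MvPolynomial.eval z P = 0 ↔
      Stat loc S K τ ζ δ c (fun a => z (Sum.inl a)) (fun j => z (Sum.inr (Sum.inl j)))
        (fun j b => z (Sum.inr (Sum.inr (j, b)))) := by
    intro z
    rw [hev]
    unfold Stat
    have p1 : ∀ {α : Type} (s : Finset α) (f : α → ℝ), 0 ≤ ∑ j ∈ s, f j ^ 2 := fun s f =>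
      Finset.sum_nonneg fun _ _ => sq_nonneg _
    have p2 : ∀ {α β : Type} (s : Finset α) (t : Finset β) (f : α → β → ℝ),
        0 ≤ ∑ j ∈ s, ∑ k ∈ t, f j k ^ 2 := fun s t f =>
      Finset.sum_nonneg fun _ _ => Finset.sum_nonneg fun _ _ => sq_nonneg _
    rw [add_eq_zero_iff_of_nonneg (by
        refine add_nonneg (add_nonneg (add_nonneg (p1 _ _) (p2 _ _ _)) (p2 _ _ _)) (sq_nonneg _))
        (p1 _ _),
      add_eq_zero_iff_of_nonneg (add_nonneg (add_nonneg (p1 _ _) (p2 _ _ _)) (p2 _ _ _))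
        (sq_nonneg _),
      add_eq_zero_iff_of_nonneg (add_nonneg (p1 _ _) (p2 _ _ _)) (p2 _ _ _),
      add_eq_zero_iff_of_nonneg (p1 _ _) (p2 _ _ _),
      Finset.sum_eq_zero_iff_of_nonneg (fun _ _ => sq_nonneg _),
      Finset.sum_eq_zero_iff_of_nonneg (fun _ _ => p1 _ _),
      Finset.sum_eq_zero_iff_of_nonneg (fun _ _ => p1 _ _),
      Finset.sum_eq_zero_iff_of_nonneg (fun _ _ => sq_nonneg _)]
    simp only [mem_univ, true_implies, pow_eq_zero_iff (two_ne_zero)]
    have q1 : ∀ (f : J → Fin l → ℝ), (∀ j, ∑ b, f j b ^ 2 = 0) ↔ ∀ j b, f j b = 0 := by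
      intro f
      refine forall_congr' fun j => ?_
      rw [Finset.sum_eq_zero_iff_of_nonneg (fun _ _ => sq_nonneg _)]
      simp
    have q2 : ∀ (f : J → J → ℝ), (∀ j, ∑ b, f j b ^ 2 = 0) ↔ ∀ j b, f j b = 0 := by
      intro f
      refine forall_congr' fun j => ?_
      rw [Finset.sum_eq_zero_iff_of_nonneg (fun _ _ => sq_nonneg _)]
      simp
    rw [q1, q2]
    simp only [sub_eq_zero]
    tauto
  have hP0 : ∀ z, 0 ≤ MvPolynomial.eval z P := by
    intro z
    rw [hev]
    positivity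
  obtain ⟨pk, hpk⟩ : ∃ pk : (Fin n → ℝ) × (J → ℝ) × (J → Fin (l + 1) → ℝ) →
      (Fin n ⊕ (J ⊕ (J × Fin (l + 1))) → ℝ), ∀ q, pk q =
        Sum.elim q.1 (Sum.elim q.2.1 fun r => q.2.2 r.1 r.2) := ⟨_, fun q => rfl⟩
  have hpkc : Continuous pk := by
    refine continuous_pi fun i => ?_
    simp only [hpk]
    rcases i with i | i | i
    · simp only [Sum.elim_inl]; fun_prop
    · simp only [Sum.elim_inl, Sum.elim_inr]; fun_prop
    · simp only [Sum.elim_inr]; fun_prop
  have hmain := isolated_of_countable' P (pk (x, lam, Y)) hP0 (by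
    refine ⟨{z | AffineIndependent ℝ fun j => gx loc S (τ : ℝ) (fun a => z (Sum.inl a))
        (fun b => z (Sum.inr (Sum.inr (j, b))))}, ?_, ?_⟩
    · have hcont : Continuous fun z : Fin n ⊕ (J ⊕ (J × Fin (l + 1))) → ℝ =>
          fun j a => gx loc S (τ : ℝ) (fun a => z (Sum.inl a))
            (fun b => z (Sum.inr (Sum.inr (j, b)))) a :=
        continuous_pi fun j => continuous_pi fun a => continuous_gx loc S (by fun_prop)
          (by fun_prop) _ a
      have hopen := (isOpen_setOfPred_affineIndependent (𝕜 := ℝ) (E := Fin n → ℝ)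
        (ι := J)).preimage hcont
      refine hopen.mem_nhds ?_
      rw [hpk]
      exact haff
    · have hA := countable_algebraic c
      refine (Set.countable_pi (s := fun _ : Fin n ⊕ (J ⊕ (J × Fin (l + 1))) =>
        {u : ℝ | IsAlgebraic (Algebra.adjoin ℚ (Set.range c)) u}) fun _ => hA).mono ?_
      rintro z ⟨hz1, hz2⟩
      rw [hiff] at hz2
      obtain ⟨s1, s2, s3, s4, s5⟩ := hz2
      have hne : Nonempty J := by
        by_contra hem
        rw [not_nonempty_iff] at hem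
        rw [Finset.univ_eq_empty, Finset.sum_empty] at s4
        exact zero_ne_one s4
      obtain ⟨j0⟩ := hne
      obtain ⟨g1, g2, g3⟩ := gen loc S K hK τ ζ δ hτ hζ c hc _ _ _ _ s1 s2 (fun j => s3 j j0) s4 s5
        hz1
      intro i
      rcases i with i | i | i
      · exact g1 i
      · exact g2 i
      · exact g3 i.1 i.2)
  have h1 := (hpkc.tendsto (x, lam, Y)).eventually hmain
  filter_upwards [h1] with q hq hs
  have h2 := hq ((hiff _).2 (by rw [hpk]; exact hs))
  have e1 : q.1 = x := by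
    funext a
    have := congrFun h2 (Sum.inl a)
    simpa [hpk] using this
  have e2 : q.2.1 = lam := by
    funext a
    have := congrFun h2 (Sum.inr (Sum.inl a))
    simpa [hpk] using this
  have e3 : q.2.2 = Y := by
    funext j b
    have := congrFun h2 (Sum.inr (Sum.inr (j, b)))
    simpa [hpk] using this
  exact Prod.ext e1 (Prod.ext e2 e3)

end Pool.Agent.K9h83.IP
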