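import Pool.Agent.K9h83.IP.Sgn

/-!
# Transfer from generic to special parameters
-/

set_option autoImplicit false

namespace Pool.Agent.K9h83.IP

open Finset Filter Topology Pool.Agent.H612 Pool.Agent.R537.RN Pool.Agent.NPC

section

variable {n₀ n₁ m l : ℕ} (loc : ℕ → Fin (n₀ + n₁) ⊕ (Fin m ⊕ Fin l)) (S : List ER.Con)

/-- The sentence with parameters. -/
def SentC (c : Fin n₀ → ℝ) : Prop := ∃ p : Fin n₁ → ℝ, ∀ y : Fin m → ℝ, ∃ z : Fin l → ℝ,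
  ER.SysHolds (pick loc (Fin.append c p) y z) S

/-- Its compact form. -/
def GoodC (c : Fin n₀ → ℝ) (σ : ℝ) : Prop := ∃ p ∈ cube n₁, ∀ Y ∈ cube (m + 2), ∃ U ∈ cube (l + 1),
  Phi loc S σ ((Y 0) ^ 2) (Y 1) ((U 0) ^ 2) (((U 0) ^ 2) ^ (2 ^ kap l S.length))
    (((Y 0) ^ 2) ^ (2 ^ kap' m l S.length)) (Fin.append (fun j => σ * c j) p)
    (fun j => Y j.succ.succ) (fun j => U j.succ) ≤ 0

theorem append_mul (σ : ℝ) (c : Fin n₀ → ℝ) (p : Fin n₁ → ℝ) :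
    Fin.append (fun j => σ * c j) (fun j => σ * p j) = fun j => σ * Fin.append c p j := by
  funext j
  refine Fin.addCases (fun j => ?_) (fun j => ?_) j
  · rw [Fin.append_left, Fin.append_left]
  · rw [Fin.append_right, Fin.append_right]

theorem goodC_of_sentC (c : Fin n₀ → ℝ) (h : SentC loc S c) :
    ∃ σ₀ : ℝ, 0 < σ₀ ∧ ∀ σ, 0 < σ → σ ≤ σ₀ → GoodC loc S c σ := by
  obtain ⟨p, hp⟩ := h
  obtain ⟨c0, hc0, hc⟩ := L2 loc S (Fin.append c p) hp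
  obtain ⟨t, ht0, ht1, htx, -⟩ := exists_scale p 0
  refine ⟨min c0 t, lt_min hc0 ht0, fun σ hσ0 hσ => ⟨fun j => σ * p j, ?_, ?_⟩⟩
  · intro j
    have h1 := (htx j).le
    rw [abs_mul, abs_of_pos ht0] at h1
    rw [abs_mul, abs_of_pos hσ0]
    exact (mul_le_mul_of_nonneg_right (hσ.trans (min_le_right _ _)) (abs_nonneg _)).trans h1
  · intro Y hY
    have hr0 : 0 ≤ (Y 0) ^ 2 := sq_nonneg _
    have hr1 : (Y 0) ^ 2 ≤ 1 := by
      have := hY 0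
      rw [← sq_abs]
      nlinarith [abs_nonneg (Y 0)]
    obtain ⟨U, hU, hPhi⟩ := hc ((Y 0) ^ 2) hr0 hr1 (fun j => Y j.succ) (fun j => hY j.succ)
    refine ⟨U, hU, ?_⟩
    rw [append_mul, Phi_scale]
    have h1 : Phi loc S 1 (Y 0 ^ 2) (Y 1) (U 0 ^ 2) ((U 0 ^ 2) ^ 2 ^ kap l S.length)
        (σ * (Y 0 ^ 2) ^ 2 ^ kap' m l S.length) (Fin.append c p) (fun j => Y j.succ.succ)
        (fun j => U j.succ) = Phi loc S 1 (Y 0 ^ 2) (Y 1) (U 0 ^ 2)
        ((U 0 ^ 2) ^ 2 ^ kap l S.length) 0 (Fin.append c p) (fun j => Y j.succ.succ)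
        (fun j => U j.succ) + σ * (Y 0 ^ 2) ^ 2 ^ kap' m l S.length := by
      simp only [Phi]; ring
    rw [h1]
    have h2 : σ * (Y 0 ^ 2) ^ 2 ^ kap' m l S.length ≤
        c0 * (Y 0 ^ 2) ^ 2 ^ kap' m l S.length :=
      mul_le_mul_of_nonneg_right (hσ.trans (min_le_left _ _)) (by positivity)
    have h3 : Phi loc S 1 (Y 0 ^ 2) (Y 1) (U 0 ^ 2)
        ((U 0 ^ 2) ^ 2 ^ kap l S.length) 0 (Fin.append c p) (fun j => Y j.succ.succ)
        (fun j => U j.succ) ≤ -(c0 * (Y 0 ^ 2) ^ 2 ^ kap' m l S.length) := hPhi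
    have h4 : 0 ≤ σ ^ 4 := by positivity
    nlinarith

theorem all_of_good {n : ℕ} (loc : ℕ → Fin n ⊕ (Fin m ⊕ Fin l)) {σ : ℝ} (h0 : 0 < σ)
    (x : Fin n → ℝ)
    (h : ∀ Y ∈ ocube (m + 2), ∃ U ∈ cube (l + 1),
      Phi loc S σ ((Y 0) ^ 2) (Y 1) ((U 0) ^ 2) (((U 0) ^ 2) ^ (2 ^ kap l S.length))
        (((Y 0) ^ 2) ^ (2 ^ kap' m l S.length)) x (fun j => Y j.succ.succ)
        (fun j => U j.succ) ≤ 0) (y : Fin m → ℝ) :
    ∃ z : Fin l → ℝ, ER.SysHolds (pick loc (fun j => σ⁻¹ * x j) y z) S := by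
  by_contra hno
  obtain ⟨c, hc0, hc⟩ := L1 loc S (fun j => σ⁻¹ * x j) y hno
  -- choose `γ` large
  obtain ⟨γ, hγ⟩ : ∃ γ : ℝ, 1 ≤ (1 + γ ^ 2) * c := by
    refine ⟨1 / c + 1, ?_⟩
    have : 0 < 1 / c := by positivity
    have h1 : 1 / c * c = 1 := by field_simp
    nlinarith
  obtain ⟨r, hr0, hr1, hry, hrγ⟩ := exists_scale y γ
  have hw : (Real.sqrt r) ^ 2 = r := Real.sq_sqrt hr0.le
  have hY : (Fin.cons (Real.sqrt r) (Fin.cons (r * γ) fun j => r * y j) :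
      Fin (m + 2) → ℝ) ∈ ocube (m + 2) := by
    intro j
    refine Fin.cases ?_ (fun j => ?_) j
    · rw [Fin.cons_zero, abs_of_nonneg (Real.sqrt_nonneg r)]
      rw [Real.sqrt_lt' one_pos, one_pow]; exact hr1
    · rw [Fin.cons_succ]
      refine Fin.cases ?_ (fun j => ?_) j
      · rw [Fin.cons_zero]; exact hrγ
      · rw [Fin.cons_succ]; exact hry j
  obtain ⟨U, hU, hPhi⟩ := h _ hY
  have e0 : (Fin.cons (Real.sqrt r) (Fin.cons (r * γ) fun j => r * y j) :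
      Fin (m + 2) → ℝ) 1 = r * γ := rfl
  have e3 : (fun j : Fin m => (Fin.cons (Real.sqrt r) (Fin.cons (r * γ) fun j => r * y j) :
      Fin (m + 2) → ℝ) j.succ.succ) = fun j => r * y j := rfl
  rw [e0, e3, Fin.cons_zero, hw] at hPhi
  have e2 : x = fun j => σ * (σ⁻¹ * x j) := by
    funext j
    rw [← mul_assoc, mul_inv_cancel₀ h0.ne', one_mul]
  rw [e2, Phi_scale, Phi_unscale] at hPhi
  have h4 : 0 < σ ^ 4 := by positivity
  have h6 := nonpos_of_mul_nonpos_right hPhi h4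
  have ht0 : 0 ≤ (U 0) ^ 2 := sq_nonneg _
  have ht1 : (U 0) ^ 2 ≤ 1 := by
    have := hU 0
    rw [← sq_abs]
    nlinarith [abs_nonneg (U 0)]
  have h7 := hc (fun j => U j.succ) (fun j => hU j.succ) ((U 0) ^ 2) ht0 ht1
  set A := qsum (pick loc (fun j => U 0 ^ 2 * (σ⁻¹ * x j)) (fun j => U 0 ^ 2 * y j)
    fun j => U j.succ) (U 0 ^ 2) S with hA
  have h8 : ((U 0) ^ 2) ^ (2 ^ kap l S.length) ≤ (1 + γ ^ 2) * A := by
    have h9 : (1 + γ ^ 2) * (c * ((U 0) ^ 2) ^ (2 ^ kap l S.length)) ≤ (1 + γ ^ 2) * A :=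
      mul_le_mul_of_nonneg_left h7 (by positivity)
    have h10 : 0 ≤ ((U 0) ^ 2) ^ (2 ^ kap l S.length) := by positivity
    nlinarith
  have h11 : 0 < σ * r ^ 2 ^ kap' m l S.length := by positivity
  have h12 : 0 < r ^ 6 := by positivity
  nlinarith

theorem sentC_of_goodC (c : Fin n₀ → ℝ) {σ : ℝ} (h0 : 0 < σ) (h : GoodC loc S c σ) :
    SentC loc S c := by
  obtain ⟨p, hp, h1⟩ := h
  refine ⟨fun j => σ⁻¹ * p j, fun y => ?_⟩
  have h2 := all_of_good S loc h0 (Fin.append (fun j => σ * c j) p)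
    (fun Y hY => h1 Y (ocube_subset _ hY)) y
  have h3 : (fun j => σ⁻¹ * Fin.append (fun j => σ * c j) p j) =
      Fin.append c fun j => σ⁻¹ * p j := by
    funext j
    refine Fin.addCases (fun j => ?_) (fun j => ?_) j
    · rw [Fin.append_left, Fin.append_left, ← mul_assoc, inv_mul_cancel₀ h0.ne', one_mul]
    · rw [Fin.append_right, Fin.append_right]
  rw [h3] at h2
  exact h2

theorem Phi_ν4 {n : ℕ} {R : Type} [CommRing R] (loc : ℕ → Fin n ⊕ (Fin m ⊕ Fin l)) (nr : RNorm R)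
    (σ r γ t tK rK : R) (x : Fin n → R)
    (y : Fin m → R) (z : Fin l → R) (A A' : ℕ) (hσ : nr.ν σ ≤ 2) (hr : nr.ν r ≤ 4)
    (hγ : nr.ν γ ≤ 2) (ht : nr.ν t ≤ 4) (htK : nr.ν tK ≤ A) (hrK : nr.ν rK ≤ A')
    (hx : ∀ j, nr.ν (x j) ≤ 4) (hy : ∀ j, nr.ν (y j) ≤ 2) (hz : ∀ j, nr.ν (z j) ≤ 2) :
    nr.ν (Phi loc S σ r γ t tK rK x y z) ≤ 3019898880 * S.length + 65536 * A + 32 * A' := by
  have hmul : ∀ (a b : R) (p q : ℕ), nr.ν a ≤ p → nr.ν b ≤ q → nr.ν (a * b) ≤ p * q :=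
    fun a b p q h1 h2 => (nr.mul _ _).trans (Nat.mul_le_mul h1 h2)
  have h1 : nr.ν (qsum (pick loc (fun j => r * t * x j) (fun j => σ * t * y j)
      (fun j => σ * r * z j)) (σ * r * t) S) ≤ 9 * 64 ^ 4 * S.length := by
    apply qsum_ν
    · apply pick_ν
      · intro j
        exact hmul _ _ _ _ (hmul _ _ _ _ hr ht) (hx j)
      · intro j
        exact (hmul _ _ _ _ (hmul _ _ _ _ hσ ht) (hy j)).trans (by norm_num)
      · intro j
        exact (hmul _ _ _ _ (hmul _ _ _ _ hσ hr) (hz j)).trans (by norm_num)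
    · exact (hmul _ _ _ _ (hmul _ _ _ _ hσ hr) ht).trans (by norm_num)
  have h2 : nr.ν (r ^ 2 + γ ^ 2) ≤ 20 :=
    (nr.add _ _).trans (Nat.add_le_add (ν_pow nr _ _ 2 hr) (ν_pow nr _ _ 2 hγ))
  have h3 : nr.ν (σ ^ 4 * r ^ 6 * tK) ≤ 2 ^ 4 * 4 ^ 6 * A :=
    hmul _ _ _ _ (hmul _ _ _ _ (ν_pow nr _ _ 4 hσ) (ν_pow nr _ _ 6 hr)) htK
  have h4 : nr.ν (σ ^ 5 * rK) ≤ 2 ^ 5 * A' := hmul _ _ _ _ (ν_pow nr _ _ 5 hσ) hrK
  have h5 := hmul _ _ _ _ h2 h1
  unfold Phi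
  calc _ ≤ (20 * (9 * 64 ^ 4 * S.length) + 2 ^ 4 * 4 ^ 6 * A) + 2 ^ 5 * A' :=
        (nr.add _ _).trans (Nat.add_le_add ((nr.sub _ _).trans (Nat.add_le_add h5 h3)) h4)
    _ = 3019898880 * S.length + 65536 * A + 32 * A' := by ring

theorem bound_C (s κ κ' : ℕ) :
    1 + (3019898880 * s + 65536 * 4 ^ 2 ^ κ + 32 * 4 ^ 2 ^ κ') ≤
      2 ^ 2 ^ (κ + κ' + s + 6) := by
  have h2 : ∀ k : ℕ, k + 1 ≤ 2 ^ k := fun k => Nat.lt_two_pow_self
  have hT : 2 ^ (κ + κ' + s + 6) = 64 * 2 ^ (κ + κ' + s) := by rw [pow_add]; ring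
  set T := 2 ^ (κ + κ' + s) with hTd
  have h1 : 1 ≤ T := Nat.one_le_two_pow
  have hκ : 2 ^ κ ≤ T := Nat.pow_le_pow_right (by norm_num) (by omega)
  have hκ' : 2 ^ κ' ≤ T := Nat.pow_le_pow_right (by norm_num) (by omega)
  have hs : s ≤ 2 ^ T := by
    have h3 : 2 ^ s ≤ T := Nat.pow_le_pow_right (by norm_num) (by omega)
    have := h2 s
    have := h2 T
    omega
  have e1 : (4 : ℕ) ^ 2 ^ κ ≤ 2 ^ (2 * T) := by
    rw [show (4 : ℕ) = 2 ^ 2 by norm_num, ← pow_mul]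
    exact Nat.pow_le_pow_right (by norm_num) (by omega)
  have e2 : (4 : ℕ) ^ 2 ^ κ' ≤ 2 ^ (2 * T) := by
    rw [show (4 : ℕ) = 2 ^ 2 by norm_num, ← pow_mul]
    exact Nat.pow_le_pow_right (by norm_num) (by omega)
  have e3 : 2 ^ T ≤ 2 ^ (2 * T) := Nat.pow_le_pow_right (by norm_num) (by omega)
  rw [hT]
  calc 1 + (3019898880 * s + 65536 * 4 ^ 2 ^ κ + 32 * 4 ^ 2 ^ κ')
      ≤ 2 ^ 34 * 2 ^ (2 * T) := by
        have : 1 ≤ 2 ^ (2 * T) := Nat.one_le_two_pow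
        omega
    _ = 2 ^ (34 + 2 * T) := (pow_add _ _ _).symm
    _ ≤ 2 ^ (64 * T) := Nat.pow_le_pow_right (by norm_num) (by omega)

/-- The exponent of the transfer theorem. -/
def kapC (n₁ m l s : ℕ) : ℕ := Gx n₁ (Gx (m + 2) (Gx (l + 1) (kap l s + kap' m l s + s + 6)))

theorem stepC' {K : Type} [CommRing K] [Nontrivial K] {T : Type} [TopologicalSpace T]
    (L : Lvl K T) (nr : RNorm K) (hpos : ∀ c : K, c ≠ 0 → 1 ≤ nr.ν c) (σ : K)
    (hσ : nr.ν σ ≤ 2) (γ : Fin n₀ → K) (hγ : ∀ j, nr.ν (γ j) ≤ 4) :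
    ∃ Q : Polynomial K, Q ≠ 0 ∧ nr.poly.ν Q ≤ 2 ^ 2 ^ kapC n₁ m l S.length ∧
      ∃ b : T → ℝ, Continuous b ∧ (∀ t, Q.eval₂ (L.φ t) (b t) = 0) ∧
        ∀ t, (∃ p ∈ cube n₁, ∀ Y ∈ cube (m + 2), ∃ U ∈ cube (l + 1),
          Phi loc S (L.φ t σ) ((Y 0) ^ 2) (Y 1) ((U 0) ^ 2) (((U 0) ^ 2) ^ (2 ^ kap l S.length))
            (((Y 0) ^ 2) ^ (2 ^ kap' m l S.length)) (Fin.append (fun j => L.φ t (γ j)) p)
            (fun j => Y j.succ.succ) (fun j => U j.succ) ≤ 0) ↔ b t ≤ 0 := by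
  obtain ⟨κ, hκ⟩ : ∃ κ, κ = kap l S.length := ⟨_, rfl⟩
  obtain ⟨κ', hκ'⟩ : ∃ κ', κ' = kap' m l S.length := ⟨_, rfl⟩
  obtain ⟨ξ, hξ⟩ : ∃ ξ : Fin (n₀ + n₁) → MvPolynomial (Fin (l + 1)) (MvPolynomial (Fin (m + 2))
      (MvPolynomial (Fin n₁) K)), ξ =
        Fin.append (fun j => MvPolynomial.C (MvPolynomial.C (MvPolynomial.C
          (γ j)))) (fun j => MvPolynomial.C (MvPolynomial.C
            (MvPolynomial.X j))) := ⟨_, rfl⟩
  obtain ⟨F, hFdef⟩ : ∃ F : MvPolynomial (Fin (l + 1)) (MvPolynomial (Fin (m + 2))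
      (MvPolynomial (Fin n₁) K)), F =
      Phi loc S (MvPolynomial.C (MvPolynomial.C (MvPolynomial.C σ)))
        ((MvPolynomial.C (MvPolynomial.X 0)) ^ 2)
        (MvPolynomial.C (MvPolynomial.X 1)) ((MvPolynomial.X 0) ^ 2)
        (((MvPolynomial.X 0) ^ 2) ^ (2 ^ κ)) (((MvPolynomial.C (MvPolynomial.X 0)) ^ 2) ^ (2 ^ κ'))
        ξ
        (fun j => MvPolynomial.C (MvPolynomial.X j.succ.succ)) (fun j => MvPolynomial.X j.succ) :=
    ⟨_, rfl⟩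
  have hF : ∀ s, (((L.ext n₁).ext (m + 2)).ext (l + 1)).φ s F =
      Phi loc S (L.φ s.1.1.1 σ) ((s.1.2 0) ^ 2) (s.1.2 1) ((s.2 0) ^ 2)
        (((s.2 0) ^ 2) ^ (2 ^ κ)) (((s.1.2 0) ^ 2) ^ (2 ^ κ'))
        (Fin.append (fun j => L.φ s.1.1.1 (γ j)) s.1.1.2)
        (fun j => s.1.2 j.succ.succ) (fun j => s.2 j.succ) := by
    intro s
    rw [hFdef, Phi_map]
    simp only [ext_φ_C, ext_φ_X, map_pow]
    have e1 : (fun j => (((L.ext n₁).ext (m + 2)).ext (l + 1)).φ s (ξ j)) =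
        Fin.append (fun j => L.φ s.1.1.1 (γ j)) s.1.1.2 := by
      rw [hξ]
      funext j
      refine Fin.addCases (fun j => ?_) (fun j => ?_) j
      · rw [Fin.append_left, Fin.append_left]
        simp only [ext_φ_C]
      · rw [Fin.append_right, Fin.append_right]
        simp only [ext_φ_C, ext_φ_X]
    rw [e1]
  have hFν : (wm (wm (wm nr n₁) (m + 2)) (l + 1)).ν F ≤
      3019898880 * S.length + 65536 * 4 ^ 2 ^ κ + 32 * 4 ^ 2 ^ κ' := by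
    rw [hFdef]
    have hX2 : (wm (wm (wm nr n₁) (m + 2)) (l + 1)).ν
        ((MvPolynomial.X 0) ^ 2) ≤ 4 := ν_pow _ _ 2 2 (wm_X _ _)
    have hr2 : (wm (wm (wm nr n₁) (m + 2)) (l + 1)).ν
        ((MvPolynomial.C (MvPolynomial.X 0)) ^ 2) ≤ 4 :=
      ν_pow _ _ 2 2 (by rw [wm_C]; exact wm_X _ _)
    apply Phi_ν4
    · rw [wm_C, wm_C, wm_C]; exact hσ
    · exact hr2
    · rw [wm_C]; exact wm_X _ _
    · exact hX2
    · exact ν_pow _ _ _ _ hX2
    · exact ν_pow _ _ _ _ hr2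
    · intro j
      rw [hξ]
      refine Fin.addCases (fun j => ?_) (fun j => ?_) j
      · rw [Fin.append_left, wm_C, wm_C, wm_C]
        exact hγ j
      · rw [Fin.append_right, wm_C, wm_C]
        exact (wm_X _ _).trans (by norm_num)
    · intro j
      rw [wm_C]; exact wm_X _ _
    · intro j
      exact wm_X _ _
  obtain ⟨Q, hQ0, hQν, b, hb, hQ, hiff⟩ := minmaxmin L nr hpos F (a := κ + κ' + S.length + 6) (by
      have := bound_C S.length κ κ'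
      omega)
  refine ⟨Q, hQ0, ?_, b, hb, hQ, fun t => ?_⟩
  · unfold kapC
    rw [← hκ, ← hκ']
    exact hQν
  · rw [← hiff]
    simp only [hF]
    rw [← hκ, ← hκ']

theorem stepC : ∃ Q : Polynomial (MvPolynomial (Fin (n₀ + 1)) ℤ), Q ≠ 0 ∧
    (wm RNorm.int (n₀ + 1)).poly.ν Q ≤ 2 ^ 2 ^ kapC n₁ m l S.length ∧
      ∃ b : Unit × (Fin (n₀ + 1) → ℝ) → ℝ, Continuous b ∧
        (∀ t, Q.eval₂ ((Lvl.int.ext (n₀ + 1)).φ t) (b t) = 0) ∧
        ∀ t, GoodC loc S (fun j : Fin n₀ => t.2 j.succ) (t.2 0) ↔ b t ≤ 0 := by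
  obtain ⟨Q, hQ0, hQν, b, hb, hQ, hiff⟩ := stepC' loc S (Lvl.int.ext (n₀ + 1))
    (wm RNorm.int (n₀ + 1)) (wm_pos RNorm.int int_pos) (MvPolynomial.X 0) (wm_X _ _)
    (fun j => MvPolynomial.X 0 * MvPolynomial.X j.succ)
    (fun j => (RNorm.mul _ _ _).trans ((Nat.mul_le_mul (wm_X _ _) (wm_X _ _)).trans (by norm_num)))
  refine ⟨Q, hQ0, hQν, b, hb, hQ, fun t => ?_⟩
  rw [← hiff]
  unfold GoodC
  simp only [map_mul, ext_φ_X]

/-- The lowest coefficient. -/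
theorem lowest (c : MvPolynomial (Fin (n₀ + 1)) ℤ) (hc : c ≠ 0) (D : ℕ)
    (hD : (wm RNorm.int (n₀ + 1)).ν c ≤ 2 ^ D) :
    ∃ R : MvPolynomial (Fin n₀) ℝ, R ≠ 0 ∧ R.totalDegree ≤ D ∧ ∀ c₀ : Fin n₀ → ℝ,
      MvPolynomial.eval c₀ R ≠ 0 → ∃ ε : ℝ, 0 < ε ∧ ∀ (c₁ : Fin n₀ → ℝ) (σ : ℝ),
        (∀ j, |c₁ j - c₀ j| < ε) → 0 < σ → σ < ε →
          (Lvl.int.ext (n₀ + 1)).φ ((), Fin.cons σ c₁) c ≠ 0 := by
  obtain ⟨cr, hcr⟩ : ∃ cr : MvPolynomial (Fin (n₀ + 1)) ℝ,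
    cr = MvPolynomial.map (Int.castRingHom ℝ) c := ⟨_, rfl⟩
  have hcr0 : cr ≠ 0 := by
    rw [hcr]
    intro h
    apply hc
    refine MvPolynomial.map_injective _ (RingHom.injective_int (Int.castRingHom ℝ)) ?_
    rw [h, map_zero]
  have hdeg : cr.totalDegree ≤ D := by
    refine totalDegree_of_degLE fun γ hγ => ?_
    have h1 : γ ∈ c.support := by
      rw [hcr] at hγ
      exact MvPolynomial.support_map_subset _ _ hγ
    have h2 := two_pow_le_wν RNorm.int int_pos h1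
    exact (Nat.pow_le_pow_iff_right (by norm_num : 1 < 2)).1 (h2.trans hD)
  have hev : ∀ (σ : ℝ) (c₁ : Fin n₀ → ℝ),
      (Lvl.int.ext (n₀ + 1)).φ ((), Fin.cons σ c₁) c = MvPolynomial.eval (Fin.cons σ c₁) cr := by
    intro σ c₁
    rw [hcr, MvPolynomial.eval_map]
    rfl
  set f := MvPolynomial.finSuccEquiv ℝ n₀ cr with hf
  have hf0 : f ≠ 0 := by
    rw [hf]
    exact (EmbeddingLike.map_ne_zero_iff).2 hcr0
  obtain ⟨k, g, hg, hg0, hgk⟩ := exists_trailing f hf0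
  refine ⟨g.coeff 0, hg0, ?_, fun c₀ h0 => ?_⟩
  · rw [hgk]
    have h1 := MvPolynomial.totalDegree_coeff_finSuccEquiv_add_le cr k (by
      rw [← hf, ← hgk]; exact hg0)
    rw [← hf] at h1
    omega
  · have hG : Continuous fun q : (Fin n₀ → ℝ) × ℝ =>
        Polynomial.eval q.2 (Polynomial.map (MvPolynomial.eval q.1) g) := by
      simp_rw [Polynomial.eval_map, Polynomial.eval₂_eq_sum, Polynomial.sum_def]
      refine continuous_finsetSum _ fun j _ => ?_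
      refine Continuous.mul ?_ (continuous_snd.pow j)
      exact (MvPolynomial.continuous_eval _).comp continuous_fst
    have h1 : Polynomial.eval (0 : ℝ) (Polynomial.map (MvPolynomial.eval c₀) g) ≠ 0 := by
      rw [← Polynomial.coeff_zero_eq_eval_zero, Polynomial.coeff_map]
      exact h0
    have h2 : ∀ᶠ q : (Fin n₀ → ℝ) × ℝ in 𝓝 (c₀, 0),
        Polynomial.eval q.2 (Polynomial.map (MvPolynomial.eval q.1) g) ≠ 0 :=
      (hG.tendsto (c₀, 0)).eventually_ne h1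
    obtain ⟨ε, hε, hε2⟩ := Metric.eventually_nhds_iff.1 h2
    refine ⟨ε, hε, fun c₁ σ hc₁ hσ0 hσ => ?_⟩
    rw [hev, MvPolynomial.eval_eq_eval_mv_eval', ← hf, hg, Polynomial.map_mul, Polynomial.map_pow,
      Polynomial.map_X, Polynomial.eval_mul, Polynomial.eval_pow, Polynomial.eval_X]
    refine mul_ne_zero (pow_ne_zero _ hσ0.ne') (hε2 (y := (c₁, σ)) ?_)
    rw [Prod.dist_eq, max_lt_iff]
    constructor
    · rw [dist_pi_lt_iff hε]
      intro j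
      rw [Real.dist_eq]
      exact hc₁ j
    · rw [Real.dist_eq, sub_zero, abs_of_pos hσ0]
      exact hσ

/-- **Transfer.** If the sentence is true for the parameters of a dense set, then it is true for
all the parameters outside the zero set of a nonzero polynomial of bounded degree. -/
theorem transfer (hd : ∀ U : Set (Fin n₀ → ℝ), IsOpen U → (U ∩ ocube n₀).Nonempty →
      ∃ c ∈ U, SentC loc S c) :
    ∃ R : MvPolynomial (Fin n₀) ℝ, R ≠ 0 ∧ R.totalDegree ≤ 2 ^ kapC n₁ m l S.length ∧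
      ∀ c ∈ ocube n₀, MvPolynomial.eval c R ≠ 0 → SentC loc S c := by
  obtain ⟨Q, hQ0, hQν, b, hb, hQ, hiff⟩ := stepC loc S (n₀ := n₀) (n₁ := n₁)
  obtain ⟨q, hq0, hqν, hq⟩ := sign_const (Lvl.int.ext (n₀ + 1)) (wm RNorm.int (n₀ + 1)) Q hQ0 b hb
    hQ
  obtain ⟨R, hR0, hRd, hR⟩ := lowest q hq0 _ (hqν.trans hQν)
  refine ⟨R, hR0, hRd, fun c hc hcR => ?_⟩
  obtain ⟨ε, hε, hne⟩ := hR c hcR
  -- the good set
  obtain ⟨c₁, hc₁, hs⟩ := hd {c' | ∀ j, |c' j - c j| < ε} (by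
      have : {c' : Fin n₀ → ℝ | ∀ j, |c' j - c j| < ε} =
          ⋂ j, {c' : Fin n₀ → ℝ | |c' j - c j| < ε} := by
        ext c'; simp
      rw [this]
      exact isOpen_iInter_of_finite fun j => isOpen_lt (by fun_prop) continuous_const)
    ⟨c, fun j => by simpa using hε, hc⟩
  obtain ⟨σ₀, hσ₀, hgood⟩ := goodC_of_sentC loc S c₁ hs
  have hconv : Convex ℝ {v : Fin (n₀ + 1) → ℝ | 0 < v 0 ∧ v 0 < ε ∧
      ∀ j : Fin n₀, |v j.succ - c j| < ε} := by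
    intro u hu v hv a b' ha hb' hab
    obtain ⟨u1, u2, u3⟩ := hu
    obtain ⟨v1, v2, v3⟩ := hv
    have key : ∀ p q r : ℝ, 0 < p → 0 < q → 0 < a * p + b' * q := by
      intro p q _ hp hq
      rcases eq_or_lt_of_le ha with h | h
      · have : b' = 1 := by linarith
        rw [← h, this]; linarith
      · have := mul_pos h hp
        have := mul_nonneg hb' hq.le
        linarith
    refine ⟨?_, ?_, fun j => ?_⟩
    · simp only [Pi.add_apply, Pi.smul_apply, smul_eq_mul]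
      exact key _ _ 0 u1 v1
    · simp only [Pi.add_apply, Pi.smul_apply, smul_eq_mul]
      have := key (ε - u 0) (ε - v 0) 0 (by linarith) (by linarith)
      have e : ε = a * ε + b' * ε := by rw [← add_mul, hab, one_mul]
      linarith
    · simp only [Pi.add_apply, Pi.smul_apply, smul_eq_mul]
      have e1 := abs_lt.1 (u3 j)
      have e2 := abs_lt.1 (v3 j)
      have e : ε = a * ε + b' * ε := by rw [← add_mul, hab, one_mul]
      have e' : c j = a * c j + b' * c j := by rw [← add_mul, hab, one_mul]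
      rw [abs_lt]
      constructor
      · have := key (u j.succ - c j + ε) (v j.succ - c j + ε) 0 (by linarith) (by linarith)
        linarith
      · have := key (ε - (u j.succ - c j)) (ε - (v j.succ - c j)) 0 (by linarith) (by linarith)
        linarith
  have hpc := hconv.isPreconnected.image (fun v => (((), v) : Unit × (Fin (n₀ + 1) → ℝ)))
    (Continuous.continuousOn (by fun_prop))
  have key := hq _ hpc (by
    rintro _ ⟨v, ⟨v1, v2, v3⟩, rfl⟩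
    have h1 := hne (fun j => v j.succ) (v 0) v3 v1 v2
    have h2 : (Fin.cons (v 0) fun j : Fin n₀ => v j.succ : Fin (n₀ + 1) → ℝ) = v := by
      funext j
      refine Fin.cases ?_ (fun j => ?_) j <;> simp
    rw [h2] at h1
    exact h1)
  have hσm : 0 < min σ₀ (ε / 2) := lt_min hσ₀ (by linarith)
  have hσε : min σ₀ (ε / 2) < ε := (min_le_right _ _).trans_lt (by linarith)
  have hmem : ∀ c' : Fin n₀ → ℝ, (∀ j, |c' j - c j| < ε) →
      (((), Fin.cons (min σ₀ (ε / 2)) c') : Unit × (Fin (n₀ + 1) → ℝ)) ∈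
        (fun v => (((), v) : Unit × (Fin (n₀ + 1) → ℝ))) '' {v : Fin (n₀ + 1) → ℝ | 0 < v 0 ∧
          v 0 < ε ∧ ∀ j : Fin n₀, |v j.succ - c j| < ε} := by
    intro c' hc'
    refine ⟨_, ⟨?_, ?_, fun j => ?_⟩, rfl⟩
    · rw [Fin.cons_zero]; exact hσm
    · rw [Fin.cons_zero]; exact hσε
    · rw [Fin.cons_succ]; exact hc' j
  have hb1 : b ((), Fin.cons (min σ₀ (ε / 2)) c₁) ≤ 0 := by
    rw [← hiff]
    simp only [Fin.cons_zero, Fin.cons_succ]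
    exact hgood _ hσm (min_le_left _ _)
  have hb2 : b ((), Fin.cons (min σ₀ (ε / 2)) c) ≤ 0 := by
    have m1 := hmem c₁ hc₁
    have m2 := hmem c (fun j => by simpa using hε)
    rcases key with hk | hk | hk
    · exact (hk _ m2).le
    · exact (hk _ m2).le
    · exact absurd (hk _ m1) (not_lt.2 hb1)
  rw [← hiff] at hb2
  simp only [Fin.cons_zero, Fin.cons_succ] at hb2
  exact sentC_of_goodC loc S c hσm hb2

end

end Pool.Agent.K9h83.IP
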